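import Mathlib

/-!
Integral inequalities: an Abel type inequality, an association inequality, and the
Cauchy-Schwarz inequality with its equality case.
-/

set_option autoImplicit false

namespace Pool.Agent.Lib.QBias

open MeasureTheory Set Filter Topology

lemma setIntegral_lower_nonneg {α β : ℝ} {h : ℝ → ℝ} {S : Set ℝ} (hS : S ⊆ Ioo α β)
    (hlow : ∀ u ∈ S, ∀ v ∈ Ioo α β, v ≤ u → v ∈ S)
    (hpre : ∀ u ∈ Ioc α β, 0 ≤ ∫ v in Ioo α u, h v) : 0 ≤ ∫ v in S, h v := by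
  rcases S.eq_empty_or_nonempty with h0 | ⟨u0, hu0⟩
  · rw [h0]; simp
  have hbdd : BddAbove S := ⟨β, fun x hx => (hS hx).2.le⟩
  set v0 := sSup S with hv0
  have h1 : α < v0 := lt_of_lt_of_le (hS hu0).1 (le_csSup hbdd hu0)
  have h2 : v0 ≤ β := csSup_le ⟨u0, hu0⟩ fun x hx => (hS hx).2.le
  have h3 : Ioo α v0 ⊆ S := by
    intro x hx
    obtain ⟨y, hy, hxy⟩ := exists_lt_of_lt_csSup ⟨u0, hu0⟩ hx.2
    exact hlow y hy x ⟨hx.1, lt_of_lt_of_le hx.2 h2⟩ hxy.le
  have h4 : S ⊆ Ioc α v0 := fun x hx => ⟨(hS hx).1, le_csSup hbdd hx⟩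
  have h5 : S =ᵐ[volume] Ioo α v0 := by
    refine Filter.EventuallyLE.antisymm ?_ h3.eventuallyLE
    exact (h4.eventuallyLE).trans (Ioo_ae_eq_Ioc.symm.le)
  rw [setIntegral_congr_set h5]
  exact hpre v0 ⟨h1, h2⟩

/-- Abel's inequality: nonnegative nonincreasing `g`, prefix integrals of `h` nonnegative. -/
lemma abel_nonneg {α β : ℝ} {g h : ℝ → ℝ} (hg : AntitoneOn g (Ioo α β))
    (hg0 : ∀ u ∈ Ioo α β, 0 ≤ g u) (hh : IntegrableOn h (Ioo α β))
    (hgh : IntegrableOn (fun u => g u * h u) (Ioo α β))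
    (hpre : ∀ u ∈ Ioc α β, 0 ≤ ∫ v in Ioo α u, h v) : 0 ≤ ∫ u in Ioo α β, g u * h u := by
  classical
  -- the sets
  let S : ℕ → ℕ → Set ℝ := fun N k => {u | u ∈ Ioo α β ∧ (k : ℝ) ≤ N * g u}
  have hSsub : ∀ N k, S N k ⊆ Ioo α β := fun N k u hu => hu.1
  have hSlow : ∀ N k, ∀ u ∈ S N k, ∀ v ∈ Ioo α β, v ≤ u → v ∈ S N k := by
    intro N k u hu v hv hvu
    refine ⟨hv, hu.2.trans ?_⟩
    exact mul_le_mul_of_nonneg_left (hg hv hu.1 hvu) (Nat.cast_nonneg N)
  have hSmeas : ∀ N k, NullMeasurableSet (S N k) volume := by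
    intro N k
    have : OrdConnected (S N k) := by
      refine ⟨fun x hx y hy z hz => ?_⟩
      exact hSlow N k y hy z ⟨lt_of_lt_of_le hx.1.1 hz.1, lt_of_le_of_lt hz.2 hy.1.2⟩ hz.2
    exact this.measurableSet.nullMeasurableSet
  have hSmeas' : ∀ N k, MeasurableSet (S N k) := by
    intro N k
    have : OrdConnected (S N k) := by
      refine ⟨fun x hx y hy z hz => ?_⟩
      exact hSlow N k y hy z ⟨lt_of_lt_of_le hx.1.1 hz.1, lt_of_le_of_lt hz.2 hy.1.2⟩ hz.2
    exact this.measurableSet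
  let G : ℕ → ℝ → ℝ := fun N u => (∑ k ∈ Finset.Icc 1 (N * N), (S N k).indicator (fun _ => (1 : ℝ)) u) / N
  -- value of the sum
  have hcount : ∀ N : ℕ, ∀ u ∈ Ioo α β, (∑ k ∈ Finset.Icc 1 (N * N), (S N k).indicator (fun _ => (1 : ℝ)) u)
      = (min ⌊(N : ℝ) * g u⌋₊ (N * N) : ℕ) := by
    intro N u hu
    have h1 : ∀ k ∈ Finset.Icc 1 (N * N), (S N k).indicator (fun _ => (1 : ℝ)) u =
        if k ≤ ⌊(N : ℝ) * g u⌋₊ then 1 else 0 := by
      intro k _
      rw [Set.indicator_apply]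
      have : u ∈ S N k ↔ k ≤ ⌊(N : ℝ) * g u⌋₊ := by
        rw [Nat.le_floor_iff (mul_nonneg (Nat.cast_nonneg N) (hg0 u hu))]
        exact ⟨fun h => h.2, fun h => ⟨hu, h⟩⟩
      simp only [this]
    rw [Finset.sum_congr rfl h1, Finset.sum_ite, Finset.sum_const_zero, add_zero,
      Finset.sum_const, nsmul_eq_mul, mul_one]
    congr 1
    have : Finset.filter (fun k => k ≤ ⌊(N : ℝ) * g u⌋₊) (Finset.Icc 1 (N * N)) =
        Finset.Icc 1 (min ⌊(N : ℝ) * g u⌋₊ (N * N)) := by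
      ext k
      simp only [Finset.mem_filter, Finset.mem_Icc, le_min_iff]
      tauto
    rw [this, Nat.card_Icc]
    omega
  have hG0 : ∀ N u, 0 ≤ G N u := by
    intro N u
    refine div_nonneg (Finset.sum_nonneg fun k _ => ?_) (Nat.cast_nonneg N)
    exact Set.indicator_nonneg (fun _ _ => zero_le_one) _
  have hGle : ∀ N : ℕ, ∀ u ∈ Ioo α β, G N u ≤ g u := by
    intro N u hu
    show (∑ k ∈ Finset.Icc 1 (N * N), (S N k).indicator (fun _ => (1 : ℝ)) u) / N ≤ g u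
    rw [hcount N u hu]
    rcases Nat.eq_zero_or_pos N with h0 | h0
    · subst h0; simpa using hg0 u hu
    · have hN : (0 : ℝ) < N := by exact_mod_cast h0
      rw [div_le_iff₀ hN]
      have h1 : ((min ⌊(N : ℝ) * g u⌋₊ (N * N) : ℕ) : ℝ) ≤ (⌊(N : ℝ) * g u⌋₊ : ℝ) := by
        exact_mod_cast min_le_left _ _
      have h2 := Nat.floor_le (mul_nonneg (Nat.cast_nonneg N) (hg0 u hu))
      linarith
  have hGlim : ∀ u ∈ Ioo α β, Tendsto (fun N => G N u) atTop (𝓝 (g u)) := by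
    intro u hu
    have h1 : Tendsto (fun N : ℕ => (⌊g u * (N : ℝ)⌋₊ : ℝ) / (N : ℝ)) atTop (𝓝 (g u)) :=
      (tendsto_nat_floor_mul_div_atTop (hg0 u hu)).comp tendsto_natCast_atTop_atTop
    refine h1.congr' ?_
    filter_upwards [eventually_ge_atTop ⌈g u⌉₊] with N hN
    show _ = (∑ k ∈ Finset.Icc 1 (N * N), (S N k).indicator (fun _ => (1 : ℝ)) u) / N
    rw [hcount N u hu]
    have h2 : ⌊(N : ℝ) * g u⌋₊ ≤ N * N := by
      refine Nat.floor_le_of_le ?_
      push_cast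
      exact mul_le_mul_of_nonneg_left ((Nat.le_ceil _).trans (by exact_mod_cast hN)) (Nat.cast_nonneg N)
    rw [min_eq_left h2, mul_comm (g u)]
  -- limit of integrals
  have hlim : Tendsto (fun N => ∫ u in Ioo α β, G N u * h u) atTop (𝓝 (∫ u in Ioo α β, g u * h u)) := by
    refine tendsto_integral_of_dominated_convergence (fun u => ‖g u * h u‖) ?_ hgh.norm ?_ ?_
    · intro N
      refine AEStronglyMeasurable.mul ?_ hh.aestronglyMeasurable
      refine Measurable.aestronglyMeasurable ?_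
      refine Measurable.div_const ?_ _
      refine Finset.measurable_fun_sum _ fun k _ => ?_
      exact measurable_const.indicator (hSmeas' N k)
    · intro N
      refine (ae_restrict_iff' measurableSet_Ioo).2 (Eventually.of_forall fun u hu => ?_)
      rw [norm_mul, norm_mul, Real.norm_of_nonneg (hG0 N u), Real.norm_of_nonneg (hg0 u hu)]
      exact mul_le_mul_of_nonneg_right (hGle N u hu) (norm_nonneg _)
    · refine (ae_restrict_iff' measurableSet_Ioo).2 (Eventually.of_forall fun u hu => ?_)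
      exact (hGlim u hu).mul_const _
  refine ge_of_tendsto' hlim fun N => ?_
  have h1 : ∀ u, G N u * h u = (∑ k ∈ Finset.Icc 1 (N * N), (S N k).indicator h u) / N := by
    intro u
    show (∑ k ∈ Finset.Icc 1 (N * N), (S N k).indicator (fun _ => (1 : ℝ)) u) / N * h u = _
    rw [div_mul_eq_mul_div, Finset.sum_mul]
    congr 1
    refine Finset.sum_congr rfl fun k _ => ?_
    simp only [Set.indicator_apply]
    split_ifs <;> simp
  simp only [h1]
  rw [integral_div, integral_finsetSum]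
  · refine div_nonneg (Finset.sum_nonneg fun k _ => ?_) (Nat.cast_nonneg N)
    rw [integral_indicator (hSmeas' N k), Measure.restrict_restrict (hSmeas' N k),
      Set.inter_eq_left.2 (hSsub N k)]
    exact setIntegral_lower_nonneg (hSsub N k) (hSlow N k) hpre
  · intro k _
    exact hh.indicator (hSmeas' N k)

/-- Association: monotone `g`, monotone `h` with mean zero. -/
lemma cheb_nonneg {α β : ℝ} {g h : ℝ → ℝ} (hg : MonotoneOn g (Ioo α β))
    (hh : MonotoneOn h (Ioo α β)) (hhi : IntegrableOn h (Ioo α β))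
    (hgh : IntegrableOn (fun u => g u * h u) (Ioo α β))
    (h0 : ∫ v in Ioo α β, h v = 0) : 0 ≤ ∫ u in Ioo α β, g u * h u := by
  rcases le_or_gt β α with hab | hab
  · rw [Set.Ioo_eq_empty (not_lt.2 hab)]; simp
  let S : Set ℝ := {u | u ∈ Ioo α β ∧ h u < 0}
  have hbdd : BddAbove S := ⟨β, fun x hx => hx.1.2.le⟩
  -- a splitting point
  have key : ∀ c : ℝ, (∀ᵐ u ∂(volume.restrict (Ioo α β)), 0 ≤ (g u - c) * h u) →
      0 ≤ ∫ u in Ioo α β, g u * h u := by
    intro c hc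
    have h1 : 0 ≤ ∫ u in Ioo α β, (g u - c) * h u := integral_nonneg_of_ae hc
    have h2 : ∫ u in Ioo α β, (g u - c) * h u = (∫ u in Ioo α β, g u * h u) - c * ∫ u in Ioo α β, h u := by
      rw [← integral_const_mul, ← integral_sub hgh (hhi.const_mul c)]
      refine integral_congr_ae (Eventually.of_forall fun u => ?_)
      ring
    rw [h2, h0] at h1
    linarith
  rcases S.eq_empty_or_nonempty with hS | hS
  · -- h ≥ 0 so h = 0 a.e.
    have h1 : ∀ᵐ u ∂(volume.restrict (Ioo α β)), 0 ≤ h u := by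
      refine (ae_restrict_iff' measurableSet_Ioo).2 (Eventually.of_forall fun u hu => ?_)
      by_contra hcon
      push Not at hcon
      have : u ∈ S := ⟨hu, hcon⟩
      rw [hS] at this
      exact this
    have h2 : h =ᵐ[volume.restrict (Ioo α β)] 0 := (integral_eq_zero_iff_of_nonneg_ae h1 hhi).1 h0
    refine key 0 ?_
    filter_upwards [h2] with u hu
    rw [hu]; simp
  · set v := sSup S with hv
    have hv1 : α < v := by
      obtain ⟨u, hu⟩ := hS
      exact lt_of_lt_of_le hu.1.1 (le_csSup hbdd hu)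
    have hv2 : v ≤ β := csSup_le hS fun x hx => hx.1.2.le
    have hneg : ∀ u ∈ Ioo α β, u < v → h u < 0 := by
      intro u hu huv
      obtain ⟨y, hy, huy⟩ := exists_lt_of_lt_csSup hS huv
      exact lt_of_le_of_lt (hh hu hy.1 huy.le) hy.2
    have hpos : ∀ u ∈ Ioo α β, v < u → 0 ≤ h u := by
      intro u hu huv
      by_contra hcon
      push Not at hcon
      exact absurd (le_csSup hbdd (show u ∈ S from ⟨hu, hcon⟩)) (not_le.2 huv)
    rcases lt_or_eq_of_le hv2 with hv3 | hv3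
    · refine key (g v) ?_
      have hvm : v ∈ Ioo α β := ⟨hv1, hv3⟩
      have hne : ∀ᵐ u ∂(volume.restrict (Ioo α β)), u ≠ v := by
        refine ae_restrict_of_ae ?_
        have : (volume : Measure ℝ) {v} = 0 := Real.volume_singleton
        exact (compl_mem_ae_iff.2 this : {v}ᶜ ∈ ae volume)
      filter_upwards [hne, (ae_restrict_iff' measurableSet_Ioo).2 (Eventually.of_forall fun u hu => hu)] with u hu1 hu2
      rcases lt_or_gt_of_ne hu1 with h3 | h3
      · exact mul_nonneg_of_nonpos_of_nonpos (sub_nonpos.2 (hg hu2 hvm h3.le)) (hneg u hu2 h3).le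
      · exact mul_nonneg (sub_nonneg.2 (hg hvm hu2 h3.le)) (hpos u hu2 h3)
    · -- h < 0 everywhere: impossible
      exfalso
      have h1 : ∀ u ∈ Ioo α β, h u < 0 := fun u hu => hneg u hu (by rw [hv3]; exact hu.2)
      have h2 : ∫ u in Ioo α β, -h u = 0 := by rw [integral_neg, h0, neg_zero]
      have h3 : (fun u => -h u) =ᵐ[volume.restrict (Ioo α β)] 0 := by
        refine (integral_eq_zero_iff_of_nonneg_ae ?_ hhi.neg).1 h2
        refine (ae_restrict_iff' measurableSet_Ioo).2 (Eventually.of_forall fun u hu => ?_)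
        exact neg_nonneg.2 (h1 u hu).le
      have h4 : ∀ᵐ u ∂(volume.restrict (Ioo α β)), False := by
        filter_upwards [h3, (ae_restrict_iff' measurableSet_Ioo).2 (Eventually.of_forall fun u hu => hu)] with u hu1 hu2
        have := h1 u hu2
        have h5 : -h u = 0 := hu1
        linarith
      rw [eventually_false_iff_eq_bot, ae_eq_bot, Measure.restrict_eq_zero, Real.volume_Ioo] at h4
      simp at h4
      linarith

lemma cheb_nonpos {α β : ℝ} {g h : ℝ → ℝ} (hg : AntitoneOn g (Ioo α β))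
    (hh : MonotoneOn h (Ioo α β)) (hhi : IntegrableOn h (Ioo α β))
    (hgh : IntegrableOn (fun u => g u * h u) (Ioo α β))
    (h0 : ∫ v in Ioo α β, h v = 0) : ∫ u in Ioo α β, g u * h u ≤ 0 := by
  have h1 : 0 ≤ ∫ u in Ioo α β, (-g u) * h u := by
    refine cheb_nonneg (g := fun u => -g u) hg.neg hh hhi ?_ h0
    simpa [neg_mul] using hgh.neg
  have h2 : ∫ u in Ioo α β, (-g u) * h u = - ∫ u in Ioo α β, g u * h u := by
    rw [← integral_neg]
    refine integral_congr_ae (Eventually.of_forall fun u => ?_)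
    simp
  linarith

section CS

variable {μ : Measure ℝ} [IsProbabilityMeasure μ] {Q h : ℝ → ℝ}

lemma integral_mul_centered (hQ : MemLp Q 2 μ) (hh : MemLp h 2 μ) (h0 : ∫ u, h u ∂μ = 0) :
    ∫ u, (Q u - ∫ v, Q v ∂μ) * h u ∂μ = ∫ u, Q u * h u ∂μ := by
  have hi : Integrable (fun u => Q u * h u) μ := hQ.integrable_mul hh
  have hi2 : Integrable h μ := hh.integrable (by norm_num)
  have : ∀ u, (Q u - ∫ v, Q v ∂μ) * h u = Q u * h u - (∫ v, Q v ∂μ) * h u := fun u => by ring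
  simp only [this]
  rw [integral_sub hi (hi2.const_mul _), integral_const_mul, h0]
  ring

/-- The defect identity in Cauchy-Schwarz. -/
lemma cs_identity (hQ : MemLp Q 2 μ) (hh : MemLp h 2 μ) (h0 : ∫ u, h u ∂μ = 0) (c : ℝ) :
    ∫ u, (Q u - (∫ v, Q v ∂μ) - c * h u) ^ 2 ∂μ =
      (∫ u, (Q u - ∫ v, Q v ∂μ) ^ 2 ∂μ) - 2 * c * (∫ u, Q u * h u ∂μ) + c ^ 2 * ∫ u, h u ^ 2 ∂μ := by
  set m := ∫ v, Q v ∂μ with hm
  have hQm : MemLp (fun u => Q u - m) 2 μ := hQ.sub (memLp_const m)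
  have i1 : Integrable (fun u => (Q u - m) ^ 2) μ := hQm.integrable_sq
  have i2 : Integrable (fun u => (Q u - m) * h u) μ := hQm.integrable_mul hh
  have i3 : Integrable (fun u => h u ^ 2) μ := hh.integrable_sq
  have e : ∀ u, (Q u - m - c * h u) ^ 2 = (Q u - m) ^ 2 - 2 * c * ((Q u - m) * h u) + c ^ 2 * h u ^ 2 :=
    fun u => by ring
  simp only [e]
  have j1 : Integrable (fun u => (Q u - m) ^ 2 - 2 * c * ((Q u - m) * h u)) μ :=
    i1.sub (i2.const_mul _)
  rw [integral_add j1 (i3.const_mul _), integral_sub i1 (i2.const_mul _),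
    integral_const_mul, integral_const_mul, integral_mul_centered hQ hh h0]

lemma cs_sq_bound (hQ : MemLp Q 2 μ) (hh : MemLp h 2 μ) (h0 : ∫ u, h u ∂μ = 0) :
    (∫ u, Q u * h u ∂μ) ^ 2 ≤ (∫ u, (Q u - ∫ v, Q v ∂μ) ^ 2 ∂μ) * ∫ u, h u ^ 2 ∂μ := by
  set V := ∫ u, (Q u - ∫ v, Q v ∂μ) ^ 2 ∂μ with hV
  set H := ∫ u, h u ^ 2 ∂μ with hH
  set C := ∫ u, Q u * h u ∂μ with hC
  have hV0 : 0 ≤ V := integral_nonneg fun u => sq_nonneg _
  have hH0 : 0 ≤ H := integral_nonneg fun u => sq_nonneg _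
  have key : ∀ c : ℝ, 0 ≤ V - 2 * c * C + c ^ 2 * H := by
    intro c
    rw [hV, hC, hH, ← cs_identity hQ hh h0 c]
    exact integral_nonneg fun u => sq_nonneg _
  rcases eq_or_lt_of_le hH0 with h1 | h1
  · -- H = 0 forces C = 0
    have : C = 0 := by
      by_contra hC0
      have h2 := key ((V + 1) / (2 * C))
      rw [← h1] at h2
      have h3 : 2 * ((V + 1) / (2 * C)) * C = V + 1 := by field_simp
      rw [h3] at h2
      linarith
    rw [this, ← h1]; simp
  · have h2 := key (C / H)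
    have h3 : V - 2 * (C / H) * C + (C / H) ^ 2 * H = V - C ^ 2 / H := by field_simp; ring
    rw [h3] at h2
    have h4 : C ^ 2 / H ≤ V := by linarith
    rwa [div_le_iff₀ h1] at h4

lemma cs_bound (hQ : MemLp Q 2 μ) (hh : MemLp h 2 μ) (h0 : ∫ u, h u ∂μ = 0) :
    ∫ u, Q u * h u ∂μ ≤ Real.sqrt (∫ u, (Q u - ∫ v, Q v ∂μ) ^ 2 ∂μ) * Real.sqrt (∫ u, h u ^ 2 ∂μ) := by
  rw [← Real.sqrt_mul (integral_nonneg fun u => sq_nonneg _)]
  exact Real.le_sqrt_of_sq_le (cs_sq_bound hQ hh h0)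

/-- Equality in Cauchy-Schwarz. -/
lemma cs_equality (hQ : MemLp Q 2 μ) (hh : MemLp h 2 μ) (h0 : ∫ u, h u ∂μ = 0)
    (hH : 0 < ∫ u, h u ^ 2 ∂μ)
    (heq : ∫ u, Q u * h u ∂μ =
      Real.sqrt (∫ u, (Q u - ∫ v, Q v ∂μ) ^ 2 ∂μ) * Real.sqrt (∫ u, h u ^ 2 ∂μ)) :
    ∀ᵐ u ∂μ, Q u = (∫ v, Q v ∂μ) +
      (Real.sqrt (∫ u, (Q u - ∫ v, Q v ∂μ) ^ 2 ∂μ) / Real.sqrt (∫ u, h u ^ 2 ∂μ)) * h u := by
  set V := ∫ u, (Q u - ∫ v, Q v ∂μ) ^ 2 ∂μ with hV
  set H := ∫ u, h u ^ 2 ∂μ with hHdef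
  have hV0 : 0 ≤ V := integral_nonneg fun u => sq_nonneg _
  have hsH : 0 < Real.sqrt H := Real.sqrt_pos.2 hH
  set c := Real.sqrt V / Real.sqrt H with hc
  have h1 := cs_identity hQ hh h0 c
  rw [heq, ← hV, ← hHdef] at h1
  have h2 : V - 2 * c * (Real.sqrt V * Real.sqrt H) + c ^ 2 * H = 0 := by
    have e1 : c * Real.sqrt H = Real.sqrt V := by rw [hc]; field_simp
    have e2 : c ^ 2 * H = V := by
      rw [← Real.sq_sqrt hH.le, ← mul_pow, e1, Real.sq_sqrt hV0]
    have e3 : 2 * c * (Real.sqrt V * Real.sqrt H) = 2 * V := by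
      have : 2 * c * (Real.sqrt V * Real.sqrt H) = 2 * (Real.sqrt V * (c * Real.sqrt H)) := by ring
      rw [this, e1, Real.mul_self_sqrt hV0]
    rw [e2, e3]; ring
  rw [h2] at h1
  have hQm : MemLp (fun u => Q u - (∫ v, Q v ∂μ) - c * h u) 2 μ :=
    (hQ.sub (memLp_const _)).sub (hh.const_mul c)
  have h3 := (integral_eq_zero_iff_of_nonneg_ae (Eventually.of_forall fun u => sq_nonneg _)
    hQm.integrable_sq).1 h1
  filter_upwards [h3] with u hu
  have h4 : (Q u - (∫ v, Q v ∂μ) - c * h u) ^ 2 = 0 := hu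
  have h5 : Q u - (∫ v, Q v ∂μ) - c * h u = 0 := by
    exact pow_eq_zero_iff (two_ne_zero) |>.1 h4
  linarith

end CS

end Pool.Agent.Lib.QBias
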