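import Pool.Agent.Lib.MP_c5814c_pr.Defs

namespace Pool.Agent.Lib.MP_c5814c_pr

open MeasureTheory ProbabilityTheory Set Filter
open scoped ENNReal Topology

/-- The uniform distribution on the open unit interval. -/
noncomputable def unif : Measure ℝ := volume.restrict (Ioo (0 : ℝ) 1)

instance : IsProbabilityMeasure unif := ⟨by simp [unif]⟩

section quantile

variable (μ : Measure ℝ) [IsProbabilityMeasure μ]

theorem quantile_le_iff {u : ℝ} (h0 : 0 < u) (h1 : u < 1) (x : ℝ) :
    quantile μ u ≤ x ↔ u ≤ cdf μ x := by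
  have hne : {x | u ≤ cdf μ x}.Nonempty := by
    have := (tendsto_cdf_atTop μ).eventually (lt_mem_nhds h1)
    obtain ⟨x, hx⟩ := this.exists
    exact ⟨x, le_of_lt hx⟩
  have hbdd : BddBelow {x | u ≤ cdf μ x} := by
    have := (tendsto_cdf_atBot μ).eventually (gt_mem_nhds h0)
    obtain ⟨y, hy⟩ := this.exists
    refine ⟨y, fun x hx => ?_⟩
    by_contra hlt
    push Not at hlt
    have := monotone_cdf μ hlt.le
    have hx' : u ≤ cdf μ x := hx
    linarith
  have hmem : u ≤ cdf μ (quantile μ u) := by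
    have hrc := (cdf μ).right_continuous (quantile μ u)
    -- sequence from the right
    by_contra hlt
    push Not at hlt
    have hev : ∀ᶠ y in 𝓝[≥] (quantile μ u), cdf μ y < u :=
      hrc.tendsto.eventually (gt_mem_nhds hlt)
    obtain ⟨c, hc, hcs⟩ := (mem_nhdsGE_iff_exists_Ico_subset).1 hev
    obtain ⟨x, hx, hxc⟩ := exists_lt_of_csInf_lt hne (show sInf {x | u ≤ cdf μ x} < c from hc)
    have hx1 : quantile μ u ≤ x := csInf_le hbdd hx
    have := hcs ⟨hx1, hxc⟩
    have hx' : u ≤ cdf μ x := hx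
    exact absurd this (not_lt.2 hx')
  constructor
  · intro h
    exact hmem.trans (monotone_cdf μ h)
  · intro h
    exact csInf_le hbdd h

theorem lt_quantile_iff {u : ℝ} (h0 : 0 < u) (h1 : u < 1) (x : ℝ) :
    x < quantile μ u ↔ cdf μ x < u := by
  rw [← not_le, quantile_le_iff μ h0 h1, not_le]

theorem le_cdf_quantile {u : ℝ} (h0 : 0 < u) (h1 : u < 1) : u ≤ cdf μ (quantile μ u) :=
  (quantile_le_iff μ h0 h1 _).1 le_rfl

theorem quantile_mono : MonotoneOn (quantile μ) (Ioo 0 1) := by
  intro u hu v hv huv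
  rw [quantile_le_iff μ hu.1 hu.2]
  exact huv.trans (le_cdf_quantile μ hv.1 hv.2)

theorem aemeasurable_of_monotoneOn {h : ℝ → ℝ} (hm : MonotoneOn h (Ioo 0 1)) :
    AEMeasurable h unif :=
  aemeasurable_restrict_of_monotoneOn measurableSet_Ioo hm

theorem aemeasurable_quantile : AEMeasurable (quantile μ) unif :=
  aemeasurable_of_monotoneOn (quantile_mono μ)

theorem unif_Iic {t : ℝ} (h0 : 0 ≤ t) (h1 : t ≤ 1) : unif (Iic t) = ENNReal.ofReal t := by
  rw [unif, Measure.restrict_apply measurableSet_Iic]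
  have : (Iic t ∩ Ioo 0 1 : Set ℝ) =ᵐ[volume] (Ioc 0 t : Set ℝ) := by
    rcases eq_or_lt_of_le h1 with h | h
    · subst h
      have h2 : Iic (1:ℝ) ∩ Ioo 0 1 = Ioo 0 1 := by
        ext x; simp only [mem_inter_iff, mem_Iic, mem_Ioo]; constructor
        · exact fun h => h.2
        · exact fun h => ⟨h.2.le, h⟩
      rw [h2]; exact Ioo_ae_eq_Ioc
    · have h2 : Iic t ∩ Ioo 0 1 = Ioc 0 t := by
        ext x; simp only [mem_inter_iff, mem_Iic, mem_Ioo, mem_Ioc]; constructor
        · exact fun h => ⟨h.2.1, h.1⟩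
        · exact fun h => ⟨h.2, h.1, by linarith [h.2]⟩
      rw [h2]
  rw [measure_congr this]
  simp

theorem ae_unif_mem : ∀ᵐ u ∂unif, u ∈ Ioo (0 : ℝ) 1 := ae_restrict_mem measurableSet_Ioo

/-- quantile transform -/
theorem map_quantile : Measure.map (quantile μ) unif = μ := by
  have hae := aemeasurable_quantile μ
  have : IsProbabilityMeasure (Measure.map (quantile μ) unif) :=
    Measure.isProbabilityMeasure_map hae
  refine Measure.ext_of_Iic _ _ fun x => ?_
  rw [Measure.map_apply_of_aemeasurable hae measurableSet_Iic]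
  have h1 : quantile μ ⁻¹' Iic x =ᵐ[unif] Iic (cdf μ x) := by
    filter_upwards [ae_unif_mem] with u hu
    apply propext
    change (quantile μ u ≤ x) ↔ (u ≤ cdf μ x)
    exact quantile_le_iff μ hu.1 hu.2 x
  rw [measure_congr h1, unif_Iic (cdf_nonneg μ x) (cdf_le_one μ x), ofReal_cdf]

/-- left continuity of the quantile function -/
theorem exists_lt_quantile {u x : ℝ} (h0 : 0 < u) (h1 : u < 1) (hx : x < quantile μ u) :
    ∃ v, 0 < v ∧ v < u ∧ ∀ w, v < w → w < 1 → x < quantile μ w := by
  have h := (lt_quantile_iff μ h0 h1 x).1 hx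
  refine ⟨(max (cdf μ x) 0 + u) / 2, ?_, ?_, ?_⟩
  · have := le_max_right (cdf μ x) 0; linarith
  · have : max (cdf μ x) 0 < u := max_lt h h0
    linarith
  · intro w hw hw1
    have h2 : max (cdf μ x) 0 < u := max_lt h h0
    have h3 := le_max_left (cdf μ x) 0
    have h4 := le_max_right (cdf μ x) 0
    rw [lt_quantile_iff μ (by linarith) hw1]
    linarith

end quantile

/-- The quantile function of the law of a monotone left-continuous function of a uniform
variable is that function. -/
theorem quantile_map {h : ℝ → ℝ} (hm : MonotoneOn h (Ioo 0 1))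
    (hl : ∀ u ∈ Ioo (0:ℝ) 1, ∀ x, x < h u → ∃ v ∈ Ioo 0 u, x < h v)
    {u : ℝ} (hu : u ∈ Ioo (0:ℝ) 1) :
    quantile (Measure.map h unif) u = h u := by
  have hae := aemeasurable_of_monotoneOn hm
  have : IsProbabilityMeasure (Measure.map h unif) := Measure.isProbabilityMeasure_map hae
  refine eq_of_forall_ge_iff fun x => ?_
  rw [quantile_le_iff _ hu.1 hu.2, cdf_eq_real, Measure.real,
    Measure.map_apply_of_aemeasurable hae measurableSet_Iic]
  constructor
  · intro hle
    by_contra hlt
    push Not at hlt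
    obtain ⟨v, hv, hxv⟩ := hl u hu x hlt
    have h1 : unif (h ⁻¹' Iic x) ≤ unif (Iic v) := by
      refine measure_mono_ae ?_
      filter_upwards [ae_unif_mem] with w hw hwx
      change w ≤ v
      by_contra hvw
      push Not at hvw
      have := hm ⟨hv.1, hv.2.trans hu.2⟩ hw hvw.le
      have hwx' : h w ≤ x := hwx
      linarith
    rw [unif_Iic hv.1.le (hv.2.trans hu.2).le] at h1
    have h2 := ENNReal.toReal_mono ENNReal.ofReal_ne_top h1
    rw [ENNReal.toReal_ofReal hv.1.le] at h2
    have := hv.2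
    linarith
  · intro hle
    have h1 : unif (Iic u) ≤ unif (h ⁻¹' Iic x) := by
      refine measure_mono_ae ?_
      filter_upwards [ae_unif_mem] with w hw hwu
      exact (hm hw hu hwu).trans hle
    rw [unif_Iic hu.1.le hu.2.le] at h1
    have h2 := ENNReal.toReal_mono (measure_ne_top _ _) h1
    rwa [ENNReal.toReal_ofReal hu.1.le] at h2

end Pool.Agent.Lib.MP_c5814c_pr
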