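import Pool.Agent.Lib.MP_c5814c_pr.Def

/-!
Definitions: the system of equations for the minimiser over the convex family.
-/

set_option autoImplicit false

namespace Pool.Agent.Lib.QBias

open MeasureTheory ProbabilityTheory Set Filter Topology

noncomputable section

/-- The mode of the density. -/
def md (n j : ℕ) : ℝ := ((j : ℝ) - 1) / ((n : ℝ) - 1)

/-- The open support interval `(a, d)` of `W`. -/
def SW (W : ℝ → ℝ) : Set ℝ := {y | 0 < W y ∧ W y < 1}

/-- The density before `p`, compensated by a constant after `p`. -/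
def h00 (n j : ℕ) (p : ℝ) (u : ℝ) : ℝ := if u < p then fos n j u else -(Fos n j p / (1 - p))

/-- The negative density along the reference law: `y ↦ -f(W(y))`. -/
def gW (W : ℝ → ℝ) (n j : ℕ) (y : ℝ) : ℝ := -fos n j (W y)

/-- On `{(j-1)/(n-1) ≤ W ≤ p}`, the function `y ↦ -f(W(y))` is convex first and concave after
(one of the two parts may be empty). -/
def CvxCnc (W : ℝ → ℝ) (n j : ℕ) (p : ℝ) : Prop :=
  ∃ s : ℝ, ConvexOn ℝ {y | y ∈ SW W ∧ md n j ≤ W y ∧ W y ≤ s} (gW W n j) ∧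
    ConcaveOn ℝ {y | y ∈ SW W ∧ md n j ≤ W y ∧ s ≤ W y ∧ W y ≤ p} (gW W n j)

/-- The candidate quantile function: `a1 + b1 W^{-1}` before `v1`, the negative density `-f` on
`[v1, v2)`, and `a2 + b2 min(W^{-1}, W^{-1}(p))` from `v2` on. -/
def pieces (W : ℝ → ℝ) (n j : ℕ) (p v1 v2 a1 b1 a2 b2 : ℝ) (u : ℝ) : ℝ :=
  if u < v1 then a1 + b1 * qf W u
  else if u < v2 then -fos n j u
  else a2 + b2 * min (qf W u) (qf W p)

/-- The system of equations for the minimiser. -/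
structure Sys (W : ℝ → ℝ) (n j : ℕ) (p v1 v2 a1 b1 a2 b2 : ℝ) : Prop where
  h0 : 0 ≤ v1
  h12 : v1 ≤ v2
  h2p : v2 < p
  hb2 : 0 < b2
  conc : ConcaveOn ℝ (SW W) (fun y => pieces W n j p v1 v2 a1 b1 a2 b2 (W y))
  kink : v1 = v2 → 0 < v1 → pieces W n j p v1 v2 a1 b1 a2 b2 v1 ≤ -fos n j v1
  e1 : ∫ u in Ioo 0 v1, (pieces W n j p v1 v2 a1 b1 a2 b2 u + fos n j u) = 0
  e2 : ∫ u in Ioo 0 v1, (pieces W n j p v1 v2 a1 b1 a2 b2 u + fos n j u) * qf W u = 0
  e3 : ∫ u in Ioo v2 1, (pieces W n j p v1 v2 a1 b1 a2 b2 u + h00 n j p u) = 0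
  e4 : ∫ u in Ioo v2 1, (pieces W n j p v1 v2 a1 b1 a2 b2 u + h00 n j p u) *
    min (qf W u) (qf W p) = 0
  first : v2 = 0 → ∀ v ∈ Ioo 0 p, ∫ u in Ioo 0 v,
    (qf W v - qf W u) * (pieces W n j p v1 v2 a1 b1 a2 b2 u + fos n j u) ≤ 0

/-- Distribution function of the uniform law on `(0, 1)`. -/
def unifW (y : ℝ) : ℝ := max 0 (min y 1)

/-- Distribution function of the standard exponential law. -/
def expW (y : ℝ) : ℝ := 1 - Real.exp (-(max y 0))

end

end Pool.Agent.Lib.QBias
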