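import Pool.Agent.Lib.MP_c5814c_pr.Def
import Pool.Agent.Lib.MP_c5814c_pr.DefSys

/-!
Distribution function and density of the order statistics of a uniform sample.
-/

set_option autoImplicit false

namespace Pool.Agent.Lib.QBias

open MeasureTheory Set Filter Topology

noncomputable section

lemma Fos_eq_eval (n j : ℕ) (u : ℝ) :
    Fos n j u = (∑ i ∈ Finset.Icc j n, bernsteinPolynomial ℝ n i).eval u := by
  unfold Fos
  rw [Polynomial.eval_finsetSum]
  refine Finset.sum_congr rfl fun i _ => ?_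
  simp [bernsteinPolynomial]

lemma derivative_sum_bern (n j : ℕ) (hjn : j + 1 ≤ n) :
    Polynomial.derivative (∑ i ∈ Finset.Icc (j + 1) n, bernsteinPolynomial ℝ n i) =
      (n : Polynomial ℝ) * bernsteinPolynomial ℝ (n - 1) j := by
  obtain ⟨l, rfl⟩ : ∃ l, n = j + 1 + l := ⟨n - (j + 1), by omega⟩
  have h1 : Finset.Icc (j + 1) (j + 1 + l) = Finset.image (fun i => j + i + 1) (Finset.range (l + 1)) := by
    ext x
    simp only [Finset.mem_Icc, Finset.mem_image, Finset.mem_range]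
    constructor
    · rintro ⟨h1, h2⟩
      exact ⟨x - (j + 1), by omega, by omega⟩
    · rintro ⟨i, h1, rfl⟩
      omega
  rw [h1, Finset.sum_image (by intro a _ b _ h; simpa using h), Polynomial.derivative_sum]
  have h2 : ∀ i ∈ Finset.range (l + 1),
      Polynomial.derivative (bernsteinPolynomial ℝ (j + 1 + l) (j + i + 1)) =
      ((j + 1 + l : ℕ) : Polynomial ℝ) * bernsteinPolynomial ℝ (j + 1 + l - 1) (j + i) -
      ((j + 1 + l : ℕ) : Polynomial ℝ) * bernsteinPolynomial ℝ (j + 1 + l - 1) (j + (i + 1)) := by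
    intro i _
    rw [bernsteinPolynomial.derivative_succ]
    rw [mul_sub]
    rfl
  rw [Finset.sum_congr rfl h2, Finset.sum_range_sub']
  rw [bernsteinPolynomial.eq_zero_of_lt (R := ℝ) (n := j + 1 + l - 1) (ν := j + (l + 1)) (by omega)]
  simp

lemma hasDerivAt_Fos {n j : ℕ} (hj : 1 ≤ j) (hjn : j ≤ n) (u : ℝ) :
    HasDerivAt (Fos n j) (fos n j u) u := by
  obtain ⟨k, rfl⟩ : ∃ k, j = k + 1 := ⟨j - 1, by omega⟩
  have h := (∑ i ∈ Finset.Icc (k + 1) n, bernsteinPolynomial ℝ n i).hasDerivAt u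
  rw [derivative_sum_bern n k hjn] at h
  have h1 : Fos n (k + 1) = fun x => (∑ i ∈ Finset.Icc (k + 1) n, bernsteinPolynomial ℝ n i).eval x := by
    funext x; exact Fos_eq_eval _ _ _
  rw [h1]
  refine h.congr_deriv ?_
  unfold fos
  simp only [bernsteinPolynomial, Polynomial.eval_mul, Polynomial.eval_natCast, Polynomial.eval_pow,
    Polynomial.eval_X, Polynomial.eval_sub, Polynomial.eval_one, Nat.add_sub_cancel]
  have : n - (k + 1) = n - 1 - k := by omega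
  rw [this]
  ring

lemma continuous_Fos (n j : ℕ) : Continuous (Fos n j) := by
  unfold Fos; fun_prop

lemma continuous_fos (n j : ℕ) : Continuous (fos n j) := by
  unfold fos; fun_prop

lemma Fos_zero {n j : ℕ} (hj : 1 ≤ j) : Fos n j 0 = 0 := by
  unfold Fos
  refine Finset.sum_eq_zero fun i hi => ?_
  have : i ≠ 0 := by
    have := (Finset.mem_Icc.1 hi).1; omega
  simp [this]

lemma Fos_one {n j : ℕ} (hjn : j ≤ n) : Fos n j 1 = 1 := by
  unfold Fos
  rw [Finset.sum_eq_single n]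
  · simp
  · intro i hi hin
    have h1 := (Finset.mem_Icc.1 hi).2
    have : n - i ≠ 0 := by omega
    simp [this]
  · intro h
    exact absurd (Finset.mem_Icc.2 ⟨hjn, le_rfl⟩) h

lemma fos_nonneg (n j : ℕ) {u : ℝ} (h0 : 0 ≤ u) (h1 : u ≤ 1) : 0 ≤ fos n j u := by
  unfold fos
  have : 0 ≤ 1 - u := by linarith
  positivity

lemma fos_pos {n j : ℕ} (hj : 1 ≤ j) (hjn : j ≤ n) {u : ℝ} (h0 : 0 < u) (h1 : u < 1) :
    0 < fos n j u := by
  unfold fos
  have h2 : 0 < 1 - u := by linarith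
  have h3 : 0 < ((n - 1).choose (j - 1) : ℝ) := by
    exact_mod_cast Nat.choose_pos (by omega)
  have h4 : 0 < (n : ℝ) := by exact_mod_cast (by omega : 0 < n)
  positivity

lemma fos_one {n j : ℕ} (hjn : j < n) : fos n j 1 = 0 := by
  unfold fos
  have : n - j ≠ 0 := by omega
  simp [this]

lemma strictMonoOn_Fos {n j : ℕ} (hj : 1 ≤ j) (hjn : j ≤ n) : StrictMonoOn (Fos n j) (Icc 0 1) := by
  refine strictMonoOn_of_deriv_pos (convex_Icc 0 1) (continuous_Fos n j).continuousOn ?_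
  intro x hx
  rw [interior_Icc] at hx
  rw [(hasDerivAt_Fos hj hjn x).deriv]
  exact fos_pos hj hjn hx.1 hx.2

lemma Fos_nonneg {n j : ℕ} (hj : 1 ≤ j) (hjn : j ≤ n) {u : ℝ} (h0 : 0 ≤ u) (h1 : u ≤ 1) :
    0 ≤ Fos n j u := by
  rw [← Fos_zero (n := n) hj]
  exact (strictMonoOn_Fos hj hjn).monotoneOn ⟨le_rfl, zero_le_one⟩ ⟨h0, h1⟩ h0

lemma Fos_pos {n j : ℕ} (hj : 1 ≤ j) (hjn : j ≤ n) {u : ℝ} (h0 : 0 < u) (h1 : u ≤ 1) :
    0 < Fos n j u := by
  rw [← Fos_zero (n := n) hj]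
  exact (strictMonoOn_Fos hj hjn) ⟨le_rfl, zero_le_one⟩ ⟨h0.le, h1⟩ h0

lemma Fos_lt_one {n j : ℕ} (hj : 1 ≤ j) (hjn : j ≤ n) {u : ℝ} (h0 : 0 ≤ u) (h1 : u < 1) :
    Fos n j u < 1 := by
  rw [← Fos_one (n := n) hjn]
  exact (strictMonoOn_Fos hj hjn) ⟨h0, h1.le⟩ ⟨zero_le_one, le_rfl⟩ h1

lemma Fos_le_one {n j : ℕ} (hj : 1 ≤ j) (hjn : j ≤ n) {u : ℝ} (h0 : 0 ≤ u) (h1 : u ≤ 1) :
    Fos n j u ≤ 1 := by
  rw [← Fos_one (n := n) hjn]
  exact (strictMonoOn_Fos hj hjn).monotoneOn ⟨h0, h1⟩ ⟨zero_le_one, le_rfl⟩ h1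

lemma integral_fos {n j : ℕ} (hj : 1 ≤ j) (hjn : j ≤ n) (a b : ℝ) :
    ∫ u in a..b, fos n j u = Fos n j b - Fos n j a :=
  intervalIntegral.integral_eq_sub_of_hasDerivAt (fun x _ => hasDerivAt_Fos hj hjn x)
    ((continuous_fos n j).intervalIntegrable _ _)

/-- The derivative of the density. -/
lemma hasDerivAt_fos (n j : ℕ) {u : ℝ} (h0 : 0 < u) (h1 : u < 1) :
    HasDerivAt (fos n j) (fos n j u * ((j - 1 : ℕ) * (1 - u) - (n - j : ℕ) * u) / (u * (1 - u))) u := by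
  have ha : HasDerivAt (fun x : ℝ => x ^ (j - 1)) (((j - 1 : ℕ) : ℝ) * u ^ (j - 1 - 1)) u :=
    hasDerivAt_pow _ _
  have hb : HasDerivAt (fun x : ℝ => (1 - x) ^ (n - j)) (((n - j : ℕ) : ℝ) * (1 - u) ^ (n - j - 1) * (-1)) u := by
    have h3 : HasDerivAt (fun x : ℝ => 1 - x) (-1) u := by
      simpa using (hasDerivAt_id u).const_sub 1
    exact h3.pow (n - j)
  have h := ((ha.mul hb).const_mul ((n : ℝ) * ((n - 1).choose (j - 1) : ℝ)))
  have e1 : ((j - 1 : ℕ) : ℝ) * u ^ (j - 1 - 1) = ((j - 1 : ℕ) : ℝ) * u ^ (j - 1) / u := by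
    rcases Nat.eq_zero_or_pos (j - 1) with h2 | h2
    · rw [h2]; simp
    · obtain ⟨k, hk⟩ : ∃ k, j - 1 = k + 1 := ⟨j - 1 - 1, by omega⟩
      rw [hk, Nat.add_sub_cancel, pow_succ]
      field_simp
  have h1u : (1 - u) ≠ 0 := by linarith
  have e2 : ((n - j : ℕ) : ℝ) * (1 - u) ^ (n - j - 1) = ((n - j : ℕ) : ℝ) * (1 - u) ^ (n - j) / (1 - u) := by
    rcases Nat.eq_zero_or_pos (n - j) with h2 | h2
    · rw [h2]; simp
    · obtain ⟨k, hk⟩ : ∃ k, n - j = k + 1 := ⟨n - j - 1, by omega⟩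
      rw [hk, Nat.add_sub_cancel, pow_succ]
      field_simp
  rw [e1, e2] at h
  have hf : fos n j = fun x => (n : ℝ) * ((n - 1).choose (j - 1) : ℝ) * ((fun x : ℝ => x ^ (j - 1)) x * (fun x : ℝ => (1 - x) ^ (n - j)) x) := by
    funext x; unfold fos; ring
  rw [hf]
  refine h.congr_deriv ?_
  field_simp
  ring

/-- Past the mode the density is nonincreasing. -/
lemma antitoneOn_fos {n j : ℕ} (hj : 1 ≤ j) (hn : 2 ≤ n) (hjn : j ≤ n) {p : ℝ} (hp0 : 0 ≤ p)
    (hp : ((j : ℝ) - 1) / ((n : ℝ) - 1) ≤ p) : AntitoneOn (fos n j) (Icc p 1) := by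
  refine antitoneOn_of_deriv_nonpos (convex_Icc p 1) (continuous_fos n j).continuousOn ?_ ?_
  · intro x hx
    rw [interior_Icc] at hx
    exact (hasDerivAt_fos n j (lt_of_le_of_lt hp0 hx.1) hx.2).differentiableAt.differentiableWithinAt
  · intro x hx
    rw [interior_Icc] at hx
    have hx0 : 0 < x := lt_of_le_of_lt hp0 hx.1
    rw [(hasDerivAt_fos n j hx0 hx.2).deriv]
    have h1 : 0 < 1 - x := by linarith [hx.2]
    have hf := fos_nonneg n j hx0.le hx.2.le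
    have hn1 : (0 : ℝ) < (n : ℝ) - 1 := by
      have : (2 : ℝ) ≤ n := by exact_mod_cast hn
      linarith
    rw [div_le_iff₀ hn1] at hp
    have e1 : ((j - 1 : ℕ) : ℝ) = (j : ℝ) - 1 := by push_cast [hj]; ring
    have e2 : ((n - j : ℕ) : ℝ) = (n : ℝ) - j := by push_cast [hjn]; ring
    rw [e1, e2]
    have h3 : ((j : ℝ) - 1) * (1 - x) - ((n : ℝ) - j) * x ≤ 0 := by
      nlinarith [mul_lt_mul_of_pos_right hx.1 hn1]
    apply div_nonpos_of_nonpos_of_nonneg
    · exact mul_nonpos_of_nonneg_of_nonpos hf h3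
    · positivity

/-- Before the mode the density is nondecreasing. -/
lemma monotoneOn_fos {n j : ℕ} (hj : 1 ≤ j) (hn : 2 ≤ n) (hjn : j ≤ n) :
    MonotoneOn (fos n j) (Icc 0 (((j : ℝ) - 1) / ((n : ℝ) - 1))) := by
  have hn1 : (0 : ℝ) < (n : ℝ) - 1 := by
    have : (2 : ℝ) ≤ n := by exact_mod_cast hn
    linarith
  have hjn' : (j : ℝ) ≤ n := by exact_mod_cast hjn
  refine monotoneOn_of_deriv_nonneg (convex_Icc _ _) (continuous_fos n j).continuousOn ?_ ?_
  · intro x hx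
    rw [interior_Icc] at hx
    have : x < 1 := lt_of_lt_of_le hx.2 (by rw [div_le_one hn1]; linarith)
    exact (hasDerivAt_fos n j hx.1 this).differentiableAt.differentiableWithinAt
  · intro x hx
    rw [interior_Icc] at hx
    have hx1 : x < 1 := lt_of_lt_of_le hx.2 (by rw [div_le_one hn1]; linarith)
    rw [(hasDerivAt_fos n j hx.1 hx1).deriv]
    have h1 : 0 < 1 - x := by linarith
    have hf := fos_nonneg n j hx.1.le hx1.le
    have hp := hx.2
    rw [lt_div_iff₀ hn1] at hp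
    have e1 : ((j - 1 : ℕ) : ℝ) = (j : ℝ) - 1 := by push_cast [hj]; ring
    have e2 : ((n - j : ℕ) : ℝ) = (n : ℝ) - j := by push_cast [hjn]; ring
    rw [e1, e2]
    have h3 : 0 ≤ ((j : ℝ) - 1) * (1 - x) - ((n : ℝ) - j) * x := by nlinarith
    have hx0 := hx.1
    positivity

end

end Pool.Agent.Lib.QBias
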