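import Pool.Agent.Lib.MP_c5814c_pr.Mg.G002

namespace Pool.Agent.Lib.MP_c5814c_pr

open MeasureTheory ProbabilityTheory Set Filter
open scoped ENNReal Topology

theorem monotone_cdf_ordConnected (ν : Measure ℝ) :
    OrdConnected {y | 0 < cdf ν y ∧ cdf ν y < 1} := by
  refine ⟨fun x hx y hy z hz => ?_⟩
  exact ⟨hx.1.trans_le (monotone_cdf ν hz.1), (monotone_cdf ν hz.2).trans_lt hy.2⟩

section

variable {ω : Measure ℝ} (hω : Nice ω)

include hω

theorem Nice.concave_of_convexLE {ν : Measure ℝ} [IsProbabilityMeasure ν] (h : ConvexLE ν ω) :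
    ConcaveOn ℝ {y | 0 < cdf ω y ∧ cdf ω y < 1} (fun y => quantile ν (cdf ω y)) := by
  have hprω := hω.prob
  refine ⟨hω.convex, fun y1 hy1 y2 hy2 a b ha hb hab => ?_⟩
  set y := a • y1 + b • y2 with hy
  have hyI : y ∈ {y | 0 < cdf ω y ∧ cdf ω y < 1} := hω.convex hy1 hy2 ha hb hab
  by_contra hlt
  push Not at hlt
  simp only [smul_eq_mul] at hlt
  obtain ⟨x0, hx0, hx0'⟩ := h.2 (min (cdf ω y1) (cdf ω y2)) (lt_min hy1.1 hy2.1)
  have hq1 : x0 < quantile ν (cdf ω y1) :=
    (lt_quantile_iff ν hy1.1 hy1.2 x0).2 (lt_of_lt_of_le hx0' (min_le_left _ _))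
  have hq2 : x0 < quantile ν (cdf ω y2) :=
    (lt_quantile_iff ν hy2.1 hy2.2 x0).2 (lt_of_lt_of_le hx0' (min_le_right _ _))
  set q1 := quantile ν (cdf ω y1)
  set q2 := quantile ν (cdf ω y2)
  set q := quantile ν (cdf ω y)
  set δ := min (a * q1 + b * q2 - q) (min (q1 - x0) (q2 - x0)) / 2 with hδ
  have hmin : 0 < min (a * q1 + b * q2 - q) (min (q1 - x0) (q2 - x0)) :=
    lt_min (by linarith) (lt_min (by linarith) (by linarith))
  have hδ0 : 0 < δ := by rw [hδ]; linarith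
  have hδ1 : δ < a * q1 + b * q2 - q := by
    have := min_le_left (a * q1 + b * q2 - q) (min (q1 - x0) (q2 - x0))
    rw [hδ]; linarith
  have hδ2 : δ < q1 - x0 := by
    have h1 := min_le_right (a * q1 + b * q2 - q) (min (q1 - x0) (q2 - x0))
    have h2 := min_le_left (q1 - x0) (q2 - x0)
    rw [hδ]; linarith
  have hδ3 : δ < q2 - x0 := by
    have h1 := min_le_right (a * q1 + b * q2 - q) (min (q1 - x0) (q2 - x0))
    have h2 := min_le_right (q1 - x0) (q2 - x0)
    rw [hδ]; linarith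
  set x1 := q1 - δ with hx1
  set x2 := q2 - δ with hx2
  have hF1 : cdf ν x1 < cdf ω y1 := (lt_quantile_iff ν hy1.1 hy1.2 x1).1 (by
    change x1 < q1; rw [hx1]; linarith)
  have hF2 : cdf ν x2 < cdf ω y2 := (lt_quantile_iff ν hy2.1 hy2.2 x2).1 (by
    change x2 < q2; rw [hx2]; linarith)
  have hJ1 : x1 ∈ {x | 0 < cdf ν x ∧ cdf ν x < 1} :=
    ⟨hx0.trans_le (monotone_cdf ν (by rw [hx1]; linarith)), hF1.trans hy1.2⟩
  have hJ2 : x2 ∈ {x | 0 < cdf ν x ∧ cdf ν x < 1} :=
    ⟨hx0.trans_le (monotone_cdf ν (by rw [hx2]; linarith)), hF2.trans hy2.2⟩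
  have hc := h.1.2 hJ1 hJ2 ha hb hab
  have hJ := h.1.1 hJ1 hJ2 ha hb hab
  simp only [smul_eq_mul] at hc hJ
  have hs1 : quantile ω (cdf ν x1) < y1 := by
    have := hω.quantile_strictMono hJ1 hy1 hF1
    rwa [hω.quantile_cdf hy1] at this
  have hs2 : quantile ω (cdf ν x2) < y2 := by
    have := hω.quantile_strictMono hJ2 hy2 hF2
    rwa [hω.quantile_cdf hy2] at this
  have hlt2 : a * quantile ω (cdf ν x1) + b * quantile ω (cdf ν x2) < y := by
    rw [hy]
    simp only [smul_eq_mul]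
    rcases eq_or_lt_of_le ha with h0 | h0
    · have hb1 : b = 1 := by linarith
      rw [← h0, hb1]; linarith
    · have h1 : a * quantile ω (cdf ν x1) < a * y1 := mul_lt_mul_of_pos_left hs1 h0
      have h2 : b * quantile ω (cdf ν x2) ≤ b * y2 := mul_le_mul_of_nonneg_left hs2.le hb
      linarith
  have hxq : q ≤ a * x1 + b * x2 := by
    have : a * x1 + b * x2 = a * q1 + b * q2 - δ := by
      rw [hx1, hx2]
      have : (a + b) * δ = δ := by rw [hab, one_mul]
      linarith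
    linarith
  have h3 : cdf ω y ≤ cdf ν (a * x1 + b * x2) := (quantile_le_iff ν hyI.1 hyI.2 _).1 hxq
  have h4 : quantile ω (cdf ν (a * x1 + b * x2)) < y := lt_of_le_of_lt hc hlt2
  have h5 := hω.strict (hω.quantile_mem hJ) hyI h4
  rw [hω.cdf_quantile hJ] at h5
  linarith

theorem Nice.convexLE_map {φ : ℝ → ℝ}
    (hm : MonotoneOn φ {y | 0 < cdf ω y ∧ cdf ω y < 1})
    (hc : ConcaveOn ℝ {y | 0 < cdf ω y ∧ cdf ω y < 1} φ)
    (hn : ∃ y1 ∈ {y | 0 < cdf ω y ∧ cdf ω y < 1}, ∃ y2 ∈ {y | 0 < cdf ω y ∧ cdf ω y < 1},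
      y1 < y2 ∧ φ y1 < φ y2) : ConvexLE (Measure.map φ ω) ω := by
  have hprω := hω.prob
  have hcont : ContinuousOn φ {y | 0 < cdf ω y ∧ cdf ω y < 1} := hc.continuousOn hω.isOpen
  have hpr : IsProbabilityMeasure (Measure.map φ ω) := by
    rw [hω.map_eq hm]
    exact Measure.isProbabilityMeasure_map (aemeasurable_of_monotoneOn (hω.comp_monotoneOn hm))
  set ν := Measure.map φ ω with hν
  have hgal : ∀ u ∈ Ioo (0:ℝ) 1, ∀ x, (φ (quantile ω u) ≤ x ↔ u ≤ cdf ν x) := by
    intro u hu x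
    rw [← hω.quantile_map_comp hm hcont hu, quantile_le_iff _ hu.1 hu.2]
  obtain ⟨y1, hy1, y2, hy2, h12, hφ12⟩ := hn
  -- strict monotonicity on the left of y1
  have hstr : ∀ w1 ∈ {y | 0 < cdf ω y ∧ cdf ω y < 1}, ∀ w2 ∈ {y | 0 < cdf ω y ∧ cdf ω y < 1},
      w1 < y1 → w1 < w2 → φ w1 < φ w2 := by
    intro w1 hw1 w2 hw2 h1 h2
    refine lt_of_le_of_ne (hm hw1 hw2 h2.le) fun heq => ?_
    have hw : w1 < min w2 y1 := lt_min h2 h1
    have hwI : min w2 y1 ∈ {y | 0 < cdf ω y ∧ cdf ω y < 1} := by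
      rcases min_choice w2 y1 with h | h <;> rw [h] <;> assumption
    have h3 := hm hw1 hwI hw.le
    have h4 := hm hwI hw2 (min_le_left _ _)
    have h5 := hm hwI hy1 (min_le_right _ _)
    have h6 : φ (min w2 y1) = φ w1 := le_antisymm (by rw [heq]; exact h4) h3
    have h7 : min w2 y1 < y2 := lt_of_le_of_lt (min_le_right _ _) h12
    have h8 := hc.slope_anti_adjacent hw1 hy2 hw h7
    rw [h6, sub_self, zero_div, div_le_iff₀ (sub_pos.2 h7)] at h8
    linarith
  constructor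
  · refine ⟨(monotone_cdf_ordConnected ν).convex, fun x1 hx1 x2 hx2 a b ha hb hab => ?_⟩
    have hx : a • x1 + b • x2 ∈ {x | 0 < cdf ν x ∧ cdf ν x < 1} :=
      (monotone_cdf_ordConnected ν).convex hx1 hx2 ha hb hab
    have e1 := hω.map_level hm hcont hx1
    have e2 := hω.map_level hm hcont hx2
    have e := hω.map_level hm hcont hx
    have i1 := hω.quantile_mem (u := cdf ν x1) hx1
    have i2 := hω.quantile_mem (u := cdf ν x2) hx2
    have i := hω.quantile_mem (u := cdf ν (a • x1 + b • x2)) hx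
    have hyI := hω.convex i1 i2 ha hb hab
    by_contra hlt
    push Not at hlt
    have h1 := hc.2 i1 i2 ha hb hab
    rw [← hν] at e1 e2 e
    rw [e1, e2] at h1
    have h2 := hm hyI i hlt.le
    rw [e] at h2
    have h3 : φ (a • quantile ω (cdf ν x1) + b • quantile ω (cdf ν x2)) = a • x1 + b • x2 :=
      le_antisymm h2 h1
    have h4 : (1:ℝ) ≤ cdf ν (a • x1 + b • x2) := by
      refine le_of_forall_lt_imp_le_of_dense fun u hu => ?_
      rcases le_or_gt u 0 with h | h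
      · exact h.trans (cdf_nonneg ν _)
      · have hu' : u ∈ Ioo (0:ℝ) 1 := ⟨h, hu⟩
        refine (hgal u hu' _).1 ?_
        rcases le_or_gt (quantile ω u) (quantile ω (cdf ν (a • x1 + b • x2))) with h5 | h5
        · have := hm (hω.quantile_mem hu') i h5
          rwa [e] at this
        · have h6 := hc.slope_anti_adjacent hyI (hω.quantile_mem hu') hlt h5
          rw [e, h3, sub_self, zero_div, div_le_iff₀ (sub_pos.2 h5)] at h6
          linarith
    exact absurd hx.2 (not_lt.2 h4)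
  · intro ε hε
    set u0 := min ε (min (cdf ω y1) 1) / 2 with hu0
    have hmin : 0 < min ε (min (cdf ω y1) 1) := lt_min hε (lt_min hy1.1 one_pos)
    have h1 : 0 < u0 := by rw [hu0]; linarith
    have h2 : u0 < ε := by
      have := min_le_left ε (min (cdf ω y1) 1); rw [hu0]; linarith
    have h3 : u0 < cdf ω y1 := by
      have h4 := min_le_right ε (min (cdf ω y1) 1)
      have h5 := min_le_left (cdf ω y1) (1:ℝ)
      rw [hu0]; linarith
    have h4 : u0 ∈ Ioo (0:ℝ) 1 := ⟨h1, h3.trans hy1.2⟩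
    have h5 : quantile ω u0 < y1 := by
      have := hω.quantile_strictMono h4 hy1 h3
      rwa [hω.quantile_cdf hy1] at this
    refine ⟨φ (quantile ω u0), lt_of_lt_of_le h1 ((hgal u0 h4 _).1 le_rfl), ?_⟩
    refine lt_of_le_of_lt ?_ h2
    refine le_of_forall_gt_imp_ge_of_dense fun u hu => ?_
    rcases lt_or_ge u 1 with h | h
    · have hu' : u ∈ Ioo (0:ℝ) 1 := ⟨h1.trans hu, h⟩
      have h6 := hstr _ (hω.quantile_mem h4) _ (hω.quantile_mem hu') h5
        (hω.quantile_strictMono h4 hu' hu)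
      by_contra hcon
      push Not at hcon
      have := (hgal u hu' _).2 hcon.le
      linarith
    · exact (cdf_le_one ν _).trans h

end

end Pool.Agent.Lib.MP_c5814c_pr
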