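import Pool.Agent.Lib.MP_c5814c_pr.Conv1

namespace Pool.Agent.Lib.MP_c5814c_pr

open MeasureTheory ProbabilityTheory Set Filter
open scoped ENNReal Topology

/-- supporting slope of a concave nondecreasing function at an interior point -/
theorem exists_slope {I : Set ℝ} {φ : ℝ → ℝ} (hc : ConcaveOn ℝ I φ) (hm : MonotoneOn φ I)
    {y0 l r : ℝ} (h0 : y0 ∈ I) (hl : l ∈ I) (hr : r ∈ I) (hl0 : l < y0) (hr0 : y0 < r) :
    ∃ κ : ℝ, 0 ≤ κ ∧ (∀ y ∈ I, φ y ≤ φ y0 + κ * (y - y0)) ∧
      (∀ y ∈ I, ∀ z ∈ I, y ≤ z → z ≤ y0 → κ * (z - y) ≤ φ z - φ y) := by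
  set S := {s : ℝ | ∃ y ∈ I, y < y0 ∧ s = (φ y0 - φ y) / (y0 - y)} with hS
  have hne : S.Nonempty := ⟨_, l, hl, hl0, rfl⟩
  have hlow : ∀ z ∈ I, y0 < z → ∀ s ∈ S, (φ z - φ y0) / (z - y0) ≤ s := by
    rintro z hz hz0 s ⟨y, hy, hy0, rfl⟩
    exact hc.slope_anti_adjacent hy hz hy0 hz0
  have hbdd : BddBelow S := ⟨_, fun s hs => hlow r hr hr0 s hs⟩
  set κ := sInf S with hκ
  have hκ1 : ∀ y ∈ I, y < y0 → κ ≤ (φ y0 - φ y) / (y0 - y) := fun y hy hy0 =>
    csInf_le hbdd ⟨y, hy, hy0, rfl⟩
  have hκ2 : ∀ z ∈ I, y0 < z → (φ z - φ y0) / (z - y0) ≤ κ := fun z hz hz0 =>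
    le_csInf hne fun s hs => hlow z hz hz0 s hs
  refine ⟨κ, ?_, ?_, ?_⟩
  · refine le_trans ?_ (hκ2 r hr hr0)
    exact div_nonneg (sub_nonneg.2 (hm h0 hr hr0.le)) (sub_pos.2 hr0).le
  · intro y hy
    rcases lt_trichotomy y y0 with h | h | h
    · have := hκ1 y hy h
      rw [le_div_iff₀ (sub_pos.2 h)] at this
      linarith
    · subst h; simp
    · have := hκ2 y hy h
      rw [div_le_iff₀ (sub_pos.2 h)] at this
      linarith
  · intro y hy z hz hyz hz0
    rcases eq_or_lt_of_le hyz with h | h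
    · subst h; simp
    · rcases eq_or_lt_of_le hz0 with h' | h'
      · subst h'
        have := hκ1 y hy h
        rw [le_div_iff₀ (sub_pos.2 h)] at this
        linarith
      · have h1 := hκ1 z hz h'
        have h2 := hc.slope_anti_adjacent hy h0 h h'
        have h3 := h1.trans h2
        rw [le_div_iff₀ (sub_pos.2 h)] at h3
        linarith

theorem integrable_mul2 {f g : ℝ → ℝ} (hf : MemLp f 2 unif) (hg : MemLp g 2 unif) :
    Integrable (fun u => f u * g u) unif := hf.integrable_mul hg

/-- association of a nonincreasing and a nondecreasing function -/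
theorem assoc {K X : ℝ → ℝ} (hK : AntitoneOn K (Ioo 0 1)) (hX : MonotoneOn X (Ioo 0 1))
    (hKL : MemLp K 2 unif) (hXL : MemLp X 2 unif) :
    ∫ u, K u * (X u - ∫ v, X v ∂unif) ∂unif ≤ 0 := by
  set m := ∫ v, X v ∂unif with hm
  have hXi : Integrable X unif := hXL.integrable one_le_two
  have hρL : MemLp (fun u => m - X u) 2 unif := (memLp_const m).sub hXL
  have hρi : Integrable (fun u => m - X u) unif := hρL.integrable one_le_two
  have hkL : MemLp (fun u => - K u) 2 unif := hKL.neg
  have h := cheb (k := fun u => - K u) (ρ := fun u => m - X u) zero_le_one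
    (fun u hu v hv huv => by simpa using hK hu hv huv)
    (fun u hu v hv huv => by
      have := hX hu hv huv
      change m - X v ≤ m - X u
      linarith)
    (Integrable.interval hρi le_rfl zero_le_one le_rfl)
    (Integrable.interval (integrable_mul2 hkL hρL) le_rfl zero_le_one le_rfl)
    (by
      rw [← integral_unif, integral_sub (integrable_const _) hXi]
      simp [hm])
  rw [← integral_unif] at h
  have h2 : ∀ u, K u * (X u - m) = - K u * (m - X u) := fun u => by ring
  simp only [h2]
  exact h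

section

variable {ω : Measure ℝ} {n j : ℕ} {p t : ℝ}

/-- `min(Q, t)` -/
noncomputable def trunc (ω : Measure ℝ) (t u : ℝ) : ℝ := min (quantile ω u) t

theorem trunc_mono (hω : Nice ω) (t : ℝ) : MonotoneOn (trunc ω t) (Ioo 0 1) := by
  have := hω.prob
  intro u hu v hv huv
  exact min_le_min (quantile_mono ω hu hv huv) le_rfl

/-- The main inequality for the upper bound. -/
theorem num_le_cov (hω : Nice ω) (hj : j < n) (hp : p ∈ Ioo (0:ℝ) 1)
    (hjp : (j : ℝ) ≤ (n - 1) * p)
    (ht : t ∈ {y | 0 < cdf ω y ∧ cdf ω y < 1}) (hpt : quantile ω p < t)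
    (hX : MemLp (trunc ω t) 2 unif) {l : ℝ} (hl : 0 ≤ l)
    (h1 : 1 - cdfU n j (cdf ω t) = l * (t - ∫ v, trunc ω t v ∂unif) * (1 - cdf ω t))
    (h2 : num n j p (trunc ω t)
      = l * ∫ u, trunc ω t u * (trunc ω t u - ∫ v, trunc ω t v ∂unif) ∂unif)
    {φ : ℝ → ℝ} (hm : MonotoneOn φ {y | 0 < cdf ω y ∧ cdf ω y < 1})
    (hc : ConcaveOn ℝ {y | 0 < cdf ω y ∧ cdf ω y < 1} φ)
    (hφ : MemLp (fun u => φ (quantile ω u)) 2 unif) :
    num n j p (fun u => φ (quantile ω u))
      ≤ l * ∫ u, φ (quantile ω u) * (trunc ω t u - ∫ v, trunc ω t v ∂unif) ∂unif := by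
  have hprω := hω.prob
  set Q := quantile ω with hQ
  set X := trunc ω t with hXdef
  set m := ∫ v, X v ∂unif with hmdef
  set h : ℝ → ℝ := fun u => φ (Q u) with hh
  set w := cdf ω t with hw
  have hw01 : w ∈ Ioo (0:ℝ) 1 := ht
  have hQw : Q w = t := hω.quantile_cdf ht
  have hpw : p < w := by
    by_contra hcon
    push Not at hcon
    have := quantile_mono ω hw01 hp hcon
    rw [← hQ, hQw] at this
    linarith
  have hXm : MonotoneOn X (Ioo 0 1) := trunc_mono hω t
  have hhm : MonotoneOn h (Ioo 0 1) := hω.comp_monotoneOn hm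
  have hXlow : ∀ u ∈ Ioo (0:ℝ) 1, u ≤ w → X u = Q u := by
    intro u hu huw
    have := quantile_mono ω hu hw01 huw
    rw [← hQ, hQw] at this
    exact min_eq_left this
  have hXhigh : ∀ u ∈ Ioo (0:ℝ) 1, w ≤ u → X u = t := by
    intro u hu huw
    have := quantile_mono ω hw01 hu huw
    rw [← hQ, hQw] at this
    exact min_eq_right this
  have hXp : X p = Q p := hXlow p hp hpw.le
  -- the weight
  set ρ : ℝ → ℝ := fun u => pdfU n j u - l * (X u - m) with hρ
  have hXmL : MemLp (fun u => X u - m) 2 unif := hX.sub (memLp_const m)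
  have hρL : MemLp ρ 2 unif := (memLp_dens n j).sub (hXmL.const_mul l)
  have hρi : Integrable ρ unif := hρL.integrable one_le_two
  have hρanti : AntitoneOn ρ (Ioo p 1) := by
    intro u hu v hv huv
    have e1 := dens_anti hj hp.1.le hjp ⟨hu.1.le, hu.2.le⟩ ⟨hv.1.le, hv.2.le⟩ huv
    have e2 := hXm ⟨by linarith [hu.1, hp.1], hu.2⟩ ⟨by linarith [hv.1, hp.1], hv.2⟩ huv
    have e3 : l * (X u - m) ≤ l * (X v - m) := mul_le_mul_of_nonneg_left (by linarith) hl
    simp only [hρ]; linarith
  have hρw : ∫ u in w..1, ρ u = 0 := by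
    have e1 : ∫ u in w..1, ρ u = ∫ u in w..1, (pdfU n j u - l * (t - m)) := by
      refine integral_congr_Ioo hw01.2.le fun u hu => ?_
      simp only [hρ]
      rw [hXhigh u ⟨by linarith [hu.1, hw01.1], hu.2⟩ hu.1.le]
    rw [e1, intervalIntegral.integral_sub ((continuous_dens n j).intervalIntegrable _ _)
      (interval_const _ _ _), integral_dens hj, dist_one hj]
    simp only [intervalIntegral.integral_const, smul_eq_mul]
    rw [h1]; ring
  have hρpos : ∀ u ∈ Ioo p w, 0 ≤ ρ u := by
    intro u hu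
    have e1 : ∫ v in w..1, ρ v ≤ ∫ v in w..1, ρ u := by
      refine integral_mono_Ioo hw01.2.le (Integrable.interval hρi hw01.1.le hw01.2.le le_rfl)
        (interval_const _ _ _) fun v hv => ?_
      exact hρanti ⟨hu.1, by linarith [hu.2, hw01.2]⟩ ⟨by linarith [hv.1, hpw], hv.2⟩
        (by linarith [hu.2, hv.1])
    rw [hρw] at e1
    simp only [intervalIntegral.integral_const, smul_eq_mul] at e1
    have e2 : 0 < 1 - w := by linarith [hw01.2]
    by_contra hcon
    push Not at hcon
    have := mul_neg_of_pos_of_neg e2 hcon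
    linarith
  have hρint : ∫ u, ρ u ∂unif = 1 := by
    have e1 : Integrable (fun u => l * (X u - m)) unif := (hXmL.integrable one_le_two).const_mul l
    have e2 : ∫ u, (X u - m) ∂unif = 0 := by
      rw [integral_sub (hX.integrable one_le_two) (integrable_const _)]
      simp [hmdef]
    change ∫ u, (pdfU n j u - l * (X u - m)) ∂unif = 1
    rw [integral_sub (integrable_dens n j) e1, integral_dens_unif hj, integral_const_mul, e2]
    ring
  -- reformulation of the two integrals
  have hgen : ∀ g : ℝ → ℝ, MemLp g 2 unif →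
      ∫ u, (g u - g p) * ρ u ∂unif = num n j p g - l * ∫ u, g u * (X u - m) ∂unif := by
    intro g hg
    have e1 : ∀ u, (g u - g p) * ρ u
        = (g u * pdfU n j u - l * (g u * (X u - m))) - g p * ρ u := by
      intro u; simp only [hρ]; ring
    simp only [e1]
    have i1 := integrable_mul_dens hg n j
    have i2 : Integrable (fun u => l * (g u * (X u - m))) unif :=
      (integrable_mul2 hg hXmL).const_mul l
    have i3 : Integrable (fun u => g u * pdfU n j u - l * (g u * (X u - m))) unif := i1.sub i2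
    have i4 : Integrable (fun u => g p * ρ u) unif := hρi.const_mul _
    rw [integral_sub i3 i4, integral_sub i1 i2, integral_const_mul, integral_const_mul, hρint]
    unfold num; ring
  have hhL : MemLp h 2 unif := hφ
  have hgi : ∀ g : ℝ → ℝ, MemLp g 2 unif → Integrable (fun u => (g u - g p) * ρ u) unif :=
    fun g hg => integrable_mul2 (hg.sub (memLp_const (g p))) hρL
  have hX0 : ∫ u, (X u - X p) * ρ u ∂unif = 0 := by
    rw [hgen X hX, h2]; ring
  have hw0 : (0:ℝ) ≤ w := hw01.1.le
  have hXlow0 : ∫ u in (0:ℝ)..w, (X u - X p) * ρ u = 0 := by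
    rw [integral_split (hgi X hX) ⟨hw01.1.le, hw01.2.le⟩] at hX0
    have e1 : ∫ u in w..1, (X u - X p) * ρ u = ∫ u in w..1, (t - X p) * ρ u := by
      refine integral_congr_Ioo hw01.2.le fun u hu => ?_
      rw [hXhigh u ⟨by linarith [hu.1, hw01.1], hu.2⟩ hu.1.le]
    rw [e1, intervalIntegral.integral_const_mul, hρw] at hX0
    linarith
  -- slope at y_p
  obtain ⟨κ, hκ0, hκ1, hκ2⟩ := exists_slope hc hm (hω.quantile_mem hp)
    (hω.quantile_mem (u := p / 2) ⟨by linarith [hp.1], by linarith [hp.1, hp.2]⟩) ht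
    (hω.quantile_strictMono ⟨by linarith [hp.1], by linarith [hp.1, hp.2]⟩ hp
      (by linarith [hp.1])) hpt
  -- the part below p
  have hpart1 : ∫ u in (0:ℝ)..p, (h u - h p) * ρ u ≤ κ * ∫ u in (0:ℝ)..p, (X u - X p) * ρ u := by
    classical
    set K : ℝ → ℝ := fun u => if u < p then κ * (X u - X p) - (h u - h p) else 0 with hK
    have hKpos : ∀ u ∈ Ioo (0:ℝ) 1, 0 ≤ K u := by
      intro u hu
      simp only [hK]
      split_ifs with hup
      · have := hκ1 (Q u) (hω.quantile_mem hu)
        rw [hXlow u hu (by linarith), hXp]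
        simp only [hh]
        linarith
      · exact le_rfl
    have hKanti : AntitoneOn K (Ioo 0 1) := by
      intro u hu v hv huv
      by_cases hvp : v < p
      · have hup : u < p := lt_of_le_of_lt huv hvp
        have := hκ2 (Q u) (hω.quantile_mem hu) (Q v) (hω.quantile_mem hv)
          (quantile_mono ω hu hv huv) (quantile_mono ω hv hp hvp.le)
        simp only [hK, if_pos hvp, if_pos hup]
        rw [hXlow u hu (by linarith), hXlow v hv (by linarith)]
        simp only [hh]
        linarith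
      · have : K v = 0 := by simp only [hK, if_neg hvp]
        rw [this]
        exact hKpos u hu
    have hKL : MemLp K 2 unif := by
      have e1 : MemLp (fun u => κ * (X u - X p) - (h u - h p)) 2 unif :=
        ((hX.sub (memLp_const (X p))).const_mul κ).sub (hhL.sub (memLp_const (h p)))
      exact MemLp.indicator (s := Iio p) measurableSet_Iio e1 |>.ae_eq (by
        refine ae_of_all _ fun u => ?_
        simp only [hK, Set.indicator, mem_Iio])
    have ha := assoc hKanti hXm hKL hX
    rw [← hmdef] at ha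
    have hb : 0 ≤ ∫ u, K u * pdfU n j u ∂unif := by
      refine integral_nonneg_of_ae ?_
      filter_upwards [ae_unif_mem] with u hu
      exact mul_nonneg (hKpos u hu) (dens_nonneg n j hu.1.le hu.2.le)
    have hc' : 0 ≤ ∫ u, K u * ρ u ∂unif := by
      have e1 : ∀ u, K u * ρ u = K u * pdfU n j u - l * (K u * (X u - m)) := by
        intro u; simp only [hρ]; ring
      simp only [e1]
      have i2 : Integrable (fun u => l * (K u * (X u - m))) unif :=
        (integrable_mul2 hKL hXmL).const_mul l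
      rw [integral_sub (integrable_mul_dens hKL n j) i2, integral_const_mul]
      have := mul_nonpos_of_nonneg_of_nonpos hl ha
      linarith
    rw [integral_split (integrable_mul2 hKL hρL) ⟨hp.1.le, hp.2.le⟩] at hc'
    have e2 : ∫ u in p..1, K u * ρ u = 0 := by
      have : ∫ u in p..1, K u * ρ u = ∫ u in p..1, (0:ℝ) := by
        refine integral_congr_Ioo hp.2.le fun u hu => ?_
        simp only [hK, if_neg (not_lt.2 hu.1.le), zero_mul]
      rw [this]; simp
    have e3 : ∫ u in (0:ℝ)..p, K u * ρ u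
        = κ * (∫ u in (0:ℝ)..p, (X u - X p) * ρ u) - ∫ u in (0:ℝ)..p, (h u - h p) * ρ u := by
      have : ∫ u in (0:ℝ)..p, K u * ρ u
          = ∫ u in (0:ℝ)..p, (κ * ((X u - X p) * ρ u) - (h u - h p) * ρ u) := by
        refine integral_congr_Ioo hp.1.le fun u hu => ?_
        simp only [hK, if_pos hu.2]; ring
      rw [this, intervalIntegral.integral_sub
        ((Integrable.interval (hgi X hX) le_rfl hp.1.le hp.2.le).const_mul κ)
        (Integrable.interval (hgi h hhL) le_rfl hp.1.le hp.2.le),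
        intervalIntegral.integral_const_mul]
    rw [e2, e3] at hc'
    linarith
  have hpart2 : ∫ u in p..w, (h u - h p) * ρ u ≤ κ * ∫ u in p..w, (X u - X p) * ρ u := by
    rw [← intervalIntegral.integral_const_mul]
    refine integral_mono_Ioo hpw.le (Integrable.interval (hgi h hhL) hp.1.le hpw.le hw01.2.le)
      ((Integrable.interval (hgi X hX) hp.1.le hpw.le hw01.2.le).const_mul κ) fun u hu => ?_
    have hu' : u ∈ Ioo (0:ℝ) 1 := ⟨by linarith [hu.1, hp.1], by linarith [hu.2, hw01.2]⟩
    have e1 := hκ1 (Q u) (hω.quantile_mem hu')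
    have e2 : h u - h p ≤ κ * (X u - X p) := by
      rw [hXlow u hu' hu.2.le, hXp]
      simp only [hh]
      linarith
    have := mul_le_mul_of_nonneg_right e2 (hρpos u hu)
    linarith
  have hpart3 : ∫ u in w..1, (h u - h p) * ρ u ≤ 0 := by
    refine cheb hw01.2.le ?_ ?_ (Integrable.interval hρi hw01.1.le hw01.2.le le_rfl)
      (Integrable.interval (hgi h hhL) hw01.1.le hw01.2.le le_rfl) hρw
    · intro u hu v hv huv
      have := hhm ⟨by linarith [hu.1, hw01.1], hu.2⟩ ⟨by linarith [hv.1, hw01.1], hv.2⟩ huv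
      simp only
      linarith
    · exact hρanti.mono (Ioo_subset_Ioo hpw.le le_rfl)
  have hsum : ∫ u, (h u - h p) * ρ u ∂unif ≤ 0 := by
    rw [integral_split3 (hgi h hhL) hp.1.le hpw.le hw01.2.le]
    have e1 := intervalIntegral.integral_add_adjacent_intervals
      (Integrable.interval (hgi X hX) le_rfl hp.1.le hp.2.le)
      (Integrable.interval (hgi X hX) hp.1.le hpw.le hw01.2.le)
    rw [hXlow0] at e1
    have e2 : κ * (∫ u in (0:ℝ)..p, (X u - X p) * ρ u)
        + κ * (∫ u in p..w, (X u - X p) * ρ u) = 0 := by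
      rw [← mul_add, e1, mul_zero]
    linarith
  rw [hgen h hhL] at hsum
  change num n j p h ≤ l * ∫ u, h u * (X u - m) ∂unif
  linarith

end

end Pool.Agent.Lib.MP_c5814c_pr
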