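import Pool.Agent.Lib.MP_c5814c_pr.Conv2

namespace Pool.Agent.Lib.MP_c5814c_pr

open MeasureTheory ProbabilityTheory Set Filter
open scoped ENNReal Topology

section

variable {ω : Measure ℝ} {n j : ℕ} {p t : ℝ}

theorem abs_min_sub (q x y : ℝ) : |min q x - min q y| ≤ |x - y| := by
  have := abs_min_sub_min_le_max q x q y
  simpa using this

theorem trunc_memLp (hω : Nice ω) {t0 : ℝ} (h : MemLp (trunc ω t0) 2 unif) (t : ℝ) :
    MemLp (trunc ω t) 2 unif := by
  have h1 : MemLp (fun u => trunc ω t u - trunc ω t0 u) 2 unif := by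
    refine memLp_of_bdd ((aemeasurable_of_monotoneOn (trunc_mono hω t)).sub
      (aemeasurable_of_monotoneOn (trunc_mono hω t0))) (M := |t - t0|) fun u _ => ?_
    exact abs_min_sub _ _ _
  have h2 := h1.add h
  refine h2.ae_eq (ae_of_all _ fun u => ?_)
  simp

theorem hasDerivAt_min (hω : Nice ω) (ht : t ∈ {y | 0 < cdf ω y ∧ cdf ω y < 1}) {u : ℝ}
    (hu : u ∈ Ioo (0:ℝ) 1) (hut : u ≠ cdf ω t) :
    HasDerivAt (fun x => min (quantile ω u) x) (if cdf ω t < u then 1 else 0) t := by
  have hprω := hω.prob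
  by_cases h : cdf ω t < u
  · rw [if_pos h]
    have h1 : t < quantile ω u := (lt_quantile_iff ω hu.1 hu.2 t).2 h
    refine (hasDerivAt_id' t).congr_of_eventuallyEq ?_
    filter_upwards [gt_mem_nhds h1] with x hx
    exact min_eq_right hx.le
  · rw [if_neg h]
    have h1 : u < cdf ω t := lt_of_le_of_ne (not_lt.1 h) hut
    have h2 : quantile ω u < t := by
      have := hω.quantile_strictMono hu ht h1
      rwa [hω.quantile_cdf ht] at this
    refine (hasDerivAt_const t (quantile ω u)).congr_of_eventuallyEq ?_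
    filter_upwards [lt_mem_nhds h2] with x hx
    exact min_eq_left hx.le

theorem ae_ne (c : ℝ) : ∀ᵐ u ∂unif, u ≠ c := by
  have : unif {c} = 0 :=
    Measure.absolutelyContinuous_of_le Measure.restrict_le_self (measure_singleton c)
  exact measure_eq_zero_iff_ae_notMem.1 this

theorem integral_ind (g : ℝ → ℝ) (hg : Integrable g unif) {w : ℝ} (hw : w ∈ Ioo (0:ℝ) 1) :
    ∫ u, (if w < u then (1:ℝ) else 0) * g u ∂unif = ∫ u in w..1, g u := by
  have hi : Integrable (fun u => (if w < u then (1:ℝ) else 0) * g u) unif := by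
    refine hg.bdd_mul (c := 1) ?_ ?_
    · exact (Measurable.ite measurableSet_Ioi measurable_const measurable_const).aestronglyMeasurable
    · exact ae_of_all _ fun u => by split_ifs <;> simp
  rw [integral_split hi ⟨hw.1.le, hw.2.le⟩]
  have e1 : ∫ u in (0:ℝ)..w, (if w < u then (1:ℝ) else 0) * g u = ∫ u in (0:ℝ)..w, (0:ℝ) :=
    integral_congr_Ioo hw.1.le fun u hu => by simp [not_lt.2 hu.2.le]
  have e2 : ∫ u in w..1, (if w < u then (1:ℝ) else 0) * g u = ∫ u in w..1, g u :=
    integral_congr_Ioo hw.2.le fun u hu => by simp [hu.1]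
  rw [e1, e2]; simp

theorem hasDerivAt_trunc_mul (hω : Nice ω) {t0 : ℝ} (h0 : MemLp (trunc ω t0) 2 unif)
    (ht : t ∈ {y | 0 < cdf ω y ∧ cdf ω y < 1}) {g : ℝ → ℝ} (hg : Continuous g)
    {M : ℝ} (hM : ∀ u ∈ Icc (0:ℝ) 1, |g u| ≤ M) :
    HasDerivAt (fun x => ∫ u, trunc ω x u * g u ∂unif) (∫ u in (cdf ω t)..1, g u) t := by
  have hgL : MemLp g 2 unif :=
    memLp_of_bdd hg.aemeasurable fun u hu => hM u (Ioo_subset_Icc_self hu)
  have hgi : Integrable g unif := hgL.integrable one_le_two
  have hmeas : ∀ x, AEStronglyMeasurable (fun u => trunc ω x u * g u) unif := fun x =>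
    ((aemeasurable_of_monotoneOn (trunc_mono hω x)).mul hg.aemeasurable).aestronglyMeasurable
  have key := (hasDerivAt_integral_of_dominated_loc_of_lip (𝕜 := ℝ) (μ := unif) (x₀ := t)
    (F := fun x u => trunc ω x u * g u)
    (F' := fun u => (if cdf ω t < u then (1:ℝ) else 0) * g u) (bound := fun _ => M)
    (s := univ) univ_mem (Eventually.of_forall hmeas)
    (integrable_mul2 (trunc_memLp hω h0 t) hgL) ?_ ?_ (integrable_const _) ?_).2
  · rwa [integral_ind g hgi ht] at key
  · exact ((Measurable.ite measurableSet_Ioi measurable_const measurable_const).mul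
      hg.measurable).aestronglyMeasurable
  · filter_upwards [ae_unif_mem] with u hu
    refine LipschitzOnWith.of_dist_le_mul fun x _ y _ => ?_
    have hM0 : |g u| ≤ |M| := (hM u (Ioo_subset_Icc_self hu)).trans (le_abs_self M)
    rw [Real.dist_eq, Real.dist_eq, ← sub_mul, abs_mul, mul_comm]
    refine mul_le_mul ?_ (abs_min_sub _ _ _) (abs_nonneg _) (by positivity)
    simpa using hM0
  · filter_upwards [ae_unif_mem, ae_ne (cdf ω t)] with u hu hut
    exact (hasDerivAt_min hω ht hu hut).mul_const (g u)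

theorem hasDerivAt_trunc_sq (hω : Nice ω) {t0 : ℝ} (h0 : MemLp (trunc ω t0) 2 unif)
    (ht : t ∈ {y | 0 < cdf ω y ∧ cdf ω y < 1}) :
    HasDerivAt (fun x => ∫ u, trunc ω x u ^ 2 ∂unif) (2 * t * (1 - cdf ω t)) t := by
  have hmeas : ∀ x, AEStronglyMeasurable (fun u => trunc ω x u ^ 2) unif := fun x =>
    ((aemeasurable_of_monotoneOn (trunc_mono hω x)).pow_const 2).aestronglyMeasurable
  have hb : Integrable (fun u => 2 * (|trunc ω (t + 1) u| + 2)) unif :=
    ((((trunc_memLp hω h0 (t + 1)).integrable one_le_two).abs).add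
      (integrable_const _)).const_mul _
  have key := (hasDerivAt_integral_of_dominated_loc_of_lip (𝕜 := ℝ) (μ := unif) (x₀ := t)
    (F := fun x u => trunc ω x u ^ 2)
    (F' := fun u => (if cdf ω t < u then (1:ℝ) else 0) * (2 * t))
    (bound := fun u => 2 * (|trunc ω (t + 1) u| + 2))
    (s := Metric.ball t 1) (Metric.ball_mem_nhds t one_pos) (Eventually.of_forall hmeas)
    ((trunc_memLp hω h0 t).integrable_sq) ?_ ?_ hb ?_).2
  · rw [integral_ind (fun _ => 2 * t) (integrable_const _) ht] at key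
    simp only [intervalIntegral.integral_const, smul_eq_mul] at key
    exact key.congr_deriv (by ring)
  · exact ((Measurable.ite measurableSet_Ioi measurable_const measurable_const).mul
      measurable_const).aestronglyMeasurable
  · filter_upwards [ae_unif_mem] with u hu
    refine LipschitzOnWith.of_dist_le_mul fun x hx y hy => ?_
    have hB : 0 ≤ 2 * (|trunc ω (t + 1) u| + 2) := by positivity
    rw [Real.dist_eq, Real.dist_eq]
    have hnn : ((Real.nnabs (2 * (|trunc ω (t + 1) u| + 2)) : NNReal) : ℝ)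
        = 2 * (|trunc ω (t + 1) u| + 2) := by
      rw [Real.coe_nnabs, abs_of_nonneg hB]
    rw [hnn]
    have hx' : |trunc ω x u| ≤ |trunc ω (t + 1) u| + 2 := by
      have h1 := abs_min_sub (quantile ω u) x (t + 1)
      have h2 : |x - (t + 1)| ≤ 2 := by
        rw [Metric.mem_ball, Real.dist_eq] at hx
        have h3 := abs_lt.1 hx
        rw [abs_le]; constructor <;> linarith
      have h3 := abs_sub_abs_le_abs_sub (trunc ω x u) (trunc ω (t + 1) u)
      have h4 : |trunc ω x u - trunc ω (t + 1) u| ≤ |x - (t + 1)| := h1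
      linarith
    have hy' : |trunc ω y u| ≤ |trunc ω (t + 1) u| + 2 := by
      have h1 := abs_min_sub (quantile ω u) y (t + 1)
      have h2 : |y - (t + 1)| ≤ 2 := by
        rw [Metric.mem_ball, Real.dist_eq] at hy
        have h3 := abs_lt.1 hy
        rw [abs_le]; constructor <;> linarith
      have h3 := abs_sub_abs_le_abs_sub (trunc ω y u) (trunc ω (t + 1) u)
      have h4 : |trunc ω y u - trunc ω (t + 1) u| ≤ |y - (t + 1)| := h1
      linarith
    have h5 : trunc ω x u ^ 2 - trunc ω y u ^ 2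
        = (trunc ω x u + trunc ω y u) * (trunc ω x u - trunc ω y u) := by ring
    rw [h5, abs_mul]
    refine mul_le_mul ?_ (abs_min_sub _ _ _) (abs_nonneg _) hB
    have := abs_add_le (trunc ω x u) (trunc ω y u)
    linarith
  · filter_upwards [ae_unif_mem, ae_ne (cdf ω t)] with u hu hut
    have h1 := (hasDerivAt_min hω ht hu hut).fun_pow 2
    refine h1.congr_deriv ?_
    by_cases h : cdf ω t < u
    · have h2 : t < quantile ω u := (@lt_quantile_iff ω hω.prob u hu.1 hu.2 t).2 h
      simp only [h, if_true, min_eq_right h2.le]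
      norm_num
    · simp [h]

/-- mean of `min(Y,t)` -/
noncomputable def mn (ω : Measure ℝ) (t : ℝ) : ℝ := ∫ u, trunc ω t u ∂unif

/-- expected order statistic of `min(Y,t)` -/
noncomputable def en (ω : Measure ℝ) (n j : ℕ) (t : ℝ) : ℝ := ∫ u, trunc ω t u * pdfU n j u ∂unif

/-- variance of `min(Y,t)` -/
noncomputable def vr (ω : Measure ℝ) (t : ℝ) : ℝ := (∫ u, trunc ω t u ^ 2 ∂unif) - mn ω t ^ 2

theorem hasDerivAt_mn (hω : Nice ω) {t0 : ℝ} (h0 : MemLp (trunc ω t0) 2 unif)
    (ht : t ∈ {y | 0 < cdf ω y ∧ cdf ω y < 1}) : HasDerivAt (mn ω) (1 - cdf ω t) t := by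
  have := hasDerivAt_trunc_mul hω h0 ht (g := fun _ => 1) continuous_const (M := 1)
    (fun u _ => by simp)
  simp only [mul_one, intervalIntegral.integral_const, smul_eq_mul] at this
  exact this

theorem hasDerivAt_en (hω : Nice ω) {t0 : ℝ} (h0 : MemLp (trunc ω t0) 2 unif) (hj : j < n)
    (ht : t ∈ {y | 0 < cdf ω y ∧ cdf ω y < 1}) :
    HasDerivAt (en ω n j) (1 - cdfU n j (cdf ω t)) t := by
  obtain ⟨M, _, hM⟩ := dens_bdd n j
  have := hasDerivAt_trunc_mul hω h0 ht (continuous_dens n j) hM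
  rw [integral_dens hj, dist_one hj] at this
  exact this

theorem hasDerivAt_vr (hω : Nice ω) {t0 : ℝ} (h0 : MemLp (trunc ω t0) 2 unif)
    (ht : t ∈ {y | 0 < cdf ω y ∧ cdf ω y < 1}) :
    HasDerivAt (vr ω) (2 * (t - mn ω t) * (1 - cdf ω t)) t := by
  refine ((hasDerivAt_trunc_sq hω h0 ht).fun_sub ((hasDerivAt_mn hω h0 ht).fun_pow 2)).congr_deriv ?_
  norm_num
  ring

theorem vr_eq (hω : Nice ω) {t0 : ℝ} (h0 : MemLp (trunc ω t0) 2 unif) (t : ℝ) :
    vr ω t = variance (trunc ω t) unif ∧
    vr ω t = ∫ u, trunc ω t u * (trunc ω t u - mn ω t) ∂unif := by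
  have hL := trunc_memLp hω h0 t
  constructor
  · rw [variance_eq_sub hL]; rfl
  · have e1 : ∀ u, trunc ω t u * (trunc ω t u - mn ω t)
        = trunc ω t u ^ 2 - mn ω t * trunc ω t u := fun u => by ring
    simp only [e1]
    rw [integral_sub hL.integrable_sq ((hL.integrable one_le_two).const_mul _), integral_const_mul]
    unfold vr mn; ring

end

end Pool.Agent.Lib.MP_c5814c_pr
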