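import Pool.Agent.Lib.MP_c5814c_pr.Ref

/-!
The sharp lower bound over the convex order family, on the uniform scale.
-/

set_option autoImplicit false

namespace Pool.Agent.Lib.QBias

open MeasureTheory ProbabilityTheory Set Filter Topology

noncomputable section

variable {W : ℝ → ℝ}

/-- The kernel of the lower bound with multiplier `κ`. -/
def hL (W : ℝ → ℝ) (n j : ℕ) (p κ : ℝ) (u : ℝ) : ℝ :=
  κ * (zc W (qf W p) u - mC W (qf W p)) + fos n j u

lemma memLp_hL (hW : IsRef W) (h2 : NegSq W) (n j : ℕ) (p κ : ℝ) : MemLp (hL W n j p κ) 2 uni :=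
  ((((memLp_zc hW h2 _).sub (memLp_const _)).const_mul κ).add (memLp_fos n j))

lemma mC_lt (hW : IsRef W) (h2 : NegSq W) {t : ℝ} (ht : t ∈ SW W) : mC W t < t := by
  have hz := memLp_zc hW h2 t
  have hi : IntegrableOn (zc W t) (Ioo 0 1) := hz.integrable (by norm_num)
  have h1 : 0 ≤ ∫ u in Ioo (0:ℝ) 1, (t - zc W t u) :=
    setIntegral_nonneg measurableSet_Ioo fun u _ => sub_nonneg.2 (min_le_right _ _)
  have h3 : ∫ u in Ioo (0:ℝ) 1, (t - zc W t u) = t - mC W t := by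
    rw [integral_sub (integrable_const _) hi, int_const_Ioo zero_le_one]
    unfold mC; ring
  rw [h3] at h1
  refine lt_of_le_of_ne (by linarith) fun h => ?_
  -- equality would force zero variance
  have h4 : ∫ u in Ioo (0:ℝ) 1, (t - zc W t u) = 0 := by rw [h3, h]; ring
  have h5 := (setIntegral_eq_zero_iff_of_nonneg_ae
    ((ae_restrict_iff' measurableSet_Ioo).2 (Eventually.of_forall fun u _ =>
      (sub_nonneg.2 (min_le_right _ _) : 0 ≤ t - zc W t u)))
    ((integrable_const t).sub hi)).1 h4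
  have h6 : vC W t = 0 := by
    unfold vC varU
    have h7 : ∀ᵐ u ∂uni, (zc W t u - ∫ v in Ioo (0:ℝ) 1, zc W t v) ^ 2 = 0 := by
      filter_upwards [h5] with u hu
      have h8 : t - zc W t u = 0 := hu
      have h9 : (∫ v in Ioo (0:ℝ) 1, zc W t v) = t := h
      rw [h9]
      have : zc W t u - t = 0 := by linarith
      rw [this]; ring
    rw [integral_congr_ae h7]; simp
  exact (vC_pos hW h2 ht).ne' h6

/-- Verification of the lower bound. -/
lemma lower_convex_aux (hW : IsRef W) (h2 : NegSq W) {n j : ℕ} {p κ u1 : ℝ} (P : Par n j p)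
    (hκ : 0 ≤ κ) (hκv : κ * vC W (qf W p) = -KC W n j p (qf W p)) (hu1 : 0 < u1) (hu1p : u1 ≤ p)
    (hneg : ∀ u ∈ Ioo (0:ℝ) u1, ∫ v in Ioo 0 u, hL W n j p κ v ≤ 0)
    (hpos : ∀ u ∈ Ioc u1 p, 0 ≤ ∫ v in Ioo 0 u, hL W n j p κ v)
    (hor : u1 = p ∨ ∫ v in Ioo 0 u1, hL W n j p κ v = 0)
    (hend : ∫ v in Ioo 0 u1, hL W n j p κ v ≤ 0)
    {φ Q : ℝ → ℝ} (hφ : ConcaveOn ℝ (SW W) φ) (hφm : MonotoneOn φ (SW W))
    (hQφ : ∀ u ∈ Ioo (0:ℝ) 1, Q u = φ (qf W u)) (hQ : MemLp Q 2 uni) :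
    -(κ * ∫ u in Ioo (0:ℝ) 1, Q u * (zc W (qf W p) u - mC W (qf W p))) ≤
      (∫ u in Ioo (0:ℝ) 1, Q u * fos n j u) - Q p := by
  have hpm : p ∈ Ioo (0:ℝ) 1 := ⟨P.hp0, P.hp1⟩
  have hpS := qf_mem_SW hW hpm
  have hu1m : u1 ∈ Ioo (0:ℝ) 1 := ⟨hu1, lt_of_le_of_lt hu1p P.hp1⟩
  set t := qf W p with ht
  set h := hL W n j p κ with hh
  have hz := memLp_zc hW h2 t
  have hz2 : MemLp (fun u => zc W t u - mC W t) 2 uni := hz.sub (memLp_const _)
  obtain ⟨c, hc0, hcl, hcr⟩ := exists_support (isOpen_SW hW) hφ hφm (qf_mem_SW hW hu1m)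
  have hL2 : MemLp h 2 uni := memLp_hL hW h2 n j p κ
  have i1 : IntegrableOn (fun u => Q u * fos n j u) (Ioo (0:ℝ) 1) := integrable_mul_fos hQ n j
  have i2 : IntegrableOn (fun u => Q u * (zc W t u - mC W t)) (Ioo (0:ℝ) 1) := hQ.integrable_mul hz2
  have i3 : IntegrableOn (fos n j) (Ioo (0:ℝ) 1) := integrableOn_fos n j 0 1
  have i4 : IntegrableOn (fun u => zc W t u - mC W t) (Ioo (0:ℝ) 1) := hz2.integrable (by norm_num)
  have i5 : IntegrableOn (fun u => zc W t u * fos n j u) (Ioo (0:ℝ) 1) := integrable_mul_fos hz n j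
  have i6 : IntegrableOn (fun u => zc W t u * (zc W t u - mC W t)) (Ioo (0:ℝ) 1) := hz.integrable_mul hz2
  let x : ℝ → ℝ := fun u => Q u - Q p - c * (zc W t u - t)
  have hx : MemLp x 2 uni := (hQ.sub (memLp_const _)).sub ((hz.sub (memLp_const _)).const_mul c)
  have ixh : IntegrableOn (fun u => x u * h u) (Ioo (0:ℝ) 1) := hx.integrable_mul hL2
  have ih : IntegrableOn h (Ioo (0:ℝ) 1) := hL2.integrable (by norm_num)
  have iQh : IntegrableOn (fun u => Q u * h u) (Ioo (0:ℝ) 1) := hQ.integrable_mul hL2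
  have izh : IntegrableOn (fun u => zc W t u * h u) (Ioo (0:ℝ) 1) := hz.integrable_mul hL2
  have hdef : ∀ u, h u = κ * (zc W t u - mC W t) + fos n j u := fun u => rfl
  have e0 : ∫ u in Ioo (0:ℝ) 1, h u = 1 := by
    simp only [hdef]
    rw [integral_add (i4.const_mul _) i3, integral_const_mul, int_zc_centered hW h2 t,
      int_fos_one P.hj P.hjn]
    ring
  have e1 : ∫ u in Ioo (0:ℝ) 1, Q u * h u = κ * (∫ u in Ioo (0:ℝ) 1, Q u * (zc W t u - mC W t)) +
      ∫ u in Ioo (0:ℝ) 1, Q u * fos n j u := by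
    have : ∀ u, Q u * h u = κ * (Q u * (zc W t u - mC W t)) + Q u * fos n j u := by
      intro u; rw [hdef]; ring
    simp only [this]
    rw [integral_add (i2.const_mul _) i1, integral_const_mul]
  have e2 : ∫ u in Ioo (0:ℝ) 1, zc W t u * h u = t := by
    have : ∀ u, zc W t u * h u = κ * (zc W t u * (zc W t u - mC W t)) + zc W t u * fos n j u := by
      intro u; rw [hdef]; ring
    simp only [this]
    rw [integral_add (i6.const_mul _) i5, integral_const_mul, ← vC_eq hW h2 t, hκv]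
    unfold KC; rw [← ht]; ring
  have e3 : ∫ u in Ioo (0:ℝ) 1, x u * h u =
      κ * (∫ u in Ioo (0:ℝ) 1, Q u * (zc W t u - mC W t)) +
      ((∫ u in Ioo (0:ℝ) 1, Q u * fos n j u) - Q p) := by
    have : ∀ u, x u * h u = (Q u * h u - Q p * h u) - (c * (zc W t u * h u) - (c * t) * h u) := by
      intro u; show (Q u - Q p - c * (zc W t u - t)) * h u = _; ring
    simp only [this]
    rw [int_sub4 iQh (ih.const_mul (Q p)) (izh.const_mul c) (ih.const_mul (c * t)),
      integral_const_mul, integral_const_mul, integral_const_mul, e0, e1, e2]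
    ring
  have hQp : Q p = φ t := hQφ p hpm
  have xp : x p = 0 := by
    show Q p - Q p - c * (zc W t p - t) = 0
    rw [zc, ← ht, min_self]; ring
  have x_formula : ∀ u ∈ Ioo (0:ℝ) 1, u ≤ p → x u = φ (qf W u) - φ t - c * (qf W u - t) := by
    intro u hu hup
    show Q u - Q p - c * (zc W t u - t) = _
    have : qf W u ≤ t := monotoneOn_qf hW.isDF hu hpm hup
    rw [zc, min_eq_left this, hQφ u hu, hQp]
  have x_mono : ∀ u ∈ Ioo (0:ℝ) 1, ∀ v ∈ Ioo (0:ℝ) 1, u ≤ v → v ≤ u1 → x u ≤ x v := by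
    intro u hu v hv huv hv1
    rw [x_formula u hu (huv.trans (hv1.trans hu1p)), x_formula v hv (hv1.trans hu1p)]
    have := hcl _ (qf_mem_SW hW hu) _ (qf_mem_SW hW hv) (monotoneOn_qf hW.isDF hu hv huv)
      (monotoneOn_qf hW.isDF hv hu1m hv1)
    linarith
  have x_anti : ∀ u ∈ Ioo (0:ℝ) 1, ∀ v ∈ Ioo (0:ℝ) 1, u ≤ v → u1 ≤ u → v ≤ p → x v ≤ x u := by
    intro u hu v hv huv hu1' hvp
    rw [x_formula u hu (huv.trans hvp), x_formula v hv hvp]
    have := hcr _ (qf_mem_SW hW hu) _ (qf_mem_SW hW hv) (monotoneOn_qf hW.isDF hu hv huv)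
      (monotoneOn_qf hW.isDF hu1m hu hu1')
    linarith
  -- region (p,1)
  have hsub3 : Ioo p 1 ⊆ Ioo (0:ℝ) 1 := Ioo_subset_Ioo_left P.hp0.le
  have part3 : 0 ≤ ∫ u in Ioo p 1, x u * h u := by
    refine setIntegral_nonneg measurableSet_Ioo fun u hu => ?_
    have hu' := hsub3 hu
    have h5 : t ≤ qf W u := monotoneOn_qf hW.isDF hpm hu' hu.1.le
    have h6 : zc W t u = t := min_eq_right h5
    refine mul_nonneg ?_ ?_
    · show 0 ≤ Q u - Q p - c * (zc W t u - t)
      rw [h6, hQφ u hu', hQp]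
      have := hφm hpS (qf_mem_SW hW hu') h5
      linarith
    · rw [hdef, h6]
      have h7 := (mC_lt hW h2 hpS).le
      have h8 := fos_nonneg n j hu'.1.le hu'.2.le
      have h9 := mul_nonneg hκ (sub_nonneg.2 h7)
      linarith
  -- region (u1,p)
  have hsub2 : Ioo u1 p ⊆ Ioo (0:ℝ) 1 := fun u hu => ⟨hu1.trans hu.1, hu.2.trans P.hp1⟩
  have part2 : 0 ≤ ∫ u in Ioo u1 p, x u * h u := by
    rcases eq_or_lt_of_le hu1p with h5 | h5
    · rw [h5]; simp
    have hH1 : ∫ v in Ioo 0 u1, h v = 0 := by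
      rcases hor with h6 | h6
      · exact absurd h6 h5.ne
      · exact h6
    refine abel_nonneg ?_ ?_ (ih.mono_set hsub2) (ixh.mono_set hsub2) ?_
    · intro u hu v hv huv
      exact x_anti u (hsub2 hu) v (hsub2 hv) huv hu.1.le hv.2.le
    · intro u hu
      have := x_anti u (hsub2 hu) p hpm hu.2.le hu.1.le le_rfl
      rwa [xp] at this
    · intro u hu
      have h6 := split_uni hu1 hu.1 (ih.mono_set (Ioo_subset_Ioo_right (hu.2.trans P.hp1.le)))
      have h7 := hpos u hu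
      rw [h6, hH1] at h7
      linarith
  -- region (0,u1)
  have hsub1 : Ioo 0 u1 ⊆ Ioo (0:ℝ) 1 := Ioo_subset_Ioo_right hu1m.2.le
  have part1 : 0 ≤ ∫ u in Ioo 0 u1, x u * h u := by
    have ixh' : IntegrableOn (fun u => (x u1 - x u) * (-h u)) (Ioo 0 u1) := by
      have : IntegrableOn (fun u => (x u1 - x u) * (-h u)) (Ioo (0:ℝ) 1) :=
        ((memLp_const (x u1)).sub hx).integrable_mul hL2.neg
      exact this.mono_set hsub1
    have h5 : 0 ≤ ∫ u in Ioo 0 u1, (x u1 - x u) * (-h u) := by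
      refine abel_nonneg ?_ ?_ (ih.mono_set hsub1).neg ixh' ?_
      · intro u hu v hv huv
        have := x_mono u (hsub1 hu) v (hsub1 hv) huv hv.2.le
        show x u1 - x v ≤ x u1 - x u
        linarith
      · intro u hu
        have := x_mono u (hsub1 hu) u1 hu1m hu.2.le le_rfl
        linarith
      · intro u hu
        rw [integral_neg]
        rcases eq_or_lt_of_le hu.2 with h6 | h6
        · rw [h6]; linarith
        · have := hneg u ⟨hu.1, h6⟩
          linarith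
    have h6 : ∫ u in Ioo 0 u1, (x u1 - x u) * (-h u) =
        (∫ u in Ioo 0 u1, x u * h u) - x u1 * ∫ u in Ioo 0 u1, h u := by
      rw [← integral_const_mul, ← integral_sub (ixh.mono_set hsub1) ((ih.mono_set hsub1).const_mul _)]
      congr 1; funext u; ring
    have h7 : x u1 * ∫ u in Ioo 0 u1, h u = 0 := by
      rcases hor with h8 | h8
      · rw [h8, xp, zero_mul]
      · rw [h8, mul_zero]
    rw [h6, h7] at h5
    linarith
  have s1 := split_uni P.hp0 P.hp1 ixh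
  have s2 : ∫ v in Ioo 0 p, x v * h v = (∫ v in Ioo 0 u1, x v * h v) + ∫ v in Ioo u1 p, x v * h v := by
    rcases eq_or_lt_of_le hu1p with h5 | h5
    · rw [h5]; simp
    · exact split_uni hu1 h5 (ixh.mono_set (Ioo_subset_Ioo_right P.hp1.le))
  rw [e3, s2] at s1
  linarith

lemma KC_qf_neg (hW : IsRef W) (h2 : NegSq W) {n j : ℕ} {p : ℝ} (P : Par n j p) :
    KC W n j p (qf W p) < 0 := by
  have hpm : p ∈ Ioo (0:ℝ) 1 := ⟨P.hp0, P.hp1⟩
  set t := qf W p with ht
  have hz := memLp_zc hW h2 t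
  have i5 : IntegrableOn (fun u => zc W t u * fos n j u) (Ioo (0:ℝ) 1) := integrable_mul_fos hz n j
  have i3 : IntegrableOn (fos n j) (Ioo (0:ℝ) 1) := integrableOn_fos n j 0 1
  have i7 : IntegrableOn (fun u => (t - zc W t u) * fos n j u) (Ioo (0:ℝ) 1) :=
    ((memLp_const t).sub hz).integrable_mul (memLp_fos n j)
  have e : KC W n j p t = - ∫ u in Ioo (0:ℝ) 1, (t - zc W t u) * fos n j u := by
    have : ∀ u, (t - zc W t u) * fos n j u = t * fos n j u - zc W t u * fos n j u := fun u => by ring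
    simp only [this]
    rw [integral_sub (i3.const_mul _) i5, integral_const_mul, int_fos_one P.hj P.hjn]
    unfold KC; rw [← ht]; ring
  rw [e]
  have hnn : ∀ u ∈ Ioo (0:ℝ) 1, 0 ≤ (t - zc W t u) * fos n j u := fun u hu =>
    mul_nonneg (sub_nonneg.2 (min_le_right _ _)) (fos_nonneg n j hu.1.le hu.2.le)
  have s := split_uni P.hp0 P.hp1 i7
  have h1 : 0 ≤ ∫ u in Ioo p 1, (t - zc W t u) * fos n j u :=
    setIntegral_nonneg measurableSet_Ioo fun u hu => hnn u ⟨P.hp0.trans hu.1, hu.2⟩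
  have h3 : 0 < ∫ u in Ioo 0 p, (t - zc W t u) * fos n j u := by
    rw [ioo_eq_interval P.hp0.le]
    refine intervalIntegral.intervalIntegral_pos_of_pos_on ?_ ?_ P.hp0
    · rw [intervalIntegrable_iff_integrableOn_Ioo_of_le P.hp0.le]
      exact i7.mono_set (Ioo_subset_Ioo_right P.hp1.le)
    · intro u hu
      have hu' : u ∈ Ioo (0:ℝ) 1 := ⟨hu.1, hu.2.trans P.hp1⟩
      have h4 : qf W u < t := strictMonoOn_qf hW hu' hpm hu.2
      refine mul_pos ?_ (fos_pos P.hj P.hjn hu'.1 hu'.2)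
      rw [zc, min_eq_left h4.le]; linarith
  linarith

lemma avg_mono {z : ℝ → ℝ} (hzm : MonotoneOn z (Ioo 0 1)) (hzi : IntegrableOn z (Ioo 0 1)) {u v : ℝ}
    (hu : 0 < u) (huv : u ≤ v) (hv : v < 1) :
    (∫ s in Ioo 0 u, z s) / u ≤ (∫ s in Ioo 0 v, z s) / v := by
  rcases eq_or_lt_of_le huv with h | h
  · rw [h]
  have hu1 : u < 1 := h.trans hv
  have s := split_uni hu h (hzi.mono_set (Ioo_subset_Ioo_right hv.le))
  have h1 : ∫ s in Ioo 0 u, z s ≤ ∫ _ in Ioo 0 u, z u := by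
    refine setIntegral_mono_on (hzi.mono_set (Ioo_subset_Ioo_right hu1.le))
      (integrableOn_const (by rw [Real.volume_Ioo]; simp)) measurableSet_Ioo fun s hs => ?_
    exact hzm ⟨hs.1, hs.2.trans hu1⟩ ⟨hu, hu1⟩ hs.2.le
  have h2 : ∫ _ in Ioo u v, z u ≤ ∫ s in Ioo u v, z s := by
    refine setIntegral_mono_on (integrableOn_const (by rw [Real.volume_Ioo]; simp))
      (hzi.mono_set (Ioo_subset_Ioo hu.le hv.le)) measurableSet_Ioo fun s hs => ?_
    exact hzm ⟨hu, hu1⟩ ⟨hu.trans hs.1, hs.2.trans hv⟩ hs.1.le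
  rw [int_const_Ioo hu.le] at h1
  rw [int_const_Ioo h.le] at h2
  rw [div_le_div_iff₀ hu (hu.trans h), s]
  nlinarith

/-- Existence of the sign change when `F(p) ≤ p f(p)`. -/
lemma exists_sign_change (hW : IsRef W) (h2 : NegSq W) {n j : ℕ} {p κ : ℝ} (P : Par n j p)
    (hκ : 0 < κ) (hκv : κ * vC W (qf W p) = -KC W n j p (qf W p))
    (hp : Fos n j p ≤ p * fos n j p) :
    ∃ u1, 0 < u1 ∧ u1 ≤ p ∧ (∀ u ∈ Ioo (0:ℝ) u1, ∫ v in Ioo 0 u, hL W n j p κ v ≤ 0) ∧
      (∀ u ∈ Ioc u1 p, 0 ≤ ∫ v in Ioo 0 u, hL W n j p κ v) ∧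
      (u1 = p ∨ ∫ v in Ioo 0 u1, hL W n j p κ v = 0) ∧
      (∫ v in Ioo 0 u1, hL W n j p κ v ≤ 0) := by
  have hpm : p ∈ Ioo (0:ℝ) 1 := ⟨P.hp0, P.hp1⟩
  have hpS := qf_mem_SW hW hpm
  set t := qf W p with ht
  set h := hL W n j p κ with hh
  have hz := memLp_zc hW h2 t
  have hzi : IntegrableOn (zc W t) (Ioo 0 1) := hz.integrable (by norm_num)
  have hz2 : MemLp (fun u => zc W t u - mC W t) 2 uni := hz.sub (memLp_const _)
  have hL2 : MemLp h 2 uni := memLp_hL hW h2 n j p κ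
  have ih : IntegrableOn h (Ioo (0:ℝ) 1) := hL2.integrable (by norm_num)
  have i3 : IntegrableOn (fos n j) (Ioo (0:ℝ) 1) := integrableOn_fos n j 0 1
  have hdef : ∀ u, h u = κ * (zc W t u - mC W t) + fos n j u := fun u => rfl
  -- formula for the prefix
  have hform : ∀ u ∈ Ioc (0:ℝ) p, (∫ v in Ioo 0 u, h v) =
      κ * ((∫ v in Ioo 0 u, zc W t v) - u * mC W t) + Fos n j u := by
    intro u hu
    have hsub : Ioo 0 u ⊆ Ioo (0:ℝ) 1 := Ioo_subset_Ioo_right (hu.2.trans P.hp1.le)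
    have hc : IntegrableOn (fun _ : ℝ => mC W t) (Ioo 0 u) := integrableOn_const (by rw [Real.volume_Ioo]; simp)
    simp only [hdef]
    have j1 : IntegrableOn (fun v => zc W t v - mC W t) (Ioo 0 u) := (hzi.mono_set hsub).sub hc
    rw [integral_add (j1.const_mul _) (i3.mono_set hsub),
      integral_const_mul, integral_sub (hzi.mono_set hsub) hc, int_const_Ioo hu.1.le,
      int_fos_Ioo P.hj P.hjn hu.1.le, Fos_zero P.hj]
    ring
  -- monotone quotient
  have hquot : ∀ u ∈ Ioc (0:ℝ) p, ∀ v ∈ Ioc (0:ℝ) p, u ≤ v →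
      (∫ s in Ioo 0 u, h s) / u ≤ (∫ s in Ioo 0 v, h s) / v := by
    intro u hu v hv huv
    rw [hform u hu, hform v hv]
    have h3 := avg_mono (monotoneOn_zc hW t) hzi hu.1 huv (lt_of_le_of_lt hv.2 P.hp1)
    have h4 := Fos_div_mono P.hn P.hj P.hjn P.hp1.le hp hu hv huv
    simp only at h4
    have hu0 := hu.1
    have hv0 := hv.1
    have e1 : (κ * ((∫ v in Ioo 0 u, zc W t v) - u * mC W t) + Fos n j u) / u =
        κ * ((∫ v in Ioo 0 u, zc W t v) / u) - κ * mC W t + Fos n j u / u := by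
      field_simp
    have e2 : (κ * ((∫ w in Ioo 0 v, zc W t w) - v * mC W t) + Fos n j v) / v =
        κ * ((∫ w in Ioo 0 v, zc W t w) / v) - κ * mC W t + Fos n j v / v := by
      field_simp
    rw [e1, e2]
    have := mul_le_mul_of_nonneg_left h3 hκ.le
    linarith
  -- continuity of the prefix
  have hcont : ContinuousOn (fun u => ∫ v in Ioo 0 u, h v) (Icc 0 1) := by
    have ih' : IntervalIntegrable h volume 0 1 := by
      rw [intervalIntegrable_iff_integrableOn_Ioo_of_le zero_le_one]; exact ih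
    have h3 : ContinuousOn (fun u => ∫ v in (0:ℝ)..u, h v) (Icc 0 1) := by
      have := intervalIntegral.continuousOn_primitive_interval'
        (μ := volume) (f := h) (a := 0) (b₁ := 0) (b₂ := 1) ih' (by simp)
      simpa using this
    refine h3.congr fun u hu => ?_
    exact ioo_eq_interval hu.1 h
  -- integral of (t - z) h over (0,p) vanishes
  have i5 : IntegrableOn (fun u => zc W t u * fos n j u) (Ioo (0:ℝ) 1) := integrable_mul_fos hz n j
  have i6 : IntegrableOn (fun u => zc W t u * (zc W t u - mC W t)) (Ioo (0:ℝ) 1) := hz.integrable_mul hz2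
  have i4 : IntegrableOn (fun u => zc W t u - mC W t) (Ioo (0:ℝ) 1) := hz2.integrable (by norm_num)
  have izh : IntegrableOn (fun u => zc W t u * h u) (Ioo (0:ℝ) 1) := hz.integrable_mul hL2
  have itzh : IntegrableOn (fun u => (t - zc W t u) * h u) (Ioo (0:ℝ) 1) :=
    ((memLp_const t).sub hz).integrable_mul hL2
  have e0 : ∫ u in Ioo (0:ℝ) 1, h u = 1 := by
    simp only [hdef]
    rw [integral_add (i4.const_mul _) i3, integral_const_mul, int_zc_centered hW h2 t,
      int_fos_one P.hj P.hjn]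
    ring
  have e2 : ∫ u in Ioo (0:ℝ) 1, zc W t u * h u = t := by
    have : ∀ u, zc W t u * h u = κ * (zc W t u * (zc W t u - mC W t)) + zc W t u * fos n j u := by
      intro u; rw [hdef]; ring
    simp only [this]
    rw [integral_add (i6.const_mul _) i5, integral_const_mul, ← vC_eq hW h2 t, hκv]
    unfold KC; rw [← ht]; ring
  have e3 : ∫ u in Ioo (0:ℝ) 1, (t - zc W t u) * h u = 0 := by
    have : ∀ u, (t - zc W t u) * h u = t * h u - zc W t u * h u := fun u => by ring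
    simp only [this]
    rw [integral_sub (ih.const_mul _) izh, integral_const_mul, e0, e2]; ring
  have e4 : ∫ u in Ioo 0 p, (t - zc W t u) * h u = 0 := by
    have s := split_uni P.hp0 P.hp1 itzh
    have h3 : ∫ u in Ioo p 1, (t - zc W t u) * h u = 0 := by
      rw [int_Ioo_congr (h := fun _ => 0)]; · simp
      intro u hu
      have hu' : u ∈ Ioo (0:ℝ) 1 := ⟨P.hp0.trans hu.1, hu.2⟩
      have : t ≤ qf W u := monotoneOn_qf hW.isDF hpm hu' hu.1.le
      rw [zc, min_eq_right this]; ring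
    rw [e3, h3] at s
    linarith
  -- some prefix is negative
  have hex : ∃ u ∈ Ioo (0:ℝ) p, ∫ v in Ioo 0 u, h v < 0 := by
    by_contra hcon
    push Not at hcon
    -- h positive near p
    have hcz : ContinuousAt (fun u => κ * (qf W u - mC W t) + fos n j u) p := by
      have h3 : ContinuousAt (qf W) p := (continuousOn_qf hW).continuousAt (Ioo_mem_nhds P.hp0 P.hp1)
      exact (continuousAt_const.mul (h3.sub continuousAt_const)).add (continuous_fos n j).continuousAt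
    have hval : 0 < κ * (qf W p - mC W t) + fos n j p := by
      have h3 := mC_lt hW h2 hpS
      have h4 := fos_pos P.hj P.hjn P.hp0 P.hp1
      have h5 := mul_pos hκ (sub_pos.2 h3)
      linarith
    have hev := hcz.eventually (lt_mem_nhds hval)
    obtain ⟨ε, hε, hball⟩ := Metric.eventually_nhds_iff.1 hev
    set u2 := max (p / 2) (p - ε / 2) with hu2
    have hu2a : 0 < u2 := lt_of_lt_of_le (by linarith [P.hp0]) (le_max_left _ _)
    have hu2b : u2 < p := max_lt (by linarith [P.hp0]) (by linarith)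
    have hu2m : u2 ∈ Ioo (0:ℝ) 1 := ⟨hu2a, hu2b.trans P.hp1⟩
    have hpos : ∀ u ∈ Ioo u2 p, 0 < h u := by
      intro u hu
      have hu' : u ∈ Ioo (0:ℝ) 1 := ⟨hu2a.trans hu.1, hu.2.trans P.hp1⟩
      have h3 : dist u p < ε := by
        rw [Real.dist_eq, abs_lt]
        have := le_max_right (p / 2) (p - ε / 2)
        constructor
        · have h4 := hu.1; linarith
        · linarith [hu.2]
      have h4 := hball h3
      rw [hdef, zc, min_eq_left (monotoneOn_qf hW.isDF hu' hpm hu.2.le)]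
      exact h4
    have s := split_uni hu2a hu2b (itzh.mono_set (Ioo_subset_Ioo_right P.hp1.le))
    have hsub : Ioo 0 u2 ⊆ Ioo (0:ℝ) 1 := Ioo_subset_Ioo_right hu2m.2.le
    have part2 : 0 < ∫ u in Ioo u2 p, (t - zc W t u) * h u := by
      rw [ioo_eq_interval hu2b.le]
      refine intervalIntegral.intervalIntegral_pos_of_pos_on ?_ ?_ hu2b
      · rw [intervalIntegrable_iff_integrableOn_Ioo_of_le hu2b.le]
        exact itzh.mono_set (Ioo_subset_Ioo hu2a.le P.hp1.le)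
      · intro u hu
        have hu' : u ∈ Ioo (0:ℝ) 1 := ⟨hu2a.trans hu.1, hu.2.trans P.hp1⟩
        have h4 : qf W u < t := strictMonoOn_qf hW hu' hpm hu.2
        refine mul_pos ?_ (hpos u hu)
        rw [zc, min_eq_left h4.le]; linarith
    have part1 : 0 ≤ ∫ u in Ioo 0 u2, (qf W u2 - zc W t u) * h u := by
      have i8 : IntegrableOn (fun u => (qf W u2 - zc W t u) * h u) (Ioo (0:ℝ) 1) :=
        ((memLp_const _).sub hz).integrable_mul hL2
      refine abel_nonneg ?_ ?_ (ih.mono_set hsub) (i8.mono_set hsub) ?_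
      · intro u hu v hv huv
        have := monotoneOn_zc hW t (hsub hu) (hsub hv) huv
        show qf W u2 - zc W t v ≤ qf W u2 - zc W t u
        linarith
      · intro u hu
        have h3 : qf W u ≤ qf W u2 := monotoneOn_qf hW.isDF (hsub hu) hu2m hu.2.le
        have h4 : zc W t u ≤ qf W u := min_le_left _ _
        linarith
      · intro u hu
        exact hcon u ⟨hu.1, lt_of_le_of_lt hu.2 hu2b⟩
    have h5 : ∫ u in Ioo 0 u2, (t - zc W t u) * h u =
        (∫ u in Ioo 0 u2, (qf W u2 - zc W t u) * h u) + (t - qf W u2) * ∫ u in Ioo 0 u2, h u := by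
      have i8 : IntegrableOn (fun u => (qf W u2 - zc W t u) * h u) (Ioo (0:ℝ) 1) :=
        ((memLp_const _).sub hz).integrable_mul hL2
      rw [← integral_const_mul, ← integral_add (i8.mono_set hsub) ((ih.mono_set hsub).const_mul _)]
      congr 1; funext u; ring
    have h6 : 0 ≤ (t - qf W u2) * ∫ u in Ioo 0 u2, h u := by
      refine mul_nonneg ?_ (hcon u2 ⟨hu2a, hu2b⟩)
      have := monotoneOn_qf hW.isDF hu2m hpm hu2b.le
      linarith
    rw [e4, h5] at s
    linarith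
  obtain ⟨ua, hua, hHa⟩ := hex
  let T : Set ℝ := {u | u ∈ Ioo (0:ℝ) p ∧ ∫ v in Ioo 0 u, h v < 0}
  have hTne : T.Nonempty := ⟨ua, hua, hHa⟩
  have hTb : BddAbove T := ⟨p, fun u hu => hu.1.2.le⟩
  set u1 := sSup T with hu1def
  have hu1pos : 0 < u1 := lt_of_lt_of_le hua.1 (le_csSup hTb ⟨hua, hHa⟩)
  have hu1p : u1 ≤ p := csSup_le hTne fun u hu => hu.1.2.le
  have hneg : ∀ u ∈ Ioo (0:ℝ) u1, ∫ v in Ioo 0 u, h v < 0 := by
    intro u hu
    obtain ⟨v, hv, huv⟩ := exists_lt_of_lt_csSup hTne hu.2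
    have h3 := hquot u ⟨hu.1, hu.2.le.trans hu1p⟩ v ⟨hv.1.1, hv.1.2.le⟩ huv.le
    have h4 : (∫ s in Ioo 0 v, h s) / v < 0 := div_neg_of_neg_of_pos hv.2 hv.1.1
    have h5 : (∫ s in Ioo 0 u, h s) / u < 0 := lt_of_le_of_lt h3 h4
    rw [div_lt_iff₀ hu.1, zero_mul] at h5
    exact h5
  have hposopen : ∀ u ∈ Ioo u1 p, 0 ≤ ∫ v in Ioo 0 u, h v := by
    intro u hu
    by_contra hc
    push Not at hc
    exact absurd (le_csSup hTb (show u ∈ T from ⟨⟨hu1pos.trans hu.1, hu.2⟩, hc⟩)) (not_le.2 hu.1)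
  have hu1m : u1 ∈ Icc (0:ℝ) 1 := ⟨hu1pos.le, hu1p.trans P.hp1.le⟩
  -- value at u1 is ≤ 0 by left limits
  have hend : ∫ v in Ioo 0 u1, h v ≤ 0 := by
    have h3 : Tendsto (fun u => ∫ v in Ioo 0 u, h v) (𝓝[<] u1) (𝓝 (∫ v in Ioo 0 u1, h v)) := by
      have h4 := (hcont u1 hu1m)
      refine h4.tendsto.mono_left ?_
      rw [nhdsWithin_le_iff]
      have : Ioo 0 u1 ∈ 𝓝[<] u1 := Ioo_mem_nhdsLT hu1pos
      exact mem_of_superset this fun u hu => ⟨hu.1.le, hu.2.le.trans hu1m.2⟩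
    refine le_of_tendsto h3 ?_
    have : Ioo 0 u1 ∈ 𝓝[<] u1 := Ioo_mem_nhdsLT hu1pos
    filter_upwards [this] with u hu
    exact (hneg u hu).le
  have hgt : u1 < p → 0 ≤ ∫ v in Ioo 0 u1, h v := by
    intro hlt
    have h3 : Tendsto (fun u => ∫ v in Ioo 0 u, h v) (𝓝[>] u1) (𝓝 (∫ v in Ioo 0 u1, h v)) := by
      have h4 := (hcont u1 hu1m)
      refine h4.tendsto.mono_left ?_
      rw [nhdsWithin_le_iff]
      have : Ioo u1 p ∈ 𝓝[>] u1 := Ioo_mem_nhdsGT hlt
      exact mem_of_superset this fun u hu => ⟨hu1pos.le.trans hu.1.le, hu.2.le.trans P.hp1.le⟩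
    refine ge_of_tendsto h3 ?_
    have : Ioo u1 p ∈ 𝓝[>] u1 := Ioo_mem_nhdsGT hlt
    filter_upwards [this] with u hu
    exact hposopen u hu
  have hHp : u1 < p → 0 ≤ ∫ v in Ioo 0 p, h v := by
    intro hlt
    have h3 : Tendsto (fun u => ∫ v in Ioo 0 u, h v) (𝓝[<] p) (𝓝 (∫ v in Ioo 0 p, h v)) := by
      have h4 := (hcont p ⟨P.hp0.le, P.hp1.le⟩)
      refine h4.tendsto.mono_left ?_
      rw [nhdsWithin_le_iff]
      have : Ioo u1 p ∈ 𝓝[<] p := Ioo_mem_nhdsLT hlt
      exact mem_of_superset this fun u hu => ⟨hu1pos.le.trans hu.1.le, hu.2.le.trans P.hp1.le⟩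
    refine ge_of_tendsto h3 ?_
    have : Ioo u1 p ∈ 𝓝[<] p := Ioo_mem_nhdsLT hlt
    filter_upwards [this] with u hu
    exact hposopen u hu
  refine ⟨u1, hu1pos, hu1p, fun u hu => (hneg u hu).le, ?_, ?_, hend⟩
  · intro u hu
    have hlt : u1 < p := lt_of_lt_of_le hu.1 hu.2
    rcases eq_or_lt_of_le hu.2 with h3 | h3
    · rw [h3]; exact hHp hlt
    · exact hposopen u ⟨hu.1, h3⟩
  · rcases eq_or_lt_of_le hu1p with h3 | h3
    · exact Or.inl h3
    · exact Or.inr (le_antisymm hend (hgt h3))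

/-- The lower bound for the convex order family when `F(p) ≤ p f(p)`. -/
lemma lower_convex (hW : IsRef W) (h2 : NegSq W) {n j : ℕ} {p : ℝ} (P : Par n j p)
    (hp : Fos n j p ≤ p * fos n j p)
    {φ Q : ℝ → ℝ} (hφ : ConcaveOn ℝ (SW W) φ) (hφm : MonotoneOn φ (SW W))
    (hQφ : ∀ u ∈ Ioo (0:ℝ) 1, Q u = φ (qf W u)) (hQ : MemLp Q 2 uni) :
    -((-KC W n j p (qf W p) / vC W (qf W p)) *
      ∫ u in Ioo (0:ℝ) 1, Q u * (zc W (qf W p) u - mC W (qf W p))) ≤
      (∫ u in Ioo (0:ℝ) 1, Q u * fos n j u) - Q p := by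
  have hpm : p ∈ Ioo (0:ℝ) 1 := ⟨P.hp0, P.hp1⟩
  have hv := vC_pos hW h2 (qf_mem_SW hW hpm)
  have hK := KC_qf_neg hW h2 P
  have hκ : 0 < -KC W n j p (qf W p) / vC W (qf W p) := div_pos (by linarith) hv
  have hκv : (-KC W n j p (qf W p) / vC W (qf W p)) * vC W (qf W p) = -KC W n j p (qf W p) := by
    field_simp
  obtain ⟨u1, a1, a2, a3, a4, a5, a6⟩ := exists_sign_change hW h2 P hκ hκv hp
  exact lower_convex_aux hW h2 P hκ.le hκv a1 a2 a3 a4 a5 a6 hφ hφm hQφ hQ

end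

end Pool.Agent.Lib.QBias
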