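import Pool.Agent.Lib.MP_c5814c_pr.Ref

/-!
The sharp upper bound over the convex order family, on the uniform scale.
-/

set_option autoImplicit false

namespace Pool.Agent.Lib.QBias

open MeasureTheory ProbabilityTheory Set Filter Topology

noncomputable section

variable {W : ℝ → ℝ}

/-- First order condition at the censoring level `t` with multiplier `κ`. -/
structure FOC (W : ℝ → ℝ) (n j : ℕ) (p t κ : ℝ) : Prop where
  mem : t ∈ SW W
  lt : qf W p < t
  κ0 : 0 ≤ κ
  eq1 : κ * vC W t = KC W n j p t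
  eq2 : κ * (t - mC W t) * (1 - W t) = 1 - Fos n j (W t)

lemma zc_of_le {t u : ℝ} (h : qf W u ≤ t) : zc W t u = qf W u := min_eq_left h

lemma zc_of_ge {t u : ℝ} (h : t ≤ qf W u) : zc W t u = t := min_eq_right h

/-- Verification of the upper bound. -/
lemma upper_convex (hW : IsRef W) (h2 : NegSq W) {n j : ℕ} {p t κ : ℝ} (P : Par n j p)
    (T : FOC W n j p t κ) {φ Q : ℝ → ℝ} (hφ : ConcaveOn ℝ (SW W) φ) (hφm : MonotoneOn φ (SW W))
    (hQφ : ∀ u ∈ Ioo (0:ℝ) 1, Q u = φ (qf W u)) (hQ : MemLp Q 2 uni) :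
    (∫ u in Ioo (0:ℝ) 1, Q u * fos n j u) - Q p ≤
      κ * ∫ u in Ioo (0:ℝ) 1, Q u * (zc W t u - mC W t) := by
  have hpm : p ∈ Ioo (0:ℝ) 1 := ⟨P.hp0, P.hp1⟩
  have hpS := qf_mem_SW hW hpm
  have hWt := W_mem T.mem
  have hpt : p < W t := (qf_lt_iff hW hpm T.mem).1 T.lt
  have hp1 : 0 < 1 - p := by linarith [P.hp1]
  have hz := memLp_zc hW h2 t
  have hz2 : MemLp (fun u => zc W t u - mC W t) 2 uni := hz.sub (memLp_const _)
  obtain ⟨c, hc0, hcl, hcr⟩ := exists_support (isOpen_SW hW) hφ hφm hpS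
  -- integrability
  have i1 : IntegrableOn (fun u => Q u * fos n j u) (Ioo (0:ℝ) 1) := integrable_mul_fos hQ n j
  have i2 : IntegrableOn (fun u => Q u * (zc W t u - mC W t)) (Ioo (0:ℝ) 1) := hQ.integrable_mul hz2
  have i3 : IntegrableOn (fos n j) (Ioo (0:ℝ) 1) := integrableOn_fos n j 0 1
  have i4 : IntegrableOn (fun u => zc W t u - mC W t) (Ioo (0:ℝ) 1) := hz2.integrable (by norm_num)
  have i5 : IntegrableOn (fun u => zc W t u * fos n j u) (Ioo (0:ℝ) 1) := integrable_mul_fos hz n j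
  have i6 : IntegrableOn (fun u => zc W t u * (zc W t u - mC W t)) (Ioo (0:ℝ) 1) := hz.integrable_mul hz2
  let h : ℝ → ℝ := fun u => κ * (zc W t u - mC W t) - fos n j u
  let x : ℝ → ℝ := fun u => Q u - Q p - c * (zc W t u - qf W p)
  have hh : MemLp h 2 uni := (hz2.const_mul κ).sub (memLp_fos n j)
  have hx : MemLp x 2 uni := (hQ.sub (memLp_const _)).sub ((hz.sub (memLp_const _)).const_mul c)
  have ixh : IntegrableOn (fun u => x u * h u) (Ioo (0:ℝ) 1) := hx.integrable_mul hh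
  have ih : IntegrableOn h (Ioo (0:ℝ) 1) := hh.integrable (by norm_num)
  -- values
  have e0 : ∫ u in Ioo (0:ℝ) 1, h u = -1 := by
    show ∫ u in Ioo (0:ℝ) 1, (κ * (zc W t u - mC W t) - fos n j u) = -1
    rw [integral_sub (i4.const_mul _) i3, integral_const_mul, int_zc_centered hW h2 t,
      int_fos_one P.hj P.hjn]
    ring
  have iQh : IntegrableOn (fun u => Q u * h u) (Ioo (0:ℝ) 1) := hQ.integrable_mul hh
  have izh : IntegrableOn (fun u => zc W t u * h u) (Ioo (0:ℝ) 1) := hz.integrable_mul hh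
  have e1 : ∫ u in Ioo (0:ℝ) 1, Q u * h u = κ * (∫ u in Ioo (0:ℝ) 1, Q u * (zc W t u - mC W t)) -
      ∫ u in Ioo (0:ℝ) 1, Q u * fos n j u := by
    have : ∀ u, Q u * h u = κ * (Q u * (zc W t u - mC W t)) - Q u * fos n j u := by
      intro u; show Q u * (κ * (zc W t u - mC W t) - fos n j u) = _; ring
    simp only [this]
    rw [integral_sub (i2.const_mul _) i1, integral_const_mul]
  have e2 : ∫ u in Ioo (0:ℝ) 1, zc W t u * h u = - qf W p := by
    have : ∀ u, zc W t u * h u = κ * (zc W t u * (zc W t u - mC W t)) - zc W t u * fos n j u := by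
      intro u; show zc W t u * (κ * (zc W t u - mC W t) - fos n j u) = _; ring
    simp only [this]
    rw [integral_sub (i6.const_mul _) i5, integral_const_mul, ← vC_eq hW h2 t, T.eq1]
    unfold KC; ring
  have e3 : ∫ u in Ioo (0:ℝ) 1, x u * h u =
      κ * (∫ u in Ioo (0:ℝ) 1, Q u * (zc W t u - mC W t)) -
      ((∫ u in Ioo (0:ℝ) 1, Q u * fos n j u) - Q p) := by
    have : ∀ u, x u * h u = (Q u * h u - Q p * h u) - (c * (zc W t u * h u) - (c * qf W p) * h u) := by
      intro u; show (Q u - Q p - c * (zc W t u - qf W p)) * h u = _; ring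
    simp only [this]
    rw [int_sub4 iQh (ih.const_mul (Q p)) (izh.const_mul c) (ih.const_mul (c * qf W p)),
      integral_const_mul, integral_const_mul, integral_const_mul, e0, e1, e2]
    ring
  -- sign of x
  have hQp : Q p = φ (qf W p) := hQφ p hpm
  have x_le : ∀ u ∈ Ioo (0:ℝ) 1, u ≤ W t → x u ≤ 0 := by
    intro u hu hut
    have hut' : qf W u ≤ t := (qf_le_iff hW.isDF hu t).2 hut
    show Q u - Q p - c * (zc W t u - qf W p) ≤ 0
    rw [zc_of_le hut', hQφ u hu, hQp]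
    rcases le_total u p with h5 | h5
    · have := hcl _ (qf_mem_SW hW hu) _ hpS (monotoneOn_qf hW.isDF hu hpm h5) le_rfl
      linarith
    · have := hcr _ hpS _ (qf_mem_SW hW hu) (monotoneOn_qf hW.isDF hpm hu h5) le_rfl
      linarith
  have x_mono1 : ∀ u ∈ Ioo (0:ℝ) 1, ∀ v ∈ Ioo (0:ℝ) 1, u ≤ v → v ≤ p → x u ≤ x v := by
    intro u hu v hv huv hvp
    have hv' : qf W v ≤ t := (qf_le_iff hW.isDF hv t).2 (hvp.trans hpt.le)
    have hu' : qf W u ≤ t := (monotoneOn_qf hW.isDF hu hv huv).trans hv'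
    show Q u - Q p - c * (zc W t u - qf W p) ≤ Q v - Q p - c * (zc W t v - qf W p)
    rw [zc_of_le hu', zc_of_le hv', hQφ u hu, hQφ v hv]
    have := hcl _ (qf_mem_SW hW hu) _ (qf_mem_SW hW hv) (monotoneOn_qf hW.isDF hu hv huv)
      (monotoneOn_qf hW.isDF hv hpm hvp)
    linarith
  have x_mono3 : ∀ u ∈ Ioo (0:ℝ) 1, ∀ v ∈ Ioo (0:ℝ) 1, u ≤ v → W t < u → x u ≤ x v := by
    intro u hu v hv huv htu
    have hu' : t ≤ qf W u := ((lt_qf_iff hW hu t).2 htu).le
    have hv' : t ≤ qf W v := hu'.trans (monotoneOn_qf hW.isDF hu hv huv)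
    show Q u - Q p - c * (zc W t u - qf W p) ≤ Q v - Q p - c * (zc W t v - qf W p)
    rw [zc_of_ge hu', zc_of_ge hv', hQφ u hu, hQφ v hv]
    have := hφm (qf_mem_SW hW hu) (qf_mem_SW hW hv) (monotoneOn_qf hW.isDF hu hv huv)
    linarith
  -- part 3
  have hsub3 : Ioo (W t) 1 ⊆ Ioo (0:ℝ) 1 := Ioo_subset_Ioo_left hWt.1.le
  have h_eq3 : ∀ u ∈ Ioo (W t) 1, h u = κ * (t - mC W t) - fos n j u := by
    intro u hu
    show κ * (zc W t u - mC W t) - fos n j u = _
    rw [zc_of_ge ((lt_qf_iff hW (hsub3 hu) t).2 hu.1).le]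
  have h_int3 : ∫ u in Ioo (W t) 1, h u = 0 := by
    rw [int_Ioo_congr h_eq3, integral_sub (integrable_const _) (i3.mono_set hsub3),
      int_const_Ioo hWt.2.le, int_fos_Ioo P.hj P.hjn hWt.2.le, Fos_one P.hjn]
    have := T.eq2
    linarith
  have part3 : 0 ≤ ∫ u in Ioo (W t) 1, x u * h u := by
    refine cheb_nonneg ?_ ?_ (ih.mono_set hsub3) (ixh.mono_set hsub3) h_int3
    · intro u hu v hv huv
      exact x_mono3 u (hsub3 hu) v (hsub3 hv) huv hu.1
    · intro u hu v hv huv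
      rw [h_eq3 u hu, h_eq3 v hv]
      have := antitoneOn_fos P.hj P.hn P.hjn P.hp0.le P.hp ⟨(hpt.trans hu.1).le, hu.2.le⟩
        ⟨(hpt.trans hv.1).le, hv.2.le⟩ huv
      linarith
  -- part 2
  have hsub2 : Ioo p (W t) ⊆ Ioo (0:ℝ) 1 := fun u hu => ⟨P.hp0.trans hu.1, hu.2.trans hWt.2⟩
  have h_neg2 : ∀ u ∈ Ioo p (W t), h u ≤ 0 := by
    intro u hu
    have hu01 := hsub2 hu
    have h5 : ∀ v ∈ Ioo (W t) 1, h u ≤ h v := by
      intro v hv
      show κ * (zc W t u - mC W t) - fos n j u ≤ κ * (zc W t v - mC W t) - fos n j v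
      have a1 := antitoneOn_fos P.hj P.hn P.hjn P.hp0.le P.hp ⟨hu.1.le, hu01.2.le⟩
        ⟨(hpt.trans hv.1).le, hv.2.le⟩ (hu.2.trans hv.1).le
      have a2 := monotoneOn_zc hW t hu01 (hsub3 hv) (hu.2.trans hv.1).le
      have a3 := mul_le_mul_of_nonneg_left a2 T.κ0
      nlinarith
    have h6 : ∫ _ in Ioo (W t) 1, h u ≤ ∫ v in Ioo (W t) 1, h v :=
      setIntegral_mono_on (integrableOn_const (by rw [Real.volume_Ioo]; simp)) (ih.mono_set hsub3)
        measurableSet_Ioo h5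
    rw [h_int3, int_const_Ioo hWt.2.le] at h6
    have h7 : 0 < 1 - W t := by linarith [hWt.2]
    by_contra hcon
    push Not at hcon
    have := mul_pos h7 hcon
    linarith
  have part2 : 0 ≤ ∫ u in Ioo p (W t), x u * h u := by
    refine setIntegral_nonneg measurableSet_Ioo fun u hu => ?_
    exact mul_nonneg_of_nonpos_of_nonpos (x_le u (hsub2 hu) hu.2.le) (h_neg2 u hu)
  -- part 1
  have hsub1 : Ioo 0 p ⊆ Ioo (0:ℝ) 1 := Ioo_subset_Ioo_right P.hp1.le
  have ixz : IntegrableOn (fun u => x u * (zc W t u - mC W t)) (Ioo (0:ℝ) 1) := hx.integrable_mul hz2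
  have ixf : IntegrableOn (fun u => x u * fos n j u) (Ioo (0:ℝ) 1) := integrable_mul_fos hx n j
  have part1a : 0 ≤ ∫ u in Ioo (0:ℝ) p, x u * (zc W t u - mC W t) := by
    let X : ℝ → ℝ := (Ioo (0:ℝ) p).indicator x
    have hX : MonotoneOn X (Ioo 0 1) := by
      intro u hu v hv huv
      show (Ioo (0:ℝ) p).indicator x u ≤ (Ioo (0:ℝ) p).indicator x v
      rcases lt_or_ge v p with h5 | h5
      · rw [indicator_of_mem (show v ∈ Ioo 0 p from ⟨hv.1, h5⟩),
          indicator_of_mem (show u ∈ Ioo 0 p from ⟨hu.1, lt_of_le_of_lt huv h5⟩)]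
        exact x_mono1 u hu v hv huv h5.le
      · rw [indicator_of_notMem (show v ∉ Ioo 0 p from fun h6 => absurd h6.2 (not_lt.2 h5))]
        rw [Set.indicator_apply]
        split_ifs with h6
        · exact x_le u hu (h6.2.le.trans hpt.le)
        · exact le_rfl
    have h5 : ∀ u, X u * (zc W t u - mC W t) =
        (Ioo (0:ℝ) p).indicator (fun u => x u * (zc W t u - mC W t)) u := by
      intro u
      show (Ioo (0:ℝ) p).indicator x u * (zc W t u - mC W t) = _
      rw [Set.indicator_apply, Set.indicator_apply]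
      split_ifs <;> simp
    have h6 : 0 ≤ ∫ u in Ioo (0:ℝ) 1, X u * (zc W t u - mC W t) := by
      refine cheb_nonneg hX ?_ i4 ?_ (int_zc_centered hW h2 t)
      · intro u hu v hv huv
        have := monotoneOn_zc hW t hu hv huv
        show zc W t u - mC W t ≤ zc W t v - mC W t
        linarith
      · simp only [h5]
        exact ixz.indicator measurableSet_Ioo
    simp only [h5] at h6
    rw [setIntegral_indicator measurableSet_Ioo, Set.inter_eq_right.2 hsub1] at h6
    exact h6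
  have part1 : 0 ≤ ∫ u in Ioo (0:ℝ) p, x u * h u := by
    have h5 : ∀ u, x u * h u = κ * (x u * (zc W t u - mC W t)) - x u * fos n j u := by
      intro u; show x u * (κ * (zc W t u - mC W t) - fos n j u) = _; ring
    simp only [h5]
    rw [integral_sub ((ixz.mono_set hsub1).const_mul _) (ixf.mono_set hsub1), integral_const_mul]
    have h6 : ∫ u in Ioo (0:ℝ) p, x u * fos n j u ≤ 0 := by
      refine setIntegral_nonpos measurableSet_Ioo fun u hu => ?_
      refine mul_nonpos_of_nonpos_of_nonneg (x_le u (hsub1 hu) (hu.2.trans hpt).le) ?_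
      exact fos_nonneg n j hu.1.le (hsub1 hu).2.le
    have h7 := mul_nonneg T.κ0 part1a
    linarith
  have s1 := split_uni P.hp0 P.hp1 ixh
  have s2 := split_uni hpt hWt.2 (ixh.mono_set (Ioo_subset_Ioo_left P.hp0.le))
  rw [e3, s2] at s1
  linarith

end

end Pool.Agent.Lib.QBias
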