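import Pool.Agent.Lib.MP_c5814c_pr.ConvSup
import Pool.Agent.Lib.MP_c5814c_pr.ConvInf

/-!
Existence of the optimal censoring level for the upper bound over the convex order family.
-/

set_option autoImplicit false

namespace Pool.Agent.Lib.QBias

open MeasureTheory ProbabilityTheory Set Filter Topology

noncomputable section

variable {W : ℝ → ℝ}

/-- `(t - w(u))_+`. -/
def pc (W : ℝ → ℝ) (t : ℝ) (u : ℝ) : ℝ := max (t - qf W u) 0

lemma pc_eq (t u : ℝ) : pc W t u = t - zc W t u := by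
  unfold pc zc
  rcases le_total (qf W u) t with h | h
  · rw [min_eq_left h, max_eq_left (by linarith)]
  · rw [min_eq_right h, max_eq_right (by linarith)]; ring

lemma pc_nonneg (t u : ℝ) : 0 ≤ pc W t u := le_max_right _ _

lemma memLp_pc (hW : IsRef W) (h2 : NegSq W) (t : ℝ) : MemLp (pc W t) 2 uni := by
  have h : pc W t = fun u => t - zc W t u := by funext u; exact pc_eq t u
  rw [h]; exact (memLp_const t).sub (memLp_zc hW h2 t)

/-- `E (t - Y)_+`. -/
def a1 (W : ℝ → ℝ) (t : ℝ) : ℝ := ∫ u in Ioo (0:ℝ) 1, pc W t u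
/-- `E (t - Y)_+^2`. -/
def a2 (W : ℝ → ℝ) (t : ℝ) : ℝ := ∫ u in Ioo (0:ℝ) 1, pc W t u ^ 2
/-- `E (t - Y_{j:n})_+`. -/
def b1 (W : ℝ → ℝ) (n j : ℕ) (t : ℝ) : ℝ := ∫ u in Ioo (0:ℝ) 1, pc W t u * fos n j u

lemma a1_eq (hW : IsRef W) (h2 : NegSq W) (t : ℝ) : a1 W t = t - mC W t := by
  have hz := memLp_zc hW h2 t
  have hi : IntegrableOn (zc W t) (Ioo 0 1) := hz.integrable (by norm_num)
  unfold a1 mC
  simp only [pc_eq]
  rw [integral_sub (integrable_const _) hi, int_const_Ioo zero_le_one]; ring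

lemma vC_eq2 (hW : IsRef W) (h2 : NegSq W) (t : ℝ) : vC W t = a2 W t - a1 W t ^ 2 := by
  have hp := memLp_pc hW h2 t
  have hi : IntegrableOn (pc W t) (Ioo 0 1) := hp.integrable (by norm_num)
  have e : ∀ u, (zc W t u - ∫ v in Ioo (0:ℝ) 1, zc W t v) ^ 2 =
      (pc W t u ^ 2 - 2 * a1 W t * pc W t u) + a1 W t ^ 2 := by
    intro u
    have h1 : (∫ v in Ioo (0:ℝ) 1, zc W t v) = t - a1 W t := by
      have := a1_eq hW h2 t
      unfold mC at this
      linarith
    rw [h1]
    have h3 : zc W t u = t - pc W t u := by rw [pc_eq]; ring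
    rw [h3]; ring
  unfold vC varU
  simp only [e]
  have j1 : IntegrableOn (fun u => pc W t u ^ 2 - 2 * a1 W t * pc W t u) (Ioo (0:ℝ) 1) :=
    hp.integrable_sq.sub (hi.const_mul _)
  rw [integral_add j1 (integrable_const _), integral_sub hp.integrable_sq (hi.const_mul _),
    integral_const_mul, int_const_Ioo zero_le_one]
  show a2 W t - 2 * a1 W t * a1 W t + (1 - 0) * a1 W t ^ 2 = _
  ring

lemma KC_eq (hW : IsRef W) (h2 : NegSq W) {n j : ℕ} {p : ℝ} (P : Par n j p) (t : ℝ) :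
    KC W n j p t = t - qf W p - b1 W n j t := by
  have hz := memLp_zc hW h2 t
  have i5 : IntegrableOn (fun u => zc W t u * fos n j u) (Ioo (0:ℝ) 1) := integrable_mul_fos hz n j
  have i3 : IntegrableOn (fos n j) (Ioo (0:ℝ) 1) := integrableOn_fos n j 0 1
  unfold b1
  simp only [pc_eq]
  have : ∀ u, (t - zc W t u) * fos n j u = t * fos n j u - zc W t u * fos n j u := fun u => by ring
  simp only [this]
  rw [integral_sub (i3.const_mul _) i5, integral_const_mul, int_fos_one P.hj P.hjn]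
  unfold KC; ring

lemma ae_ne_point (c : ℝ) : ∀ᵐ u ∂uni, u ≠ c := by
  refine ae_restrict_of_ae ?_
  have : (volume : Measure ℝ) {c} = 0 := Real.volume_singleton
  exact (compl_mem_ae_iff.2 this : {c}ᶜ ∈ ae volume)

/-- Derivative of `t ↦ E (t - Y)_+ g(U)` for bounded `g`. -/
lemma hasDerivAt_pc_mul (hW : IsRef W) (h2 : NegSq W) {t : ℝ} (ht : t ∈ SW W) {g : ℝ → ℝ}
    (hg : MemLp g 2 uni) :
    HasDerivAt (fun s => ∫ u in Ioo (0:ℝ) 1, pc W s u * g u) (∫ u in Ioo 0 (W t), g u) t := by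
  have hgi : IntegrableOn g (Ioo 0 1) := hg.integrable (by norm_num)
  have hWt := W_mem ht
  have key := hasDerivAt_integral_of_dominated_loc_of_lip (μ := uni) (𝕜 := ℝ)
    (F := fun s u => pc W s u * g u) (F' := fun u => (Ioo 0 (W t)).indicator g u) (x₀ := t)
    (s := univ) (bound := fun u => |g u|) univ_mem ?_ ?_ ?_ ?_ ?_ ?_
  · have h3 := key.2
    rw [setIntegral_indicator measurableSet_Ioo, Set.inter_eq_right.2
      (Ioo_subset_Ioo_right hWt.2.le)] at h3
    exact h3
  · exact Eventually.of_forall fun s =>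
      ((memLp_pc hW h2 s).aestronglyMeasurable.mul hg.aestronglyMeasurable)
  · exact (memLp_pc hW h2 t).integrable_mul hg
  · exact hg.aestronglyMeasurable.indicator measurableSet_Ioo
  · refine Eventually.of_forall fun u => ?_
    refine LipschitzOnWith.of_dist_le_mul fun x _ y _ => ?_
    rw [Real.dist_eq, Real.dist_eq, ← sub_mul, abs_mul]
    have h3 : |pc W x u - pc W y u| ≤ |x - y| := by
      unfold pc
      calc |max (x - qf W u) 0 - max (y - qf W u) 0| ≤ max |(x - qf W u) - (y - qf W u)| |(0:ℝ) - 0| :=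
            abs_max_sub_max_le_max _ _ _ _
        _ = |x - y| := by
            rw [sub_zero, abs_zero, max_eq_left (abs_nonneg _)]
            congr 1; ring
    rw [show ((Real.nnabs |g u| : NNReal) : ℝ) = |g u| by simp]
    rw [mul_comm]
    exact mul_le_mul_of_nonneg_left h3 (abs_nonneg _)
  · exact hgi.abs
  · filter_upwards [ae_ne_point (W t), (ae_restrict_iff' measurableSet_Ioo).2
      (Eventually.of_forall fun u hu => hu)] with u hu1 hu2
    rcases lt_or_gt_of_ne hu1 with h3 | h3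
    · rw [indicator_of_mem (show u ∈ Ioo 0 (W t) from ⟨hu2.1, h3⟩)]
      have h4 : qf W u < t := (qf_lt_iff hW hu2 ht).2 h3
      have h5 : HasDerivAt (fun s => (s - qf W u) * g u) (1 * g u) t :=
        ((hasDerivAt_id t).sub_const _).mul_const _
      rw [one_mul] at h5
      refine h5.congr_of_eventuallyEq ?_
      filter_upwards [lt_mem_nhds h4] with s hs
      show pc W s u * g u = _
      rw [pc, max_eq_left (by linarith)]
    · rw [indicator_of_notMem (show u ∉ Ioo 0 (W t) from fun h => absurd h.2 (not_lt.2 h3.le))]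
      have h4 : t < qf W u := (lt_qf_iff hW hu2 t).2 h3
      refine (hasDerivAt_const t (0:ℝ)).congr_of_eventuallyEq ?_
      filter_upwards [gt_mem_nhds h4] with s hs
      show pc W s u * g u = _
      rw [pc, max_eq_right (by linarith), zero_mul]

lemma hasDerivAt_a1 (hW : IsRef W) (h2 : NegSq W) {t : ℝ} (ht : t ∈ SW W) :
    HasDerivAt (a1 W) (W t) t := by
  have h := hasDerivAt_pc_mul hW h2 ht (g := fun _ => 1) (memLp_const 1)
  rw [int_const_Ioo (W_mem ht).1.le] at h
  have e : a1 W = fun s => ∫ u in Ioo (0:ℝ) 1, pc W s u * (fun _ => 1) u := by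
    funext s; unfold a1; simp
  rw [e]
  exact h.congr_deriv (by ring)

lemma hasDerivAt_b1 (hW : IsRef W) (h2 : NegSq W) {n j : ℕ} (hj : 1 ≤ j) (hjn : j ≤ n) {t : ℝ}
    (ht : t ∈ SW W) : HasDerivAt (b1 W n j) (Fos n j (W t)) t := by
  have h := hasDerivAt_pc_mul hW h2 ht (memLp_fos n j)
  rw [int_fos_Ioo hj hjn (W_mem ht).1.le, Fos_zero hj, sub_zero] at h
  exact h

lemma hasDerivAt_a2 (hW : IsRef W) (h2 : NegSq W) (t : ℝ) :
    HasDerivAt (a2 W) (2 * a1 W t) t := by
  have key := hasDerivAt_integral_of_dominated_loc_of_deriv_le (μ := uni) (𝕜 := ℝ)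
    (F := fun s u => pc W s u ^ 2) (F' := fun s u => 2 * pc W s u) (x₀ := t)
    (s := Metric.ball t 1) (bound := fun u => 2 * pc W (t + 1) u) (Metric.ball_mem_nhds t one_pos)
    ?_ ?_ ?_ ?_ ?_ ?_
  · have h3 := key.2
    rw [integral_const_mul] at h3
    exact h3
  · exact Eventually.of_forall fun s => (memLp_pc hW h2 s).aestronglyMeasurable.pow 2
  · exact (memLp_pc hW h2 t).integrable_sq
  · exact (memLp_pc hW h2 t).aestronglyMeasurable.const_mul 2
  · refine Eventually.of_forall fun u s hs => ?_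
    rw [Real.norm_of_nonneg (mul_nonneg zero_le_two (pc_nonneg s u))]
    rw [Metric.mem_ball, Real.dist_eq, abs_lt] at hs
    refine mul_le_mul_of_nonneg_left ?_ zero_le_two
    exact max_le_max_right 0 (by linarith [hs.2])
  · exact ((memLp_pc hW h2 (t + 1)).integrable (by norm_num)).const_mul 2
  · refine Eventually.of_forall fun u s _ => ?_
    -- derivative of the square of the positive part
    rcases lt_trichotomy s (qf W u) with h3 | h3 | h3
    · have h4 : pc W s u = 0 := max_eq_right (by linarith)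
      rw [h4, mul_zero]
      refine (hasDerivAt_const s (0:ℝ)).congr_of_eventuallyEq ?_
      filter_upwards [gt_mem_nhds h3] with r hr
      show pc W r u ^ 2 = 0
      rw [pc, max_eq_right (by linarith)]; ring
    · have h4 : pc W s u = 0 := max_eq_right (by linarith)
      rw [h4, mul_zero]
      rw [hasDerivAt_iff_isLittleO, Asymptotics.isLittleO_iff]
      intro c hc
      filter_upwards [Metric.ball_mem_nhds s hc] with r hr
      rw [Metric.mem_ball, Real.dist_eq] at hr
      simp only [smul_zero, sub_zero, h4, ne_eq, OfNat.ofNat_ne_zero, not_false_eq_true, zero_pow]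
      rw [Real.norm_eq_abs, abs_of_nonneg (sq_nonneg _), Real.norm_eq_abs]
      have h5 : pc W r u ≤ |r - s| := by
        unfold pc
        refine max_le ?_ (abs_nonneg _)
        rw [← h3]; exact le_abs_self _
      have h6 := pc_nonneg (W := W) r u
      nlinarith [abs_nonneg (r - s)]
    · have h4 : pc W s u = s - qf W u := max_eq_left (by linarith)
      rw [h4]
      have h5' : HasDerivAt (fun r => (r - qf W u) ^ 2) (((2:ℕ):ℝ) * (s - qf W u) ^ (2 - 1) * 1) s :=
        ((hasDerivAt_id s).sub_const (qf W u)).pow 2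
      have h5 : HasDerivAt (fun r => (r - qf W u) ^ 2) (2 * (s - qf W u)) s :=
        h5'.congr_deriv (by simp)
      refine h5.congr_of_eventuallyEq ?_
      filter_upwards [lt_mem_nhds h3] with r hr
      show pc W r u ^ 2 = _
      rw [pc, max_eq_left (by linarith)]

lemma continuousOn_a1 (hW : IsRef W) (h2 : NegSq W) : ContinuousOn (a1 W) (SW W) :=
  fun _ ht => (hasDerivAt_a1 hW h2 ht).continuousAt.continuousWithinAt

lemma continuousOn_KC (hW : IsRef W) (h2 : NegSq W) {n j : ℕ} {p : ℝ} (P : Par n j p) :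
    ContinuousOn (KC W n j p) (SW W) := by
  have h : KC W n j p = fun t => t - qf W p - b1 W n j t := funext fun t => KC_eq hW h2 P t
  rw [h]
  intro t ht
  exact ((continuous_id.sub continuous_const).continuousAt.sub
    (hasDerivAt_b1 hW h2 P.hj P.hjn ht).continuousAt).continuousWithinAt

lemma continuousOn_vC (hW : IsRef W) (h2 : NegSq W) : ContinuousOn (vC W) (SW W) := by
  have h : vC W = fun t => a2 W t - a1 W t ^ 2 := funext fun t => vC_eq2 hW h2 t
  rw [h]
  intro t ht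
  exact ((hasDerivAt_a2 hW h2 t).continuousAt.sub
    ((hasDerivAt_a1 hW h2 ht).continuousAt.pow 2)).continuousWithinAt

lemma hasDerivAt_KC (hW : IsRef W) (h2 : NegSq W) {n j : ℕ} {p : ℝ} (P : Par n j p) {t : ℝ}
    (ht : t ∈ SW W) : HasDerivAt (KC W n j p) (1 - Fos n j (W t)) t := by
  have h : KC W n j p = fun t => t - qf W p - b1 W n j t := funext fun t => KC_eq hW h2 P t
  rw [h]
  exact ((hasDerivAt_id t).sub_const _).sub (hasDerivAt_b1 hW h2 P.hj P.hjn ht)

lemma hasDerivAt_vC (hW : IsRef W) (h2 : NegSq W) {t : ℝ} (ht : t ∈ SW W) :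
    HasDerivAt (vC W) (2 * a1 W t * (1 - W t)) t := by
  have h : vC W = fun t => a2 W t - a1 W t ^ 2 := funext fun t => vC_eq2 hW h2 t
  rw [h]
  have := (hasDerivAt_a2 hW h2 t).sub ((hasDerivAt_a1 hW h2 ht).pow 2)
  refine this.congr_deriv ?_
  simp only [Nat.cast_ofNat]
  ring

lemma KC_mono (hW : IsRef W) (h2 : NegSq W) (n j : ℕ) (p : ℝ) : Monotone (KC W n j p) := by
  intro s t hst
  unfold KC
  have h3 : ∫ u in Ioo (0:ℝ) 1, zc W s u * fos n j u ≤ ∫ u in Ioo (0:ℝ) 1, zc W t u * fos n j u := by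
    refine setIntegral_mono_on (integrable_mul_fos (memLp_zc hW h2 s) n j)
      (integrable_mul_fos (memLp_zc hW h2 t) n j) measurableSet_Ioo fun u hu => ?_
    exact mul_le_mul_of_nonneg_right (min_le_min_left _ hst) (fos_nonneg n j hu.1.le hu.2.le)
  linarith

lemma a1_mono (hW : IsRef W) (h2 : NegSq W) : Monotone (a1 W) := by
  intro s t hst
  unfold a1
  refine setIntegral_mono_on ((memLp_pc hW h2 s).integrable (by norm_num))
    ((memLp_pc hW h2 t).integrable (by norm_num)) measurableSet_Ioo fun u _ => ?_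
  exact max_le_max_right 0 (by linarith)

lemma one_sub_Fos_le {n j : ℕ} {p : ℝ} (P : Par n j p) {u : ℝ} (hu : p ≤ u) (hu1 : u ≤ 1) :
    1 - Fos n j u ≤ (1 - u) * fos n j u := by
  have h := int_fos_Ioo P.hj P.hjn hu1
  rw [Fos_one P.hjn] at h
  rw [← h, ← int_const_Ioo hu1]
  refine setIntegral_mono_on (integrableOn_fos n j u 1)
    (integrableOn_const (by rw [Real.volume_Ioo]; simp)) measurableSet_Ioo fun v hv => ?_
  exact antitoneOn_fos P.hj P.hn P.hjn P.hp0.le P.hp ⟨hu, hu1⟩ ⟨hu.trans hv.1.le, hv.2.le⟩ hv.1.le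

/-- Mean absolute deviation is at most the standard deviation. -/
lemma mad_le (hW : IsRef W) (h2 : NegSq W) (t : ℝ) :
    ∫ u in Ioo (0:ℝ) 1, |zc W t u - mC W t| ≤ Real.sqrt (vC W t) := by
  have hz := memLp_zc hW h2 t
  have hz2 : MemLp (fun u => zc W t u - mC W t) 2 uni := hz.sub (memLp_const _)
  have ha : MemLp (fun u => |zc W t u - mC W t|) 2 uni := hz2.abs
  refine Real.le_sqrt_of_sq_le ?_
  set D := ∫ u in Ioo (0:ℝ) 1, |zc W t u - mC W t| with hD
  have h0 : 0 ≤ ∫ u in Ioo (0:ℝ) 1, (|zc W t u - mC W t| - D) ^ 2 := integral_nonneg fun u => sq_nonneg _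
  have hi : IntegrableOn (fun u => |zc W t u - mC W t|) (Ioo 0 1) := ha.integrable (by norm_num)
  have e : ∀ u, (|zc W t u - mC W t| - D) ^ 2 =
      ((zc W t u - mC W t) ^ 2 - 2 * D * |zc W t u - mC W t|) + D ^ 2 := by
    intro u
    have : |zc W t u - mC W t| ^ 2 = (zc W t u - mC W t) ^ 2 := sq_abs _
    rw [← this]; ring
  simp only [e] at h0
  have j1 : IntegrableOn (fun u => (zc W t u - mC W t) ^ 2 - 2 * D * |zc W t u - mC W t|) (Ioo (0:ℝ) 1) :=
    hz2.integrable_sq.sub (hi.const_mul _)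
  rw [integral_add j1 (integrable_const _), integral_sub hz2.integrable_sq (hi.const_mul _),
    integral_const_mul, int_const_Ioo zero_le_one, ← hD] at h0
  have : vC W t = ∫ u in Ioo (0:ℝ) 1, (zc W t u - mC W t) ^ 2 := rfl
  rw [this]
  nlinarith

/-- Growth estimate of the numerator. -/
lemma KC_growth (hW : IsRef W) (h2 : NegSq W) {n j : ℕ} {p : ℝ} (P : Par n j p) {u0 t : ℝ}
    (hu0 : p < u0) (hu01 : u0 < 1) (ht : qf W u0 ≤ t) :
    KC W n j p t ≤ (qf W u0 - qf W p) + fos n j u0 * ((1 + 1 / p) * Real.sqrt (vC W t)) := by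
  have hpm : p ∈ Ioo (0:ℝ) 1 := ⟨P.hp0, P.hp1⟩
  have hu0m : u0 ∈ Ioo (0:ℝ) 1 := ⟨P.hp0.trans hu0, hu01⟩
  set wp := qf W p with hwp
  set σ := Real.sqrt (vC W t) with hσ
  have hz := memLp_zc hW h2 t
  have hz2 : MemLp (fun u => zc W t u - mC W t) 2 uni := hz.sub (memLp_const _)
  have hzi : IntegrableOn (zc W t) (Ioo 0 1) := hz.integrable (by norm_num)
  have hD := mad_le hW h2 t
  have habs : IntegrableOn (fun u => |zc W t u - mC W t|) (Ioo (0:ℝ) 1) := (hz2.abs).integrable (by norm_num)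
  have hcen : IntegrableOn (fun u => zc W t u - mC W t) (Ioo (0:ℝ) 1) := hz2.integrable (by norm_num)
  have i5 : IntegrableOn (fun u => (zc W t u - wp) * fos n j u) (Ioo (0:ℝ) 1) :=
    integrable_mul_fos (Q := fun u => zc W t u - wp) (hz.sub (memLp_const _)) n j
  have i3 : IntegrableOn (fos n j) (Ioo (0:ℝ) 1) := integrableOn_fos n j 0 1
  have eK : KC W n j p t = ∫ u in Ioo (0:ℝ) 1, (zc W t u - wp) * fos n j u := by
    have : ∀ u, (zc W t u - wp) * fos n j u = zc W t u * fos n j u - wp * fos n j u := fun u => by ring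
    simp only [this]
    rw [integral_sub (integrable_mul_fos hz n j) (i3.const_mul _), integral_const_mul,
      int_fos_one P.hj P.hjn]
    unfold KC; rw [← hwp]; ring
  have hpt : wp ≤ t := (monotoneOn_qf hW.isDF hpm hu0m hu0.le).trans ht
  -- mean bound
  have hmean : p * (mC W t - wp) ≤ σ := by
    have h3 : ∫ u in Ioo 0 p, (mC W t - zc W t u) ≤ ∫ u in Ioo (0:ℝ) 1, |zc W t u - mC W t| := by
      have h4 : ∫ u in Ioo 0 p, (mC W t - zc W t u) ≤ ∫ u in Ioo 0 p, |zc W t u - mC W t| := by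
        refine setIntegral_mono_on ?_ (habs.mono_set (Ioo_subset_Ioo_right P.hp1.le)) measurableSet_Ioo
          fun u _ => ?_
        · exact (integrableOn_const (by rw [Real.volume_Ioo]; simp)).sub
            (hzi.mono_set (Ioo_subset_Ioo_right P.hp1.le))
        · rw [abs_sub_comm]; exact le_abs_self _
      have h5 : ∫ u in Ioo 0 p, |zc W t u - mC W t| ≤ ∫ u in Ioo (0:ℝ) 1, |zc W t u - mC W t| :=
        setIntegral_mono_set habs (Eventually.of_forall fun u => abs_nonneg _)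
          (Ioo_subset_Ioo_right P.hp1.le).eventuallyLE
      linarith
    have h6 : ∫ _ in Ioo 0 p, (mC W t - wp) ≤ ∫ u in Ioo 0 p, (mC W t - zc W t u) := by
      refine setIntegral_mono_on (integrableOn_const (by rw [Real.volume_Ioo]; simp)) ?_
        measurableSet_Ioo fun u hu => ?_
      · exact (integrableOn_const (by rw [Real.volume_Ioo]; simp)).sub
          (hzi.mono_set (Ioo_subset_Ioo_right P.hp1.le))
      · have h7 : zc W t u ≤ qf W u := min_le_left _ _
        have h8 := monotoneOn_qf hW.isDF (show u ∈ Ioo (0:ℝ) 1 from ⟨hu.1, hu.2.trans P.hp1⟩) hpm hu.2.le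
        linarith
    rw [int_const_Ioo P.hp0.le] at h6
    linarith
  have hσ0 : 0 ≤ σ := Real.sqrt_nonneg _
  have hfu0 : 0 ≤ fos n j u0 := fos_nonneg n j hu0m.1.le hu01.le
  -- upper part
  have hup : ∫ u in Ioo u0 1, (zc W t u - wp) ≤ (1 + 1 / p) * σ := by
    have h3 : ∫ u in Ioo u0 1, (zc W t u - mC W t) ≤ σ := by
      have h4 : ∫ u in Ioo u0 1, (zc W t u - mC W t) ≤ ∫ u in Ioo u0 1, |zc W t u - mC W t| :=
        setIntegral_mono_on (hcen.mono_set (Ioo_subset_Ioo_left hu0m.1.le))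
          (habs.mono_set (Ioo_subset_Ioo_left hu0m.1.le)) measurableSet_Ioo fun u _ => le_abs_self _
      have h5 : ∫ u in Ioo u0 1, |zc W t u - mC W t| ≤ ∫ u in Ioo (0:ℝ) 1, |zc W t u - mC W t| :=
        setIntegral_mono_set habs (Eventually.of_forall fun u => abs_nonneg _)
          (Ioo_subset_Ioo_left hu0m.1.le).eventuallyLE
      linarith
    have h6 : ∫ u in Ioo u0 1, (zc W t u - wp) = (∫ u in Ioo u0 1, (zc W t u - mC W t)) +
        (1 - u0) * (mC W t - wp) := by
      rw [← int_const_Ioo hu01.le, ← integral_add (hcen.mono_set (Ioo_subset_Ioo_left hu0m.1.le))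
        (integrableOn_const (by rw [Real.volume_Ioo]; simp))]
      congr 1; funext u; ring
    have hp0 := P.hp0
    have h7 : (1 - u0) * (mC W t - wp) ≤ 1 / p * σ := by
      rcases le_total (mC W t - wp) 0 with h8 | h8
      · have h9 : (1 - u0) * (mC W t - wp) ≤ 0 := mul_nonpos_of_nonneg_of_nonpos (by linarith) h8
        have h10 : 0 ≤ 1 / p * σ := by positivity
        linarith
      · have h9 : (1 - u0) * (mC W t - wp) ≤ mC W t - wp := by
          nlinarith [hu0m.1]
        have h10 : mC W t - wp ≤ 1 / p * σ := by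
          rw [one_div, inv_mul_eq_div, le_div_iff₀ hp0]; linarith
        linarith
    rw [h6]; linarith
  have s := split_uni hu0m.1 hu01 i5
  rw [eK, s]
  have hC0 : 0 ≤ qf W u0 - wp := by
    have := monotoneOn_qf hW.isDF hpm hu0m hu0.le; linarith
  have part1 : ∫ u in Ioo 0 u0, (zc W t u - wp) * fos n j u ≤ qf W u0 - wp := by
    have h3 : ∫ u in Ioo 0 u0, (zc W t u - wp) * fos n j u ≤
        ∫ u in Ioo 0 u0, (qf W u0 - wp) * fos n j u := by
      refine setIntegral_mono_on (i5.mono_set (Ioo_subset_Ioo_right hu01.le))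
        ((integrableOn_fos n j 0 u0).const_mul _) measurableSet_Ioo fun u hu => ?_
      have hu' : u ∈ Ioo (0:ℝ) 1 := ⟨hu.1, hu.2.trans hu01⟩
      refine mul_le_mul_of_nonneg_right ?_ (fos_nonneg n j hu'.1.le hu'.2.le)
      have h7 : zc W t u ≤ qf W u := min_le_left _ _
      have h8 := monotoneOn_qf hW.isDF hu' hu0m hu.2.le
      linarith
    rw [integral_const_mul, int_fos_Ioo P.hj P.hjn hu0m.1.le, Fos_zero P.hj, sub_zero] at h3
    have h4 := Fos_le_one P.hj P.hjn hu0m.1.le hu01.le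
    nlinarith
  have part2 : ∫ u in Ioo u0 1, (zc W t u - wp) * fos n j u ≤ fos n j u0 * ((1 + 1 / p) * σ) := by
    have h3 : ∫ u in Ioo u0 1, (zc W t u - wp) * fos n j u ≤
        ∫ u in Ioo u0 1, fos n j u0 * (zc W t u - wp) := by
      refine setIntegral_mono_on (i5.mono_set (Ioo_subset_Ioo_left hu0m.1.le))
        (((hzi.mono_set (Ioo_subset_Ioo_left hu0m.1.le)).sub
          (integrableOn_const (by rw [Real.volume_Ioo]; simp))).const_mul _) measurableSet_Ioo fun u hu => ?_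
      have hu' : u ∈ Ioo (0:ℝ) 1 := ⟨hu0m.1.trans hu.1, hu.2⟩
      have h4 := antitoneOn_fos P.hj P.hn P.hjn P.hp0.le P.hp ⟨hu0.le, hu01.le⟩
        ⟨(hu0.trans hu.1).le, hu.2.le⟩ hu.1.le
      have h5 : 0 ≤ zc W t u - wp := by
        have h6 : wp ≤ zc W t u :=
          le_min (monotoneOn_qf hW.isDF hpm hu' (hu0.trans hu.1).le) hpt
        linarith
      rw [mul_comm]
      exact mul_le_mul_of_nonneg_right h4 h5
    rw [integral_const_mul] at h3
    exact h3.trans (mul_le_mul_of_nonneg_left hup hfu0)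
  linarith

lemma exists_u_small {n j : ℕ} {p : ℝ} (P : Par n j p) {ε : ℝ} (hε : 0 < ε) (q : ℝ) (hq : q < 1) :
    ∃ u, p < u ∧ q < u ∧ u < 1 ∧ fos n j u < ε := by
  have h1 : Tendsto (fos n j) (𝓝[<] 1) (𝓝 (fos n j 1)) :=
    (continuous_fos n j).continuousAt.tendsto.mono_left nhdsWithin_le_nhds
  rw [fos_one P.jlt] at h1
  have h2 : ∀ᶠ u in 𝓝[<] (1:ℝ), fos n j u < ε := h1.eventually (gt_mem_nhds hε)
  have h3 : Ioo (max p q) 1 ∈ 𝓝[<] (1:ℝ) := Ioo_mem_nhdsLT (max_lt P.hp1 hq)
  obtain ⟨u, hu1, hu2⟩ := (h2.and h3).exists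
  exact ⟨u, lt_of_le_of_lt (le_max_left _ _) hu2.1, lt_of_le_of_lt (le_max_right _ _) hu2.1, hu2.2, hu1⟩

/-- The first order function. -/
def NN (W : ℝ → ℝ) (n j : ℕ) (p t : ℝ) : ℝ :=
  KC W n j p t * a1 W t * (1 - W t) - (1 - Fos n j (W t)) * vC W t

lemma exists_NN_pos (hW : IsRef W) (h2 : NegSq W) {n j : ℕ} {p t1 : ℝ} (P : Par n j p)
    (ht1 : t1 ∈ SW W) (hpt1 : qf W p < t1) (hK1 : 0 < KC W n j p t1) :
    ∃ t2 ∈ SW W, t1 ≤ t2 ∧ 0 < NN W n j p t2 := by
  by_contra hcon
  push Not at hcon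
  have hpm : p ∈ Ioo (0:ℝ) 1 := ⟨P.hp0, P.hp1⟩
  have hp0 := P.hp0
  have hWt1 := W_mem ht1
  have hpW1 : p < W t1 := (qf_lt_iff hW hpm ht1).1 hpt1
  -- R^2 is nondecreasing
  let R : ℝ → ℝ := fun t => KC W n j p t ^ 2 / vC W t
  let D : Set ℝ := SW W ∩ Ici t1
  have hDconv : Convex ℝ D := (convex_SW hW).inter (convex_Ici t1)
  have hKpos : ∀ t, t1 ≤ t → 0 < KC W n j p t := fun t ht => lt_of_lt_of_le hK1 (KC_mono hW h2 n j p ht)
  have hRderiv : ∀ t ∈ SW W, HasDerivAt R ((2 * KC W n j p t * (1 - Fos n j (W t)) * vC W t -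
      KC W n j p t ^ 2 * (2 * a1 W t * (1 - W t))) / vC W t ^ 2) t := by
    intro t ht
    have h3 := ((hasDerivAt_KC hW h2 P ht).pow 2).div (hasDerivAt_vC hW h2 ht) (vC_pos hW h2 ht).ne'
    refine h3.congr_deriv ?_
    simp only [Nat.cast_ofNat, Pi.pow_apply]
    ring
  have hRmono : MonotoneOn R D := by
    refine monotoneOn_of_deriv_nonneg hDconv ?_ ?_ ?_
    · exact fun t ht => (hRderiv t ht.1).continuousAt.continuousWithinAt
    · exact fun t ht => (hRderiv t (interior_subset ht).1).differentiableAt.differentiableWithinAt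
    · intro t ht
      have ht' := interior_subset ht
      rw [(hRderiv t ht'.1).deriv]
      refine div_nonneg ?_ (sq_nonneg _)
      have h3 := hcon t ht'.1 ht'.2
      have h4 := hKpos t ht'.2
      unfold NN at h3
      nlinarith
  set r := R t1 with hr
  have hv1 := vC_pos hW h2 ht1
  have hrpos : 0 < r := by
    show 0 < KC W n j p t1 ^ 2 / vC W t1
    positivity
  have hRge : ∀ t ∈ SW W, t1 ≤ t → r * vC W t ≤ KC W n j p t ^ 2 := by
    intro t ht htt
    have h3 := hRmono (show t1 ∈ D from ⟨ht1, Set.mem_Ici.2 le_rfl⟩) (show t ∈ D from ⟨ht, htt⟩) htt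
    have h4 : r ≤ KC W n j p t ^ 2 / vC W t := h3
    rwa [le_div_iff₀ (vC_pos hW h2 ht)] at h4
  -- choose u0
  have hc : 0 < 1 + 1 / p := by positivity
  obtain ⟨u0, hu0p, hu0q, hu01, hfu0⟩ := exists_u_small P
    (show 0 < Real.sqrt r / (2 * (1 + 1 / p)) by have := Real.sqrt_pos.2 hrpos; positivity) (W t1) hWt1.2
  have hu0m : u0 ∈ Ioo (0:ℝ) 1 := ⟨hp0.trans hu0p, hu01⟩
  set C0 := qf W u0 - qf W p with hC0
  -- variance bound
  have hvb : ∀ t ∈ SW W, t1 ≤ t → qf W u0 ≤ t → vC W t ≤ 4 * C0 ^ 2 / r := by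
    intro t ht htt htu
    have h3 := KC_growth hW h2 P hu0p hu01 htu
    have h4 := hRge t ht htt
    have h5 := hKpos t htt
    have hv := vC_pos hW h2 ht
    have h6 : Real.sqrt r * Real.sqrt (vC W t) ≤ KC W n j p t := by
      rw [← Real.sqrt_mul hrpos.le]
      exact Real.sqrt_le_iff.2 ⟨h5.le, h4⟩
    have hs := Real.sqrt_nonneg (vC W t)
    have h7 : fos n j u0 * ((1 + 1 / p) * Real.sqrt (vC W t)) ≤ Real.sqrt r * Real.sqrt (vC W t) / 2 := by
      have h8 : fos n j u0 * (1 + 1 / p) ≤ Real.sqrt r / 2 := by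
        have h9 := mul_le_mul_of_nonneg_right hfu0.le hc.le
        have h10 : Real.sqrt r / (2 * (1 + 1 / p)) * (1 + 1 / p) = Real.sqrt r / 2 := by field_simp
        linarith
      nlinarith
    have h8 : Real.sqrt r * Real.sqrt (vC W t) ≤ 2 * C0 := by linarith
    have h9 : 0 ≤ Real.sqrt r * Real.sqrt (vC W t) := mul_nonneg (Real.sqrt_nonneg _) hs
    have h10 : r * vC W t ≤ 4 * C0 ^ 2 := by
      have h11 : (Real.sqrt r * Real.sqrt (vC W t)) ^ 2 = r * vC W t := by
        rw [mul_pow, Real.sq_sqrt hrpos.le, Real.sq_sqrt hv.le]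
      rw [← h11]; nlinarith
    rw [le_div_iff₀ hrpos]; linarith
  -- choose u with small density
  set V := 4 * C0 ^ 2 / r with hV
  have hV0 : 0 ≤ V := by positivity
  have ha1 : 0 < a1 W t1 := by
    rw [a1_eq hW h2]; linarith [mC_lt hW h2 ht1]
  obtain ⟨u3, h3p, h3q, h31, hf3⟩ := exists_u_small P
    (show 0 < KC W n j p t1 * a1 W t1 / (V + 1) by positivity) u0 hu01
  have h3m : u3 ∈ Ioo (0:ℝ) 1 := ⟨hp0.trans h3p, h31⟩
  set t := qf W u3 with ht
  have htS : t ∈ SW W := qf_mem_SW hW h3m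
  have hWt : W t = u3 := W_qf hW h3m
  have htt : t1 ≤ t := by
    have : W t1 < u3 := hu0q.trans h3q
    exact ((lt_qf_iff hW h3m t1).2 this).le
  have htu : qf W u0 ≤ t := monotoneOn_qf hW.isDF hu0m h3m h3q.le
  have hv := hvb t htS htt htu
  have hcont := hcon t htS htt
  unfold NN at hcont
  have hK := KC_mono hW h2 n j p htt
  have ha := a1_mono hW h2 htt
  have h1F := one_sub_Fos_le P h3p.le h31.le
  rw [hWt] at hcont
  have hvp := vC_pos hW h2 htS
  have h1u : 0 < 1 - u3 := by linarith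
  have hf0 := fos_nonneg n j h3m.1.le h31.le
  have e1 : (1 - Fos n j u3) * vC W t ≤ (1 - u3) * (fos n j u3 * V) := by
    calc (1 - Fos n j u3) * vC W t ≤ ((1 - u3) * fos n j u3) * vC W t :=
          mul_le_mul_of_nonneg_right h1F hvp.le
      _ ≤ ((1 - u3) * fos n j u3) * V := mul_le_mul_of_nonneg_left hv (by positivity)
      _ = _ := by ring
  have e2 : fos n j u3 * V < KC W n j p t1 * a1 W t1 := by
    have h4 : fos n j u3 * (V + 1) < KC W n j p t1 * a1 W t1 := by
      rwa [lt_div_iff₀ (by linarith)] at hf3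
    have : fos n j u3 * V ≤ fos n j u3 * (V + 1) := mul_le_mul_of_nonneg_left (by linarith) hf0
    linarith
  have e3 : KC W n j p t1 * a1 W t1 ≤ KC W n j p t * a1 W t :=
    mul_le_mul hK ha ha1.le (hKpos t htt).le
  have e4 : (1 - u3) * (fos n j u3 * V) < (1 - u3) * (KC W n j p t * a1 W t) :=
    mul_lt_mul_of_pos_left (lt_of_lt_of_le e2 e3) h1u
  nlinarith

/-- Existence of the optimal censoring level. -/
lemma exists_FOC (hW : IsRef W) (h2 : NegSq W) {n j : ℕ} {p t1 : ℝ} (P : Par n j p)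
    (ht1 : t1 ∈ SW W) (hpt1 : qf W p < t1) (hK1 : 0 < KC W n j p t1) :
    ∃ t, FOC W n j p t (KC W n j p t / vC W t) ∧ 0 < KC W n j p t := by
  have hpm : p ∈ Ioo (0:ℝ) 1 := ⟨P.hp0, P.hp1⟩
  have hpS := qf_mem_SW hW hpm
  have hK0 := KC_qf_neg hW h2 P
  have hoc := ordConnected_SW hW
  obtain ⟨t2, ht2, h12, hN2⟩ := exists_NN_pos hW h2 P ht1 hpt1 hK1
  -- zero of K
  have hsub1 : Icc (qf W p) t1 ⊆ SW W := hoc.out hpS ht1
  obtain ⟨t0, ht0, hKt0⟩ := intermediate_value_Icc hpt1.le ((continuousOn_KC hW h2 P).mono hsub1)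
    (show (0:ℝ) ∈ Icc (KC W n j p (qf W p)) (KC W n j p t1) from ⟨hK0.le, hK1.le⟩)
  have ht0S : t0 ∈ SW W := hsub1 ht0
  have hpt0 : qf W p < t0 := by
    refine lt_of_le_of_ne ht0.1 fun h => ?_
    rw [h] at hK0; linarith
  have hcontN : ContinuousOn (NN W n j p) (SW W) := by
    unfold NN
    refine ContinuousOn.sub ?_ ?_
    · exact ((continuousOn_KC hW h2 P).mul (continuousOn_a1 hW h2)).mul
        (continuousOn_const.sub hW.cont.continuousOn)
    · exact (continuousOn_const.sub ((continuous_Fos n j).comp hW.cont).continuousOn).mul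
        (continuousOn_vC hW h2)
  have ht02 : t0 ≤ t2 := ht0.2.trans h12
  have hsub2 : Icc t0 t2 ⊆ SW W := hoc.out ht0S ht2
  have hN0 : NN W n j p t0 < 0 := by
    unfold NN
    rw [hKt0]
    have h3 := vC_pos hW h2 ht0S
    have h4 := Fos_lt_one P.hj P.hjn (W_mem ht0S).1.le (W_mem ht0S).2
    have := mul_pos (sub_pos.2 h4) h3
    linarith
  obtain ⟨t, ht, hNt⟩ := intermediate_value_Icc ht02 (hcontN.mono hsub2)
    (show (0:ℝ) ∈ Icc (NN W n j p t0) (NN W n j p t2) from ⟨hN0.le, hN2.le⟩)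
  have htS := hsub2 ht
  have hv := vC_pos hW h2 htS
  have hK : 0 < KC W n j p t := by
    have h3 := KC_mono hW h2 n j p ht.1
    rw [hKt0] at h3
    refine lt_of_le_of_ne h3 fun h => ?_
    unfold NN at hNt
    rw [← h] at hNt
    have h4 := Fos_lt_one P.hj P.hjn (W_mem htS).1.le (W_mem htS).2
    have := mul_pos (sub_pos.2 h4) hv
    linarith
  refine ⟨t, ⟨htS, lt_of_lt_of_le hpt0 ht.1, div_nonneg hK.le hv.le, by field_simp, ?_⟩, hK⟩
  unfold NN at hNt
  rw [a1_eq hW h2] at hNt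
  have : KC W n j p t / vC W t * (t - mC W t) * (1 - W t) =
      (KC W n j p t * (t - mC W t) * (1 - W t)) / vC W t := by ring
  rw [this, div_eq_iff hv.ne']
  linarith

end

end Pool.Agent.Lib.QBias
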