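import Mathlib

/-!
Definitions: order statistics, quantile functions, the normalised bias, the star and the convex
order families.
-/

set_option autoImplicit false

namespace Pool.Agent.Lib.QBias

open MeasureTheory ProbabilityTheory Set Filter Topology

noncomputable section

/-- Distribution function of the `j`-th order statistic of `n` uniform variables:
`sum_{i=j}^n C(n,i) u^i (1-u)^(n-i)`. -/
def Fos (n j : ℕ) (u : ℝ) : ℝ :=
  ∑ i ∈ Finset.Icc j n, (n.choose i : ℝ) * u ^ i * (1 - u) ^ (n - i)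

/-- Density of the `j`-th order statistic of `n` uniform variables:
`n C(n-1,j-1) u^(j-1) (1-u)^(n-j)`. -/
def fos (n j : ℕ) (u : ℝ) : ℝ :=
  n * ((n - 1).choose (j - 1) : ℝ) * u ^ (j - 1) * (1 - u) ^ (n - j)

/-- The generalised inverse `F^{-1}(u) = inf {x : F(x) >= u}`. -/
def qf (F : ℝ → ℝ) (u : ℝ) : ℝ := sInf {x | u ≤ F x}

/-- The uniform distribution on `(0,1)`. -/
abbrev uni : Measure ℝ := volume.restrict (Ioo (0:ℝ) 1)

/-- A law given by its quantile function. -/
def lawOf (Q : ℝ → ℝ) : Measure ℝ := Measure.map Q uni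

/-- The `j`-th smallest of `n` numbers, `1 ≤ j ≤ n`. -/
def orderStat (n j : ℕ) (x : Fin n → ℝ) : ℝ :=
  if h : j - 1 < n then x (Tuple.sort x ⟨j - 1, h⟩) else 0

/-- The mean of the `j`-th order statistic of an i.i.d. sample of size `n` from `μ`. -/
def meanOS (n j : ℕ) (μ : Measure ℝ) : ℝ :=
  ∫ x, orderStat n j x ∂(Measure.pi (fun _ : Fin n => μ))

/-- The reference distribution function: continuous, strictly increasing on its support interval
`{0 < W < 1} = (a, d)`. -/
structure IsRef (W : ℝ → ℝ) : Prop where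
  cont : Continuous W
  mono : Monotone W
  bot : Tendsto W atBot (𝓝 0)
  top : Tendsto W atTop (𝓝 1)
  strict : StrictMonoOn W {y | 0 < W y ∧ W y < 1}

/-- The variance of a law on the line. -/
def var2 (μ : Measure ℝ) : ℝ := ∫ x, (x - ∫ y, y ∂μ) ^ 2 ∂μ

/-- Laws with finite positive variance. -/
structure Adm (μ : Measure ℝ) : Prop where
  prob : IsProbabilityMeasure μ
  l2 : MemLp id 2 μ
  pos : 0 < var2 μ

/-- The normalised bias of the `j`-th order statistic as an estimate of the `p`-th quantile. -/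
def bias (n j : ℕ) (p : ℝ) (μ : Measure ℝ) : ℝ :=
  (meanOS n j μ - qf (cdf μ) p) / Real.sqrt (var2 μ)

/-- The left endpoint of the support of a distribution function. -/
def lend (F : ℝ → ℝ) : ℝ := sInf {x | 0 < F x}

/-- The star order `F ⪯_* W`: both left endpoints are finite, and
`(W^{-1}(F(x)) - a) / (x - a_F)` is nondecreasing in `x > a_F`, `F(x) < 1`. -/
structure StarLE (F W : ℝ → ℝ) : Prop where
  bF : BddBelow {x | 0 < F x}
  bW : BddBelow {y | 0 < W y}
  mono : MonotoneOn (fun x => (qf W (F x) - lend W) / (x - lend F)) {x | lend F < x ∧ F x < 1}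

/-- `W^{-1} ∘ F` is convex on `{0 < F < 1}` (mass at the left endpoint of `F` allowed). -/
def ConvLit (F W : ℝ → ℝ) : Prop :=
  ConvexOn ℝ {x | 0 < F x ∧ F x < 1} (fun x => qf W (F x))

/-- The convex order `F ⪯_c W`: `W^{-1} ∘ F` is convex on `{0 < F < 1}` and `F` has no mass at its
left endpoint. -/
structure ConvLE (F W : ℝ → ℝ) : Prop where
  conv : ConvLit F W
  left : ∀ x, 0 < F x → ∃ y, y < x ∧ 0 < F y

/-- Laws below `W` in the convex order, with finite positive variance. -/
def CFam (W : ℝ → ℝ) : Set (Measure ℝ) := {μ | Adm μ ∧ ConvLE (cdf μ) W}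

/-- Laws `F` with finite positive variance and `F ⪯_* W`. -/
def StarFam (W : ℝ → ℝ) : Set (Measure ℝ) := {μ | Adm μ ∧ StarLE (cdf μ) W}

/-- The value `B` is approached by the biases of a sequence of laws from `S` whose quantile
functions, suitably centred, converge to `T` on `(0,1)` except perhaps at `p`. -/
def Approached (S : Set (Measure ℝ)) (n j : ℕ) (p B : ℝ) (T : ℝ → ℝ) : Prop :=
  ∃ (μ : ℕ → Measure ℝ) (M : ℕ → ℝ), (∀ k, μ k ∈ S) ∧
    (∀ u ∈ Ioo (0:ℝ) 1, u ≠ p → Tendsto (fun k => qf (cdf (μ k)) u - M k) atTop (𝓝 (T u))) ∧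
    Tendsto (fun k => bias n j p (μ k)) atTop (𝓝 B)

/-- The law with distribution function `W`. -/
def refLaw (W : ℝ → ℝ) : Measure ℝ := lawOf (qf W)

/-- The law of `min(Y, t)`, where `Y` has distribution function `W`. -/
def cens (W : ℝ → ℝ) (t : ℝ) : Measure ℝ := lawOf (fun u => min (qf W u) t)

/-- The law of `min(Y, W^{-1}(v))`, where `Y` has distribution function `W`. -/
def cut (W : ℝ → ℝ) (v : ℝ) : Measure ℝ := cens W (qf W v)

/-- `-B(X) Cov(X, min(Y, t)) - (t - E min(Y_{j:n}, t)) sd(X)`, where `X = F^{-1}(U)`,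
`Y = W^{-1}(U)` and `t = W^{-1}(v)`. -/
def slack (W : ℝ → ℝ) (n j : ℕ) (p : ℝ) (μ : Measure ℝ) (v : ℝ) : ℝ :=
  -bias n j p μ * (∫ u in Ioo (0:ℝ) 1,
      qf (cdf μ) u * (min (qf W u) (qf W v) - ∫ x, x ∂(cut W v))) -
    (qf W v - meanOS n j (cut W v)) * Real.sqrt (var2 μ)

end

end Pool.Agent.Lib.QBias
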