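import Mathlib

/-!
Definitions used in the statements about `MP_c5814c_pr`.  A distribution function `F` is given by
the measure `ν` on the line with `cdf ν = F`; the fixed distribution function is `W = cdf ω`.
The index `j` counts from `0`: `j : Fin n` stands for the order statistic `X_{j+1:n}`.
-/

namespace Pool.Agent.Lib.MP_c5814c_pr

open MeasureTheory ProbabilityTheory Set Filter
open scoped ENNReal Topology

/-- The quantile function `F⁻¹(u) = inf {x : F(x) ≥ u}` of a distribution on the line. -/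
noncomputable def quantile (μ : Measure ℝ) (u : ℝ) : ℝ := sInf {x | u ≤ cdf μ x}

/-- The `(j+1)`-st smallest entry of the sample `x 0, …, x (n-1)`. -/
noncomputable def ordStat {n : ℕ} (j : Fin n) (x : Fin n → ℝ) : ℝ := x (Tuple.sort x j)

/-- The normalised bias `(E X_{j+1:n} - F⁻¹(p)) / σ_F` (`j` counts from `0`). -/
noncomputable def bias (n : ℕ) (j : Fin n) (p : ℝ) (ν : Measure ℝ) : ℝ :=
  ((∫ x, ordStat j x ∂(Measure.pi fun _ : Fin n => ν)) - quantile ν p) / √(variance id ν)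

/-- The laws with finite nonzero variance. -/
def Proper (ν : Measure ℝ) : Prop :=
  IsProbabilityMeasure ν ∧ MemLp id 2 ν ∧ 0 < variance id ν

/-- The star order `ν ≤_* ω`: both left endpoints are finite and
`(W⁻¹(F(x)) - a) / (x - a_F)` is nondecreasing in `x` between the endpoints of `F`. -/
def StarLE (ν ω : Measure ℝ) : Prop :=
  BddBelow {y | 0 < cdf ω y} ∧ BddBelow {x | 0 < cdf ν x} ∧
  MonotoneOn (fun x => (quantile ω (cdf ν x) - sInf {y | 0 < cdf ω y}) /
      (x - sInf {x | 0 < cdf ν x})) {x | sInf {x | 0 < cdf ν x} < x ∧ cdf ν x < 1}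

/-- The laws with finite nonzero variance below `ω` in the star order. -/
def starFamily (ω : Measure ℝ) : Set (Measure ℝ) := {ν | Proper ν ∧ StarLE ν ω}

/-- The convex transform order `ν ≤_c ω`: `W⁻¹ ∘ F` is convex between the endpoints of `F`, and
`F` has no atom at its left endpoint. -/
def ConvexLE (ν ω : Measure ℝ) : Prop :=
  ConvexOn ℝ {x | 0 < cdf ν x ∧ cdf ν x < 1} (fun x => quantile ω (cdf ν x)) ∧
  ∀ ε > 0, ∃ x, 0 < cdf ν x ∧ cdf ν x < ε

/-- The laws with finite nonzero variance below `ω` in the convex order. -/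
def convexFamily (ω : Measure ℝ) : Set (Measure ℝ) := {ν | Proper ν ∧ ConvexLE ν ω}

/-- Density of the `(j+1)`-st order statistic of `n` uniform variables. -/
noncomputable def pdfU (n j : ℕ) (u : ℝ) : ℝ :=
  n * (n - 1).choose j * u ^ j * (1 - u) ^ (n - 1 - j)

/-- Distribution function of the `(j+1)`-st order statistic of `n` uniform variables. -/
noncomputable def cdfU (n j : ℕ) (u : ℝ) : ℝ :=
  ∑ i ∈ (Finset.range (n + 1)).filter (fun i => j < i), n.choose i * u ^ i * (1 - u) ^ (n - i)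

/-- `s` is the point where the average of the density over `(0,s)` equals its value at `s`
(and `s = 0` for the sample minimum). -/
def IsSwitch (n j : ℕ) (s : ℝ) : Prop :=
  (j = 0 ∧ s = 0) ∨ (0 < j ∧ 0 < s ∧ s < 1 ∧ cdfU n j s = s * pdfU n j s)

/-- The limit shape for the lower bound over the star family: `-cdfU(m)/m` on `(0,m]`,
`-pdfU` on `(m,p]`, `cdfU(p)/(1-p)` on `(p,1)`. -/
noncomputable def HC (n j : ℕ) (p m u : ℝ) : ℝ :=
  if u ≤ m then -(cdfU n j m / m) else if u ≤ p then - pdfU n j u else cdfU n j p / (1 - p)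

/-- The square of the lower bound over the star family. -/
noncomputable def lowSq (n j : ℕ) (p m : ℝ) : ℝ :=
  cdfU n j m ^ 2 / m + (∫ u in m..p, pdfU n j u ^ 2) + cdfU n j p ^ 2 / (1 - p)

/-- The standardised quantile function of `ν`. -/
noncomputable def stdQ (ν : Measure ℝ) (u : ℝ) : ℝ :=
  (quantile ν u - ∫ x, x ∂ν) / √(variance id ν)

/-- Convex nonincreasing functions on the support interval vanishing from the `p`-quantile on. -/
def IsPen (ω : Measure ℝ) (p : ℝ) (k : ℝ → ℝ) : Prop :=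
  ConvexOn ℝ {y | 0 < cdf ω y ∧ cdf ω y < 1} k ∧
  AntitoneOn k {y | 0 < cdf ω y ∧ cdf ω y < 1} ∧
  ∀ y ∈ {y | 0 < cdf ω y ∧ cdf ω y < 1}, quantile ω p ≤ y → k y = 0

/-- The equation for the truncation level `t` in the upper bound over the convex family
(`Y` has distribution function `W`): `y_p < t`, `W(t) < 1`, `y_p < E min(Y_{j+1:n}, t)` and
`(1 - cdfU(W(t))) Var min(Y, t) = (E min(Y_{j+1:n}, t) - y_p) (t - E min(Y, t)) (1 - W(t))`. -/
def IsOpt (ω : Measure ℝ) (n : ℕ) (j : Fin n) (p t : ℝ) : Prop :=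
  quantile ω p < t ∧ cdf ω t < 1 ∧
  quantile ω p < ∫ x, min (ordStat j x) t ∂(Measure.pi fun _ : Fin n => ω) ∧
  (1 - cdfU n j (cdf ω t)) * Var[fun y => min y t; ω]
    = ((∫ x, min (ordStat j x) t ∂(Measure.pi fun _ : Fin n => ω)) - quantile ω p)
      * (t - ∫ y, min y t ∂ω) * (1 - cdf ω t)

/-- The variational problem for the lower bound over the convex family: `P(Y)` is square
integrable, `E (t - Y_{j+1:n})⁺ ≤ Cov((t - Y)⁺, P(Y))` for all `t ≤ y_p` in the support, and
`E P(Y_{j+1:n}) = Var P(Y)`. -/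
def IsSol (ω : Measure ℝ) (n : ℕ) (j : Fin n) (p : ℝ) (P : ℝ → ℝ) : Prop :=
  IsPen ω p P ∧ MemLp P 2 ω ∧
  (∀ t, 0 < cdf ω t → t ≤ quantile ω p →
    ∫ x, max (t - ordStat j x) 0 ∂(Measure.pi fun _ : Fin n => ω)
      ≤ cov[fun y => max (t - y) 0, P; ω]) ∧
  ∫ x, P (ordStat j x) ∂(Measure.pi fun _ : Fin n => ω) = Var[P; ω]

/-- Equality at `t` in the inequality of `IsSol`. -/
def Tight (ω : Measure ℝ) (n : ℕ) (j : Fin n) (P : ℝ → ℝ) (t : ℝ) : Prop :=
  ∫ x, max (t - ordStat j x) 0 ∂(Measure.pi fun _ : Fin n => ω) = cov[fun y => max (t - y) 0, P; ω]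

/-- Right of its mode `j/(n-1)` and up to the level `p`, the function `pdfU ∘ W` is concave up to
the level `w0` and convex from there on. -/
def Shaped (ω : Measure ℝ) (n j : ℕ) (p w0 : ℝ) : Prop :=
  (j : ℝ) / (n - 1) ≤ w0 ∧ w0 ≤ p ∧
  ConcaveOn ℝ {y | 0 < cdf ω y ∧ (j : ℝ) / (n - 1) ≤ cdf ω y ∧ cdf ω y ≤ w0}
    (fun y => pdfU n j (cdf ω y)) ∧
  ConvexOn ℝ {y | 0 < cdf ω y ∧ w0 ≤ cdf ω y ∧ cdf ω y ≤ p} (fun y => pdfU n j (cdf ω y))

end Pool.Agent.Lib.MP_c5814c_pr
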