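import Pool.Agent.Lib.MP_c5814c_pr.Mg.G005

namespace Pool.Agent.Lib.MP_c5814c_pr

open MeasureTheory ProbabilityTheory Set Filter
open scoped ENNReal Topology RealInnerProductSpace

namespace Ctx

variable {ω : Measure ℝ} {n j : ℕ} {p : ℝ} {P : ℝ → ℝ} (C : Ctx ω n j p P)

include C

theorem cdf_le_iff {y t : ℝ} (hy : y ∈ {y | 0 < cdf ω y ∧ cdf ω y < 1}) (ht : t ∈ {y | 0 < cdf ω y ∧ cdf ω y < 1}) : cdf ω y ≤ cdf ω t ↔ y ≤ t :=
  C.nice.strict.le_iff_le hy ht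

theorem cdf_lt_iff {y t : ℝ} (hy : y ∈ {y | 0 < cdf ω y ∧ cdf ω y < 1}) (ht : t ∈ {y | 0 < cdf ω y ∧ cdf ω y < 1}) : cdf ω y < cdf ω t ↔ y < t :=
  C.nice.strict.lt_iff_lt hy ht

theorem cdf_le_p_iff {y : ℝ} (hy : y ∈ {y | 0 < cdf ω y ∧ cdf ω y < 1}) : cdf ω y ≤ p ↔ y ≤ quantile ω p := by
  rw [← C.cdf_le_iff hy C.qI, C.cdf_q]

theorem j_zero (hj : j < n) {t : ℝ} (ht : t ∈ {y | 0 < cdf ω y ∧ cdf ω y < 1})
    (h : ∀ x ∈ {y | 0 < cdf ω y ∧ cdf ω y < 1}, x < t → res ω n j P x = 0) : j = 0 := by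
  by_contra hne
  obtain ⟨y1, hy1, hy1t⟩ := exists_left C.nice ht
  have hd := dens_pos hj (show cdf ω y1 ∈ Ioo (0:ℝ) 1 from hy1)
  have h0 : pdfU n j 0 = 0 := by
    unfold pdfU
    rw [zero_pow hne]; ring
  have hev : ∀ᶠ u in 𝓝[>] (0:ℝ), pdfU n j u < pdfU n j (cdf ω y1) := by
    refine (((continuous_dens n j).tendsto 0).eventually (gt_mem_nhds ?_)).filter_mono
      nhdsWithin_le_nhds
    rw [h0]; exact hd
  obtain ⟨d, hd0, hds⟩ := (mem_nhdsGT_iff_exists_Ioo_subset).1 hev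
  have hd0' : (0:ℝ) < d := hd0
  set u := min (d / 2) (cdf ω y1 / 2) with hu
  have hu0 : 0 < u := lt_min (by linarith) (by linarith [hy1.1])
  have hud : u < d := (min_le_left _ _).trans_lt (by linarith)
  have huy : u < cdf ω y1 := (min_le_right _ _).trans_lt (by linarith [hy1.1])
  have huI : u ∈ Ioo (0:ℝ) 1 := ⟨hu0, huy.trans hy1.2⟩
  have h1 : pdfU n j u < pdfU n j (cdf ω y1) := hds ⟨hu0, hud⟩
  have h2 : quantile ω u < y1 := by
    have := C.nice.quantile_strictMono huI (show cdf ω y1 ∈ Ioo (0:ℝ) 1 from hy1) huy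
    rwa [C.nice.quantile_cdf hy1] at this
  have h3 := h _ (C.nice.quantile_mem huI) (h2.trans hy1t)
  have h4 := h _ hy1 hy1t
  have h5 := C.proj.1.2.1 (C.nice.quantile_mem huI) hy1 h2.le
  unfold res at h3 h4
  rw [C.nice.cdf_quantile huI] at h3
  linarith

end Ctx

namespace Sh

variable {ω : Measure ℝ} {n j : ℕ} {p : ℝ} {P : ℝ → ℝ} {w0 : ℝ} (H : Sh ω n j p P w0)

include H

/-- The shape of the projection. -/
theorem shape : ∃ v w A B κ : ℝ, 0 ≤ v ∧ v ≤ w ∧ w ≤ p ∧ (j ≠ 0 → 0 < v) ∧ ∀ y ∈ {y | 0 < cdf ω y ∧ cdf ω y < 1},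
    (cdf ω y ≤ v → P y = A + B * y) ∧
    (v < cdf ω y → cdf ω y < w → res ω n j P y = 0) ∧
    (w ≤ cdf ω y → cdf ω y ≤ p → P y = κ * (quantile ω p - y)) := by
  have C := H.C
  have hprω := C.nice.prob
  have hoc := C.nice.ordConnected
  by_cases hZ : ∃ t, Zr ω n j p P t
  swap
  · -- a single hinge
    push Not at hZ
    obtain ⟨A, B, hAB⟩ := C.affine_on (S := {y | 0 < cdf ω y ∧ cdf ω y < 1} ∩ Iio (quantile ω p))
      (hoc.inter ordConnected_Iio) (fun y hy => ⟨hy.1, hy.2⟩)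
      (fun t ht h => hZ t ⟨ht.1, ht.2, h⟩)
    obtain ⟨s, hs, hsq⟩ := exists_left C.nice C.qI
    have hq := C.affine_right (A := A) (B := B) C.qI hsq fun y h1 h2 =>
      hAB y ⟨Icc_sub hs C.qI y ⟨h1.le, h2.le⟩, h2⟩
    rw [C.proj.1.2.2 _ C.qI le_rfl] at hq
    have hall : ∀ y ∈ {y | 0 < cdf ω y ∧ cdf ω y < 1}, cdf ω y ≤ p → P y = A + B * y := by
      intro y hy hyp
      rw [C.cdf_le_p_iff hy] at hyp
      rcases eq_or_lt_of_le hyp with h | h
      · rw [h, C.proj.1.2.2 _ C.qI le_rfl, hq]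
      · exact hAB y ⟨hy, h⟩
    refine ⟨p, p, A, B, -B, C.hp.1.le, le_rfl, le_rfl, fun _ => C.hp.1, fun y hy =>
      ⟨hall y hy, fun h1 h2 => absurd h1 (not_lt.2 h2.le), fun h1 h2 => ?_⟩⟩
    rw [hall y hy h2]
    linear_combination (-1 : ℝ) * hq
  · obtain ⟨t0, ht0⟩ := hZ
    set Z := {t | Zr ω n j p P t} with hZd
    have hZa : BddAbove Z := ⟨quantile ω p, fun t ht => ht.2.1.le⟩
    set b := sSup Z with hb
    have htb : ∀ t, Zr ω n j p P t → t ≤ b := fun t ht => le_csSup hZa ht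
    have hbq : b ≤ quantile ω p := csSup_le ⟨t0, ht0⟩ fun t ht => ht.2.1.le
    have hbI : b ∈ {y | 0 < cdf ω y ∧ cdf ω y < 1} := Icc_sub ht0.1 C.qI b ⟨htb t0 ht0, hbq⟩
    have hbp : cdf ω b ≤ p := C.cdf_le_p hbq
    have hlt : ∀ y, y < b → ∃ t, Zr ω n j p P t ∧ y < t := by
      intro y hy
      obtain ⟨t, ht, hyt⟩ := exists_lt_of_lt_csSup ⟨t0, ht0⟩ hy
      exact ⟨t, ht, hyt⟩
    obtain ⟨κ, hκ⟩ := C.affine_tail hbI hbq fun y h1 h2 h3 =>
      absurd (htb y ⟨Icc_sub hbI C.qI y ⟨h1.le, h2.le⟩, h2, h3⟩) (not_le.2 h1)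
    have htail : ∀ y ∈ {y | 0 < cdf ω y ∧ cdf ω y < 1}, cdf ω b ≤ cdf ω y → cdf ω y ≤ p →
        P y = κ * (quantile ω p - y) := by
      intro y hy h1 h2
      rw [C.cdf_le_iff hbI hy] at h1
      rw [C.cdf_le_p_iff hy] at h2
      exact hκ y h1 h2
    by_cases h1 : ∃ t, Zr ω n j p P t ∧ cdf ω t ≤ w0
    · obtain ⟨t, ht, htw⟩ := h1
      rcases H.left_case ht htw with h0 | h0
      · -- the residual vanishes on the left
        refine ⟨0, cdf ω b, 0, 0, κ, le_rfl, hbI.1.le, hbp,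
          fun hj => absurd (C.j_zero H.hj ht.1 h0) hj, fun y hy =>
          ⟨fun h => absurd h (not_le.2 hy.1), fun _ h2 => ?_, htail y hy⟩⟩
        rw [C.cdf_lt_iff hy hbI] at h2
        obtain ⟨t', ht', hyt'⟩ := hlt y h2
        rcases lt_or_ge y t with h3 | h3
        · exact h0 y hy h3
        · exact H.left_zero ht htw h0 ht' (h3.trans_lt hyt') y hy hyt'
      · -- two lines
        have hbt : b = t := by
          refine le_antisymm (csSup_le ⟨t0, ht0⟩ fun s hs => ?_) (htb t ht)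
          exact not_lt.1 (H.no_right ht htw h0 hs)
        have hno : ∀ s ∈ {y | 0 < cdf ω y ∧ cdf ω y < 1} ∩ Iio t, Phi ω n j P s ≠ 0 := by
          intro s hs h2
          exact H.no_left ht htw h0 ⟨hs.1, lt_trans hs.2 ht.2.1, h2⟩ hs.2
        obtain ⟨A, B, hAB⟩ := C.affine_on (S := {y | 0 < cdf ω y ∧ cdf ω y < 1} ∩ Iio t) (hoc.inter ordConnected_Iio)
          (fun y hy => ⟨hy.1, lt_trans hy.2 ht.2.1⟩) hno
        obtain ⟨s, hs, hst⟩ := exists_left C.nice ht.1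
        have hq := C.affine_right (A := A) (B := B) ht.1 hst fun y h1 h2 =>
          hAB y ⟨Icc_sub hs ht.1 y ⟨h1.le, h2.le⟩, h2⟩
        refine ⟨cdf ω b, cdf ω b, A, B, κ, hbI.1.le, le_rfl, hbp, fun _ => hbI.1, fun y hy =>
          ⟨fun h => ?_, fun h2 h3 => absurd h2 (not_lt.2 h3.le), htail y hy⟩⟩
        rw [hbt, C.cdf_le_iff hy ht.1] at h
        rcases eq_or_lt_of_le h with h | h
        · rw [h]; exact hq
        · exact hAB y ⟨hy, h⟩
    · push Not at h1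
      by_cases h2 : ∃ l ∈ {y | 0 < cdf ω y ∧ cdf ω y < 1}, ∀ t, Zr ω n j p P t → l ≤ t
      · obtain ⟨l, hl, hlZ⟩ := h2
        have hZb : BddBelow Z := ⟨l, fun t ht => hlZ t ht⟩
        set a := sInf Z with ha
        have hla : l ≤ a := le_csInf ⟨t0, ht0⟩ fun t ht => hlZ t ht
        have hat : ∀ t, Zr ω n j p P t → a ≤ t := fun t ht => csInf_le hZb ht
        have haI : a ∈ {y | 0 < cdf ω y ∧ cdf ω y < 1} := Icc_sub hl ht0.1 a ⟨hla, hat t0 ht0⟩
        have haq : a < quantile ω p := (hat t0 ht0).trans_lt ht0.2.1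
        have hab : a ≤ b := (hat t0 ht0).trans (htb t0 ht0)
        have hno : ∀ s ∈ {y | 0 < cdf ω y ∧ cdf ω y < 1} ∩ Iio a, Phi ω n j P s ≠ 0 := by
          intro s hs h2
          exact absurd (hat s ⟨hs.1, lt_trans hs.2 haq, h2⟩) (not_le.2 hs.2)
        obtain ⟨A, B, hAB⟩ := C.affine_on (S := {y | 0 < cdf ω y ∧ cdf ω y < 1} ∩ Iio a) (hoc.inter ordConnected_Iio)
          (fun y hy => ⟨hy.1, lt_trans hy.2 haq⟩) hno
        obtain ⟨s, hs, hst⟩ := exists_left C.nice haI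
        have hq := C.affine_right (A := A) (B := B) haI hst fun y h1 h2 =>
          hAB y ⟨Icc_sub hs haI y ⟨h1.le, h2.le⟩, h2⟩
        refine ⟨cdf ω a, cdf ω b, A, B, κ, haI.1.le, monotone_cdf ω hab, hbp,
          fun _ => haI.1, fun y hy => ⟨fun h => ?_, fun h2 h3 => ?_, htail y hy⟩⟩
        · rw [C.cdf_le_iff hy haI] at h
          rcases eq_or_lt_of_le h with h | h
          · rw [h]; exact hq
          · exact hAB y ⟨hy, h⟩
        · rw [C.cdf_lt_iff haI hy] at h2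
          rw [C.cdf_lt_iff hy hbI] at h3
          obtain ⟨t', ht', hyt'⟩ := hlt y h3
          obtain ⟨s', hs', hys'⟩ := exists_lt_of_csInf_lt ⟨t0, ht0⟩ h2
          exact H.right_zero hs' ht' (hys'.trans hyt') (h1 s' hs').le y hys' hyt'
      · push Not at h2
        have hz : ∀ y ∈ {y | 0 < cdf ω y ∧ cdf ω y < 1}, y < b → res ω n j P y = 0 := by
          intro y hy hyb
          obtain ⟨t', ht', hyt'⟩ := hlt y hyb
          obtain ⟨s', hs', hys'⟩ := h2 y hy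
          exact H.right_zero hs' ht' (hys'.trans hyt') (h1 s' hs').le y hys' hyt'
        refine ⟨0, cdf ω b, 0, 0, κ, le_rfl, hbI.1.le, hbp,
          fun hj => absurd (C.j_zero H.hj hbI hz) hj, fun y hy =>
          ⟨fun h => absurd h (not_le.2 hy.1), fun _ h3 => ?_, htail y hy⟩⟩
        rw [C.cdf_lt_iff hy hbI] at h3
        exact hz y hy h3

end Sh

end Pool.Agent.Lib.MP_c5814c_pr
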