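import Pool.Agent.Lib.MP_c5814c_pr.Extra6

namespace Pool.Agent.Lib.MP_c5814c_pr

open MeasureTheory ProbabilityTheory Set Filter
open scoped ENNReal Topology RealInnerProductSpace

section conv

variable {ω : Measure ℝ} {n : ℕ} {j : Fin n} {p : ℝ}

theorem integrable_ordStat_iff {h : ℝ → ℝ} (hm : MonotoneOn h (Ioo 0 1)) :
    Integrable (ordStat j) (Measure.pi fun _ : Fin n => Measure.map h unif)
      ↔ Integrable (fun u => h u * pdfU n j u) unif := by
  have hae : AEMeasurable h unif := aemeasurable_of_monotoneOn hm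
  have hpr : IsProbabilityMeasure (Measure.map h unif) := Measure.isProbabilityMeasure_map hae
  have hpi : (Measure.pi fun _ : Fin n => Measure.map h unif)
      = Measure.map (fun x i => h (x i)) (Measure.pi fun _ : Fin n => unif) :=
    (Measure.pi_map_pi (fun _ => hae)).symm
  have hae2 : AEMeasurable (fun (x : Fin n → ℝ) i => h (x i)) (Measure.pi fun _ : Fin n => unif) :=
    aemeasurable_pi_lambda _ fun i => hae.comp_quasiMeasurePreserving
      (Measure.quasiMeasurePreserving_eval (fun _ : Fin n => unif) i)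
  have hgm : AEStronglyMeasurable (ordStat j : (Fin n → ℝ) → ℝ)
      (Measure.map (fun x i => h (x i)) (Measure.pi fun _ : Fin n => unif)) :=
    (measurable_ordStat j).aestronglyMeasurable
  rw [hpi, integrable_map_measure hgm hae2]
  have hmem : ∀ᵐ x ∂(Measure.pi fun _ : Fin n => unif), ∀ i, x i ∈ Ioo (0:ℝ) 1 := by
    rw [ae_all_iff]
    intro i
    exact (Measure.quasiMeasurePreserving_eval (fun _ : Fin n => unif) i).ae ae_unif_mem
  have h1 : (ordStat j ∘ fun (x : Fin n → ℝ) i => h (x i))
      =ᵐ[Measure.pi fun _ : Fin n => unif] (h ∘ ordStat j) := by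
    filter_upwards [hmem] with x hx
    exact ordStat_comp j h (Ioo 0 1) hm x hx
  rw [integrable_congr h1]
  have hac : Measure.map (ordStat j) (Measure.pi fun _ : Fin n => unif) ≪ unif := by
    rw [map_ordStat]; exact withDensity_absolutelyContinuous _ _
  have h2 : AEStronglyMeasurable h
      (Measure.map (ordStat j) (Measure.pi fun _ : Fin n => unif)) :=
    hae.aestronglyMeasurable.mono_ac hac
  rw [← integrable_map_measure h2 (measurable_ordStat j).aemeasurable, map_ordStat,
    integrable_withDensity_iff_integrable_smul'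
      (continuous_dens n j).measurable.ennreal_ofReal (ae_of_all _ fun u => ENNReal.ofReal_lt_top)]
  refine integrable_congr ?_
  filter_upwards [dens_nonneg_ae n j] with u hu
  simp only [smul_eq_mul]
  rw [ENNReal.toReal_ofReal hu, mul_comm]

theorem integrable_ordStat_nice (hω : Nice ω) :
    Integrable (ordStat j) (Measure.pi fun _ : Fin n => ω)
      ↔ Integrable (fun u => quantile ω u * pdfU n j u) unif := by
  have hprω := hω.prob
  have := integrable_ordStat_iff (j := j) (quantile_mono ω)
  rwa [map_quantile] at this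

theorem integral_ordStat_nice (hω : Nice ω) :
    ∫ x, ordStat j x ∂(Measure.pi fun _ : Fin n => ω) = ∫ u, quantile ω u * pdfU n j u ∂unif := by
  have hprω := hω.prob
  have := integral_ordStat j (quantile_mono ω) (g := id) measurable_id
  rw [map_quantile] at this
  exact this

theorem en_eq (hω : Nice ω) (t : ℝ) :
    ∫ x, min (ordStat j x) t ∂(Measure.pi fun _ : Fin n => ω) = en ω n j t := by
  have hprω := hω.prob
  have := integral_ordStat j (quantile_mono ω) (g := fun y => min y t) (by fun_prop)
  rw [map_quantile] at this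
  exact this

theorem mn_eq (hω : Nice ω) (t : ℝ) : ∫ y, min y t ∂ω = mn ω t := by
  have hprω := hω.prob
  have := integral_map (aemeasurable_quantile ω) (f := fun y : ℝ => min y t)
    (by fun_prop)
  rw [map_quantile] at this
  exact this

theorem vr_eq' (hω : Nice ω) {t0 : ℝ} (h0 : MemLp (trunc ω t0) 2 unif) (t : ℝ) :
    Var[fun y => min y t; ω] = vr ω t := by
  have hprω := hω.prob
  rw [(vr_eq hω h0 t).1]
  have := variance_map (μ := unif) (X := fun y : ℝ => min y t) (Y := quantile ω)
    (by fun_prop) (aemeasurable_quantile ω)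
  rw [map_quantile] at this
  exact this

theorem memLp_min_iff (hω : Nice ω) (t : ℝ) :
    MemLp (fun y => min y t) 2 ω ↔ MemLp (trunc ω t) 2 unif := by
  have hprω := hω.prob
  have := memLp_map_measure_iff (p := 2) (μ := unif) (f := quantile ω) (g := fun y : ℝ => min y t)
    (by fun_prop) (aemeasurable_quantile ω)
  rw [map_quantile] at this
  exact this

theorem nonempty_iff (hω : Nice ω) :
    (convexFamily ω).Nonempty ↔ MemLp (fun y => min y 0) 2 ω := by
  rw [memLp_min_iff hω]
  constructor
  · intro h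
    obtain ⟨t0, h0⟩ := memLp_of_nonempty hω h
    exact trunc_memLp hω h0 0
  · intro h
    exact ⟨_, trunc_mem_family hω h (hω.quantile_mem (u := 1/2) (by norm_num))⟩

theorem en_le (hω : Nice ω) {t0 : ℝ} (h0 : MemLp (trunc ω t0) 2 unif) (t : ℝ) :
    en ω n j t ≤ t := by
  have hX := trunc_memLp hω h0 t
  have h1 : ∫ u, trunc ω t u * pdfU n j u ∂unif ≤ ∫ u, t * pdfU n j u ∂unif := by
    refine integral_mono_ae (integrable_mul_dens hX n j) ((integrable_dens n j).const_mul t) ?_
    filter_upwards [ae_unif_mem] with u hu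
    exact mul_le_mul_of_nonneg_right (min_le_right _ _) (dens_nonneg n j hu.1.le hu.2.le)
  rw [integral_const_mul, integral_dens_unif j.2, mul_one] at h1
  exact h1

/-- the expectation of the order statistic of `W` and its truncations -/
theorem mean_le_iff (hω : Nice ω) {t0 : ℝ} (h0 : MemLp (trunc ω t0) 2 unif)
    (hp : p ∈ Ioo (0:ℝ) 1) :
    (Integrable (ordStat j) (Measure.pi fun _ : Fin n => ω) ∧
      ∫ x, ordStat j x ∂(Measure.pi fun _ : Fin n => ω) ≤ quantile ω p) ↔
    ∀ t ∈ {y | 0 < cdf ω y ∧ cdf ω y < 1}, en ω n j t ≤ quantile ω p := by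
  have hprω := hω.prob
  rw [integrable_ordStat_nice hω, integral_ordStat_nice hω]
  constructor
  · rintro ⟨h1, h2⟩ t _
    refine le_trans ?_ h2
    refine integral_mono_ae (integrable_mul_dens (trunc_memLp hω h0 t) n j) h1 ?_
    filter_upwards [ae_unif_mem] with u hu
    exact mul_le_mul_of_nonneg_right (min_le_left _ _) (dens_nonneg n j hu.1.le hu.2.le)
  · intro hH
    obtain ⟨w, hw1, hw2, hwt⟩ := exists_seq_one hp
    have hw01 : ∀ k, w k ∈ Ioo (0:ℝ) 1 := fun k => ⟨hp.1.trans (hw1 k), hw2 k⟩
    set q := quantile ω p with hq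
    set t : ℕ → ℝ := fun k => quantile ω (w k) with ht
    have hqt : ∀ k, q ≤ t k := fun k => quantile_mono ω hp (hw01 k) (hw1 k).le
    set F : ℝ → ℝ := fun u => (quantile ω u - trunc ω q u) * pdfU n j u with hF
    set Fk : ℕ → ℝ → ℝ := fun k u => (trunc ω (t k) u - trunc ω q u) * pdfU n j u with hFk
    have hL : ∀ s, MemLp (trunc ω s) 2 unif := fun s => trunc_memLp hω h0 s
    have hFki : ∀ k, Integrable (Fk k) unif := fun k =>
      integrable_mul_dens ((hL (t k)).sub (hL q)) n j
    have hFkv : ∀ k, ∫ u, Fk k u ∂unif ≤ q - en ω n j q := by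
      intro k
      have e1 : ∀ u, Fk k u = trunc ω (t k) u * pdfU n j u - trunc ω q u * pdfU n j u :=
        fun u => by simp only [hFk]; ring
      simp only [e1]
      rw [integral_sub (integrable_mul_dens (hL _) n j) (integrable_mul_dens (hL _) n j)]
      have := hH _ (hω.quantile_mem (hw01 k))
      have e2 : ∫ u, trunc ω (t k) u * pdfU n j u ∂unif = en ω n j (quantile ω (w k)) := rfl
      have e3 : ∫ u, trunc ω q u * pdfU n j u ∂unif = en ω n j q := rfl
      rw [e2, e3]
      linarith
    have hFk0 : ∀ k, ∀ᵐ u ∂unif, 0 ≤ Fk k u := by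
      intro k
      filter_upwards [ae_unif_mem] with u hu
      refine mul_nonneg (sub_nonneg.2 ?_) (dens_nonneg n j hu.1.le hu.2.le)
      exact min_le_min le_rfl (hqt k)
    have hF0 : ∀ᵐ u ∂unif, 0 ≤ F u := by
      filter_upwards [ae_unif_mem] with u hu
      exact mul_nonneg (sub_nonneg.2 (min_le_left _ _)) (dens_nonneg n j hu.1.le hu.2.le)
    have hFm : AEStronglyMeasurable F unif :=
      (((aemeasurable_quantile ω).sub (hL q).1.aemeasurable).mul
        (continuous_dens n j).aemeasurable).aestronglyMeasurable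
    have hlim : ∀ᵐ u ∂unif, ENNReal.ofReal (F u)
        ≤ liminf (fun k => ENNReal.ofReal (Fk k u)) atTop := by
      filter_upwards [ae_unif_mem] with u hu
      have h1 : Tendsto (fun k => ENNReal.ofReal (Fk k u)) atTop (𝓝 (ENNReal.ofReal (F u))) := by
        refine tendsto_const_nhds.congr' ?_
        filter_upwards [hwt.eventually (lt_mem_nhds hu.2)] with k hk
        have h2 : quantile ω u ≤ t k := quantile_mono ω hu (hw01 k) hk.le
        simp only [hF, hFk]
        unfold trunc
        rw [min_eq_left h2]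
      exact h1.liminf_eq.ge
    have hfat : ∫⁻ u, ENNReal.ofReal (F u) ∂unif ≤ ENNReal.ofReal (q - en ω n j q) := by
      calc ∫⁻ u, ENNReal.ofReal (F u) ∂unif
          ≤ ∫⁻ u, liminf (fun k => ENNReal.ofReal (Fk k u)) atTop ∂unif := lintegral_mono_ae hlim
        _ ≤ liminf (fun k => ∫⁻ u, ENNReal.ofReal (Fk k u) ∂unif) atTop :=
            lintegral_liminf_le' fun k => (hFki k).1.aemeasurable.ennreal_ofReal
        _ ≤ ENNReal.ofReal (q - en ω n j q) := by
            refine liminf_le_of_le (by isBoundedDefault) fun b hb => ?_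
            obtain ⟨k, hk⟩ := hb.exists
            refine hk.trans ?_
            rw [← ofReal_integral_eq_lintegral_ofReal (hFki k) (hFk0 k)]
            exact ENNReal.ofReal_le_ofReal (hFkv k)
    have hFi : Integrable F unif := by
      refine ⟨hFm, ?_⟩
      rw [hasFiniteIntegral_iff_ofReal hF0]
      exact hfat.trans_lt ENNReal.ofReal_lt_top
    have hqen : en ω n j q ≤ q := en_le hω h0 q
    have hFv : ∫ u, F u ∂unif ≤ q - en ω n j q := by
      rw [← ofReal_integral_eq_lintegral_ofReal hFi hF0] at hfat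
      exact (ENNReal.ofReal_le_ofReal_iff (by linarith)).1 hfat
    have e4 : ∀ u, quantile ω u * pdfU n j u = F u + trunc ω q u * pdfU n j u := fun u => by
      simp only [hF]; ring
    constructor
    · refine (hFi.add (integrable_mul_dens (hL q) n j)).congr (ae_of_all _ fun u => ?_)
      exact (e4 u).symm
    · simp only [e4]
      rw [integral_add hFi (integrable_mul_dens (hL q) n j)]
      have e3 : ∫ u, trunc ω q u * pdfU n j u ∂unif = en ω n j q := rfl
      rw [e3]
      linarith

/-- affine images of `ω` in the convex family -/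
theorem affine_bias (hω : Nice ω) (hp : p ∈ Ioo (0:ℝ) 1) {κ c : ℝ} (hκ : 0 < κ)
    (hν : Measure.map (fun y => c + κ * y) ω ∈ convexFamily ω) :
    bias n j p (Measure.map (fun y => c + κ * y) ω) = 0 ↔
      ∫ x, ordStat j x ∂(Measure.pi fun _ : Fin n => ω) = quantile ω p := by
  have hprω := hω.prob
  have hm : MonotoneOn (fun y => c + κ * y) {y | 0 < cdf ω y ∧ cdf ω y < 1} := by
    intro x _ y _ hxy
    have := mul_le_mul_of_nonneg_left hxy hκ.le
    simp only
    linarith
  have hL : MemLp (fun u => c + κ * quantile ω u) 2 unif :=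
    (memLp_id_iff hω hm).1 hν.1.2.1
  have hκQ : MemLp (fun u => κ * quantile ω u) 2 unif := by
    refine (hL.sub (memLp_const c)).ae_eq (ae_of_all _ fun u => ?_)
    simp
  have hV : 0 < variance (fun u => c + κ * quantile ω u) unif := by
    rw [← variance_id_eq hω hm]; exact hν.1.2.2
  rw [bias_map hω hp hm (by fun_prop), div_eq_zero_iff, integral_ordStat_nice hω,
    num_const_add (n := n) (j := j) j.2 (p := p) (c := c) hκQ]
  have e1 : num n j p (fun u => κ * quantile ω u)
      = κ * ((∫ u, quantile ω u * pdfU n j u ∂unif) - quantile ω p) := by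
    unfold num
    have e4 : ∀ u, κ * quantile ω u * pdfU n j u = κ * (quantile ω u * pdfU n j u) :=
      fun u => by ring
    simp only [e4]
    rw [integral_const_mul]; ring
  rw [e1]
  constructor
  · rintro (h | h)
    · rcases mul_eq_zero.1 h with h | h
      · exact absurd h hκ.ne'
      · linarith
    · exact absurd h (Real.sqrt_pos.2 hV).ne'
  · intro h
    left
    rw [h, sub_self, mul_zero]

/-- The upper bound over the convex family if the bias of `W` is not positive. -/
theorem convex_zero (hω : Nice ω) {t0 : ℝ} (h0 : MemLp (trunc ω t0) 2 unif)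
    (hp : p ∈ Ioo (0:ℝ) 1)
    (hint : Integrable (ordStat j) (Measure.pi fun _ : Fin n => ω))
    (hle : ∫ x, ordStat j x ∂(Measure.pi fun _ : Fin n => ω) ≤ quantile ω p) :
    IsLUB (bias n j p '' convexFamily ω) 0 ∧
    (∀ ν ∈ convexFamily ω, bias n j p ν = 0 ↔
      ∫ x, ordStat j x ∂(Measure.pi fun _ : Fin n => ω) = quantile ω p ∧
        ∃ κ > 0, ∃ c, ν = Measure.map (fun y => c + κ * y) ω) := by
  have hprω := hω.prob
  have hH := (mean_le_iff (j := j) hω h0 hp).1 ⟨hint, hle⟩
  have hnum : ∀ ν ∈ convexFamily ω, num n j p (quantile ν) ≤ 0 ∧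
      (num n j p (quantile ν) = 0 → ∃ κ : ℝ, 0 ≤ κ ∧ ∃ c : ℝ, ∀ᵐ u ∂unif,
        quantile ν u = c + κ * quantile ω u) := by
    intro ν hν
    have hpr := hν.1.1
    obtain ⟨hm, hc, hq⟩ := family_data hω hν
    have hL := memLp_quantile hν.1.2.1
    have hh : MemLp (fun u => quantile ν (cdf ω (quantile ω u))) 2 unif := by
      refine hL.ae_eq ?_
      filter_upwards [ae_unif_mem] with u hu using (hq u hu).symm
    have key := num_nonpos hω h0 hp hH hm hc hh
    rw [num_congr hp hq] at key
    refine ⟨key.1, fun h => ?_⟩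
    obtain ⟨κ, hκ, c, hae⟩ := key.2 h
    refine ⟨κ, hκ, c, ?_⟩
    filter_upwards [hae, ae_unif_mem] with u hu hu2
    rw [← hu, hq u hu2]
  constructor
  · constructor
    · rintro _ ⟨ν, hν, rfl⟩
      have hpr := hν.1.1
      rw [bias_eq]
      exact div_nonpos_of_nonpos_of_nonneg (hnum ν hν).1 (Real.sqrt_nonneg _)
    · intro b hb
      by_contra hcon
      push Not at hcon
      obtain ⟨ν, hν, hlt⟩ := small_bias (n := n) (j := j) hω h0 hp (ε := -b) (by linarith)
      have := hb ⟨ν, hν, rfl⟩
      linarith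
  · intro ν hν
    have hpr := hν.1.1
    have hVν : 0 < variance (quantile ν) unif := by rw [variance_quantile]; exact hν.1.2.2
    constructor
    · intro h
      have hn0 : num n j p (quantile ν) = 0 := by
        rw [bias_eq, div_eq_zero_iff] at h
        rcases h with h | h
        · exact h
        · exact absurd h (Real.sqrt_pos.2 hVν).ne'
      obtain ⟨κ, hκ, c, hae⟩ := (hnum ν hν).2 hn0
      have hκ0 : 0 < κ := by
        rcases eq_or_lt_of_le hκ with h' | h'
        · exfalso
          have e1 : variance (quantile ν) unif = variance (fun _ => c) unif := by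
            refine variance_congr ?_
            filter_upwards [hae] with u hu
            rw [hu, ← h', zero_mul, add_zero]
          rw [e1, variance_eq_integral aemeasurable_const] at hVν
          simp at hVν
        · exact h'
      have hνe : ν = Measure.map (fun y => c + κ * y) ω := by
        rw [hω.map_eq]
        · conv_lhs => rw [← map_quantile ν]
          exact Measure.map_congr hae
        · intro x _ y _ hxy
          have := mul_le_mul_of_nonneg_left hxy hκ0.le
          simp only
          linarith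
      refine ⟨?_, κ, hκ0, c, hνe⟩
      rw [hνe] at hν h
      exact (affine_bias hω hp hκ0 hν).1 h
    · rintro ⟨h1, κ, hκ, c, rfl⟩
      exact (affine_bias hω hp hκ hν).2 h1

/-- the stationarity condition for the truncation level -/
def Opt (ω : Measure ℝ) (n j : ℕ) (p t : ℝ) : Prop :=
  quantile ω p < t ∧ cdf ω t < 1 ∧ quantile ω p < en ω n j t ∧
    (1 - cdfU n j (cdf ω t)) * vr ω t
      = (en ω n j t - quantile ω p) * (t - mn ω t) * (1 - cdf ω t)

/-- The upper bound over the convex family if the bias of `W` is positive. -/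
theorem convex_pos (hω : Nice ω) {t0 : ℝ} (h0 : MemLp (trunc ω t0) 2 unif)
    (hj : (j : ℕ) + 1 < n) (hp : p ∈ Ioo (0:ℝ) 1) (hjp : ((j : ℕ) : ℝ) ≤ (n - 1) * p)
    (hpos : ¬ (Integrable (ordStat j) (Measure.pi fun _ : Fin n => ω) ∧
      ∫ x, ordStat j x ∂(Measure.pi fun _ : Fin n => ω) ≤ quantile ω p)) :
    ∃ t, Opt ω n j p t ∧ (∀ t', Opt ω n j p t' → t' = t) ∧
      IsGreatest (bias n j p '' convexFamily ω) ((en ω n j t - quantile ω p) / √(vr ω t)) ∧
      ∀ ν ∈ convexFamily ω, bias n j p ν = (en ω n j t - quantile ω p) / √(vr ω t) ↔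
        ∃ κ > 0, ∃ c, ν = Measure.map (fun y => c + κ * min y t) ω := by
  have hprω := hω.prob
  rw [mean_le_iff (j := j) hω h0 hp] at hpos
  push Not at hpos
  obtain ⟨t1, ht1, hlt⟩ := hpos
  have hqt1 : quantile ω p < t1 := hlt.trans_le (en_le hω h0 t1)
  obtain ⟨t, ht, hpt, hN, hst⟩ := exists_opt hω h0 hj hp hjp ht1 hqt1 (by linarith)
  have hmem : ∀ t', Opt ω n j p t' → t' ∈ {y | 0 < cdf ω y ∧ cdf ω y < 1} := fun t' h =>
    ⟨(hω.quantile_mem hp).1.trans_le (monotone_cdf ω h.1.le), h.2.1⟩
  have hval : ∀ t', Opt ω n j p t' → bias n j p (Measure.map (fun y => min y t') ω)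
      = (en ω n j t' - quantile ω p) / √(vr ω t') := by
    intro t' h
    rw [bias_trunc hω hp h0 t', min_eq_left h.1.le]
  have hst' : ∀ t', Opt ω n j p t' → 1 - cdfU n j (cdf ω t')
      = (en ω n j t' - quantile ω p) / vr ω t' * (t' - mn ω t') * (1 - cdf ω t') := by
    intro t' h
    have hV := vr_pos hω h0 (hmem t' h)
    have h4 := h.2.2.2
    field_simp
    linarith
  have hmain : ∀ t', Opt ω n j p t' → ∀ ν ∈ convexFamily ω,
      bias n j p ν ≤ bias n j p (Measure.map (fun y => min y t') ω) ∧
      (bias n j p ν = bias n j p (Measure.map (fun y => min y t') ω) ↔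
        ∃ κ > 0, ∃ c, ν = Measure.map (fun y => c + κ * min y t') ω) := fun t' h =>
    convex_upper_pos hω h0 hp hjp (hmem t' h) h.1 (by linarith [h.2.2.1]) (hst' t' h)
  have hopt : Opt ω n j p t := by
    refine ⟨hpt, ht.2, by linarith, ?_⟩
    have hV := vr_pos hω h0 ht
    rw [hst]
    field_simp
  refine ⟨t, hopt, fun t' h => ?_, ⟨?_, ?_⟩, ?_⟩
  · have h1 := hmain t hopt _ (trunc_mem_family hω h0 (hmem t' h))
    have h2 := hmain t' h _ (trunc_mem_family hω h0 ht)
    obtain ⟨κ, hκ, c, hc⟩ := h1.2.1 (le_antisymm h1.1 h2.1)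
    exact trunc_type_unique hω ht (hmem t' h) hκ hc
  · exact ⟨_, trunc_mem_family hω h0 ht, hval t hopt⟩
  · rintro _ ⟨ν, hν, rfl⟩
    rw [← hval t hopt]
    exact (hmain t hopt ν hν).1
  · intro ν hν
    rw [← hval t hopt]
    exact (hmain t hopt ν hν).2

end conv

end Pool.Agent.Lib.MP_c5814c_pr
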