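import Pool.Agent.Lib.MP_c5814c_pr.Mg.G006

namespace Pool.Agent.Lib.MP_c5814c_pr

open MeasureTheory ProbabilityTheory Set Filter
open scoped ENNReal Topology RealInnerProductSpace

/-- a threshold for a monotone function starting below zero -/
theorem threshold {q : ℝ → ℝ} {c p : ℝ} (hcp : c ≤ p) (hq : ContinuousOn q (Icc c p))
    (hm : MonotoneOn q (Icc c p)) (h0 : q c ≤ 0) :
    ∃ w0 ∈ Icc c p, (∀ u ∈ Ioo c w0, q u ≤ 0) ∧ ∀ u ∈ Ioo w0 p, 0 ≤ q u := by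
  rcases le_or_gt (q p) 0 with h | h
  · refine ⟨p, ⟨hcp, le_rfl⟩, fun u hu => ?_, fun u hu => ?_⟩
    · exact (hm (Ioo_subset_Icc_self hu) ⟨hcp, le_rfl⟩ hu.2.le).trans h
    · exact absurd hu.1 (not_lt.2 hu.2.le)
  · obtain ⟨w, hw, hw0⟩ := intermediate_value_Icc hcp hq ⟨h0, h.le⟩
    refine ⟨w, hw, fun u hu => ?_, fun u hu => ?_⟩
    · rw [← hw0]
      exact hm ⟨hu.1.le, hu.2.le.trans hw.2⟩ hw hu.2.le
    · rw [← hw0]
      exact hm hw ⟨hw.1.trans hu.1.le, hu.2.le⟩ hu.1.le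

section

variable {ω : Measure ℝ} {n j : ℕ} {p : ℝ}

theorem strip_ordConnected (a b : ℝ) :
    OrdConnected {y | 0 < cdf ω y ∧ a ≤ cdf ω y ∧ cdf ω y ≤ b} := by
  refine ⟨fun x hx y hy z hz => ?_⟩
  have h1 := monotone_cdf ω hz.1
  have h2 := monotone_cdf ω hz.2
  exact ⟨hx.1.trans_le h1, hx.2.1.trans h1, h2.trans hy.2.2⟩

/-- interior points of a strip are strictly inside -/
theorem strip_interior (hω : Nice ω) {a b : ℝ} (hb : b < 1) {y : ℝ}
    (hy : y ∈ interior {y | 0 < cdf ω y ∧ a ≤ cdf ω y ∧ cdf ω y ≤ b}) :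
    cdf ω y ∈ Ioo (0:ℝ) 1 ∧ cdf ω y ∈ Ioo a b := by
  have h1 := interior_subset hy
  have hn := mem_interior_iff_mem_nhds.1 hy
  obtain ⟨l, u, hlu, hsub⟩ := mem_nhds_iff_exists_Ioo_subset.1 hn
  have hl := hsub (show (l + y) / 2 ∈ Ioo l u from ⟨by linarith [hlu.1], by linarith [hlu.1, hlu.2]⟩)
  have hu := hsub (show (y + u) / 2 ∈ Ioo l u from ⟨by linarith [hlu.1, hlu.2], by linarith [hlu.2]⟩)
  have s1 := hω.strict (a := (l + y) / 2) (b := y) ⟨hl.1, hl.2.2.trans_lt hb⟩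
    ⟨h1.1, h1.2.2.trans_lt hb⟩ (by linarith [hlu.1])
  have s2 := hω.strict (a := y) (b := (y + u) / 2) ⟨h1.1, h1.2.2.trans_lt hb⟩
    ⟨hu.1, hu.2.2.trans_lt hb⟩ (by linarith [hlu.2])
  exact ⟨⟨h1.1, h1.2.2.trans_lt hb⟩, hl.2.1.trans_lt s1, s2.trans_le hu.2.2⟩

theorem cont_dens_cdf (hω : Nice ω) (s : Set ℝ) :
    ContinuousOn (fun y => pdfU n j (cdf ω y)) s :=
  ((continuous_dens n j).comp hω.cont).continuousOn

/-- the general criterion -/
theorem shaped_of_deriv2 (hω : Nice ω) {c : ℝ} (hp : p < 1)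
    {q : ℝ → ℝ} (hcp : c ≤ p) (hq : ContinuousOn q (Icc c p))
    (hm : MonotoneOn q (Icc c p)) (h0 : q c ≤ 0) {f' f'' : ℝ → ℝ}
    (hf' : ∀ y, cdf ω y ∈ Ioo (0:ℝ) 1 → HasDerivAt (fun y => pdfU n j (cdf ω y)) (f' y) y)
    (hf'' : ∀ y, cdf ω y ∈ Ioo (0:ℝ) 1 → HasDerivAt f' (f'' y) y)
    (hsgn : ∀ y, cdf ω y ∈ Ioo (0:ℝ) 1 → ∃ m : ℝ, 0 ≤ m ∧ f'' y = m * q (cdf ω y)) :
    ∃ w0 : ℝ, c ≤ w0 ∧ w0 ≤ p ∧
      ConcaveOn ℝ {y | 0 < cdf ω y ∧ c ≤ cdf ω y ∧ cdf ω y ≤ w0} (fun y => pdfU n j (cdf ω y)) ∧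
      ConvexOn ℝ {y | 0 < cdf ω y ∧ w0 ≤ cdf ω y ∧ cdf ω y ≤ p}
        (fun y => pdfU n j (cdf ω y)) := by
  obtain ⟨w0, hw, h1, h2⟩ := threshold hcp hq hm h0
  refine ⟨w0, hw.1, hw.2, ?_, ?_⟩
  · refine concaveOn_of_hasDerivWithinAt2_nonpos (strip_ordConnected _ _).convex
      (cont_dens_cdf hω _) (f' := f') (f'' := f'') (fun y hy => ?_) (fun y hy => ?_)
      (fun y hy => ?_)
    · exact (hf' y (strip_interior hω (hw.2.trans_lt hp) hy).1).hasDerivWithinAt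
    · exact (hf'' y (strip_interior hω (hw.2.trans_lt hp) hy).1).hasDerivWithinAt
    · obtain ⟨h3, h4⟩ := strip_interior hω (hw.2.trans_lt hp) hy
      obtain ⟨m, hm0, hm1⟩ := hsgn y h3
      rw [hm1]
      exact mul_nonpos_of_nonneg_of_nonpos hm0 (h1 _ h4)
  · refine convexOn_of_hasDerivWithinAt2_nonneg (strip_ordConnected _ _).convex
      (cont_dens_cdf hω _) (f' := f') (f'' := f'') (fun y hy => ?_) (fun y hy => ?_)
      (fun y hy => ?_)
    · exact (hf' y (strip_interior hω hp hy).1).hasDerivWithinAt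
    · exact (hf'' y (strip_interior hω hp hy).1).hasDerivWithinAt
    · obtain ⟨h3, h4⟩ := strip_interior hω hp hy
      obtain ⟨m, hm0, hm1⟩ := hsgn y h3
      rw [hm1]
      exact mul_nonneg hm0 (h2 _ h4)

/-- `W` uniform on `(0,1)` -/
theorem shaped_uniform (hω : Nice ω) (hu : ∀ y ∈ Icc (0:ℝ) 1, cdf ω y = y) (hj : j + 1 < n)
    (hp : p ∈ Ioo (0:ℝ) 1) (hjp : (j : ℝ) / (n - 1) ≤ p) :
    ∃ w0 : ℝ, (j : ℝ) / (n - 1) ≤ w0 ∧ w0 ≤ p ∧
      ConcaveOn ℝ {y | 0 < cdf ω y ∧ (j : ℝ) / (n - 1) ≤ cdf ω y ∧ cdf ω y ≤ w0}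
        (fun y => pdfU n j (cdf ω y)) ∧
      ConvexOn ℝ {y | 0 < cdf ω y ∧ w0 ≤ cdf ω y ∧ cdf ω y ≤ p}
        (fun y => pdfU n j (cdf ω y)) := by
  have hn1 : (1:ℝ) ≤ n - 1 := by
    have : (2:ℝ) ≤ n := by exact_mod_cast (by omega : 2 ≤ n)
    linarith
  set N : ℝ := n - 1 with hN
  have hj0 : (0:ℝ) ≤ j := Nat.cast_nonneg j
  have hc : N * ((j : ℝ) / N) = j := by field_simp
  have hmem : ∀ y, cdf ω y ∈ Ioo (0:ℝ) 1 → y ∈ Ioo (0:ℝ) 1 := by
    intro y hy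
    constructor
    · by_contra hcon
      push Not at hcon
      have := monotone_cdf ω hcon
      rw [hu 0 (by norm_num)] at this
      exact absurd hy.1 (not_lt.2 this)
    · by_contra hcon
      push Not at hcon
      have := monotone_cdf ω hcon
      rw [hu 1 (by norm_num)] at this
      exact absurd hy.2 (not_lt.2 this)
  have hloc : ∀ y ∈ Ioo (0:ℝ) 1, (fun y => pdfU n j (cdf ω y)) =ᶠ[𝓝 y] pdfU n j := by
    intro y hy
    filter_upwards [Ioo_mem_nhds hy.1 hy.2] with z hz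
    rw [hu z ⟨hz.1.le, hz.2.le⟩]
  refine shaped_of_deriv2 hω hp.2 (c := (j : ℝ) / N)
    (q := fun u => ((j : ℝ) - N * u) ^ 2 - N * (u * (1 - u)) - (j - N * u) * (1 - 2 * u))
    (f' := fun u => pdfU n j u * (((j : ℝ) - N * u) / (u * (1 - u))))
    (f'' := fun u => pdfU n j u / (u * (1 - u)) ^ 2 *
      (((j : ℝ) - N * u) ^ 2 - N * (u * (1 - u)) - (j - N * u) * (1 - 2 * u)))
    hjp (by fun_prop) ?_ ?_ ?_ ?_ ?_
  · intro u hu' v hv huv
    simp only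
    have h1 : (j : ℝ) ≤ N * u := by
      rw [← hc]; exact mul_le_mul_of_nonneg_left hu'.1 (by linarith)
    have h2 : (j : ℝ) ≤ N * v := by
      rw [← hc]; exact mul_le_mul_of_nonneg_left hv.1 (by linarith)
    have h3 : 0 ≤ (v - u) * ((N - 1) * (N * u + N * v - 2 * j)) :=
      mul_nonneg (by linarith) (mul_nonneg (by linarith) (by linarith))
    nlinarith
  · rw [hc]
    have h1 : (j : ℝ) / N ≤ 1 := hjp.trans hp.2.le
    have h2 : N * ((j : ℝ) / N * (1 - (j : ℝ) / N)) = j * (1 - (j : ℝ) / N) := by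
      rw [← mul_assoc, hc]
    rw [h2]
    have : 0 ≤ (j : ℝ) * (1 - (j : ℝ) / N) := mul_nonneg hj0 (by linarith)
    nlinarith
  · intro y hy
    have hy' := hmem y hy
    have h1 := hasDerivAt_dens (n := n) (j := j) (by omega) hy'
    refine (h1.congr_of_eventuallyEq (hloc y hy')).congr_deriv ?_
    rw [hN]; ring
  · intro y hy
    have hy' := hmem y hy
    have hy0 : y ≠ 0 := hy'.1.ne'
    have hy1 : 1 - y ≠ 0 := by linarith [hy'.2] |> fun h : 0 < 1 - y => h.ne'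
    have h1 := hasDerivAt_dens (n := n) (j := j) (by omega) hy'
    have h2 : HasDerivAt (fun u : ℝ => (j : ℝ) - N * u) (-N) y := by
      simpa using ((hasDerivAt_id y).const_mul N).const_sub (j : ℝ)
    have h3 : HasDerivAt (fun u : ℝ => u * (1 - u)) (1 - 2 * y) y := by
      have := (hasDerivAt_id y).mul ((hasDerivAt_id y).const_sub 1)
      refine this.congr_deriv ?_
      simp; ring
    have h4 := h1.mul (h2.div h3 (mul_ne_zero hy0 hy1))
    refine h4.congr_deriv ?_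
    simp only [Pi.div_apply]
    rw [hN]
    field_simp
    ring
  · intro y hy
    have hy' := hmem y hy
    refine ⟨pdfU n j y / (y * (1 - y)) ^ 2, ?_, ?_⟩
    · exact div_nonneg (dens_nonneg n j hy'.1.le hy'.2.le) (sq_nonneg _)
    · rw [hu y ⟨hy'.1.le, hy'.2.le⟩]

/-- `W` standard exponential -/
theorem shaped_exp (hω : Nice ω) (hu : ∀ y, 0 ≤ y → cdf ω y = 1 - Real.exp (-y))
    (hj : j + 1 < n) (hp : p ∈ Ioo (0:ℝ) 1) (hjp : (j : ℝ) / (n - 1) ≤ p) :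
    ∃ w0 : ℝ, (j : ℝ) / (n - 1) ≤ w0 ∧ w0 ≤ p ∧
      ConcaveOn ℝ {y | 0 < cdf ω y ∧ (j : ℝ) / (n - 1) ≤ cdf ω y ∧ cdf ω y ≤ w0}
        (fun y => pdfU n j (cdf ω y)) ∧
      ConvexOn ℝ {y | 0 < cdf ω y ∧ w0 ≤ cdf ω y ∧ cdf ω y ≤ p}
        (fun y => pdfU n j (cdf ω y)) := by
  have hn1 : (1:ℝ) ≤ n - 1 := by
    have : (2:ℝ) ≤ n := by exact_mod_cast (by omega : 2 ≤ n)
    linarith
  set N : ℝ := n - 1 with hN
  have hj0 : (0:ℝ) ≤ j := Nat.cast_nonneg j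
  have hc : N * ((j : ℝ) / N) = j := by field_simp
  have hmem : ∀ y, cdf ω y ∈ Ioo (0:ℝ) 1 → 0 < y := by
    intro y hy
    by_contra hcon
    push Not at hcon
    have := monotone_cdf ω hcon
    rw [hu 0 le_rfl] at this
    simp at this
    exact absurd hy.1 (not_lt.2 this)
  have hloc : ∀ y, 0 < y →
      (fun y => pdfU n j (cdf ω y)) =ᶠ[𝓝 y] fun y => pdfU n j (1 - Real.exp (-y)) := by
    intro y hy
    filter_upwards [lt_mem_nhds hy] with z hz
    rw [hu z hz.le]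
  have hW : ∀ y, 0 < y → 1 - Real.exp (-y) ∈ Ioo (0:ℝ) 1 := by
    intro y hy
    have h1 := Real.exp_pos (-y)
    have h2 : Real.exp (-y) < 1 := Real.exp_lt_one_iff.2 (by linarith)
    exact ⟨by linarith, by linarith⟩
  have hWd : ∀ y : ℝ, HasDerivAt (fun y : ℝ => 1 - Real.exp (-y)) (Real.exp (-y)) y := by
    intro y
    have h1 : HasDerivAt (fun y : ℝ => Real.exp (-y)) (Real.exp (-y) * (-1)) y :=
      ((hasDerivAt_id y).neg).exp
    refine (h1.const_sub 1).congr_deriv ?_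
    ring
  refine shaped_of_deriv2 hω hp.2 (c := (j : ℝ) / N)
    (q := fun u => ((j : ℝ) - N * u) ^ 2 - j * (1 - u))
    (f' := fun y => pdfU n j (1 - Real.exp (-y)) *
      (((j : ℝ) - N * (1 - Real.exp (-y))) / (1 - Real.exp (-y))))
    (f'' := fun y => pdfU n j (1 - Real.exp (-y)) / (1 - Real.exp (-y)) ^ 2 *
      (((j : ℝ) - N * (1 - Real.exp (-y))) ^ 2 - j * (1 - (1 - Real.exp (-y)))))
    hjp (by fun_prop) ?_ ?_ ?_ ?_ ?_
  · intro u hu' v hv huv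
    simp only
    have h1 : (j : ℝ) ≤ N * u := by
      rw [← hc]; exact mul_le_mul_of_nonneg_left hu'.1 (by linarith)
    have h2 : N * u ≤ N * v := mul_le_mul_of_nonneg_left huv (by linarith)
    have h3 : 0 ≤ (N * v - N * u) * (N * u + N * v - 2 * j) :=
      mul_nonneg (by linarith) (by linarith)
    have h4 : 0 ≤ (j : ℝ) * (v - u) := mul_nonneg hj0 (by linarith)
    nlinarith
  · rw [hc]
    have h1 : (j : ℝ) / N ≤ 1 := hjp.trans hp.2.le
    have : 0 ≤ (j : ℝ) * (1 - (j : ℝ) / N) := mul_nonneg hj0 (by linarith)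
    nlinarith
  · intro y hy
    have hy' := hmem y hy
    have h1 := (hasDerivAt_dens (n := n) (j := j) (by omega) (hW y hy')).comp y (hWd y)
    refine (h1.congr_of_eventuallyEq (hloc y hy')).congr_deriv ?_
    have h2 := (hW y hy').1.ne'
    have h3 : 1 - (1 - Real.exp (-y)) = Real.exp (-y) := by ring
    have h4 := (Real.exp_pos (-y)).ne'
    rw [h3, ← hN]
    field_simp
  · intro y hy
    have hy' := hmem y hy
    have h1 := (hasDerivAt_dens (n := n) (j := j) (by omega) (hW y hy')).comp y (hWd y)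
    have h2 := (hW y hy').1.ne'
    have h3 : 1 - (1 - Real.exp (-y)) = Real.exp (-y) := by ring
    have h4 := (Real.exp_pos (-y)).ne'
    have h5 : HasDerivAt (fun y : ℝ => (j : ℝ) - N * (1 - Real.exp (-y)))
        (-(N * Real.exp (-y))) y := ((hWd y).const_mul N).const_sub (j : ℝ)
    have h6 := h1.mul (h5.div (hWd y) h2)
    refine h6.congr_deriv ?_
    simp only [Function.comp_apply, Pi.div_apply]
    rw [h3, ← hN]
    field_simp
    ring
  · intro y hy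
    have hy' := hmem y hy
    refine ⟨pdfU n j (1 - Real.exp (-y)) / (1 - Real.exp (-y)) ^ 2, ?_, ?_⟩
    · exact div_nonneg (dens_nonneg n j (hW y hy').1.le (hW y hy').2.le) (sq_nonneg _)
    · rw [hu y hy'.le]

end

end Pool.Agent.Lib.MP_c5814c_pr
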