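import Pool.Agent.Lib.MP_c5814c_pr.Mg.G006

namespace Pool.Agent.Lib.MP_c5814c_pr

open MeasureTheory ProbabilityTheory Set Filter
open scoped ENNReal Topology RealInnerProductSpace

namespace Ctx

section

variable {ω : Measure ℝ} {n j : ℕ} {p : ℝ} {P : ℝ → ℝ} (C : Ctx ω n j p P)

include C

/-- the residual is nonnegative at the interior zeros of `Phi` -/
theorem res_nonneg_of_zero {t : ℝ} (ht : t ∈ {y | 0 < cdf ω y ∧ cdf ω y < 1})
    (htp : t < quantile ω p) (h : Phi ω n j P t = 0) : 0 ≤ res ω n j P t := by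
  have hprω := C.nice.prob
  by_contra hcon
  push Not at hcon
  have hG := C.Gi_zero ht htp h
  have h1 : ∀ᶠ s in 𝓝 t, res ω n j P s < 0 :=
    (C.res_continuousOn.continuousAt (C.nice.isOpen.mem_nhds ht)).eventually (gt_mem_nhds hcon)
  have h2 : ∀ᶠ s in 𝓝 t, s < quantile ω p := gt_mem_nhds htp
  have h3 : ∀ᶠ s in 𝓝 t, s ∈ {y | 0 < cdf ω y ∧ cdf ω y < 1} := C.nice.isOpen.mem_nhds ht
  obtain ⟨δ, hδ, hδ2⟩ := Metric.eventually_nhds_iff.1 (h1.and (h2.and h3))
  set s := t + δ / 2 with hs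
  have hst : t < s := by rw [hs]; linarith
  have hdist : ∀ x, t ≤ x → x ≤ s → dist x t < δ := by
    intro x hx1 hx2
    rw [Real.dist_eq, abs_of_nonneg (by linarith)]
    rw [hs] at hx2
    linarith
  obtain ⟨-, hsp, hsI⟩ := hδ2 (hdist s hst.le le_rfl)
  have h4 := C.Phi_nonneg hsI hsp.le
  rw [C.Phi_expand hsI hsp.le ht htp.le, h, hG, mul_zero, zero_add, zero_add] at h4
  have hw : cdf ω t < cdf ω s := C.nice.strict ht hsI hst
  have i2 := C.int_lin_res ht.1.le hw.le (C.cdf_le_p hsp.le) s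
  have h5 : 0 < ∫ u in (cdf ω t)..(cdf ω s), -((s - quantile ω u) * res ω n j P (quantile ω u)) := by
    refine intervalIntegral.intervalIntegral_pos_of_pos_on i2.neg (fun u hu => ?_) hw
    have h6 := C.q_mem_Ioo ht hsI hu
    have h7 := (hδ2 (hdist _ h6.1.le h6.2.le)).1
    have h8 : 0 < s - quantile ω u := by linarith [h6.2]
    have := mul_neg_of_pos_of_neg h8 h7
    linarith
  rw [intervalIntegral.integral_neg] at h5
  linarith

/-- the residual vanishes at the accumulation points of the zeros of `Phi` -/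
theorem res_zero_of_acc {t : ℝ} (ht : t ∈ {y | 0 < cdf ω y ∧ cdf ω y < 1})
    (htp : t < quantile ω p)
    (hacc : ∀ ε > 0, ∃ t', t' ≠ t ∧ |t' - t| < ε ∧
      ((t' ∈ {y | 0 < cdf ω y ∧ cdf ω y < 1}) → t' ≤ quantile ω p → Phi ω n j P t' = 0)) :
    res ω n j P t = 0 := by
  have hprω := C.nice.prob
  have h2 : ∀ᶠ s in 𝓝 t, s < quantile ω p := gt_mem_nhds htp
  have h3 : ∀ᶠ s in 𝓝 t, s ∈ {y | 0 < cdf ω y ∧ cdf ω y < 1} := C.nice.isOpen.mem_nhds ht
  -- `Phi t = 0` by continuity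
  have hPhi : Phi ω n j P t = 0 := by
    by_contra hne
    have h1 : ∀ᶠ s in 𝓝 t, Phi ω n j P s ≠ 0 := by
      have hsub : {y | 0 < cdf ω y ∧ cdf ω y < 1} ∩ Iio (quantile ω p)
          ⊆ {y | 0 < cdf ω y ∧ cdf ω y < 1} ∩ Iic (quantile ω p) :=
        fun x hx => ⟨hx.1, Iio_subset_Iic_self hx.2⟩
      have hc : ContinuousAt (Phi ω n j P) t := (C.Phi_continuousOn.mono hsub).continuousAt
          ((C.nice.isOpen.inter isOpen_Iio).mem_nhds ⟨ht, htp⟩)
      exact hc.eventually_ne hne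
    obtain ⟨δ, hδ, hδ2⟩ := Metric.eventually_nhds_iff.1 (h1.and (h2.and h3))
    obtain ⟨t', h4, h5, h6⟩ := hacc δ hδ
    obtain ⟨g1, g2, g3⟩ := hδ2 (show dist t' t < δ by rwa [Real.dist_eq])
    exact g1 (h6 g3 g2.le)
  have hG := C.Gi_zero ht htp hPhi
  by_contra hne
  set r := res ω n j P t with hr
  have hr2 : 0 < r * r := mul_self_pos.2 hne
  have h1 : ∀ᶠ s in 𝓝 t, 0 < r * res ω n j P s := by
    have hc := (C.res_continuousOn.continuousAt (C.nice.isOpen.mem_nhds ht)).const_mul r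
    exact hc.eventually (lt_mem_nhds hr2)
  obtain ⟨δ, hδ, hδ2⟩ := Metric.eventually_nhds_iff.1 (h1.and (h2.and h3))
  obtain ⟨t', h4, h5, h6⟩ := hacc δ hδ
  obtain ⟨g1, g2, g3⟩ := hδ2 (show dist t' t < δ by rwa [Real.dist_eq])
  have hG' := C.Gi_zero g3 g2 (h6 g3 g2.le)
  have hbet : ∀ x, x ∈ uIcc t t' → dist x t < δ := by
    intro x hx
    rw [Real.dist_eq]
    have h7 := abs_sub_left_of_mem_uIcc hx
    exact h7.trans_lt h5
  have e1 := C.Gi_sub (n := n) (j := j) g3 ht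
  rw [hG, hG', sub_zero] at e1
  rcases lt_or_gt_of_ne h4 with hlt | hgt
  · have hw : cdf ω t' < cdf ω t := C.nice.strict g3 ht hlt
    have i1 := C.int_res g3.1.le hw.le ht.2.le
    have h8 : 0 < ∫ u in (cdf ω t')..(cdf ω t), r * res ω n j P (quantile ω u) := by
      refine intervalIntegral.intervalIntegral_pos_of_pos_on (i1.const_mul r) (fun u hu => ?_) hw
      have h6 := C.q_mem_Ioo g3 ht hu
      exact (hδ2 (hbet _ (by rw [uIcc_of_ge hlt.le]; exact ⟨h6.1.le, h6.2.le⟩))).1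
    rw [intervalIntegral.integral_const_mul, intervalIntegral.integral_symm, ← e1] at h8
    simp at h8
  · have hw : cdf ω t < cdf ω t' := C.nice.strict ht g3 hgt
    have i1 := C.int_res ht.1.le hw.le g3.2.le
    have h8 : 0 < ∫ u in (cdf ω t)..(cdf ω t'), r * res ω n j P (quantile ω u) := by
      refine intervalIntegral.intervalIntegral_pos_of_pos_on (i1.const_mul r) (fun u hu => ?_) hw
      have h6 := C.q_mem_Ioo ht g3 hu
      exact (hδ2 (hbet _ (by rw [uIcc_of_le hgt.le]; exact ⟨h6.1.le, h6.2.le⟩))).1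
    rw [intervalIntegral.integral_const_mul, ← e1, mul_zero] at h8
    exact lt_irrefl _ h8

end

end Ctx

section

variable {ω : Measure ℝ} {n : ℕ} {j : Fin n} {p : ℝ} {P : ℝ → ℝ}

/-- the last piece is linear -/
theorem last_piece (C : Ctx ω n j p P) : ∃ s ∈ {y | 0 < cdf ω y ∧ cdf ω y < 1}, s < quantile ω p ∧
    ∃ κ > 0, ∀ y ∈ Icc s (quantile ω p), P y = κ * (quantile ω p - y) := by
  have hprω := C.nice.prob
  have hq0 : P (quantile ω p) = 0 := C.proj.1.2.2 _ C.qI le_rfl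
  have hnn : ∀ y ∈ {y | 0 < cdf ω y ∧ cdf ω y < 1}, 0 ≤ P y := fun y hy =>
    C.proj.1.nonneg C.nice C.hp hy
  have hV := C.proj.var_pos C.nice C.mem C.hp
  have hPi : Integrable (fun u => P (quantile ω u)) unif := C.proj.2.1.integrable one_le_two
  set EP := ∫ v, P (quantile ω v) ∂unif with hEP
  have hEP0 : 0 < EP := by
    have h1 : 0 ≤ᵐ[unif] fun u => P (quantile ω u) := by
      filter_upwards [ae_unif_mem] with u hu using hnn _ (C.nice.quantile_mem hu)
    refine lt_of_le_of_ne (integral_nonneg_of_ae h1) fun h => ?_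
    have h2 := (integral_eq_zero_iff_of_nonneg_ae h1 hPi).1 h.symm
    have h3 : variance (fun u => P (quantile ω u)) unif = variance (fun _ => (0:ℝ)) unif :=
      variance_congr h2
    rw [h3] at hV
    have h4 : variance (fun _ : ℝ => (0:ℝ)) unif = 0 := variance_zero unif
    rw [h4] at hV
    exact lt_irrefl _ hV
  -- a point with a small positive value
  obtain ⟨x0, hx0, hPx0⟩ : ∃ x0 ∈ {y | 0 < cdf ω y ∧ cdf ω y < 1}, 0 < P x0 := by
    by_contra hcon
    push Not at hcon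
    have : ∫ v, P (quantile ω v) ∂unif ≤ 0 := by
      refine integral_nonpos_of_ae ?_
      filter_upwards [ae_unif_mem] with u hu using hcon _ (C.nice.quantile_mem hu)
    linarith
  have hx0q : x0 < quantile ω p := by
    by_contra hcon
    push Not at hcon
    rw [C.proj.1.2.2 x0 hx0 hcon] at hPx0
    exact lt_irrefl _ hPx0
  set m := min (EP / 2) (P x0) with hm
  have hm0 : 0 < m := lt_min (by linarith) hPx0
  have hcont : ContinuousOn P (Icc x0 (quantile ω p)) :=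
    (C.proj.1.1.continuousOn C.nice.isOpen).mono fun y hy => Icc_sub hx0 C.qI y hy
  obtain ⟨s, hs1, hs2⟩ := intermediate_value_Icc' hx0q.le hcont
    (show m ∈ Icc (P (quantile ω p)) (P x0) from ⟨by rw [hq0]; exact hm0.le, min_le_right _ _⟩)
  have hsI : s ∈ {y | 0 < cdf ω y ∧ cdf ω y < 1} := Icc_sub hx0 C.qI s hs1
  have hsq : s < quantile ω p := by
    rcases lt_or_eq_of_le hs1.2 with h | h
    · exact h
    · rw [h, hq0] at hs2; linarith
  obtain ⟨κ, hκ⟩ := C.affine_tail hsI hsq.le fun y hy1 hy2 hzero => by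
    have hyI : y ∈ {y | 0 < cdf ω y ∧ cdf ω y < 1} := Icc_sub hsI C.qI y ⟨hy1.le, hy2.le⟩
    have h1 := C.res_nonneg_of_zero hyI hy2 hzero
    unfold res at h1
    have h2 : P y ≤ m := by rw [← hs2]; exact C.proj.1.2.1 hsI hyI hy1.le
    have h3 : m ≤ EP / 2 := min_le_left _ _
    have h4 : 0 ≤ pdfU n j (cdf ω y) := dens_nonneg n j hyI.1.le hyI.2.le
    rw [← hEP] at h1
    linarith
  refine ⟨s, hsI, hsq, κ, ?_, fun y hy => hκ y hy.1 hy.2⟩
  have h1 := hκ s le_rfl hsq.le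
  rw [hs2] at h1
  have h2 : 0 < quantile ω p - s := by linarith
  by_contra hcon
  push Not at hcon
  have := mul_nonpos_of_nonpos_of_nonneg hcon h2.le
  linarith

theorem tight_iff (C : Ctx ω n j p P) {t : ℝ} (ht : t ∈ {y | 0 < cdf ω y ∧ cdf ω y < 1})
    (htp : t ≤ quantile ω p) :
    ∫ x, max (t - ordStat j x) 0 ∂(Measure.pi fun _ : Fin n => ω)
      = cov[fun y => max (t - y) 0, P; ω] ↔ Phi ω n j P t = 0 := by
  have hprω := C.nice.prob
  have hPm := aesm_pen_law C.nice C.proj.1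
  have hL : MemLp (fun u => t - trunc ω t u) 2 unif :=
    (memLp_const t).sub (trunc_memLp C.nice C.mem t)
  have hrc : MemLp (fun u => P (quantile ω u) - (∫ v, P (quantile ω v) ∂unif)) 2 unif :=
    C.proj.2.1.sub (memLp_const _)
  rw [hinge_mean C.nice, hinge_cov C.nice C.mem hPm C.proj.2.1, C.Phi_eq_trunc ht htp]
  have h4 : ∫ u, (t - trunc ω t u) * res ω n j P (quantile ω u) ∂unif
      = (∫ u, (t - trunc ω t u) * (P (quantile ω u) - (∫ v, P (quantile ω v) ∂unif)) ∂unif)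
        - ∫ u, (t - trunc ω t u) * pdfU n j u ∂unif := by
    rw [← integral_sub (integrable_mul2 hL hrc) (integrable_mul_dens hL n j)]
    refine integral_congr_ae ?_
    filter_upwards [ae_unif_mem] with u hu
    rw [C.res_q hu]; ring
  rw [h4, sub_eq_zero]
  exact eq_comm

/-- The structure of the solution for every `ω`. -/
theorem general_shape (hω : Nice ω) {t0 : ℝ} (h0 : MemLp (trunc ω t0) 2 unif)
    (hp : p ∈ Ioo (0:ℝ) 1) (hP : IsProj ω n j p P) :
    (∀ x y, 0 < cdf ω x → x < y → y ≤ quantile ω p →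
      (∀ t, x < t → t < y → ¬ Tight ω n j P t) → ∃ A B, ∀ z, x ≤ z → z ≤ y → P z = A + B * z) ∧
    (∀ t, 0 < cdf ω t → t < quantile ω p →
      (∀ ε > 0, ∃ t', t' ≠ t ∧ |t' - t| < ε ∧ Tight ω n j P t') →
        P t = pdfU n j (cdf ω t) + ∫ z, P z ∂ω) ∧
    (∃ s < quantile ω p, 0 < cdf ω s ∧ ∃ κ > 0, ∀ y, s ≤ y → y ≤ quantile ω p →
      P y = κ * (quantile ω p - y)) := by
  have hprω := hω.prob
  have C : Ctx ω n j p P := ⟨hω, hp, hP, trunc_memLp hω h0 _⟩
  have hPm := aesm_pen_law hω hP.1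
  have hlt1 : ∀ x, x ≤ quantile ω p → cdf ω x < 1 := fun x hx =>
    (C.cdf_le_p hx).trans_lt hp.2
  refine ⟨fun x y hx hxy hyp h => ?_, fun t ht htp h => ?_, ?_⟩
  · have hxI : x ∈ {y | 0 < cdf ω y ∧ cdf ω y < 1} := ⟨hx, hlt1 x (hxy.le.trans hyp)⟩
    have hyI : y ∈ {y | 0 < cdf ω y ∧ cdf ω y < 1} :=
      ⟨hx.trans_le (monotone_cdf ω hxy.le), hlt1 y hyp⟩
    exact C.affine_gap hxI hyI hyp hxy fun t ht1 ht2 hz =>
      h t ht1 ht2 ((tight_iff C (Icc_sub hxI hyI t ⟨ht1.le, ht2.le⟩) (ht2.le.trans hyp)).2 hz)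
  · have htI : t ∈ {y | 0 < cdf ω y ∧ cdf ω y < 1} := ⟨ht, hlt1 t htp.le⟩
    have h1 := C.res_zero_of_acc htI htp fun ε hε => by
      obtain ⟨t', h1, h2, h3⟩ := h ε hε
      exact ⟨t', h1, h2, fun g1 g2 => (tight_iff C g1 g2).1 h3⟩
    unfold res at h1
    rw [pen_exp hω hPm]
    linarith
  · obtain ⟨s, hs, hsq, κ, hκ, h⟩ := last_piece C
    exact ⟨s, hsq, hs.1, κ, hκ, fun y h1 h2 => h y ⟨h1, h2⟩⟩

end

end Pool.Agent.Lib.MP_c5814c_pr
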