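import Pool.Agent.Lib.MP_c5814c_pr.Bern

/-!
Quantile functions, order statistics and the representation of their means.
-/

set_option autoImplicit false

namespace Pool.Agent.Lib.QBias

open MeasureTheory ProbabilityTheory Set Filter Topology

noncomputable section

instance : IsProbabilityMeasure uni := by
  refine ⟨?_⟩
  rw [Measure.restrict_apply_univ, Real.volume_Ioo]; simp

/-- Distribution functions. -/
structure IsDF (F : ℝ → ℝ) : Prop where
  mono : Monotone F
  rc : ∀ x, ContinuousWithinAt F (Ici x) x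
  bot : Tendsto F atBot (𝓝 0)
  top : Tendsto F atTop (𝓝 1)

lemma isDF_cdf (μ : Measure ℝ) [IsProbabilityMeasure μ] : IsDF (cdf μ) :=
  ⟨monotone_cdf μ, fun x => (cdf μ).right_continuous x, tendsto_cdf_atBot μ, tendsto_cdf_atTop μ⟩

lemma IsDF.nonneg {F : ℝ → ℝ} (hF : IsDF F) (x : ℝ) : 0 ≤ F x :=
  hF.mono.le_of_tendsto hF.bot x

lemma IsDF.le_one {F : ℝ → ℝ} (hF : IsDF F) (x : ℝ) : F x ≤ 1 :=
  hF.mono.ge_of_tendsto hF.top x

lemma qf_set_nonempty {F : ℝ → ℝ} (hF : IsDF F) {u : ℝ} (hu : u < 1) : {x | u ≤ F x}.Nonempty := by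
  obtain ⟨x, hx⟩ := ((hF.top.eventually (lt_mem_nhds hu))).exists
  exact ⟨x, le_of_lt hx⟩

lemma qf_set_bddBelow {F : ℝ → ℝ} (hF : IsDF F) {u : ℝ} (hu : 0 < u) : BddBelow {x | u ≤ F x} := by
  obtain ⟨x, hx⟩ := ((hF.bot.eventually (gt_mem_nhds hu))).exists
  refine ⟨x, fun y hy => ?_⟩
  by_contra hcon
  push Not at hcon
  have := hF.mono hcon.le
  have h2 : u ≤ F y := hy
  linarith

lemma qf_le_iff {F : ℝ → ℝ} (hF : IsDF F) {u : ℝ} (hu : u ∈ Ioo (0:ℝ) 1) (x : ℝ) :
    qf F u ≤ x ↔ u ≤ F x := by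
  constructor
  · intro h
    refine le_trans ?_ (hF.mono h)
    -- right continuity at the infimum
    have h1 : ∀ y, qf F u < y → u ≤ F y := by
      intro y hy
      obtain ⟨z, hz, hzy⟩ := (csInf_lt_iff (qf_set_bddBelow hF hu.1) (qf_set_nonempty hF hu.2)).1 hy
      exact le_trans hz (hF.mono hzy.le)
    have h2 : Tendsto F (𝓝[>] (qf F u)) (𝓝 (F (qf F u))) :=
      (hF.rc (qf F u)).tendsto.mono_left (nhdsWithin_mono _ Ioi_subset_Ici_self)
    refine ge_of_tendsto h2 ?_
    filter_upwards [self_mem_nhdsWithin] with y hy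
    exact h1 y hy
  · intro h
    exact csInf_le (qf_set_bddBelow hF hu.1) h

lemma monotoneOn_qf {F : ℝ → ℝ} (hF : IsDF F) : MonotoneOn (qf F) (Ioo 0 1) := by
  intro u hu v hv huv
  rw [qf_le_iff hF hu]
  exact huv.trans ((qf_le_iff hF hv _).1 le_rfl)

/-- Left continuity in order form. -/
def LeftCont (Q : ℝ → ℝ) : Prop :=
  ∀ u ∈ Ioo (0:ℝ) 1, ∀ x, (∀ v ∈ Ioo (0:ℝ) u, Q v ≤ x) → Q u ≤ x

lemma leftCont_qf {F : ℝ → ℝ} (hF : IsDF F) : LeftCont (qf F) := by
  intro u hu x hx
  rw [qf_le_iff hF hu]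
  refine le_of_forall_lt fun v hv => ?_
  rcases le_or_gt v 0 with h | h
  · have h1 := hF.nonneg x
    obtain ⟨w, hw1, hw2⟩ := exists_between hu.1
    have := (qf_le_iff hF ⟨hw1, hw2.trans hu.2⟩ x).1 (hx w ⟨hw1, hw2⟩)
    linarith
  · obtain ⟨w, hw1, hw2⟩ := exists_between hv
    have := (qf_le_iff hF ⟨h.trans hw1, hw2.trans hu.2⟩ x).1 (hx w ⟨h.trans hw1, hw2⟩)
    linarith

lemma aemeasurable_of_monotoneOn {Q : ℝ → ℝ} (hQ : MonotoneOn Q (Ioo 0 1)) : AEMeasurable Q uni :=
  aemeasurable_restrict_of_monotoneOn measurableSet_Ioo hQ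

lemma volume_Ioo_inter_Iic {t : ℝ} (h1 : t ≤ 1) :
    volume (Ioo (0:ℝ) 1 ∩ Iic t) = ENNReal.ofReal t := by
  have : (Ioo (0:ℝ) 1 ∩ Iic t : Set ℝ) =ᵐ[volume] Ioc 0 t := by
    have e : (Ioo (0:ℝ) 1 ∩ Iic t : Set ℝ) =ᵐ[volume] (Ioc 0 1 ∩ Iic t : Set ℝ) :=
      ae_eq_set_inter Ioo_ae_eq_Ioc (ae_eq_refl _)
    refine e.trans ?_
    have : (Ioc (0:ℝ) 1 ∩ Iic t) = Ioc 0 t := by
      rw [Ioc_inter_Iic, min_eq_right h1]
    rw [this]
  rw [measure_congr this, Real.volume_Ioc, sub_zero]

/-- The law of a probability measure is the image of the uniform law under the quantile function. -/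
lemma map_qf (μ : Measure ℝ) [IsProbabilityMeasure μ] : Measure.map (qf (cdf μ)) uni = μ := by
  have hF := isDF_cdf μ
  have hm : AEMeasurable (qf (cdf μ)) uni := aemeasurable_of_monotoneOn (monotoneOn_qf hF)
  have : IsProbabilityMeasure (Measure.map (qf (cdf μ)) uni) := Measure.isProbabilityMeasure_map hm
  refine Measure.ext_of_Iic _ _ fun x => ?_
  rw [Measure.map_apply_of_aemeasurable hm measurableSet_Iic]
  have h1 : uni (qf (cdf μ) ⁻¹' Iic x) = volume (Ioo (0:ℝ) 1 ∩ Iic (cdf μ x)) := by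
    rw [Measure.restrict_apply' measurableSet_Ioo]
    congr 1
    ext u
    simp only [mem_inter_iff, mem_preimage, mem_Iic]
    constructor
    · rintro ⟨h1, h2⟩
      exact ⟨h2, (qf_le_iff hF h2 x).1 h1⟩
    · rintro ⟨h1, h2⟩
      exact ⟨(qf_le_iff hF h1 x).2 h2, h1⟩
  rw [h1, volume_Ioo_inter_Iic (hF.le_one x), ofReal_cdf]

lemma isProbabilityMeasure_lawOf {Q : ℝ → ℝ} (hQ : MonotoneOn Q (Ioo 0 1)) :
    IsProbabilityMeasure (lawOf Q) :=
  Measure.isProbabilityMeasure_map (aemeasurable_of_monotoneOn hQ)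

lemma le_cdf_lawOf_iff {Q : ℝ → ℝ} (hQ : MonotoneOn Q (Ioo 0 1)) (hlc : LeftCont Q) {u : ℝ}
    (hu : u ∈ Ioo (0:ℝ) 1) (x : ℝ) : u ≤ cdf (lawOf Q) x ↔ Q u ≤ x := by
  have := isProbabilityMeasure_lawOf hQ
  have hm : AEMeasurable Q uni := aemeasurable_of_monotoneOn hQ
  have h1 : cdf (lawOf Q) x = (volume (Ioo (0:ℝ) 1 ∩ {v | Q v ≤ x})).toReal := by
    rw [cdf_eq_real, measureReal_def]
    unfold lawOf
    rw [Measure.map_apply_of_aemeasurable hm measurableSet_Iic,
      Measure.restrict_apply' measurableSet_Ioo]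
    congr 2
    ext v
    simp only [mem_inter_iff, mem_preimage, mem_Iic, mem_ofPred_eq]
    tauto
  rw [h1]
  have hfin : volume (Ioo (0:ℝ) 1 ∩ {v | Q v ≤ x}) ≠ ⊤ := by
    refine ne_top_of_le_ne_top ?_ (measure_mono inter_subset_left)
    rw [Real.volume_Ioo]; simp
  constructor
  · intro h
    refine hlc u hu x fun v hv => ?_
    by_contra hcon
    push Not at hcon
    -- the set is contained in (0, v)
    have h2 : Ioo (0:ℝ) 1 ∩ {v | Q v ≤ x} ⊆ Ioo 0 v := by
      rintro w ⟨hw1, hw2⟩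
      refine ⟨hw1.1, ?_⟩
      by_contra hcon2
      push Not at hcon2
      have h3 := hQ ⟨hv.1, hv.2.trans hu.2⟩ hw1 hcon2
      have h4 : Q w ≤ x := hw2
      linarith
    have h3 : (volume (Ioo (0:ℝ) 1 ∩ {v | Q v ≤ x})).toReal ≤ (volume (Ioo (0:ℝ) v)).toReal := by
      refine ENNReal.toReal_mono ?_ (measure_mono h2)
      rw [Real.volume_Ioo]; simp
    rw [Real.volume_Ioo, sub_zero, ENNReal.toReal_ofReal hv.1.le] at h3
    linarith [hv.2]
  · intro h
    have h2 : Ioo (0:ℝ) u ⊆ Ioo (0:ℝ) 1 ∩ {v | Q v ≤ x} := by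
      intro v hv
      refine ⟨⟨hv.1, hv.2.trans hu.2⟩, ?_⟩
      exact le_trans (hQ ⟨hv.1, hv.2.trans hu.2⟩ hu hv.2.le) h
    have h3 : (volume (Ioo (0:ℝ) u)).toReal ≤ (volume (Ioo (0:ℝ) 1 ∩ {v | Q v ≤ x})).toReal :=
      ENNReal.toReal_mono hfin (measure_mono h2)
    rwa [Real.volume_Ioo, sub_zero, ENNReal.toReal_ofReal hu.1.le] at h3

lemma qf_lawOf {Q : ℝ → ℝ} (hQ : MonotoneOn Q (Ioo 0 1)) (hlc : LeftCont Q) {u : ℝ}
    (hu : u ∈ Ioo (0:ℝ) 1) : qf (cdf (lawOf Q)) u = Q u := by
  unfold qf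
  have : {x | u ≤ cdf (lawOf Q) x} = Ici (Q u) := by
    ext x
    simp only [mem_ofPred_eq, mem_Ici]
    exact le_cdf_lawOf_iff hQ hlc hu x
  rw [this, csInf_Ici]

/-- Transfer of integrals to the uniform scale. -/
lemma integral_eq_uni (μ : Measure ℝ) [IsProbabilityMeasure μ] {g : ℝ → ℝ} (hg : Measurable g) :
    ∫ x, g x ∂μ = ∫ u in Ioo (0:ℝ) 1, g (qf (cdf μ) u) := by
  conv_lhs => rw [← map_qf μ]
  rw [integral_map (aemeasurable_of_monotoneOn (monotoneOn_qf (isDF_cdf μ)))
    hg.aestronglyMeasurable]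

lemma memLp_qf_iff (μ : Measure ℝ) [IsProbabilityMeasure μ] :
    MemLp id 2 μ ↔ MemLp (qf (cdf μ)) 2 uni := by
  have hm := aemeasurable_of_monotoneOn (monotoneOn_qf (isDF_cdf μ))
  conv_lhs => rw [← map_qf μ]
  rw [memLp_map_measure_iff (by fun_prop) hm]
  rfl

/-! ### Order statistics -/

lemma orderStat_le_iff {n j : ℕ} (hj : 1 ≤ j) (hjn : j ≤ n) (x : Fin n → ℝ) (t : ℝ) :
    orderStat n j x ≤ t ↔ j ≤ (Finset.univ.filter (fun i => x i ≤ t)).card := by
  have h : j - 1 < n := by omega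
  have hcard : (Finset.univ.filter (fun i => x i ≤ t)).card =
      (Finset.univ.filter (fun i => x (Tuple.sort x i) ≤ t)).card := by
    symm
    refine Finset.card_bij (fun i _ => Tuple.sort x i) ?_ ?_ ?_
    · intro i hi
      simpa using hi
    · intro a _ b _ hab
      exact (Tuple.sort x).injective hab
    · intro b hb
      refine ⟨(Tuple.sort x).symm b, ?_, ?_⟩
      · simpa using hb
      · simp
  have hmono : Monotone (x ∘ Tuple.sort x) := Tuple.monotone_sort x
  rw [hcard]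
  unfold orderStat
  rw [dif_pos h]
  constructor
  · intro h1
    have h2 : Finset.image (fun i : Fin j => (⟨i, lt_of_lt_of_le i.2 hjn⟩ : Fin n)) Finset.univ ⊆
        Finset.univ.filter (fun i => x (Tuple.sort x i) ≤ t) := by
      intro i hi
      rw [Finset.mem_image] at hi
      obtain ⟨a, _, rfl⟩ := hi
      rw [Finset.mem_filter]
      refine ⟨Finset.mem_univ _, le_trans (hmono ?_) h1⟩
      rw [Fin.le_def]
      have := a.2
      show (a : ℕ) ≤ j - 1
      omega
    have h3 := Finset.card_le_card h2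
    rw [Finset.card_image_of_injective _ (by
      intro a b hab
      have := Fin.mk.inj_iff.1 hab
      exact Fin.ext this), Finset.card_univ, Fintype.card_fin] at h3
    exact h3
  · intro h1
    by_contra hcon
    push Not at hcon
    have h2 : Finset.univ.filter (fun i => x (Tuple.sort x i) ≤ t) ⊆
        Finset.image (fun i : Fin (j - 1) => (⟨i, lt_trans i.2 h⟩ : Fin n)) Finset.univ := by
      intro i hi
      rw [Finset.mem_filter] at hi
      rw [Finset.mem_image]
      have h3 : (i : ℕ) < j - 1 := by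
        by_contra h4
        push Not at h4
        have h5 : (⟨j - 1, h⟩ : Fin n) ≤ i := by rw [Fin.le_def]; exact h4
        have h6 := hmono h5
        simp only [Function.comp] at h6
        linarith [hi.2]
      exact ⟨⟨i, h3⟩, Finset.mem_univ _, rfl⟩
    have h3 := Finset.card_le_card h2
    have h4 := Finset.card_image_le (s := (Finset.univ : Finset (Fin (j-1))))
      (f := fun i : Fin (j - 1) => (⟨i, lt_trans i.2 h⟩ : Fin n))
    rw [Finset.card_univ, Fintype.card_fin] at h4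
    omega

/-- The cell decomposition. -/
lemma cell_eq {n : ℕ} (t : ℝ) (A : Finset (Fin n)) :
    {x : Fin n → ℝ | Finset.univ.filter (fun i => x i ≤ t) = A} =
      Set.pi Set.univ (fun i => if i ∈ A then Iic t else Ioi t) := by
  ext x
  simp only [mem_ofPred_eq, Set.mem_pi, Set.mem_univ, true_implies]
  constructor
  · intro h i
    by_cases hi : i ∈ A
    · rw [if_pos hi]
      rw [← h, Finset.mem_filter] at hi
      exact hi.2
    · rw [if_neg hi]
      rw [← h, Finset.mem_filter] at hi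
      push Not at hi
      exact hi (Finset.mem_univ _)
  · intro h
    ext i
    rw [Finset.mem_filter]
    have h1 := h i
    by_cases hi : i ∈ A
    · rw [if_pos hi] at h1
      exact ⟨fun _ => hi, fun _ => ⟨Finset.mem_univ _, h1⟩⟩
    · rw [if_neg hi] at h1
      have h2 : t < x i := h1
      exact ⟨fun h3 => absurd h3.2 (not_le.2 h2), fun h3 => absurd h3 hi⟩

lemma preimage_orderStat {n j : ℕ} (hj : 1 ≤ j) (hjn : j ≤ n) (t : ℝ) :
    orderStat n j ⁻¹' Iic t =
      ⋃ A ∈ (Finset.univ.filter (fun A : Finset (Fin n) => j ≤ A.card)),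
        Set.pi Set.univ (fun i => if i ∈ A then Iic t else Ioi t) := by
  ext x
  simp only [mem_preimage, mem_Iic, mem_iUnion, Finset.mem_filter, Finset.mem_univ, true_and,
    exists_prop]
  rw [orderStat_le_iff hj hjn]
  constructor
  · intro h
    refine ⟨_, h, ?_⟩
    rw [← cell_eq]
    rfl
  · rintro ⟨A, hA, hx⟩
    rw [← cell_eq] at hx
    rw [show Finset.univ.filter (fun i => x i ≤ t) = A from hx]
    exact hA

lemma measurable_orderStat {n j : ℕ} (hj : 1 ≤ j) (hjn : j ≤ n) : Measurable (orderStat n j) := by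
  refine measurable_of_Iic fun t => ?_
  rw [preimage_orderStat hj hjn]
  refine Finset.measurableSet_biUnion _ fun A _ => ?_
  refine MeasurableSet.univ_pi fun i => ?_
  split_ifs
  · exact measurableSet_Iic
  · exact measurableSet_Ioi

lemma pi_preimage_orderStat (μ : Measure ℝ) [IsProbabilityMeasure μ] {n j : ℕ} (hj : 1 ≤ j)
    (hjn : j ≤ n) (t : ℝ) :
    Measure.pi (fun _ : Fin n => μ) (orderStat n j ⁻¹' Iic t) =
      ENNReal.ofReal (Fos n j (cdf μ t)) := by
  have hF := isDF_cdf μ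
  rw [preimage_orderStat hj hjn, measure_biUnion_finset]
  · have h1 : ∀ A ∈ (Finset.univ.filter (fun A : Finset (Fin n) => j ≤ A.card)),
        Measure.pi (fun _ : Fin n => μ) (Set.pi Set.univ (fun i => if i ∈ A then Iic t else Ioi t)) =
        ENNReal.ofReal ((cdf μ t) ^ A.card * (1 - cdf μ t) ^ (n - A.card)) := by
      intro A _
      rw [Measure.pi_pi]
      have h2 : ∀ i : Fin n, μ (if i ∈ A then Iic t else Ioi t) =
          if i ∈ A then ENNReal.ofReal (cdf μ t) else ENNReal.ofReal (1 - cdf μ t) := by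
        intro i
        split_ifs
        · rw [ofReal_cdf]
        · rw [← compl_Iic, prob_compl_eq_one_sub measurableSet_Iic, ← ofReal_cdf,
            ENNReal.ofReal_sub _ (hF.nonneg t), ENNReal.ofReal_one]
      simp only [h2]
      rw [Finset.prod_ite, Finset.prod_const, Finset.prod_const,
        ENNReal.ofReal_mul (pow_nonneg (hF.nonneg t) _), ENNReal.ofReal_pow (hF.nonneg t),
        ENNReal.ofReal_pow (by linarith [hF.le_one t])]
      congr 2
      · congr 1; simp
      · have : Finset.filter (fun x => x ∉ A) Finset.univ = Aᶜ := by ext; simp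
        rw [this, Finset.card_compl, Fintype.card_fin]
    rw [Finset.sum_congr rfl h1, ← ENNReal.ofReal_sum_of_nonneg]
    · congr 1
      unfold Fos
      have h3 : (Finset.univ.filter (fun A : Finset (Fin n) => j ≤ A.card)) =
          (Finset.Icc j n).biUnion (fun i => Finset.powersetCard i Finset.univ) := by
        ext A
        simp only [Finset.mem_filter, Finset.mem_univ, true_and, Finset.mem_biUnion, Finset.mem_Icc,
          Finset.mem_powersetCard, Finset.subset_univ]
        constructor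
        · intro h
          exact ⟨A.card, ⟨h, by simpa using Finset.card_le_univ A⟩, rfl⟩
        · rintro ⟨i, hi, rfl⟩
          exact hi.1
      rw [h3, Finset.sum_biUnion]
      · refine Finset.sum_congr rfl fun i _ => ?_
        have h4 : ∀ A ∈ Finset.powersetCard i (Finset.univ : Finset (Fin n)),
            (cdf μ t) ^ A.card * (1 - cdf μ t) ^ (n - A.card) =
            (cdf μ t) ^ i * (1 - cdf μ t) ^ (n - i) := by
          intro A hA
          rw [(Finset.mem_powersetCard.1 hA).2]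
        rw [Finset.sum_congr rfl h4, Finset.sum_const, Finset.card_powersetCard, Finset.card_univ,
          Fintype.card_fin, nsmul_eq_mul]
        ring
      · intro a _ b _ hab
        exact Finset.pairwise_disjoint_powersetCard _ hab
    · intro A _
      exact mul_nonneg (pow_nonneg (hF.nonneg t) _) (pow_nonneg (by linarith [hF.le_one t]) _)
  · intro A _ B _ hAB
    rw [Function.onFun, Set.disjoint_left]
    intro x hx hx'
    rw [← cell_eq] at hx hx'
    exact hAB (hx.symm.trans hx')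
  · intro A _
    refine MeasurableSet.univ_pi fun i => ?_
    split_ifs
    · exact measurableSet_Iic
    · exact measurableSet_Ioi

/-- The law of the order statistic of a sample. -/
lemma map_orderStat (μ : Measure ℝ) [IsProbabilityMeasure μ] {n j : ℕ} (hj : 1 ≤ j)
    (hjn : j ≤ n) :
    Measure.map (orderStat n j) (Measure.pi (fun _ : Fin n => μ)) =
      Measure.map (qf (cdf μ)) (uni.withDensity (fun u => ENNReal.ofReal (fos n j u))) := by
  have hF := isDF_cdf μ
  have hm : AEMeasurable (qf (cdf μ)) (uni.withDensity (fun u => ENNReal.ofReal (fos n j u))) :=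
    (aemeasurable_of_monotoneOn (monotoneOn_qf hF)).mono_ac (withDensity_absolutelyContinuous _ _)
  have hos := measurable_orderStat hj hjn
  have : IsProbabilityMeasure (Measure.map (orderStat n j) (Measure.pi (fun _ : Fin n => μ))) :=
    Measure.isProbabilityMeasure_map hos.aemeasurable
  refine Measure.ext_of_Iic _ _ fun x => ?_
  rw [Measure.map_apply hos measurableSet_Iic, pi_preimage_orderStat μ hj hjn,
    Measure.map_apply_of_aemeasurable hm measurableSet_Iic]
  have hset : (qf (cdf μ) ⁻¹' Iic x) ∩ Ioo (0:ℝ) 1 = Ioo (0:ℝ) 1 ∩ Iic (cdf μ x) := by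
    ext u
    simp only [mem_inter_iff, mem_preimage, mem_Iic]
    constructor
    · rintro ⟨h1, h2⟩
      exact ⟨h2, (qf_le_iff hF h2 x).1 h1⟩
    · rintro ⟨h1, h2⟩
      exact ⟨(qf_le_iff hF h1 x).2 h2, h1⟩
  have hnull : NullMeasurableSet (qf (cdf μ) ⁻¹' Iic x) (uni.withDensity (fun u => ENNReal.ofReal (fos n j u))) :=
    hm.nullMeasurable measurableSet_Iic
  have hnull2 : NullMeasurableSet (qf (cdf μ) ⁻¹' Iic x) uni :=
    (aemeasurable_of_monotoneOn (monotoneOn_qf hF)).nullMeasurable measurableSet_Iic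
  rw [withDensity_apply₀ _ hnull2]
  rw [Measure.restrict_restrict₀ hnull2, hset]
  have hae : (Ioo (0:ℝ) 1 ∩ Iic (cdf μ x) : Set ℝ) =ᵐ[volume] Ioc 0 (cdf μ x) := by
    have e : (Ioo (0:ℝ) 1 ∩ Iic (cdf μ x) : Set ℝ) =ᵐ[volume] (Ioc 0 1 ∩ Iic (cdf μ x) : Set ℝ) :=
      ae_eq_set_inter Ioo_ae_eq_Ioc (ae_eq_refl _)
    refine e.trans ?_
    have : (Ioc (0:ℝ) 1 ∩ Iic (cdf μ x)) = Ioc 0 (cdf μ x) := by
      rw [Ioc_inter_Iic, min_eq_right (hF.le_one x)]
    rw [this]
  rw [Measure.restrict_congr_set hae]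
  have h1 : ∫ u in (0:ℝ)..(cdf μ x), fos n j u = Fos n j (cdf μ x) := by
    rw [integral_fos hj hjn, Fos_zero hj, sub_zero]
  rw [← h1, intervalIntegral.integral_of_le (hF.nonneg x),
    ofReal_integral_eq_lintegral_ofReal]
  · exact ((continuous_fos n j).integrableOn_Icc).mono_set Ioc_subset_Icc_self
  · refine (ae_restrict_iff' measurableSet_Ioc).2 (Eventually.of_forall fun u hu => ?_)
    exact fos_nonneg n j hu.1.le (hu.2.trans (hF.le_one x))

lemma meanOS_eq (μ : Measure ℝ) [IsProbabilityMeasure μ] {n j : ℕ} (hj : 1 ≤ j) (hjn : j ≤ n) :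
    meanOS n j μ = ∫ u in Ioo (0:ℝ) 1, qf (cdf μ) u * fos n j u := by
  unfold meanOS
  have hos := measurable_orderStat hj hjn
  have h1 : ∫ x, orderStat n j x ∂(Measure.pi (fun _ : Fin n => μ)) =
      ∫ y, y ∂(Measure.map (orderStat n j) (Measure.pi (fun _ : Fin n => μ))) := by
    rw [integral_map (f := fun y : ℝ => y) hos.aemeasurable (by fun_prop)]
  have hF := isDF_cdf μ
  have hm : AEMeasurable (qf (cdf μ)) (uni.withDensity (fun u => ENNReal.ofReal (fos n j u))) :=
    (aemeasurable_of_monotoneOn (monotoneOn_qf hF)).mono_ac (withDensity_absolutelyContinuous _ _)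
  rw [h1, map_orderStat μ hj hjn, integral_map (f := fun y : ℝ => y) hm (by fun_prop)]
  have h2 : (fun u => ENNReal.ofReal (fos n j u)) = fun u => ((Real.toNNReal (fos n j u) : NNReal) : ENNReal) := rfl
  rw [h2, integral_withDensity_eq_integral_smul]
  · refine integral_congr_ae ?_
    refine (ae_restrict_iff' measurableSet_Ioo).2 (Eventually.of_forall fun u hu => ?_)
    show Real.toNNReal (fos n j u) • qf (cdf μ) u = _
    rw [NNReal.smul_def, Real.coe_toNNReal _ (fos_nonneg n j hu.1.le hu.2.le), smul_eq_mul, mul_comm]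
  · exact (continuous_fos n j).measurable.real_toNNReal

end

end Pool.Agent.Lib.QBias
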