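import Pool.Agent.Lib.MP_c5814c_pr.Abel
import Pool.Agent.Lib.MP_c5814c_pr.Quant

/-!
Bounds valid for every distribution, on the uniform scale.
-/

set_option autoImplicit false

namespace Pool.Agent.Lib.QBias

open MeasureTheory ProbabilityTheory Set Filter Topology

noncomputable section

lemma int_sub4 {μ : Measure ℝ} {A B C D : ℝ → ℝ} (hA : Integrable A μ) (hB : Integrable B μ)
    (hC : Integrable C μ) (hD : Integrable D μ) :
    ∫ u, ((A u - B u) - (C u - D u)) ∂μ =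
      ((∫ u, A u ∂μ) - ∫ u, B u ∂μ) - ((∫ u, C u ∂μ) - ∫ u, D u ∂μ) := by
  have h1 : Integrable (fun u => A u - B u) μ := hA.sub hB
  have h2 : Integrable (fun u => C u - D u) μ := hC.sub hD
  rw [integral_sub h1 h2, integral_sub hA hB, integral_sub hC hD]

/-- Standing assumptions on `n`, `j`, `p`. -/
structure Par (n j : ℕ) (p : ℝ) : Prop where
  hn : 2 ≤ n
  hj : 1 ≤ j
  hjn : j ≤ n
  hp0 : 0 < p
  hp1 : p < 1
  hp : ((j : ℝ) - 1) / ((n : ℝ) - 1) ≤ p

lemma Par.jlt {n j : ℕ} {p : ℝ} (h : Par n j p) : j < n := by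
  rcases lt_or_eq_of_le h.hjn with h1 | h1
  · exact h1
  · exfalso
    have h2 := h.hp
    rw [h1] at h2
    have hn : (2 : ℝ) ≤ n := by exact_mod_cast h.hn
    rw [div_self (by linarith)] at h2
    linarith [h.hp1]

lemma md_nonneg {n j : ℕ} (hn : 2 ≤ n) (hj : 1 ≤ j) : 0 ≤ md n j := by
  have h1 : (2 : ℝ) ≤ n := by exact_mod_cast hn
  have h2 : (1 : ℝ) ≤ j := by exact_mod_cast hj
  exact div_nonneg (by linarith) (by linarith)

lemma ioo_eq_interval {a b : ℝ} (hab : a ≤ b) (g : ℝ → ℝ) :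
    ∫ v in Ioo a b, g v = ∫ v in a..b, g v := by
  rw [intervalIntegral.integral_of_le hab, integral_Ioc_eq_integral_Ioo]

lemma int_fos_Ioo {n j : ℕ} (hj : 1 ≤ j) (hjn : j ≤ n) {a b : ℝ} (hab : a ≤ b) :
    ∫ v in Ioo a b, fos n j v = Fos n j b - Fos n j a := by
  rw [ioo_eq_interval hab, integral_fos hj hjn]

lemma integrableOn_fos (n j : ℕ) (a b : ℝ) : IntegrableOn (fos n j) (Ioo a b) :=
  ((continuous_fos n j).integrableOn_Icc (a := a) (b := b)).mono_set Ioo_subset_Icc_self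

lemma split_uni {g : ℝ → ℝ} {a b c : ℝ} (hab : a < b) (hbc : b < c)
    (h1 : IntegrableOn g (Ioo a c)) :
    ∫ v in Ioo a c, g v = (∫ v in Ioo a b, g v) + ∫ v in Ioo b c, g v := by
  have e : (Ioo a c : Set ℝ) =ᵐ[volume] (Ioo a b ∪ Ioo b c : Set ℝ) := by
    have h2 : (Ioo a c : Set ℝ) = Ioo a b ∪ Ico b c := by
      ext x; simp only [mem_Ioo, mem_union, mem_Ico]
      constructor
      · rintro ⟨h3, h4⟩
        rcases lt_or_ge x b with h5 | h5
        · exact Or.inl ⟨h3, h5⟩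
        · exact Or.inr ⟨h5, h4⟩
      · rintro (⟨h3, h4⟩ | ⟨h3, h4⟩)
        · exact ⟨h3, h4.trans hbc⟩
        · exact ⟨lt_of_lt_of_le hab h3, h4⟩
    rw [h2]
    exact ae_eq_set_union (ae_eq_refl _) Ioo_ae_eq_Ico.symm
  rw [setIntegral_congr_set e, setIntegral_union]
  · rw [Set.disjoint_left]
    intro x hx hx'
    exact absurd hx.2 (not_lt.2 hx'.1.le)
  · exact measurableSet_Ioo
  · exact h1.mono_set (Ioo_subset_Ioo_right hbc.le)
  · exact h1.mono_set (Ioo_subset_Ioo_left hab.le)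

lemma int_const_Ioo {a b : ℝ} (hab : a ≤ b) (c : ℝ) : ∫ _ in Ioo a b, c = (b - a) * c := by
  rw [setIntegral_const, measureReal_def, Real.volume_Ioo, ENNReal.toReal_ofReal (by linarith),
    smul_eq_mul]

lemma exists_bound_fos (n j : ℕ) : ∃ B : ℝ, ∀ u ∈ Icc (0:ℝ) 1, ‖fos n j u‖ ≤ B := by
  obtain ⟨B, hB⟩ := (isCompact_Icc (a := (0:ℝ)) (b := 1)).exists_bound_of_continuousOn
    (continuous_fos n j).continuousOn
  exact ⟨B, hB⟩

lemma memLp_fos (n j : ℕ) : MemLp (fos n j) 2 uni := by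
  obtain ⟨B, hB⟩ := exists_bound_fos n j
  refine MemLp.of_bound (continuous_fos n j).aestronglyMeasurable B ?_
  refine (ae_restrict_iff' measurableSet_Ioo).2 (Eventually.of_forall fun u hu => ?_)
  exact hB u ⟨hu.1.le, hu.2.le⟩

/-- A bounded measurable function is in `L^2` of the uniform law. -/
lemma memLp_of_bdd {h : ℝ → ℝ} (hm : Measurable h) (B : ℝ) (hB : ∀ u ∈ Ioo (0:ℝ) 1, |h u| ≤ B) :
    MemLp h 2 uni := by
  refine MemLp.of_bound hm.aestronglyMeasurable B ?_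
  refine (ae_restrict_iff' measurableSet_Ioo).2 (Eventually.of_forall fun u hu => ?_)
  exact hB u hu

lemma int_fos_one {n j : ℕ} (hj : 1 ≤ j) (hjn : j ≤ n) : ∫ v in Ioo (0:ℝ) 1, fos n j v = 1 := by
  rw [int_fos_Ioo hj hjn zero_le_one, Fos_one hjn, Fos_zero hj, sub_zero]

/-- Variance on the uniform scale. -/
def varU (Q : ℝ → ℝ) : ℝ := ∫ u in Ioo (0:ℝ) 1, (Q u - ∫ v in Ioo (0:ℝ) 1, Q v) ^ 2

/-! ### The upper bound -/

/-- The upper bound. -/
def Ub (n j : ℕ) (p : ℝ) : ℝ := (1 - Fos n j p) / Real.sqrt (p * (1 - p))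

/-- The extremal step function for the upper bound. -/
def hA (n j : ℕ) (p : ℝ) (u : ℝ) : ℝ :=
  if u ≤ p then -((1 - Fos n j p) / p) else (1 - Fos n j p) / (1 - p)

lemma measurable_hA (n j : ℕ) (p : ℝ) : Measurable (hA n j p) :=
  Measurable.ite measurableSet_Iic measurable_const measurable_const

lemma memLp_hA (n j : ℕ) (p : ℝ) : MemLp (hA n j p) 2 uni := by
  refine memLp_of_bdd (measurable_hA n j p) (|(1 - Fos n j p) / p| + |(1 - Fos n j p) / (1 - p)|) ?_
  intro u _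
  unfold hA
  split_ifs
  · rw [abs_neg]; linarith [abs_nonneg ((1 - Fos n j p) / (1 - p))]
  · linarith [abs_nonneg ((1 - Fos n j p) / p)]

lemma int_Ioo_congr {a b : ℝ} {g h : ℝ → ℝ} (hgh : ∀ u ∈ Ioo a b, g u = h u) :
    ∫ u in Ioo a b, g u = ∫ u in Ioo a b, h u :=
  setIntegral_congr_fun measurableSet_Ioo hgh

lemma int_hA {n j : ℕ} {p : ℝ} (P : Par n j p) : ∫ u in Ioo (0:ℝ) 1, hA n j p u = 0 := by
  have hi : IntegrableOn (hA n j p) (Ioo (0:ℝ) 1) := (memLp_hA n j p).integrable (by norm_num)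
  rw [split_uni P.hp0 P.hp1 hi]
  have h1 : ∫ u in Ioo (0:ℝ) p, hA n j p u = ∫ _ in Ioo (0:ℝ) p, -((1 - Fos n j p) / p) :=
    int_Ioo_congr fun u hu => by unfold hA; rw [if_pos hu.2.le]
  have h2 : ∫ u in Ioo p 1, hA n j p u = ∫ _ in Ioo p 1, (1 - Fos n j p) / (1 - p) :=
    int_Ioo_congr fun u hu => by unfold hA; rw [if_neg (not_le.2 hu.1)]
  have hp0 := P.hp0
  have hp1 : 0 < 1 - p := by linarith [P.hp1]
  rw [h1, h2, int_const_Ioo P.hp0.le, int_const_Ioo P.hp1.le]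
  field_simp
  ring

lemma int_hA_sq {n j : ℕ} {p : ℝ} (P : Par n j p) :
    ∫ u in Ioo (0:ℝ) 1, hA n j p u ^ 2 = (Ub n j p) ^ 2 := by
  have hi : IntegrableOn (fun u => hA n j p u ^ 2) (Ioo (0:ℝ) 1) := (memLp_hA n j p).integrable_sq
  rw [split_uni P.hp0 P.hp1 hi]
  have h1 : ∫ u in Ioo (0:ℝ) p, hA n j p u ^ 2 = ∫ _ in Ioo (0:ℝ) p, ((1 - Fos n j p) / p) ^ 2 :=
    int_Ioo_congr fun u hu => by unfold hA; rw [if_pos hu.2.le]; ring
  have h2 : ∫ u in Ioo p 1, hA n j p u ^ 2 = ∫ _ in Ioo p 1, ((1 - Fos n j p) / (1 - p)) ^ 2 :=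
    int_Ioo_congr fun u hu => by unfold hA; rw [if_neg (not_le.2 hu.1)]
  have hp0 := P.hp0
  have hp1 : 0 < 1 - p := by linarith [P.hp1]
  rw [h1, h2, int_const_Ioo P.hp0.le, int_const_Ioo P.hp1.le]
  unfold Ub
  rw [div_pow (1 - Fos n j p) (Real.sqrt (p * (1 - p))), Real.sq_sqrt (by positivity)]
  field_simp
  ring

lemma Ub_pos {n j : ℕ} {p : ℝ} (P : Par n j p) : 0 < Ub n j p := by
  have hp0 := P.hp0
  have hp1 : 0 < 1 - p := by linarith [P.hp1]
  have := Fos_lt_one P.hj P.hjn P.hp0.le P.hp1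
  unfold Ub
  have h1 : 0 < 1 - Fos n j p := by linarith
  positivity

lemma integrable_mul_fos {Q : ℝ → ℝ} (hQ : MemLp Q 2 uni) (n j : ℕ) :
    IntegrableOn (fun u => Q u * fos n j u) (Ioo (0:ℝ) 1) :=
  hQ.integrable_mul (memLp_fos n j)

/-- The mean of the order statistic is controlled by the step function. -/
lemma upper_step {n j : ℕ} {p : ℝ} (P : Par n j p) {Q : ℝ → ℝ} (hQm : MonotoneOn Q (Ioo 0 1))
    (hQ : MemLp Q 2 uni) :
    (∫ u in Ioo (0:ℝ) 1, Q u * fos n j u) - Q p ≤ ∫ u in Ioo (0:ℝ) 1, Q u * hA n j p u := by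
  have hpm : p ∈ Ioo (0:ℝ) 1 := ⟨P.hp0, P.hp1⟩
  have hp1 : 0 < 1 - p := by linarith [P.hp1]
  have hF1 := Fos_lt_one P.hj P.hjn P.hp0.le P.hp1
  have i1 : IntegrableOn (fun u => Q u * fos n j u) (Ioo (0:ℝ) 1) := integrable_mul_fos hQ n j
  have i2 : IntegrableOn (fun u => Q u * hA n j p u) (Ioo (0:ℝ) 1) := hQ.integrable_mul (memLp_hA n j p)
  have i3 : IntegrableOn (fos n j) (Ioo (0:ℝ) 1) := integrableOn_fos n j 0 1
  have i4 : IntegrableOn (hA n j p) (Ioo (0:ℝ) 1) := (memLp_hA n j p).integrable (by norm_num)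
  -- the difference
  have e1 : ∫ u in Ioo (0:ℝ) 1, (Q u - Q p) * (hA n j p u - fos n j u) =
      (∫ u in Ioo (0:ℝ) 1, Q u * hA n j p u) - ((∫ u in Ioo (0:ℝ) 1, Q u * fos n j u) - Q p) := by
    have e2 : ∀ u, (Q u - Q p) * (hA n j p u - fos n j u) =
        (Q u * hA n j p u - Q p * hA n j p u) - (Q u * fos n j u - Q p * fos n j u) := fun u => by ring
    simp only [e2]
    rw [int_sub4 i2 (i4.const_mul (Q p)) i1 (i3.const_mul (Q p)), integral_const_mul,
      integral_const_mul, int_hA P, int_fos_one P.hj P.hjn]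
    ring
  have i5 : IntegrableOn (fun u => (Q u - Q p) * (hA n j p u - fos n j u)) (Ioo (0:ℝ) 1) :=
    (hQ.sub (memLp_const _)).integrable_mul ((memLp_hA n j p).sub (memLp_fos n j))
  have h1 : 0 ≤ ∫ u in Ioo (0:ℝ) p, (Q u - Q p) * (hA n j p u - fos n j u) := by
    refine setIntegral_nonneg measurableSet_Ioo fun u hu => ?_
    refine mul_nonneg_of_nonpos_of_nonpos ?_ ?_
    · have := hQm ⟨hu.1, hu.2.trans P.hp1⟩ hpm hu.2.le
      linarith
    · have h2 := fos_nonneg n j hu.1.le (hu.2.trans P.hp1).le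
      unfold hA; rw [if_pos hu.2.le]
      have h3 : 0 ≤ (1 - Fos n j p) / p := div_nonneg (by linarith) P.hp0.le
      linarith
  have h2 : 0 ≤ ∫ u in Ioo p 1, (Q u - Q p) * (hA n j p u - fos n j u) := by
    have hsub : Ioo p 1 ⊆ Ioo (0:ℝ) 1 := Ioo_subset_Ioo_left P.hp0.le
    have e3 : ∀ u ∈ Ioo p 1, hA n j p u - fos n j u = (1 - Fos n j p) / (1 - p) - fos n j u := by
      intro u hu
      unfold hA; rw [if_neg (not_le.2 hu.1)]
    refine cheb_nonneg ?_ ?_ ?_ (i5.mono_set hsub) ?_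
    · intro u hu v hv huv
      have := hQm (hsub hu) (hsub hv) huv
      show Q u - Q p ≤ Q v - Q p
      linarith
    · intro u hu v hv huv
      show hA n j p u - fos n j u ≤ hA n j p v - fos n j v
      rw [e3 u hu, e3 v hv]
      have := antitoneOn_fos P.hj P.hn P.hjn P.hp0.le P.hp ⟨hu.1.le, hu.2.le⟩ ⟨hv.1.le, hv.2.le⟩ huv
      linarith
    · exact (i4.sub i3).mono_set hsub
    · rw [int_Ioo_congr e3, integral_sub (integrable_const _) (i3.mono_set hsub),
        int_const_Ioo P.hp1.le, int_fos_Ioo P.hj P.hjn P.hp1.le, Fos_one P.hjn]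
      field_simp
      ring
  have h3 := split_uni P.hp0 P.hp1 i5
  rw [e1] at h3
  linarith

/-- The distribution-free upper bound. -/
lemma upper_free {n j : ℕ} {p : ℝ} (P : Par n j p) {Q : ℝ → ℝ} (hQm : MonotoneOn Q (Ioo 0 1))
    (hQ : MemLp Q 2 uni) :
    (∫ u in Ioo (0:ℝ) 1, Q u * fos n j u) - Q p ≤ Real.sqrt (varU Q) * Ub n j p := by
  have h1 := upper_step P hQm hQ
  have h2 := cs_bound (μ := uni) hQ (memLp_hA n j p) (int_hA P)
  rw [int_hA_sq P, Real.sqrt_sq (Ub_pos P).le] at h2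
  exact h1.trans h2

/-! ### The lower bound -/

lemma Fos_div_mono {n j : ℕ} (hn : 2 ≤ n) (hj : 1 ≤ j) (hjn : j ≤ n) {s : ℝ} (hs1 : s ≤ 1)
    (hs : Fos n j s ≤ s * fos n j s) :
    MonotoneOn (fun u => Fos n j u / u) (Ioc 0 s) := by
  have hmd := md_nonneg hn hj
  -- sign of `u f(u) - F(u)`
  have hg : ∀ u ∈ Icc (0:ℝ) s, Fos n j u ≤ u * fos n j u := by
    intro u hu
    rcases le_total u (md n j) with h1 | h1
    · have h2 : ∫ v in (0:ℝ)..u, fos n j v ≤ ∫ _ in (0:ℝ)..u, fos n j u := by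
        refine intervalIntegral.integral_mono_on hu.1 ((continuous_fos n j).intervalIntegrable _ _)
          (continuous_const.intervalIntegrable _ _) fun v hv => ?_
        exact monotoneOn_fos hj hn hjn ⟨hv.1, hv.2.trans h1⟩ ⟨hu.1, h1⟩ hv.2
      rw [integral_fos hj hjn, Fos_zero hj, sub_zero, intervalIntegral.integral_const, sub_zero,
        smul_eq_mul] at h2
      exact h2
    · have h2 : ∫ _ in u..s, fos n j s ≤ ∫ v in u..s, fos n j v := by
        refine intervalIntegral.integral_mono_on hu.2 (continuous_const.intervalIntegrable _ _)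
          ((continuous_fos n j).intervalIntegrable _ _) fun v hv => ?_
        exact antitoneOn_fos hj hn hjn (hmd.trans h1) h1 ⟨hv.1, hv.2.trans hs1⟩ ⟨hu.2, hs1⟩ hv.2
      rw [integral_fos hj hjn, intervalIntegral.integral_const, smul_eq_mul] at h2
      have h3 := antitoneOn_fos hj hn hjn (hmd.trans h1) h1 ⟨le_rfl, hu.2.trans hs1⟩ ⟨hu.2, hs1⟩ hu.2
      have h4 : u * fos n j s ≤ u * fos n j u := mul_le_mul_of_nonneg_left h3 hu.1
      nlinarith
  refine monotoneOn_of_deriv_nonneg (convex_Ioc 0 s) ?_ ?_ ?_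
  · refine ContinuousOn.div (continuous_Fos n j).continuousOn continuousOn_id fun u hu => ?_
    exact hu.1.ne'
  · intro u hu
    rw [interior_Ioc] at hu
    exact ((hasDerivAt_Fos hj hjn u).div (hasDerivAt_id u) hu.1.ne').differentiableAt.differentiableWithinAt
  · intro u hu
    rw [interior_Ioc] at hu
    have h1 : HasDerivAt (fun u => Fos n j u / u) ((fos n j u * u - Fos n j u * 1) / u ^ 2) u :=
      (hasDerivAt_Fos hj hjn u).div (hasDerivAt_id u) hu.1.ne'
    rw [h1.deriv]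
    refine div_nonneg ?_ (sq_nonneg _)
    have := hg u ⟨hu.1.le, hu.2.le⟩
    linarith

/-- Conditions on the splitting point of the lower bound: it lies past the mode, `F(s) ≤ s f(s)`. -/
structure SPt (n j : ℕ) (p s : ℝ) : Prop where
  hms : md n j ≤ s
  hsp : s ≤ p
  hs : Fos n j s ≤ s * fos n j s

/-- The extremal function for the lower bound. -/
def hB (n j : ℕ) (p s : ℝ) (u : ℝ) : ℝ :=
  if u ≤ s then Fos n j s / s else if u < p then fos n j u else -(Fos n j p / (1 - p))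

/-- The square of the lower bound. -/
def LbSq (n j : ℕ) (p s : ℝ) : ℝ :=
  Fos n j s ^ 2 / s + (∫ u in s..p, fos n j u ^ 2) + Fos n j p ^ 2 / (1 - p)

lemma measurable_hB (n j : ℕ) (p s : ℝ) : Measurable (hB n j p s) :=
  Measurable.ite measurableSet_Iic measurable_const
    (Measurable.ite measurableSet_Iio (continuous_fos n j).measurable measurable_const)

lemma memLp_hB (n j : ℕ) (p s : ℝ) : MemLp (hB n j p s) 2 uni := by
  obtain ⟨B, hB'⟩ := exists_bound_fos n j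
  refine memLp_of_bdd (measurable_hB n j p s) (|Fos n j s / s| + |B| + |Fos n j p / (1 - p)|) ?_
  intro u hu
  have h1 := hB' u ⟨hu.1.le, hu.2.le⟩
  rw [Real.norm_eq_abs] at h1
  have h2 : |fos n j u| ≤ |B| := h1.trans (le_abs_self B)
  have a1 := abs_nonneg (Fos n j s / s)
  have a2 := abs_nonneg (Fos n j p / (1 - p))
  have a3 := abs_nonneg B
  unfold hB
  split_ifs
  · linarith
  · linarith
  · rw [abs_neg]; linarith

lemma SPt.s0 {n j : ℕ} {p s : ℝ} (P : Par n j p) (S : SPt n j p s) : 0 ≤ s :=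
  (md_nonneg P.hn P.hj).trans S.hms

/-- Prefix integrals of the flattened density. -/
lemma int_hB_prefix {n j : ℕ} {p s : ℝ} (P : Par n j p) (S : SPt n j p s) {u : ℝ} (hu0 : 0 < u)
    (hup : u ≤ p) :
    ∫ v in Ioo 0 u, hB n j p s v = if u ≤ s then u * (Fos n j s / s) else Fos n j u := by
  have hs0 := S.s0 P
  have hi : IntegrableOn (hB n j p s) (Ioo 0 1) := (memLp_hB n j p s).integrable (by norm_num)
  split_ifs with h
  · rw [int_Ioo_congr (h := fun _ => Fos n j s / s), int_const_Ioo hu0.le, sub_zero]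
    intro v hv
    unfold hB; rw [if_pos (hv.2.le.trans h)]
  · push Not at h
    rcases eq_or_lt_of_le hs0 with h0 | h0
    · rw [← h0] at *
      rw [int_Ioo_congr (h := fos n j), int_fos_Ioo P.hj P.hjn hu0.le, Fos_zero P.hj, sub_zero]
      intro v hv
      unfold hB
      rw [if_neg (not_le.2 hv.1), if_pos (lt_of_lt_of_le hv.2 hup)]
    · rw [split_uni h0 h (hi.mono_set (Ioo_subset_Ioo_right (hup.trans P.hp1.le)))]
      rw [int_Ioo_congr (a := 0) (b := s) (h := fun _ => Fos n j s / s), int_const_Ioo h0.le,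
        int_Ioo_congr (a := s) (b := u) (h := fos n j), int_fos_Ioo P.hj P.hjn h.le]
      · field_simp
        ring
      · intro v hv
        unfold hB
        rw [if_neg (not_le.2 hv.1), if_pos (lt_of_lt_of_le hv.2 hup)]
      · intro v hv
        unfold hB; rw [if_pos hv.2.le]

lemma int_hB_p {n j : ℕ} {p s : ℝ} (P : Par n j p) (S : SPt n j p s) :
    ∫ v in Ioo 0 p, hB n j p s v = Fos n j p := by
  rw [int_hB_prefix P S P.hp0 le_rfl]
  split_ifs with h
  · have : s = p := le_antisymm S.hsp h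
    rw [this]
    have := P.hp0
    field_simp
  · rfl

lemma int_hB {n j : ℕ} {p s : ℝ} (P : Par n j p) (S : SPt n j p s) :
    ∫ u in Ioo (0:ℝ) 1, hB n j p s u = 0 := by
  have hi : IntegrableOn (hB n j p s) (Ioo (0:ℝ) 1) := (memLp_hB n j p s).integrable (by norm_num)
  have hp1 : 0 < 1 - p := by linarith [P.hp1]
  rw [split_uni P.hp0 P.hp1 hi, int_hB_p P S]
  rw [int_Ioo_congr (h := fun _ => -(Fos n j p / (1 - p))), int_const_Ioo P.hp1.le]
  · field_simp
    ring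
  · intro v hv
    unfold hB
    rw [if_neg (not_le.2 (lt_of_le_of_lt S.hsp hv.1)), if_neg (not_lt.2 hv.1.le)]

lemma int_hB_sq {n j : ℕ} {p s : ℝ} (P : Par n j p) (S : SPt n j p s) :
    ∫ u in Ioo (0:ℝ) 1, hB n j p s u ^ 2 = LbSq n j p s := by
  have hs0 := S.s0 P
  have hi : IntegrableOn (fun u => hB n j p s u ^ 2) (Ioo (0:ℝ) 1) := (memLp_hB n j p s).integrable_sq
  have hp1 : 0 < 1 - p := by linarith [P.hp1]
  have e2 : ∫ u in Ioo p 1, hB n j p s u ^ 2 = Fos n j p ^ 2 / (1 - p) := by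
    rw [int_Ioo_congr (h := fun _ => (Fos n j p / (1 - p)) ^ 2), int_const_Ioo P.hp1.le]
    · field_simp
    · intro v hv
      unfold hB
      rw [if_neg (not_le.2 (lt_of_le_of_lt S.hsp hv.1)), if_neg (not_lt.2 hv.1.le)]
      ring
  have e1 : ∫ u in Ioo 0 p, hB n j p s u ^ 2 = Fos n j s ^ 2 / s + ∫ u in s..p, fos n j u ^ 2 := by
    have e3 : ∀ a b, s ≤ a → b ≤ p → a ≤ b → ∫ u in Ioo a b, hB n j p s u ^ 2 = ∫ u in a..b, fos n j u ^ 2 := by
      intro a b ha hb hab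
      rw [← ioo_eq_interval hab]
      refine int_Ioo_congr fun v hv => ?_
      unfold hB
      rw [if_neg (not_le.2 (lt_of_le_of_lt ha hv.1)), if_pos (lt_of_lt_of_le hv.2 hb)]
    rcases eq_or_lt_of_le hs0 with h0 | h0
    · rw [← h0, div_zero, zero_add, h0]
      have := e3 0 p h0.ge le_rfl P.hp0.le
      rw [← h0] at this ⊢
      exact this
    · have e4 : ∫ u in Ioo 0 s, hB n j p s u ^ 2 = Fos n j s ^ 2 / s := by
        rw [int_Ioo_congr (h := fun _ => (Fos n j s / s) ^ 2), int_const_Ioo h0.le]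
        · field_simp
          ring
        · intro v hv
          unfold hB; rw [if_pos hv.2.le]
      rcases eq_or_lt_of_le S.hsp with h | h
      · rw [← h, intervalIntegral.integral_same, add_zero]
        rw [← h] at e4
        exact e4
      · rw [split_uni h0 h (hi.mono_set (Ioo_subset_Ioo_right P.hp1.le)), e4, e3 s p le_rfl le_rfl h.le]
  rw [split_uni P.hp0 P.hp1 hi, e1, e2]
  rfl

lemma LbSq_pos {n j : ℕ} {p s : ℝ} (P : Par n j p) (S : SPt n j p s) : 0 < LbSq n j p s := by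
  have hp1 : 0 < 1 - p := by linarith [P.hp1]
  have hs0 := S.s0 P
  have h1 : 0 < Fos n j p := Fos_pos P.hj P.hjn P.hp0 P.hp1.le
  have h2 : 0 ≤ ∫ u in s..p, fos n j u ^ 2 :=
    intervalIntegral.integral_nonneg S.hsp fun u _ => sq_nonneg _
  unfold LbSq
  positivity

lemma lower_step {n j : ℕ} {p s : ℝ} (P : Par n j p) (S : SPt n j p s) {Q : ℝ → ℝ}
    (hQm : MonotoneOn Q (Ioo 0 1)) (hQ : MemLp Q 2 uni) :
    ∫ u in Ioo (0:ℝ) 1, Q u * hB n j p s u ≤ (∫ u in Ioo (0:ℝ) 1, Q u * fos n j u) - Q p := by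
  have hpm : p ∈ Ioo (0:ℝ) 1 := ⟨P.hp0, P.hp1⟩
  have hp1 : 0 < 1 - p := by linarith [P.hp1]
  have hFp : 0 < Fos n j p := Fos_pos P.hj P.hjn P.hp0 P.hp1.le
  have i1 : IntegrableOn (fun u => Q u * fos n j u) (Ioo (0:ℝ) 1) := integrable_mul_fos hQ n j
  have i2 : IntegrableOn (fun u => Q u * hB n j p s u) (Ioo (0:ℝ) 1) := hQ.integrable_mul (memLp_hB n j p s)
  have i3 : IntegrableOn (fos n j) (Ioo (0:ℝ) 1) := integrableOn_fos n j 0 1
  have i4 : IntegrableOn (hB n j p s) (Ioo (0:ℝ) 1) := (memLp_hB n j p s).integrable (by norm_num)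
  have e1 : ∫ u in Ioo (0:ℝ) 1, (Q p - Q u) * (hB n j p s u - fos n j u) =
      ((∫ u in Ioo (0:ℝ) 1, Q u * fos n j u) - Q p) - (∫ u in Ioo (0:ℝ) 1, Q u * hB n j p s u) := by
    have e2 : ∀ u, (Q p - Q u) * (hB n j p s u - fos n j u) =
        (Q p * hB n j p s u - Q u * hB n j p s u) - (Q p * fos n j u - Q u * fos n j u) := fun u => by ring
    simp only [e2]
    rw [int_sub4 (i4.const_mul (Q p)) i2 (i3.const_mul (Q p)) i1, integral_const_mul,
      integral_const_mul, int_hB P S, int_fos_one P.hj P.hjn]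
    ring
  have i5 : IntegrableOn (fun u => (Q p - Q u) * (hB n j p s u - fos n j u)) (Ioo (0:ℝ) 1) :=
    ((memLp_const _).sub hQ).integrable_mul ((memLp_hB n j p s).sub (memLp_fos n j))
  have h2 : 0 ≤ ∫ u in Ioo p 1, (Q p - Q u) * (hB n j p s u - fos n j u) := by
    refine setIntegral_nonneg measurableSet_Ioo fun u hu => ?_
    refine mul_nonneg_of_nonpos_of_nonpos ?_ ?_
    · have := hQm hpm ⟨P.hp0.trans hu.1, hu.2⟩ hu.1.le
      linarith
    · have h2 := fos_nonneg n j (P.hp0.trans hu.1).le hu.2.le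
      unfold hB
      rw [if_neg (not_le.2 (lt_of_le_of_lt S.hsp hu.1)), if_neg (not_lt.2 hu.1.le)]
      have h3 : 0 ≤ Fos n j p / (1 - p) := by positivity
      linarith
  have h1 : 0 ≤ ∫ u in Ioo (0:ℝ) p, (Q p - Q u) * (hB n j p s u - fos n j u) := by
    have hsub : Ioo 0 p ⊆ Ioo (0:ℝ) 1 := Ioo_subset_Ioo_right P.hp1.le
    refine abel_nonneg ?_ ?_ ((i4.sub i3).mono_set hsub) (i5.mono_set hsub) ?_
    · intro u hu v hv huv
      have := hQm (hsub hu) (hsub hv) huv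
      show Q p - Q v ≤ Q p - Q u
      linarith
    · intro u hu
      have := hQm (hsub hu) hpm hu.2.le
      linarith
    · intro u hu
      have hsub2 : Ioo 0 u ⊆ Ioo (0:ℝ) 1 := Ioo_subset_Ioo_right (hu.2.trans P.hp1.le)
      rw [integral_sub (i4.mono_set hsub2) (i3.mono_set hsub2), int_hB_prefix P S hu.1 hu.2,
        int_fos_Ioo P.hj P.hjn hu.1.le, Fos_zero P.hj, sub_zero]
      split_ifs with h
      · have hs0 : 0 < s := lt_of_lt_of_le hu.1 h
        have h3 := Fos_div_mono P.hn P.hj P.hjn (S.hsp.trans P.hp1.le) S.hs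
          (show u ∈ Ioc 0 s from ⟨hu.1, h⟩) (show s ∈ Ioc 0 s from ⟨hs0, le_rfl⟩) h
        simp only at h3
        rw [div_le_iff₀ hu.1] at h3
        linarith
      · simp
  have h3 := split_uni P.hp0 P.hp1 i5
  rw [e1] at h3
  linarith

/-- The distribution-free lower bound. -/
lemma lower_free {n j : ℕ} {p s : ℝ} (P : Par n j p) (S : SPt n j p s) {Q : ℝ → ℝ}
    (hQm : MonotoneOn Q (Ioo 0 1)) (hQ : MemLp Q 2 uni) :
    -(Real.sqrt (varU Q) * Real.sqrt (LbSq n j p s)) ≤ (∫ u in Ioo (0:ℝ) 1, Q u * fos n j u) - Q p := by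
  have h1 := lower_step P S hQm hQ
  have h2 := cs_bound (μ := uni) (Q := fun u => -Q u) hQ.neg (memLp_hB n j p s) (int_hB P S)
  rw [int_hB_sq P S] at h2
  have e1 : ∫ u in Ioo (0:ℝ) 1, -Q u * hB n j p s u = - ∫ u in Ioo (0:ℝ) 1, Q u * hB n j p s u := by
    rw [← integral_neg]; congr 1; funext u; ring
  have e2 : ∫ u in Ioo (0:ℝ) 1, (-Q u - ∫ v in Ioo (0:ℝ) 1, -Q v) ^ 2 = varU Q := by
    unfold varU
    rw [integral_neg]
    congr 1; funext u; ring
  rw [e1, e2] at h2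
  linarith

end

end Pool.Agent.Lib.QBias
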