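import Pool.Agent.Lib.MP_c5814c_pr.Ord

namespace Pool.Agent.Lib.MP_c5814c_pr

open MeasureTheory ProbabilityTheory Set Filter
open scoped ENNReal Topology

theorem unif_restrict_Iic {t : ℝ} (h0 : 0 ≤ t) (h1 : t ≤ 1) (f : ℝ → ℝ) :
    ∫ u in Iic t, f u ∂unif = ∫ u in (0:ℝ)..t, f u := by
  rw [intervalIntegral.integral_of_le h0, unif, Measure.restrict_restrict measurableSet_Iic]
  have h2 : (Iic t ∩ Ioo 0 1 : Set ℝ) =ᵐ[volume] (Ioc 0 t : Set ℝ) := by
    rcases eq_or_lt_of_le h1 with h | h
    · subst h
      have h2 : Iic (1:ℝ) ∩ Ioo 0 1 = Ioo 0 1 := by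
        ext x; simp only [mem_inter_iff, mem_Iic, mem_Ioo]; constructor
        · exact fun h => h.2
        · exact fun h => ⟨h.2.le, h⟩
      rw [h2]; exact Ioo_ae_eq_Ioc
    · have h2 : Iic t ∩ Ioo 0 1 = Ioc 0 t := by
        ext x; simp only [mem_inter_iff, mem_Iic, mem_Ioo, mem_Ioc]; constructor
        · exact fun h => ⟨h.2.1, h.1⟩
        · exact fun h => ⟨h.2, h.1, by linarith [h.2]⟩
      rw [h2]
  rw [Measure.restrict_congr_set h2]

theorem integrable_dens (n j : ℕ) : Integrable (pdfU n j) unif := by
  have : IntegrableOn (pdfU n j) (Icc 0 1) :=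
    (continuous_dens n j).continuousOn.integrableOn_compact isCompact_Icc
  exact (this.mono_set Ioo_subset_Icc_self)

theorem dens_nonneg_ae (n j : ℕ) : ∀ᵐ u ∂unif, 0 ≤ pdfU n j u := by
  filter_upwards [ae_unif_mem] with u hu
  exact dens_nonneg n j hu.1.le hu.2.le

theorem setIntegral_dens {n j : ℕ} (hj : j < n) {t : ℝ} (h0 : 0 ≤ t) (h1 : t ≤ 1) :
    ∫ u in Iic t, pdfU n j u ∂unif = cdfU n j t := by
  rw [unif_restrict_Iic h0 h1, integral_dens hj, dist_zero, sub_zero]

theorem map_ordStat {n : ℕ} (j : Fin n) :
    Measure.map (ordStat j) (Measure.pi fun _ : Fin n => unif)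
      = unif.withDensity (fun u => ENNReal.ofReal (pdfU n j u)) := by
  have hP : IsProbabilityMeasure (Measure.map (ordStat j) (Measure.pi fun _ : Fin n => unif)) :=
    Measure.isProbabilityMeasure_map (measurable_ordStat j).aemeasurable
  have key : ∀ t, 0 ≤ t → t ≤ 1 →
      unif.withDensity (fun u => ENNReal.ofReal (pdfU n j u)) (Iic t)
        = ENNReal.ofReal (cdfU n j t) := by
    intro t h0 h1
    rw [withDensity_apply _ measurableSet_Iic, ← setIntegral_dens j.2 h0 h1,
      ofReal_integral_eq_lintegral_ofReal (integrable_dens n j).integrableOn]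
    exact ae_restrict_of_ae (dens_nonneg_ae n j)
  refine Measure.ext_of_Iic _ _ fun t => ?_
  rw [Measure.map_apply (measurable_ordStat j) measurableSet_Iic]
  have hae : ∀ᵐ x ∂(Measure.pi fun _ : Fin n => unif), ∀ i, x i ∈ Ioo (0:ℝ) 1 := by
    rw [ae_all_iff]
    intro i
    exact (Measure.quasiMeasurePreserving_eval (fun _ : Fin n => unif) i).ae ae_unif_mem
  rcases lt_or_ge t 0 with ht | ht
  · have h1 : (Measure.pi fun _ : Fin n => unif) (ordStat j ⁻¹' Iic t) = 0 := by
      rw [measure_eq_zero_iff_ae_notMem]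
      filter_upwards [hae] with x hx hxt
      have : 0 < ordStat j x := (hx _).1
      have h2 : ordStat j x ≤ t := hxt
      linarith
    have h2 : unif.withDensity (fun u => ENNReal.ofReal (pdfU n j u)) (Iic t) = 0 := by
      refine withDensity_absolutelyContinuous _ _ ?_
      rw [measure_eq_zero_iff_ae_notMem]
      filter_upwards [ae_unif_mem] with x hx hxt
      have h2 : x ≤ t := hxt
      linarith [hx.1]
    rw [h1, h2]
  · rcases le_or_gt t 1 with ht1 | ht1
    · rw [key t ht ht1]
      exact pi_ordStat_le j ht ht1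
    · have h1 : (Measure.pi fun _ : Fin n => unif) (ordStat j ⁻¹' Iic t) = 1 := by
        rw [← prob_compl_eq_zero_iff ((measurable_ordStat j) measurableSet_Iic),
          measure_eq_zero_iff_ae_notMem]
        filter_upwards [hae] with x hx hxt
        have : ordStat j x < 1 := (hx _).2
        exact hxt (show ordStat j x ≤ t by linarith)
      have h2 : unif.withDensity (fun u => ENNReal.ofReal (pdfU n j u)) (Iic t)
          = unif.withDensity (fun u => ENNReal.ofReal (pdfU n j u)) (Iic 1) := by
        refine measure_congr ?_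
        refine (withDensity_absolutelyContinuous _ _).ae_eq ?_
        filter_upwards [ae_unif_mem] with x hx
        apply propext
        change (x ≤ t) ↔ (x ≤ 1)
        exact ⟨fun _ => hx.2.le, fun _ => by linarith [hx.2]⟩
      rw [h1, h2, key 1 zero_le_one le_rfl, dist_one j.2, ENNReal.ofReal_one]

/-- The expectation of a function of an order statistic of a sample from the law of `h(U)`. -/
theorem integral_ordStat {n : ℕ} (j : Fin n) {h : ℝ → ℝ} (hm : MonotoneOn h (Ioo 0 1))
    {g : ℝ → ℝ} (hg : Measurable g) :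
    ∫ x, g (ordStat j x) ∂(Measure.pi fun _ : Fin n => Measure.map h unif)
      = ∫ u, g (h u) * pdfU n j u ∂unif := by
  have hae : AEMeasurable h unif := aemeasurable_of_monotoneOn hm
  have hpr : IsProbabilityMeasure (Measure.map h unif) := Measure.isProbabilityMeasure_map hae
  have hpi : (Measure.pi fun _ : Fin n => Measure.map h unif)
      = Measure.map (fun x i => h (x i)) (Measure.pi fun _ : Fin n => unif) :=
    (Measure.pi_map_pi (fun _ => hae)).symm
  have hae2 : AEMeasurable (fun (x : Fin n → ℝ) i => h (x i)) (Measure.pi fun _ : Fin n => unif) :=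
    aemeasurable_pi_lambda _ fun i => hae.comp_quasiMeasurePreserving
      (Measure.quasiMeasurePreserving_eval (fun _ : Fin n => unif) i)
  have hgm : AEStronglyMeasurable (fun x : Fin n → ℝ => g (ordStat j x))
      (Measure.map (fun x i => h (x i)) (Measure.pi fun _ : Fin n => unif)) :=
    (hg.comp (measurable_ordStat j)).aestronglyMeasurable
  rw [hpi, integral_map hae2 hgm]
  have hmem : ∀ᵐ x ∂(Measure.pi fun _ : Fin n => unif), ∀ i, x i ∈ Ioo (0:ℝ) 1 := by
    rw [ae_all_iff]
    intro i
    exact (Measure.quasiMeasurePreserving_eval (fun _ : Fin n => unif) i).ae ae_unif_mem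
  have h1 : ∫ x, g (ordStat j fun i => h (x i)) ∂(Measure.pi fun _ : Fin n => unif)
      = ∫ x, g (h (ordStat j x)) ∂(Measure.pi fun _ : Fin n => unif) := by
    refine integral_congr_ae ?_
    filter_upwards [hmem] with x hx
    rw [ordStat_comp j h (Ioo 0 1) hm x hx]
  rw [h1]
  -- pass to the law of the order statistic
  have hac : Measure.map (ordStat j) (Measure.pi fun _ : Fin n => unif) ≪ unif := by
    rw [map_ordStat]; exact withDensity_absolutelyContinuous _ _
  have h2 : AEStronglyMeasurable (fun u => g (h u))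
      (Measure.map (ordStat j) (Measure.pi fun _ : Fin n => unif)) :=
    ((hg.comp_aemeasurable hae).aestronglyMeasurable).mono_ac hac
  rw [← integral_map (measurable_ordStat j).aemeasurable h2, map_ordStat,
    integral_withDensity_eq_integral_toReal_smul]
  · refine integral_congr_ae ?_
    filter_upwards [dens_nonneg_ae n j] with u hu
    simp only [smul_eq_mul]
    rw [ENNReal.toReal_ofReal hu, mul_comm]
  · exact (continuous_dens n j).measurable.ennreal_ofReal
  · exact ae_of_all _ fun u => ENNReal.ofReal_lt_top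

end Pool.Agent.Lib.MP_c5814c_pr
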