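import Pool.Agent.Lib.MP_c5814c_pr.Mg.G003

namespace Pool.Agent.Lib.MP_c5814c_pr

open MeasureTheory ProbabilityTheory Set Filter
open scoped ENNReal Topology RealInnerProductSpace

theorem map_ordStat_ac {n : ℕ} (j : Fin n) (ν : Measure ℝ) [IsProbabilityMeasure ν] :
    Measure.map (ordStat j) (Measure.pi fun _ : Fin n => ν) ≪ ν := by
  refine Measure.AbsolutelyContinuous.mk fun s hs h0 => ?_
  rw [Measure.map_apply (measurable_ordStat j) hs]
  have h1 : ∀ᵐ x ∂(Measure.pi fun _ : Fin n => ν), ∀ i, x i ∉ s := by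
    rw [ae_all_iff]
    intro i
    exact (Measure.quasiMeasurePreserving_eval (fun _ : Fin n => ν) i).ae
      (measure_eq_zero_iff_ae_notMem.1 h0)
  rw [measure_eq_zero_iff_ae_notMem]
  filter_upwards [h1] with x hx hxs
  exact hx _ hxs

theorem integral_ordStat' {n : ℕ} (j : Fin n) {h : ℝ → ℝ} (hm : MonotoneOn h (Ioo 0 1))
    {g : ℝ → ℝ} (hg : AEStronglyMeasurable g (Measure.map h unif)) :
    ∫ x, g (ordStat j x) ∂(Measure.pi fun _ : Fin n => Measure.map h unif)
      = ∫ u, g (h u) * pdfU n j u ∂unif := by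
  have hae : AEMeasurable h unif := aemeasurable_of_monotoneOn hm
  have hpr : IsProbabilityMeasure (Measure.map h unif) := Measure.isProbabilityMeasure_map hae
  obtain ⟨g', hg', hgg⟩ := hg
  have h1 : ∀ᵐ x ∂(Measure.pi fun _ : Fin n => Measure.map h unif),
      g (ordStat j x) = g' (ordStat j x) :=
    ae_of_ae_map (measurable_ordStat j).aemeasurable ((map_ordStat_ac j _).ae_le hgg)
  have h2 : ∀ᵐ u ∂unif, g (h u) = g' (h u) := ae_of_ae_map hae hgg
  rw [integral_congr_ae h1, integral_ordStat j hm hg'.measurable]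
  refine integral_congr_ae ?_
  filter_upwards [h2] with u hu
  rw [hu]

section

variable {ω : Measure ℝ} {n j : ℕ} {p : ℝ}

theorem IsPen.nonneg (hω : Nice ω) (hp : p ∈ Ioo (0:ℝ) 1) {k : ℝ → ℝ} (hk : IsPen ω p k) {y : ℝ}
    (hy : y ∈ {y | 0 < cdf ω y ∧ cdf ω y < 1}) : 0 ≤ k y := by
  rcases le_total (quantile ω p) y with h | h
  · exact (hk.2.2 y hy h).ge
  · have := hk.2.1 hy (hω.quantile_mem hp) h
    rwa [hk.2.2 _ (hω.quantile_mem hp) le_rfl] at this

theorem IsPen.comp_anti (hω : Nice ω) {k : ℝ → ℝ} (hk : IsPen ω p k) :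
    AntitoneOn (fun u => k (quantile ω u)) (Ioo 0 1) := by
  have := hω.prob
  intro u hu v hv huv
  exact hk.2.1 (hω.quantile_mem hu) (hω.quantile_mem hv) (quantile_mono ω hu hv huv)

theorem IsPen.comp_zero (hω : Nice ω) (hp : p ∈ Ioo (0:ℝ) 1) {k : ℝ → ℝ} (hk : IsPen ω p k)
    {u : ℝ} (hu : u ∈ Ioo (0:ℝ) 1) (hpu : p ≤ u) : k (quantile ω u) = 0 := by
  have := hω.prob
  exact hk.2.2 _ (hω.quantile_mem hu) (quantile_mono ω hp hu hpu)

theorem isPen_zero (hω : Nice ω) : IsPen ω p (fun _ => 0) :=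
  ⟨convexOn_const 0 hω.convex, fun _ _ _ _ _ => le_rfl, fun _ _ _ => rfl⟩

theorem IsPen.add {k l : ℝ → ℝ} (hk : IsPen ω p k) (hl : IsPen ω p l) :
    IsPen ω p (fun y => k y + l y) :=
  ⟨hk.1.add hl.1, fun x hx y hy hxy => add_le_add (hk.2.1 hx hy hxy) (hl.2.1 hx hy hxy),
    fun y hy h => by simp [hk.2.2 y hy h, hl.2.2 y hy h]⟩

theorem IsPen.smul {k : ℝ → ℝ} (hk : IsPen ω p k) {c : ℝ} (hc : 0 ≤ c) :
    IsPen ω p (fun y => c * k y) :=
  ⟨hk.1.smul hc, fun x hx y hy hxy => mul_le_mul_of_nonneg_left (hk.2.1 hx hy hxy) hc,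
    fun y hy h => by simp [hk.2.2 y hy h]⟩

/-- hinge functions -/
theorem isPen_hinge (hω : Nice ω) {t : ℝ} (ht : t ≤ quantile ω p) :
    IsPen ω p (fun y => max (t - y) 0) := by
  refine ⟨?_, ?_, ?_⟩
  · refine ConvexOn.sup ?_ (convexOn_const 0 hω.convex)
    exact (convexOn_const t hω.convex).sub (concaveOn_id hω.convex)
  · intro x _ y _ hxy
    exact max_le_max (by linarith) le_rfl
  · intro y _ h
    exact max_eq_right (by linarith)

theorem aesm_pen (hω : Nice ω) {k : ℝ → ℝ} (hk : IsPen ω p k) :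
    AEStronglyMeasurable (fun u => k (quantile ω u)) unif := by
  have h1 : MonotoneOn (fun u => -(k (quantile ω u))) (Ioo 0 1) := fun u hu v hv huv =>
    neg_le_neg (hk.comp_anti hω hu hv huv)
  have h2 := (aemeasurable_of_monotoneOn h1).neg
  exact h2.aestronglyMeasurable.congr (ae_of_all _ fun u => by simp)

/-- The function to be projected. -/
noncomputable def GD (n j : ℕ) (p u : ℝ) : ℝ :=
  if u ≤ p then pdfU n j u else -(cdfU n j p / (1 - p))

theorem measurable_GD : Measurable (GD n j p) :=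
  Measurable.ite measurableSet_Iic (continuous_dens n j).measurable measurable_const

theorem memLp_GD {q : ℝ≥0∞} : MemLp (GD n j p) q unif := by
  obtain ⟨M, hM0, hM⟩ := dens_bdd n j
  refine memLp_of_bdd measurable_GD.aemeasurable
    (M := max M |(-(cdfU n j p / (1 - p)))|) fun u hu => ?_
  unfold GD
  split_ifs
  · exact (hM u (Ioo_subset_Icc_self hu)).trans (le_max_left _ _)
  · exact le_max_right _ _

theorem integral_GD (hj : j < n) (hp : p ∈ Ioo (0:ℝ) 1) : ∫ u, GD n j p u ∂unif = 0 := by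
  rw [integral_split (memLp_GD.integrable (q := 1) le_rfl) ⟨hp.1.le, hp.2.le⟩]
  have e1 : ∫ u in (0:ℝ)..p, GD n j p u = ∫ u in (0:ℝ)..p, pdfU n j u :=
    integral_congr_Ioo hp.1.le fun u hu => by simp [GD, hu.2.le]
  have e2 : ∫ u in p..1, GD n j p u = ∫ u in p..1, -(cdfU n j p / (1 - p)) :=
    integral_congr_Ioo hp.2.le fun u hu => by simp [GD, not_le.2 hu.1]
  rw [e1, e2, integral_dens hj, dist_zero]
  simp only [intervalIntegral.integral_const, smul_eq_mul]
  have : 1 - p ≠ 0 := by linarith [hp.2]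
  field_simp
  ring

theorem integral_pen_GD (hω : Nice ω) (hp : p ∈ Ioo (0:ℝ) 1) {k : ℝ → ℝ} (hk : IsPen ω p k) :
    ∫ u, k (quantile ω u) * GD n j p u ∂unif = ∫ u, k (quantile ω u) * pdfU n j u ∂unif := by
  refine integral_congr_ae ?_
  filter_upwards [ae_unif_mem] with u hu
  rcases le_or_gt u p with h | h
  · simp [GD, h]
  · rw [hk.comp_zero hω hp hu h.le]; simp

/-- pointwise limits along an ultrafilter -/
theorem pen_closed (hω : Nice ω) (hp : p ∈ Ioo (0:ℝ) 1) {k : ℕ → ℝ → ℝ}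
    (hk : ∀ i, IsPen ω p (k i)) {g : ℝ → ℝ}
    (hae : ∀ᵐ u ∂unif, Tendsto (fun i => k i (quantile ω u)) atTop (𝓝 (g u))) :
    ∃ K : ℝ → ℝ, IsPen ω p K ∧ ∀ᵐ u ∂unif, K (quantile ω u) = g u := by
  have hprω := hω.prob
  have hbound : ∀ y ∈ {y | 0 < cdf ω y ∧ cdf ω y < 1}, ∃ B : ℝ, ∀ i, k i y ∈ Icc 0 B := by
    intro y hy
    obtain ⟨u, hu, hlim⟩ := exists_of_ae hy.1 (ae_unif_Ioo (a := 0) (b := cdf ω y) le_rfl hy.2.le hae)
    have hu' : u ∈ Ioo (0:ℝ) 1 := ⟨hu.1, hu.2.trans hy.2⟩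
    obtain ⟨B, hB⟩ := hlim.bddAbove_range
    refine ⟨B, fun i => ⟨(hk i).nonneg hω hp hy, ?_⟩⟩
    have h1 : quantile ω u ≤ y := (quantile_le_iff ω hu'.1 hu'.2 y).2 hu.2.le
    exact ((hk i).2.1 (hω.quantile_mem hu') hy h1).trans (hB ⟨i, rfl⟩)
  have hlim : ∀ y, ∃ x, y ∈ {y | 0 < cdf ω y ∧ cdf ω y < 1} →
      Tendsto (fun i => k i y) (hyperfilter ℕ : Filter ℕ) (𝓝 x) := by
    intro y
    by_cases hy : y ∈ {y | 0 < cdf ω y ∧ cdf ω y < 1}
    · obtain ⟨B, hB⟩ := hbound y hy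
      obtain ⟨x, _, hx⟩ := (isCompact_Icc (a := (0:ℝ)) (b := B)).ultrafilter_le_nhds'
        ((hyperfilter ℕ).map fun i => k i y) (by
          rw [Ultrafilter.mem_map]
          exact Filter.univ_mem' fun i => hB i)
      exact ⟨x, fun _ => hx⟩
    · exact ⟨0, fun h => absurd h hy⟩
  choose K hK using hlim
  refine ⟨K, ⟨⟨hω.convex, fun x hx y hy a b ha hb hab => ?_⟩, fun x hx y hy hxy => ?_,
    fun y hy h => ?_⟩, ?_⟩
  · have h1 := hK _ (hω.convex hx hy ha hb hab)
    have h2 := ((hK x hx).const_mul a).add ((hK y hy).const_mul b)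
    exact le_of_tendsto_of_tendsto h1 h2 (Eventually.of_forall fun i =>
      (hk i).1.2 hx hy ha hb hab)
  · exact le_of_tendsto_of_tendsto (hK y hy) (hK x hx) (Eventually.of_forall fun i =>
      (hk i).2.1 hx hy hxy)
  · refine tendsto_nhds_unique (hK y hy) ?_
    refine tendsto_const_nhds.congr fun i => ?_
    exact ((hk i).2.2 y hy h).symm
  · filter_upwards [hae, ae_unif_mem] with u hu hu2
    exact tendsto_nhds_unique (hK _ (hω.quantile_mem hu2)) (hu.mono_left Nat.hyperfilter_le_atTop)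

/-- The closed convex cone in `L²`. -/
def coneSet (ω : Measure ℝ) (p : ℝ) : Set (Lp ℝ 2 unif) :=
  {f | ∃ (k : ℝ → ℝ) (c : ℝ), IsPen ω p k ∧ ∀ᵐ u ∂unif, f u = k (quantile ω u) + c}

theorem coneSet_convex (ω : Measure ℝ) (p : ℝ) : Convex ℝ (coneSet ω p) := by
  rintro f ⟨k, c, hk, hf⟩ g ⟨l, d, hl, hg⟩ a b ha hb hab
  refine ⟨fun y => a * k y + b * l y, a * c + b * d, (hk.smul ha).add (hl.smul hb), ?_⟩
  filter_upwards [hf, hg, Lp.coeFn_add (a • f) (b • g), Lp.coeFn_smul a f, Lp.coeFn_smul b g]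
    with u h1 h2 h3 h4 h5
  rw [h3, Pi.add_apply, h4, h5, Pi.smul_apply, Pi.smul_apply, h1, h2]
  simp only [smul_eq_mul]
  ring

theorem coneSet_closed (hω : Nice ω) (hp : p ∈ Ioo (0:ℝ) 1) : IsClosed (coneSet ω p) := by
  refine IsSeqClosed.isClosed fun f g hf hlim => ?_
  have hmeas := tendstoInMeasure_of_tendsto_Lp hlim
  obtain ⟨ns, -, hae⟩ := hmeas.exists_seq_tendsto_ae
  choose k c hk hkc using fun i => hf (ns i)
  have hall : ∀ᵐ u ∂unif, ∀ i, (f (ns i)) u = k i (quantile ω u) + c i := ae_all_iff.2 hkc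
  obtain ⟨u0, hu0, h1, h2⟩ := exists_of_ae hp.2
    (ae_unif_Ioo (a := p) (b := 1) hp.1.le le_rfl (hall.and hae))
  have hu0' : u0 ∈ Ioo (0:ℝ) 1 := ⟨hp.1.trans hu0.1, hu0.2⟩
  have hc : Tendsto c atTop (𝓝 (g u0)) := by
    refine h2.congr fun i => ?_
    rw [h1 i, (hk i).comp_zero hω hp hu0' hu0.1.le, zero_add]
  have hae2 : ∀ᵐ u ∂unif, Tendsto (fun i => k i (quantile ω u)) atTop (𝓝 (g u - g u0)) := by
    filter_upwards [hall, hae] with u hu1 hu2
    refine (hu2.sub hc).congr fun i => ?_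
    rw [hu1 i]; ring
  obtain ⟨K, hK, hKg⟩ := pen_closed hω hp hk hae2
  refine ⟨K, g u0, hK, ?_⟩
  filter_upwards [hKg] with u hu
  rw [hu]; ring

/-- The projection. -/
theorem exists_proj (hω : Nice ω) (hj : j < n) (hp : p ∈ Ioo (0:ℝ) 1) :
    ∃ P : ℝ → ℝ, IsPen ω p P ∧ MemLp (fun u => P (quantile ω u)) 2 unif ∧
      (∀ k, IsPen ω p k → MemLp (fun u => k (quantile ω u)) 2 unif →
        ∫ u, k (quantile ω u) * pdfU n j u ∂unif
          ≤ ∫ u, k (quantile ω u) * (P (quantile ω u) - ∫ v, P (quantile ω v) ∂unif) ∂unif) ∧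
      ∫ u, P (quantile ω u) * pdfU n j u ∂unif
        = ∫ u, P (quantile ω u) * (P (quantile ω u) - ∫ v, P (quantile ω v) ∂unif) ∂unif := by
  have hGL : MemLp (GD n j p) 2 unif := memLp_GD
  obtain ⟨v, hv, hmin⟩ := exists_norm_eq_iInf_of_complete_convex (K := coneSet ω p)
    ⟨0, fun _ => 0, 0, isPen_zero hω, by
      filter_upwards [Lp.coeFn_zero ℝ 2 unif] with u hu
      rw [hu]; simp⟩
    (coneSet_closed hω hp).isComplete (coneSet_convex ω p) (hGL.toLp (GD n j p))
  rw [norm_eq_iInf_iff_real_inner_le_zero (coneSet_convex ω p) hv] at hmin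
  obtain ⟨P, c0, hP, hPv⟩ := hv
  have hvL : MemLp (v : ℝ → ℝ) 2 unif := Lp.memLp v
  have hPL : MemLp (fun u => P (quantile ω u)) 2 unif := by
    have h1 : MemLp (fun u => v u - c0) 2 unif := hvL.sub (memLp_const c0)
    refine h1.ae_eq ?_
    filter_upwards [hPv] with u hu
    rw [hu]; ring
  set q : ℝ → ℝ := fun u => P (quantile ω u) with hq
  set σ : ℝ → ℝ := fun u => GD n j p u - q u - c0 with hσ
  have hσL : MemLp σ 2 unif := (hGL.sub hPL).sub (memLp_const c0)
  have hσi : Integrable σ unif := hσL.integrable one_le_two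
  have key : ∀ (k : ℝ → ℝ) (c : ℝ), IsPen ω p k → MemLp (fun u => k (quantile ω u)) 2 unif →
      ∫ u, σ u * (k (quantile ω u) - q u + (c - c0)) ∂unif ≤ 0 := by
    intro k c hk hkL
    have hwL : MemLp (fun u => k (quantile ω u) + c) 2 unif := hkL.add (memLp_const c)
    have h1 := hmin (hwL.toLp _) ⟨k, c, hk, hwL.coeFn_toLp⟩
    rw [L2.inner_def] at h1
    refine le_of_eq_of_le (integral_congr_ae ?_) h1
    filter_upwards [hPv, hwL.coeFn_toLp, hGL.coeFn_toLp,
      Lp.coeFn_sub (hGL.toLp (GD n j p)) v, Lp.coeFn_sub (hwL.toLp _) v] with u e1 e2 e3 e4 e5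
    rw [e4, e5, Pi.sub_apply, Pi.sub_apply, e1, e2, e3]
    simp only [hσ, hq, RCLike.inner_apply, conj_trivial]
    ring
  have i1 : ∀ g : ℝ → ℝ, MemLp g 2 unif → Integrable (fun u => σ u * g u) unif :=
    fun g hg => integrable_mul2 hσL hg
  -- constants
  have hσ0 : ∫ u, σ u ∂unif = 0 := by
    have h1 := key P (c0 + 1) hP hPL
    have h2 := key P (c0 - 1) hP hPL
    have e1 : ∀ u, σ u * (P (quantile ω u) - q u + (c0 + 1 - c0)) = σ u := fun u => by
      simp only [hq]; ring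
    have e2 : ∀ u, σ u * (P (quantile ω u) - q u + (c0 - 1 - c0)) = - σ u := fun u => by
      simp only [hq]; ring
    simp only [e1] at h1
    simp only [e2] at h2
    rw [integral_neg] at h2
    linarith
  have hσP : ∫ u, σ u * q u ∂unif = 0 := by
    have hP2 : MemLp (fun u => 2 * P (quantile ω u)) 2 unif := hPL.const_mul 2
    have h1 := key (fun y => 2 * P y) c0 (hP.smul (by norm_num)) hP2
    have h2 := key (fun _ => 0) c0 (isPen_zero hω) (memLp_const 0)
    have e1 : ∀ u, σ u * (2 * P (quantile ω u) - q u + (c0 - c0)) = σ u * q u := fun u => by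
      simp only [hq]; ring
    have e2 : ∀ u, σ u * (0 - q u + (c0 - c0)) = - (σ u * q u) := fun u => by ring
    simp only [e1] at h1
    simp only [e2] at h2
    rw [integral_neg] at h2
    linarith
  have hσk : ∀ k, IsPen ω p k → MemLp (fun u => k (quantile ω u)) 2 unif →
      ∫ u, σ u * k (quantile ω u) ∂unif ≤ 0 := by
    intro k hk hkL
    have hs : MemLp (fun u => k (quantile ω u) + P (quantile ω u)) 2 unif := hkL.add hPL
    have h1 := key (fun y => k y + P y) c0 (hk.add hP) hs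
    have e1 : ∀ u, σ u * (k (quantile ω u) + P (quantile ω u) - q u + (c0 - c0))
        = σ u * k (quantile ω u) := fun u => by simp only [hq]; ring
    simp only [e1] at h1
    exact h1
  have hc0 : c0 = - ∫ v, q v ∂unif := by
    have e1 : ∫ u, σ u ∂unif = (∫ u, GD n j p u ∂unif) - (∫ u, q u ∂unif) - c0 := by
      have i2 : Integrable (fun u => GD n j p u - q u) unif :=
        (hGL.integrable one_le_two).sub (hPL.integrable one_le_two)
      simp only [hσ]
      rw [integral_sub i2 (integrable_const _),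
        integral_sub (hGL.integrable one_le_two) (hPL.integrable one_le_two)]
      simp
    rw [hσ0, integral_GD hj hp] at e1
    linarith
  have hconv : ∀ k, IsPen ω p k → MemLp (fun u => k (quantile ω u)) 2 unif →
      ∫ u, σ u * k (quantile ω u) ∂unif = (∫ u, k (quantile ω u) * pdfU n j u ∂unif)
        - ∫ u, k (quantile ω u) * (q u - ∫ v, q v ∂unif) ∂unif := by
    intro k hk hkL
    have e1 : ∀ u, σ u * k (quantile ω u) = k (quantile ω u) * GD n j p u
        - k (quantile ω u) * (q u - ∫ v, q v ∂unif) := fun u => by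
      simp only [hσ, hc0]; ring
    simp only [e1]
    have hqc : MemLp (fun u => q u - ∫ v, q v ∂unif) 2 unif := hPL.sub (memLp_const _)
    rw [integral_sub (integrable_mul2 hkL hGL) (integrable_mul2 hkL hqc),
      integral_pen_GD hω hp hk]
  refine ⟨P, hP, hPL, fun k hk hkL => ?_, ?_⟩
  · have h1 := hσk k hk hkL
    rw [hconv k hk hkL] at h1
    linarith
  · have h1 : ∫ u, σ u * P (quantile ω u) ∂unif = 0 := hσP
    rw [hconv P hP hPL] at h1
    linarith

end

end Pool.Agent.Lib.MP_c5814c_pr
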