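import Pool.Agent.Lib.MP_c5814c_pr.Low1

namespace Pool.Agent.Lib.MP_c5814c_pr

open MeasureTheory ProbabilityTheory Set Filter
open scoped ENNReal Topology RealInnerProductSpace

section

variable {ω : Measure ℝ} {n : ℕ} {j : Fin n} {p : ℝ}

/-- The projection property. -/
def IsProj (ω : Measure ℝ) (n j : ℕ) (p : ℝ) (P : ℝ → ℝ) : Prop :=
  IsPen ω p P ∧ MemLp (fun u => P (quantile ω u)) 2 unif ∧
      (∀ k, IsPen ω p k → MemLp (fun u => k (quantile ω u)) 2 unif →
        ∫ u, k (quantile ω u) * pdfU n j u ∂unif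
          ≤ ∫ u, k (quantile ω u) * (P (quantile ω u) - ∫ v, P (quantile ω v) ∂unif) ∂unif) ∧
      ∫ u, P (quantile ω u) * pdfU n j u ∂unif
        = ∫ u, P (quantile ω u) * (P (quantile ω u) - ∫ v, P (quantile ω v) ∂unif) ∂unif

theorem var_eq_of_memLp {q : ℝ → ℝ} (hq : MemLp q 2 unif) :
    variance q unif = ∫ u, q u * (q u - ∫ v, q v ∂unif) ∂unif := by
  rw [variance_eq_sub hq]
  have e1 : ∀ u, q u * (q u - ∫ v, q v ∂unif) = q u ^ 2 - (∫ v, q v ∂unif) * q u := fun u => by
    ring
  simp only [e1]
  rw [integral_sub hq.integrable_sq ((hq.integrable one_le_two).const_mul _), integral_const_mul]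
  simp only [Pi.pow_apply]
  ring

theorem const_of_var_zero {q : ℝ → ℝ} (hq : MemLp q 2 unif) (h : variance q unif = 0) :
    ∀ᵐ u ∂unif, q u = ∫ v, q v ∂unif := by
  rw [variance_eq_integral hq.1.aemeasurable] at h
  have hL : MemLp (fun u => q u - ∫ v, q v ∂unif) 2 unif := hq.sub (memLp_const _)
  rw [integral_eq_zero_iff_of_nonneg (fun u => sq_nonneg _) hL.integrable_sq] at h
  filter_upwards [h] with u hu
  have : (q u - ∫ v, q v ∂unif) ^ 2 = 0 := hu
  have h2 := pow_eq_zero_iff (two_ne_zero) |>.1 this
  linarith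

theorem IsProj.var_pos (hω : Nice ω) {t0 : ℝ} (h0 : MemLp (trunc ω t0) 2 unif)
    (hp : p ∈ Ioo (0:ℝ) 1) {P : ℝ → ℝ} (hP : IsProj ω n j p P) :
    0 < variance (fun u => P (quantile ω u)) unif := by
  have hprω := hω.prob
  refine lt_of_le_of_ne (variance_nonneg _ _) fun h => ?_
  have hc := const_of_var_zero hP.2.1 h.symm
  set k0 : ℝ → ℝ := fun y => max (quantile ω p - y) 0 with hk0
  have hk0L : MemLp (fun u => k0 (quantile ω u)) 2 unif := by
    have h1 : MemLp (fun u => quantile ω p - trunc ω (quantile ω p) u) 2 unif :=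
      (memLp_const _).sub (trunc_memLp hω h0 _)
    refine h1.ae_eq (ae_of_all _ fun u => ?_)
    simp only [hk0, trunc]
    rcases le_total (quantile ω u) (quantile ω p) with h | h
    · rw [min_eq_left h, max_eq_left (by linarith)]
    · rw [min_eq_right h, max_eq_right (by linarith)]; ring
  have h1 := hP.2.2.1 k0 (isPen_hinge hω le_rfl) hk0L
  have h2 : ∫ u, k0 (quantile ω u) * (P (quantile ω u) - ∫ v, P (quantile ω v) ∂unif) ∂unif = 0 := by
    have : ∫ u, k0 (quantile ω u) * (P (quantile ω u) - ∫ v, P (quantile ω v) ∂unif) ∂unif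
        = ∫ _u, (0:ℝ) ∂unif := by
      refine integral_congr_ae ?_
      filter_upwards [hc] with u hu
      rw [hu]; ring
    rw [this]; simp
  rw [h2] at h1
  have h3 : ∀ u ∈ Ioo (0:ℝ) 1, 0 ≤ k0 (quantile ω u) * pdfU n j u := fun u hu =>
    mul_nonneg (le_max_right _ _) (dens_nonneg n j hu.1.le hu.2.le)
  have hi : Integrable (fun u => k0 (quantile ω u) * pdfU n j u) unif :=
    integrable_mul_dens hk0L n j
  have h4 : ∫ u, k0 (quantile ω u) * pdfU n j u ∂unif = 0 := by
    refine le_antisymm h1 (integral_nonneg_of_ae ?_)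
    filter_upwards [ae_unif_mem] with u hu using h3 u hu
  rw [integral_unif] at h4
  have h5 := ae_zero_of zero_le_one h3 (Integrable.interval hi le_rfl zero_le_one le_rfl) h4
  obtain ⟨u, hu, hu2⟩ := exists_of_ae hp.1 (ae_restrict_of_ae_restrict_of_subset
    (Ioo_subset_Ioo le_rfl hp.2.le) h5)
  have hu' : u ∈ Ioo (0:ℝ) 1 := ⟨hu.1, hu.2.trans hp.2⟩
  rcases mul_eq_zero.1 hu2 with h | h
  · have h6 : quantile ω u < quantile ω p := hω.quantile_strictMono hu' hp hu.2
    simp only [hk0] at h
    rw [max_eq_left (by linarith)] at h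
    linarith
  · exact absurd h (dens_pos j.2 hu').ne'

theorem neg_pen_family (hω : Nice ω) (hp : p ∈ Ioo (0:ℝ) 1) {P : ℝ → ℝ} (hP : IsPen ω p P)
    (hL : MemLp (fun u => P (quantile ω u)) 2 unif)
    (hV : 0 < variance (fun u => P (quantile ω u)) unif) {κ c : ℝ} (hκ : 0 < κ) :
    Measure.map (fun y => c - κ * P y) ω ∈ convexFamily ω ∧
    bias n j p (Measure.map (fun y => c - κ * P y) ω)
      = -(∫ u, P (quantile ω u) * pdfU n j u ∂unif)
        / √(variance (fun u => P (quantile ω u)) unif) := by
  have hprω := hω.prob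
  have hm : MonotoneOn (fun y => c - κ * P y) {y | 0 < cdf ω y ∧ cdf ω y < 1} := by
    intro x hx y hy hxy
    have := mul_le_mul_of_nonneg_left (hP.2.1 hx hy hxy) hκ.le
    simp only
    linarith
  have hc : ConcaveOn ℝ {y | 0 < cdf ω y ∧ cdf ω y < 1} (fun y => c - κ * P y) :=
    (concaveOn_const c hω.convex).sub (hP.1.smul hκ.le)
  have hLq : MemLp (fun u => c - κ * P (quantile ω u)) 2 unif :=
    (memLp_const c).sub (hL.const_mul κ)
  have hvar : variance (fun u => c - κ * P (quantile ω u)) unif
      = κ ^ 2 * variance (fun u => P (quantile ω u)) unif := by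
    rw [variance_const_sub (hL.const_mul κ).1, variance_const_mul]
  have hnc : ∃ y1 ∈ {y | 0 < cdf ω y ∧ cdf ω y < 1}, ∃ y2 ∈ {y | 0 < cdf ω y ∧ cdf ω y < 1},
      y1 < y2 ∧ (fun y => c - κ * P y) y1 < (fun y => c - κ * P y) y2 := by
    by_contra hcon
    push Not at hcon
    have hcst : ∀ u ∈ Ioo (0:ℝ) 1, P (quantile ω u) = P (quantile ω (1/2)) := by
      have hh : (1/2 : ℝ) ∈ Ioo (0:ℝ) 1 := by norm_num
      have hle : ∀ a ∈ Ioo (0:ℝ) 1, ∀ b ∈ Ioo (0:ℝ) 1, a < b →
          P (quantile ω a) = P (quantile ω b) := by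
        intro a ha b hb hab
        have h1 := hcon _ (hω.quantile_mem ha) _ (hω.quantile_mem hb)
          (hω.quantile_strictMono ha hb hab)
        have h2 := hP.2.1 (hω.quantile_mem ha) (hω.quantile_mem hb)
          (hω.quantile_strictMono ha hb hab).le
        refine le_antisymm ?_ h2
        have h3 : κ * P (quantile ω a) ≤ κ * P (quantile ω b) := by linarith
        exact le_of_mul_le_mul_left h3 hκ
      intro u hu
      rcases lt_trichotomy u (1/2) with h | h | h
      · exact hle u hu _ hh h
      · rw [h]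
      · exact (hle _ hh u hu h).symm
    have : variance (fun u => P (quantile ω u)) unif = 0 := by
      have e1 : variance (fun u => P (quantile ω u)) unif
          = variance (fun _ => P (quantile ω (1/2))) unif := by
        refine variance_congr ?_
        filter_upwards [ae_unif_mem] with u hu using hcst u hu
      rw [e1, variance_eq_integral aemeasurable_const]
      simp
    linarith
  constructor
  · refine ⟨⟨?_, ?_, ?_⟩, hω.convexLE_map hm hc hnc⟩
    · rw [hω.map_eq hm]
      exact Measure.isProbabilityMeasure_map (aemeasurable_of_monotoneOn (hω.comp_monotoneOn hm))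
    · rw [memLp_id_iff hω hm]; exact hLq
    · rw [variance_id_eq hω hm, hvar]; positivity
  · rw [bias_map hω hp hm (hc.continuousOn hω.isOpen), hvar, Real.sqrt_mul (sq_nonneg _),
      Real.sqrt_sq hκ.le]
    have e1 : num n j p (fun u => c - κ * P (quantile ω u))
        = -(κ * ∫ u, P (quantile ω u) * pdfU n j u ∂unif) := by
      have e0 : num n j p (fun u => c - κ * P (quantile ω u))
          = num n j p (fun u => c + (-κ) * P (quantile ω u)) := by
        congr 1; funext u; ring
      rw [e0, num_const_add j.2 (hL.const_mul (-κ))]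
      unfold num
      have e2 : ∀ u, -κ * P (quantile ω u) * pdfU n j u
          = -κ * (P (quantile ω u) * pdfU n j u) := fun u => by ring
      simp only [e2]
      rw [integral_const_mul, hP.2.2 _ (hω.quantile_mem hp) le_rfl]
      ring
    rw [e1]
    have := (Real.sqrt_pos.2 hV).ne'
    field_simp

/-- The lower bound over the convex family. -/
theorem convex_lower (hω : Nice ω) {t0 : ℝ} (h0 : MemLp (trunc ω t0) 2 unif)
    (hp : p ∈ Ioo (0:ℝ) 1) {P : ℝ → ℝ} (hP : IsProj ω n j p P) :
    ∀ ν ∈ convexFamily ω, -√(variance (fun u => P (quantile ω u)) unif) ≤ bias n j p ν ∧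
      (bias n j p ν = -√(variance (fun u => P (quantile ω u)) unif) ↔
        ∃ κ > 0, ∃ c, ν = Measure.map (fun y => c - κ * P y) ω) := by
  intro ν hν
  have hpr := hν.1.1
  have hprω := hω.prob
  have hV := hP.var_pos hω h0 hp
  obtain ⟨hPen, hPL, hall, heqP⟩ := hP
  obtain ⟨hm, hc, hq⟩ := family_data hω hν
  have hL := memLp_quantile hν.1.2.1
  set q := quantile ν with hqd
  set r : ℝ → ℝ := fun u => P (quantile ω u) with hr
  set EP := ∫ v, r v ∂unif with hEP
  have hqp : q (cdf ω (quantile ω p)) = q p := hq p hp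
  -- the pen attached to ν
  set k : ℝ → ℝ := fun y => max (q p - q (cdf ω y)) 0 with hk
  have hkpen : IsPen ω p k := by
    refine ⟨?_, ?_, ?_⟩
    · exact ConvexOn.sup ((convexOn_const (q p) hω.convex).sub hc) (convexOn_const 0 hω.convex)
    · intro x hx y hy hxy
      have := hm hx hy hxy
      exact max_le_max (by simp only at this; linarith) le_rfl
    · intro y hy h
      have h1 := hm (hω.quantile_mem hp) hy h
      simp only at h1
      rw [hqp] at h1
      exact max_eq_right (by linarith)
  have hkL : MemLp (fun u => k (quantile ω u)) 2 unif := by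
    have h1 : MemLp (fun u => q p - q u) 2 unif := (memLp_const _).sub hL
    have h2 : MemLp (fun u => max (q p - q u) 0) 2 unif := h1.pos_part
    refine h2.ae_eq ?_
    filter_upwards [ae_unif_mem] with u hu
    simp only [hk]
    rw [hq u hu]
  have hkey := hall k hkpen hkL
  have hrc : MemLp (fun u => r u - EP) 2 unif := hPL.sub (memLp_const _)
  have hrc0 : ∫ u, (r u - EP) ∂unif = 0 := by
    rw [integral_sub (hPL.integrable one_le_two) (integrable_const _)]
    simp [hEP]
  -- the positive part
  set b : ℝ → ℝ := fun u => max (q u - q p) 0 with hb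
  have hbL : MemLp b 2 unif := by
    have h1 : MemLp (fun u => q u - q p) 2 unif := hL.sub (memLp_const _)
    exact h1.pos_part
  have hbm : MonotoneOn b (Ioo 0 1) := by
    intro u hu v hv huv
    exact max_le_max (by linarith [quantile_mono ν hu hv huv]) le_rfl
  have hassoc := assoc (hPen.comp_anti hω) hbm hPL hbL
  have hassoc2 : ∫ u, b u * (r u - EP) ∂unif ≤ 0 := by
    have e1 : ∫ u, b u * (r u - EP) ∂unif = ∫ u, r u * (b u - ∫ v, b v ∂unif) ∂unif := by
      have e2 : ∀ u, b u * (r u - EP) = b u * r u - EP * b u := fun u => by ring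
      have e3 : ∀ u, r u * (b u - ∫ v, b v ∂unif) = b u * r u - (∫ v, b v ∂unif) * r u :=
        fun u => by ring
      simp only [e2, e3]
      rw [integral_sub (integrable_mul2 hbL hPL) ((hbL.integrable one_le_two).const_mul _),
        integral_sub (integrable_mul2 hbL hPL) ((hPL.integrable one_le_two).const_mul _),
        integral_const_mul, integral_const_mul, ← hEP]
      ring
    rw [e1]; exact hassoc
  -- the chain
  have hT : -num n j p q ≤ ∫ u, q u * (EP - r u) ∂unif := by
    have c1 : -num n j p q = ∫ u, (q p - q u) * pdfU n j u ∂unif := by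
      have e2 : ∀ u, (q p - q u) * pdfU n j u = q p * pdfU n j u - q u * pdfU n j u :=
        fun u => by ring
      simp only [e2]
      rw [integral_sub ((integrable_dens n j).const_mul _) (integrable_mul_dens hL n j),
        integral_const_mul, integral_dens_unif j.2]
      unfold num; ring
    have c2 : ∫ u, (q p - q u) * pdfU n j u ∂unif ≤ ∫ u, k (quantile ω u) * pdfU n j u ∂unif := by
      refine integral_mono_ae (integrable_mul_dens ((memLp_const _).sub hL) n j)
        (integrable_mul_dens hkL n j) ?_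
      filter_upwards [ae_unif_mem] with u hu
      simp only [hk]
      rw [hq u hu]
      exact mul_le_mul_of_nonneg_right (le_max_left _ _) (dens_nonneg n j hu.1.le hu.2.le)
    have c3 : ∫ u, k (quantile ω u) * (r u - EP) ∂unif
        = (∫ u, (q p - q u) * (r u - EP) ∂unif) + ∫ u, b u * (r u - EP) ∂unif := by
      have hqL : MemLp (fun u => q p - q u) 2 unif := (memLp_const _).sub hL
      rw [← integral_add (integrable_mul2 hqL hrc) (integrable_mul2 hbL hrc)]
      refine integral_congr_ae ?_
      filter_upwards [ae_unif_mem] with u hu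
      simp only [hk, hb]
      rw [hq u hu, ← add_mul]
      congr 1
      rcases le_total (q u) (q p) with h | h
      · rw [max_eq_left (by linarith), max_eq_right (by linarith)]; ring
      · rw [max_eq_right (by linarith), max_eq_left (by linarith)]; ring
    have c4 : ∫ u, (q p - q u) * (r u - EP) ∂unif = ∫ u, q u * (EP - r u) ∂unif := by
      have e2 : ∀ u, (q p - q u) * (r u - EP) = q p * (r u - EP) + q u * (EP - r u) :=
        fun u => by ring
      have hcr : MemLp (fun u => EP - r u) 2 unif := (memLp_const _).sub hPL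
      simp only [e2]
      rw [integral_add ((hrc.integrable one_le_two).const_mul _) (integrable_mul2 hL hcr),
        integral_const_mul, hrc0]
      ring
    linarith
  set G : ℝ → ℝ := fun u => EP - r u with hG
  have hGL : MemLp G 2 unif := (memLp_const _).sub hPL
  have hG0 : ∫ u, G u ∂unif = 0 := by
    have : ∀ u, G u = -(r u - EP) := fun u => by simp only [hG]; ring
    simp only [this]
    rw [integral_neg, hrc0, neg_zero]
  have hG2 : ∫ u, G u ^ 2 ∂unif = variance r unif := by
    rw [variance_eq_integral hPL.1.aemeasurable]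
    refine integral_congr_ae (ae_of_all _ fun u => ?_)
    simp only [hG, hEP]
    ring
  have hsh := sharp hL hGL hG0 (by rw [hG2]; exact hV) hT
  rw [hG2] at hsh
  have hVν : 0 < variance q unif := by rw [hqd, variance_quantile]; exact hν.1.2.2
  have hsV := Real.sqrt_pos.2 hVν
  constructor
  · rw [bias_eq, le_div_iff₀ hsV]
    linarith [hsh.1]
  · constructor
    · intro heq
      rw [bias_eq, div_eq_iff hsV.ne'] at heq
      have hae := hsh.2 (by rw [heq]; ring)
      have hTpos : 0 < -num n j p q / variance r unif := by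
        rw [heq]
        refine div_pos ?_ hV
        have := mul_pos (Real.sqrt_pos.2 hV) hsV
        linarith
      set κ := -num n j p q / variance r unif with hκ
      refine ⟨κ, hTpos, (∫ u, q u ∂unif) + κ * EP, ?_⟩
      rw [hω.map_eq]
      · conv_lhs => rw [← map_quantile ν]
        refine Measure.map_congr ?_
        filter_upwards [hae] with u hu
        rw [← hqd, hu]
        simp only [hG, hr]
        ring
      · intro x hx y hy hxy
        have := mul_le_mul_of_nonneg_left (hPen.2.1 hx hy hxy) hTpos.le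
        simp only
        linarith
    · rintro ⟨κ, hκ, c, rfl⟩
      rw [(neg_pen_family hω hp hPen hPL hV hκ).2, heqP, ← var_eq_of_memLp hPL, neg_div,
        Real.div_sqrt]

/-- Uniqueness of the projection. -/
theorem IsProj.unique (hω : Nice ω) (hp : p ∈ Ioo (0:ℝ) 1) {P P' : ℝ → ℝ}
    (hP : IsProj ω n j p P) (hP' : IsProj ω n j p P') :
    ∀ y ∈ {y | 0 < cdf ω y ∧ cdf ω y < 1}, P y = P' y := by
  have hprω := hω.prob
  obtain ⟨hPen, hPL, hall, heqP⟩ := hP
  obtain ⟨hPen', hPL', hall', heqP'⟩ := hP'
  have h1 := hall P' hPen' hPL'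
  have h2 := hall' P hPen hPL
  set r : ℝ → ℝ := fun u => P (quantile ω u) with hr
  set r' : ℝ → ℝ := fun u => P' (quantile ω u) with hr'
  have hdL : MemLp (fun u => r u - r' u) 2 unif := hPL.sub hPL'
  have hi := hPL.integrable one_le_two
  have hi' := hPL'.integrable one_le_two
  have hvar : variance (fun u => r u - r' u) unif ≤ 0 := by
    rw [var_eq_of_memLp hdL]
    have e1 : ∫ v, (r v - r' v) ∂unif = (∫ v, r v ∂unif) - ∫ v, r' v ∂unif := integral_sub hi hi'
    rw [e1]
    set m := ∫ v, r v ∂unif
    set m' := ∫ v, r' v ∂unif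
    have hrc : MemLp (fun u => r u - m) 2 unif := hPL.sub (memLp_const _)
    have hrc' : MemLp (fun u => r' u - m') 2 unif := hPL'.sub (memLp_const _)
    have e2 : ∀ u, (r u - r' u) * ((r u - r' u) - (m - m'))
        = r u * (r u - m) - r u * (r' u - m') - r' u * (r u - m) + r' u * (r' u - m') :=
      fun u => by ring
    simp only [e2]
    have a1 : Integrable (fun u => r u * (r u - m)) unif := integrable_mul2 hPL hrc
    have a2 : Integrable (fun u => r u * (r' u - m')) unif := integrable_mul2 hPL hrc'
    have a3 : Integrable (fun u => r' u * (r u - m)) unif := integrable_mul2 hPL' hrc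
    have a4 : Integrable (fun u => r' u * (r' u - m')) unif := integrable_mul2 hPL' hrc'
    have a5 : Integrable (fun u => r u * (r u - m) - r u * (r' u - m')) unif := a1.sub a2
    have a6 : Integrable (fun u => r u * (r u - m) - r u * (r' u - m') - r' u * (r u - m)) unif :=
      a5.sub a3
    rw [integral_add a6 a4, integral_sub a5 a3, integral_sub a1 a2]
    have f1 : ∫ u, r u * pdfU n j u ∂unif = ∫ u, r u * (r u - m) ∂unif := heqP
    have f2 : ∫ u, r' u * pdfU n j u ∂unif = ∫ u, r' u * (r' u - m') ∂unif := heqP'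
    have f3 : ∫ u, r' u * pdfU n j u ∂unif ≤ ∫ u, r' u * (r u - m) ∂unif := h1
    have f4 : ∫ u, r u * pdfU n j u ∂unif ≤ ∫ u, r u * (r' u - m') ∂unif := h2
    linarith
  have hvar0 : variance (fun u => r u - r' u) unif = 0 := le_antisymm hvar (variance_nonneg _ _)
  have hc := const_of_var_zero hdL hvar0
  set d := ∫ v, (r v - r' v) ∂unif
  obtain ⟨u0, hu0, hu0d⟩ := exists_of_ae hp.2 (ae_unif_Ioo (a := p) (b := 1) hp.1.le le_rfl hc)
  have hu0' : u0 ∈ Ioo (0:ℝ) 1 := ⟨hp.1.trans hu0.1, hu0.2⟩
  have hd : d = 0 := by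
    rw [← hu0d]
    simp only [hr, hr']
    rw [hPen.comp_zero hω hp hu0' hu0.1.le, hPen'.comp_zero hω hp hu0' hu0.1.le, sub_zero]
  have hae : r =ᵐ[volume.restrict (Ioo (0:ℝ) 1)] r' := by
    filter_upwards [hc] with u hu
    rw [hd] at hu
    linarith
  have hcont : ContinuousOn r (Ioo 0 1) := fun u hu =>
    (hω.comp_continuousAt (hPen.1.continuousOn hω.isOpen) hu).continuousWithinAt
  have hcont' : ContinuousOn r' (Ioo 0 1) := fun u hu =>
    (hω.comp_continuousAt (hPen'.1.continuousOn hω.isOpen) hu).continuousWithinAt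
  have heqon := Measure.eqOn_open_of_ae_eq hae isOpen_Ioo hcont hcont'
  intro y hy
  have := heqon (show cdf ω y ∈ Ioo (0:ℝ) 1 from hy)
  simp only [hr, hr'] at this
  rwa [hω.quantile_cdf hy] at this

end

end Pool.Agent.Lib.MP_c5814c_pr
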