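import Pool.Agent.Lib.MP_c5814c_pr.Law

namespace Pool.Agent.Lib.MP_c5814c_pr

open MeasureTheory ProbabilityTheory Set Filter
open scoped ENNReal Topology

/-- The law `μ` has a continuous distribution function which is strictly increasing on the
interval where it is neither `0` nor `1`. -/
structure Nice (μ : Measure ℝ) : Prop where
  prob : IsProbabilityMeasure μ
  cont : Continuous (cdf μ)
  strict : StrictMonoOn (cdf μ) {y | 0 < cdf μ y ∧ cdf μ y < 1}

namespace Nice

variable {ω : Measure ℝ} (hω : Nice ω)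

include hω

theorem cdf_quantile {u : ℝ} (hu : u ∈ Ioo (0:ℝ) 1) : cdf ω (quantile ω u) = u := by
  have := hω.prob
  refine le_antisymm ?_ (le_cdf_quantile ω hu.1 hu.2)
  have h1 : ∀ y < quantile ω u, cdf ω y ≤ u := fun y hy =>
    ((lt_quantile_iff ω hu.1 hu.2 y).1 hy).le
  have h2 : Tendsto (cdf ω) (𝓝[<] (quantile ω u)) (𝓝 (cdf ω (quantile ω u))) :=
    hω.cont.continuousAt.continuousWithinAt
  refine le_of_tendsto h2 ?_
  filter_upwards [self_mem_nhdsWithin] with y hy
  exact h1 y hy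

theorem quantile_mem {u : ℝ} (hu : u ∈ Ioo (0:ℝ) 1) :
    quantile ω u ∈ {y | 0 < cdf ω y ∧ cdf ω y < 1} := by
  have h := hω.cdf_quantile hu
  exact ⟨by rw [h]; exact hu.1, by rw [h]; exact hu.2⟩

theorem quantile_cdf {y : ℝ} (hy : y ∈ {y | 0 < cdf ω y ∧ cdf ω y < 1}) :
    quantile ω (cdf ω y) = y := by
  have := hω.prob
  have h1 : quantile ω (cdf ω y) ≤ y := (quantile_le_iff ω hy.1 hy.2 y).2 le_rfl
  by_contra hne
  have h2 : quantile ω (cdf ω y) < y := lt_of_le_of_ne h1 hne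
  have h3 := hω.strict (hω.quantile_mem hy) hy h2
  rw [hω.cdf_quantile hy] at h3
  exact lt_irrefl _ h3

theorem quantile_strictMono : StrictMonoOn (quantile ω) (Ioo 0 1) := by
  have := hω.prob
  intro u hu v hv huv
  refine lt_of_le_of_ne (quantile_mono ω hu hv huv.le) fun h => ?_
  have := congrArg (cdf ω) h
  rw [hω.cdf_quantile hu, hω.cdf_quantile hv] at this
  linarith

theorem quantile_continuousAt {u : ℝ} (hu : u ∈ Ioo (0:ℝ) 1) : ContinuousAt (quantile ω) u := by
  have := hω.prob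
  rw [ContinuousAt, tendsto_order]
  constructor
  · intro x hx
    obtain ⟨v, hv0, hvu, hv⟩ := exists_lt_quantile ω hu.1 hu.2 hx
    filter_upwards [Ioo_mem_nhds hvu hu.2] with w hw
    exact hv w hw.1 hw.2
  · intro x hx
    -- pick z strictly between and use its cdf
    obtain ⟨z, hz1, hz2⟩ := exists_between hx
    have hz : u < cdf ω z := by
      rcases lt_or_ge (cdf ω z) 1 with h | h
      · have hz0 : 0 < cdf ω z := by
          have h3 := monotone_cdf ω hz1.le
          rw [hω.cdf_quantile hu] at h3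
          linarith [hu.1]
        have := hω.strict (hω.quantile_mem hu) ⟨hz0, h⟩ hz1
        rwa [hω.cdf_quantile hu] at this
      · linarith [hu.2]
    filter_upwards [Ioo_mem_nhds hu.1 (lt_min hz hu.2)] with w hw
    have hw1 : w < 1 := lt_of_lt_of_le hw.2 (min_le_right _ _)
    have hw2 : w < cdf ω z := lt_of_lt_of_le hw.2 (min_le_left _ _)
    have : quantile ω w ≤ z := (quantile_le_iff ω hw.1 hw1 z).2 hw2.le
    linarith

theorem ordConnected : OrdConnected {y | 0 < cdf ω y ∧ cdf ω y < 1} := by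
  refine ⟨fun x hx y hy z hz => ?_⟩
  exact ⟨hx.1.trans_le (monotone_cdf ω hz.1), (monotone_cdf ω hz.2).trans_lt hy.2⟩

theorem isOpen : IsOpen {y | 0 < cdf ω y ∧ cdf ω y < 1} :=
  (isOpen_lt continuous_const hω.cont).inter (isOpen_lt hω.cont continuous_const)

theorem convex : Convex ℝ {y | 0 < cdf ω y ∧ cdf ω y < 1} := hω.ordConnected.convex

/-- The law of `φ(Y)`. -/
theorem map_eq {φ : ℝ → ℝ} (hm : MonotoneOn φ {y | 0 < cdf ω y ∧ cdf ω y < 1}) :
    Measure.map φ ω = Measure.map (fun u => φ (quantile ω u)) unif := by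
  have := hω.prob
  conv_lhs => rw [← map_quantile ω]
  rw [AEMeasurable.map_map_of_aemeasurable _ (aemeasurable_quantile ω)]
  · rfl
  · rw [map_quantile ω]
    have h1 : AEMeasurable φ (ω.restrict {y | 0 < cdf ω y ∧ cdf ω y < 1}) :=
      aemeasurable_restrict_of_monotoneOn hω.isOpen.measurableSet hm
    have h2 : ω.restrict {y | 0 < cdf ω y ∧ cdf ω y < 1} = ω := by
      refine Measure.restrict_eq_self_of_ae_mem ?_
      have h3 : ∀ᵐ u ∂unif, quantile ω u ∈ {y | 0 < cdf ω y ∧ cdf ω y < 1} := by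
        filter_upwards [ae_unif_mem] with u hu using hω.quantile_mem hu
      have h4 := (ae_map_iff (aemeasurable_quantile ω)
        (hω.isOpen.measurableSet)).2 h3
      rwa [map_quantile ω] at h4
    rwa [h2] at h1

theorem comp_monotoneOn {φ : ℝ → ℝ} (hm : MonotoneOn φ {y | 0 < cdf ω y ∧ cdf ω y < 1}) :
    MonotoneOn (fun u => φ (quantile ω u)) (Ioo 0 1) := by
  have := hω.prob
  intro u hu v hv huv
  exact hm (hω.quantile_mem hu) (hω.quantile_mem hv) (quantile_mono ω hu hv huv)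

theorem comp_continuousAt {φ : ℝ → ℝ} (hc : ContinuousOn φ {y | 0 < cdf ω y ∧ cdf ω y < 1})
    {u : ℝ} (hu : u ∈ Ioo (0:ℝ) 1) : ContinuousAt (fun u => φ (quantile ω u)) u :=
  ContinuousAt.comp' (hc.continuousAt (hω.isOpen.mem_nhds (hω.quantile_mem hu)))
    (hω.quantile_continuousAt hu)

theorem quantile_map_comp {φ : ℝ → ℝ} (hm : MonotoneOn φ {y | 0 < cdf ω y ∧ cdf ω y < 1})
    (hc : ContinuousOn φ {y | 0 < cdf ω y ∧ cdf ω y < 1}) {u : ℝ} (hu : u ∈ Ioo (0:ℝ) 1) :
    quantile (Measure.map φ ω) u = φ (quantile ω u) := by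
  rw [hω.map_eq hm]
  refine quantile_map (h := fun u => φ (quantile ω u)) (hω.comp_monotoneOn hm) ?_ hu
  intro v hv x hx
  have h1 := (hω.comp_continuousAt hc hv).eventually (lt_mem_nhds hx)
  have h2 : ∀ᶠ w in 𝓝[<] v, x < φ (quantile ω w) := h1.filter_mono nhdsWithin_le_nhds
  have h3 : ∀ᶠ w in 𝓝[<] v, w ∈ Ioo 0 v := Ioo_mem_nhdsLT hv.1
  obtain ⟨w, hw1, hw2⟩ := (h2.and h3).exists
  exact ⟨w, hw2, hw1⟩

end Nice

end Pool.Agent.Lib.MP_c5814c_pr
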