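import Pool.Agent.Lib.MP_c5814c_pr.Base

namespace Pool.Agent.Lib.MP_c5814c_pr

open MeasureTheory ProbabilityTheory Set Filter
open scoped ENNReal Topology

theorem ordStat_le_iff {n : ℕ} (j : Fin n) (x : Fin n → ℝ) (t : ℝ) :
    ordStat j x ≤ t ↔ (j : ℕ) < (Finset.univ.filter fun i => x i ≤ t).card := by
  have h := Tuple.lt_card_le_iff_apply_le_of_monotone (j := j) (a := t) (Tuple.monotone_sort x)
  have h2 : (Finset.univ.filter fun i => (x ∘ Tuple.sort x) i ≤ t).card
      = (Finset.univ.filter fun i => x i ≤ t).card := by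
    refine Finset.card_bij (fun i _ => Tuple.sort x i) ?_ ?_ ?_
    · intro a ha
      simpa using ha
    · intro a _ b _ hab
      exact (Tuple.sort x).injective hab
    · intro b hb
      refine ⟨(Tuple.sort x).symm b, ?_, ?_⟩
      · simpa using hb
      · simp
  rw [h2] at h
  exact h.symm

theorem ordStat_comp {n : ℕ} (j : Fin n) (h : ℝ → ℝ) (s : Set ℝ) (hm : MonotoneOn h s)
    (x : Fin n → ℝ) (hx : ∀ i, x i ∈ s) :
    ordStat j (fun i => h (x i)) = h (ordStat j x) := by
  have h1 : Monotone ((fun i => h (x i)) ∘ Tuple.sort x) := by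
    intro a b hab
    exact hm (hx _) (hx _) (Tuple.monotone_sort x hab)
  have h2 := Tuple.unique_monotone h1 (Tuple.monotone_sort (fun i => h (x i)))
  have h3 := congrFun h2 j
  simp only [Function.comp] at h3
  exact h3.symm

theorem measurable_ordStat {n : ℕ} (j : Fin n) : Measurable (ordStat j : (Fin n → ℝ) → ℝ) := by
  refine measurable_of_Iic fun t => ?_
  have : ordStat j ⁻¹' Iic t = ⋃ S ∈ (Finset.univ : Finset (Finset (Fin n))).filter
      (fun S => (j : ℕ) < S.card), {x : Fin n → ℝ | ∀ i ∈ S, x i ≤ t} := by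
    ext x
    simp only [mem_preimage, mem_Iic, mem_iUnion, Finset.mem_filter, Finset.mem_univ, true_and,
      Set.mem_ofPred_eq, exists_prop]
    rw [ordStat_le_iff]
    constructor
    · intro h
      exact ⟨_, h, fun i hi => (Finset.mem_filter.1 hi).2⟩
    · rintro ⟨S, hS, hSx⟩
      refine lt_of_lt_of_le hS (Finset.card_le_card ?_)
      intro i hi
      exact Finset.mem_filter.2 ⟨Finset.mem_univ _, hSx i hi⟩
  rw [this]
  refine Finset.measurableSet_biUnion _ fun S _ => ?_
  have : {x : Fin n → ℝ | ∀ i ∈ S, x i ≤ t} = ⋂ i ∈ S, {x : Fin n → ℝ | x i ≤ t} := by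
    ext x; simp
  rw [this]
  exact Finset.measurableSet_biInter _ fun i _ => measurableSet_le (measurable_pi_apply i)
    measurable_const

theorem unif_Ioi {t : ℝ} (h0 : 0 ≤ t) (h1 : t ≤ 1) : unif (Ioi t) = ENNReal.ofReal (1 - t) := by
  have : Ioi t = (Iic t)ᶜ := by simp
  rw [this, prob_compl_eq_one_sub measurableSet_Iic, unif_Iic h0 h1,
    ENNReal.ofReal_sub _ h0, ENNReal.ofReal_one]

theorem pi_ordStat_le {n : ℕ} (j : Fin n) {t : ℝ} (h0 : 0 ≤ t) (h1 : t ≤ 1) :
    (Measure.pi fun _ : Fin n => unif) {x | ordStat j x ≤ t} = ENNReal.ofReal (cdfU n j t) := by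
  classical
  have hset : {x : Fin n → ℝ | ordStat j x ≤ t}
      = ⋃ S ∈ (Finset.univ : Finset (Finset (Fin n))).filter (fun S => (j : ℕ) < S.card),
        Set.pi univ (fun i => if i ∈ S then Iic t else Ioi t) := by
    ext x
    simp only [mem_iUnion, Finset.mem_filter, Finset.mem_univ, true_and,
      Set.mem_ofPred_eq, exists_prop, Set.mem_pi, mem_univ, forall_true_left]
    rw [ordStat_le_iff]
    constructor
    · intro h
      refine ⟨_, h, fun i => ?_⟩
      by_cases hi : x i ≤ t
      · simp [hi]
      · simp only [Finset.mem_filter, Finset.mem_univ, true_and, hi, if_false, mem_Ioi]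
        exact not_le.1 hi
    · rintro ⟨S, hS, hSx⟩
      refine lt_of_lt_of_le hS (Finset.card_le_card ?_)
      intro i hi
      have := hSx i
      rw [if_pos hi] at this
      exact Finset.mem_filter.2 ⟨Finset.mem_univ _, this⟩
  rw [hset, measure_biUnion_finset]
  · have hterm : ∀ S : Finset (Fin n), (Measure.pi fun _ : Fin n => unif)
        (Set.pi univ (fun i => if i ∈ S then Iic t else Ioi t))
        = ENNReal.ofReal (t ^ S.card * (1 - t) ^ (n - S.card)) := by
      intro S
      rw [Measure.pi_pi]
      have : ∀ i : Fin n, unif (if i ∈ S then Iic t else Ioi t)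
          = ENNReal.ofReal (if i ∈ S then t else 1 - t) := by
        intro i
        split_ifs
        · exact unif_Iic h0 h1
        · exact unif_Ioi h0 h1
      rw [Finset.prod_congr rfl fun i _ => this i,
        ← ENNReal.ofReal_prod_of_nonneg]
      · congr 1
        rw [Finset.prod_ite]
        simp only [Finset.prod_const]
        congr 2
        · congr 1; ext i; simp
        · have h3 : (Finset.univ.filter fun i => i ∉ S) = Sᶜ := by ext i; simp
          rw [h3, Finset.card_compl, Fintype.card_fin]
      · intro i _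
        split_ifs <;> linarith
    rw [Finset.sum_congr rfl fun S _ => hterm S,
      ← ENNReal.ofReal_sum_of_nonneg]
    · congr 1
      have h4 : ∑ S ∈ (Finset.univ : Finset (Finset (Fin n))).filter (fun S => (j : ℕ) < S.card),
          t ^ S.card * (1 - t) ^ (n - S.card)
          = ∑ S ∈ (Finset.univ : Finset (Fin n)).powerset,
            (fun m => if (j : ℕ) < m then t ^ m * (1 - t) ^ (n - m) else 0) S.card := by
        rw [Finset.powerset_univ, Finset.sum_filter]
      rw [h4, Finset.sum_powerset_apply_card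
        (fun m => if (j : ℕ) < m then t ^ m * (1 - t) ^ (n - m) else 0), cdfU, Finset.sum_filter]
      simp only [Finset.card_univ, Fintype.card_fin, nsmul_eq_mul]
      refine Finset.sum_congr rfl fun m _ => ?_
      split_ifs
      · ring
      · simp
    · intro S _
      have : 0 ≤ 1 - t := by linarith
      positivity
  · intro S _ T _ hST
    rw [Function.onFun, Set.disjoint_left]
    intro x hxS hxT
    apply hST
    ext i
    have h1 := hxS i (mem_univ i)
    have h2 := hxT i (mem_univ i)
    by_cases hi : i ∈ S <;> by_cases hi' : i ∈ T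
    · simp [hi, hi']
    · simp only [hi, hi', if_true, if_false, mem_Iic, mem_Ioi] at h1 h2; linarith
    · simp only [hi, hi', if_true, if_false, mem_Iic, mem_Ioi] at h1 h2; linarith
    · simp [hi, hi']
  · intro S _
    refine MeasurableSet.univ_pi fun i => ?_
    split_ifs
    · exact measurableSet_Iic
    · exact measurableSet_Ioi

theorem hasDerivAt_dist {n j : ℕ} (hj : j < n) (u : ℝ) :
    HasDerivAt (cdfU n j) (pdfU n j u) u := by
  obtain ⟨k, rfl⟩ : ∃ k, n = j + 1 + k := ⟨n - (j+1), by omega⟩
  have hdist : cdfU (j + 1 + k) j = fun u => ∑ i ∈ Finset.range (k + 1),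
      (bernsteinPolynomial ℝ (j + 1 + k) (j + i + 1)).eval u := by
    funext u
    have : (Finset.range (j + 1 + k + 1)).filter (fun i => j < i)
        = (Finset.range (k + 1)).map ⟨fun i => j + i + 1, fun a b h => by simpa using h⟩ := by
      ext i
      simp only [Finset.mem_filter, Finset.mem_range, Finset.mem_map, Function.Embedding.coeFn_mk]
      constructor
      · rintro ⟨h1, h2⟩
        exact ⟨i - j - 1, by omega, by omega⟩
      · rintro ⟨a, ha, rfl⟩
        omega
    rw [cdfU, this, Finset.sum_map]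
    refine Finset.sum_congr rfl fun i _ => ?_
    simp [bernsteinPolynomial]
  rw [hdist]
  have hsum : HasDerivAt (fun u => ∑ i ∈ Finset.range (k + 1),
      (bernsteinPolynomial ℝ (j + 1 + k) (j + i + 1)).eval u)
      (∑ i ∈ Finset.range (k + 1),
        (Polynomial.derivative (bernsteinPolynomial ℝ (j + 1 + k) (j + i + 1))).eval u) u :=
    HasDerivAt.fun_sum fun i _ => Polynomial.hasDerivAt _ u
  convert hsum using 1
  have h5 : ∀ i, (Polynomial.derivative (bernsteinPolynomial ℝ (j + 1 + k) (j + i + 1))).eval u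
      = ((j + 1 + k : ℕ) : ℝ) * ((bernsteinPolynomial ℝ (j + k) (j + i)).eval u
        - (bernsteinPolynomial ℝ (j + k) (j + (i + 1))).eval u) := by
    intro i
    rw [bernsteinPolynomial.derivative_succ]
    have : j + 1 + k - 1 = j + k := by omega
    rw [this]
    simp [add_assoc]
  rw [Finset.sum_congr rfl fun i _ => h5 i, ← Finset.mul_sum,
    Finset.sum_range_sub' (fun i => (bernsteinPolynomial ℝ (j + k) (j + i)).eval u)]
  have h6 : (bernsteinPolynomial ℝ (j + k) (j + (k + 1))) = 0 :=
    bernsteinPolynomial.eq_zero_of_lt _ (by omega)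
  rw [h6]
  have h7 : j + 1 + k - 1 = j + k := by omega
  simp only [pdfU, h7, bernsteinPolynomial, add_zero, Polynomial.eval_zero, sub_zero]
  simp
  ring

theorem dist_zero {n j : ℕ} : cdfU n j 0 = 0 := by
  rw [cdfU]
  refine Finset.sum_eq_zero fun i hi => ?_
  have : i ≠ 0 := by
    have := (Finset.mem_filter.1 hi).2; omega
  simp [this]

theorem dist_one {n j : ℕ} (hj : j < n) : cdfU n j 1 = 1 := by
  rw [cdfU, Finset.sum_eq_single n]
  · simp
  · intro i hi hin
    have : i < n + 1 := Finset.mem_range.1 (Finset.mem_filter.1 hi).1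
    have : n - i ≠ 0 := by omega
    simp [this]
  · intro h
    exact absurd (Finset.mem_filter.2 ⟨Finset.mem_range.2 (by omega), hj⟩) h

theorem continuous_dens (n j : ℕ) : Continuous (pdfU n j) := by
  unfold pdfU; fun_prop

theorem dens_nonneg (n j : ℕ) {u : ℝ} (h0 : 0 ≤ u) (h1 : u ≤ 1) : 0 ≤ pdfU n j u := by
  have : 0 ≤ 1 - u := by linarith
  unfold pdfU; positivity

theorem integral_dens {n j : ℕ} (hj : j < n) (a b : ℝ) :
    ∫ u in a..b, pdfU n j u = cdfU n j b - cdfU n j a :=
  intervalIntegral.integral_eq_sub_of_hasDerivAt (fun u _ => hasDerivAt_dist hj u)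
    ((continuous_dens n j).intervalIntegrable _ _)

end Pool.Agent.Lib.MP_c5814c_pr
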