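import Pool.Agent.Lib.MP_c5814c_pr.Free

/-!
The reference distribution function and concave transforms of its quantile function.
-/

set_option autoImplicit false

namespace Pool.Agent.Lib.QBias

open MeasureTheory ProbabilityTheory Set Filter Topology

noncomputable section

lemma IsRef.isDF {W : ℝ → ℝ} (hW : IsRef W) : IsDF W :=
  ⟨hW.mono, fun _ => hW.cont.continuousWithinAt, hW.bot, hW.top⟩

variable {W : ℝ → ℝ}

lemma isOpen_SW (hW : IsRef W) : IsOpen (SW W) := by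
  have : SW W = W ⁻¹' Ioo 0 1 := rfl
  rw [this]
  exact isOpen_Ioo.preimage hW.cont

lemma ordConnected_SW (hW : IsRef W) : OrdConnected (SW W) := by
  refine ⟨fun x hx y hy z hz => ?_⟩
  exact ⟨lt_of_lt_of_le hx.1 (hW.mono hz.1), lt_of_le_of_lt (hW.mono hz.2) hy.2⟩

lemma convex_SW (hW : IsRef W) : Convex ℝ (SW W) := (ordConnected_SW hW).convex

lemma W_qf (hW : IsRef W) {u : ℝ} (hu : u ∈ Ioo (0:ℝ) 1) : W (qf W u) = u := by
  have h1 : u ≤ W (qf W u) := (qf_le_iff hW.isDF hu _).1 le_rfl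
  refine le_antisymm ?_ h1
  by_contra hcon
  push Not at hcon
  have h2 : ∀ᶠ y in 𝓝[<] (qf W u), u < W y :=
    (hW.cont.continuousWithinAt (s := Iio (qf W u)) (x := qf W u)).eventually (lt_mem_nhds hcon)
  obtain ⟨y, hy1, hy2⟩ := (h2.and self_mem_nhdsWithin).exists
  have h3 := (qf_le_iff hW.isDF hu y).2 hy1.le
  have h4 : y < qf W u := hy2
  linarith

lemma qf_mem_SW (hW : IsRef W) {u : ℝ} (hu : u ∈ Ioo (0:ℝ) 1) : qf W u ∈ SW W := by
  unfold SW
  rw [Set.mem_ofPred_eq, W_qf hW hu]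
  exact hu

lemma W_mem {y : ℝ} (hy : y ∈ SW W) : W y ∈ Ioo (0:ℝ) 1 := hy

lemma qf_W (hW : IsRef W) {y : ℝ} (hy : y ∈ SW W) : qf W (W y) = y := by
  have h1 : qf W (W y) ≤ y := (qf_le_iff hW.isDF (W_mem hy) y).2 le_rfl
  rcases eq_or_lt_of_le h1 with h2 | h2
  · exact h2
  · have h3 := hW.strict (qf_mem_SW hW (W_mem hy)) hy h2
    rw [W_qf hW (W_mem hy)] at h3
    exact absurd h3 (lt_irrefl _)

lemma strictMonoOn_qf (hW : IsRef W) : StrictMonoOn (qf W) (Ioo 0 1) := by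
  intro u hu v hv huv
  refine lt_of_le_of_ne (monotoneOn_qf hW.isDF hu hv huv.le) fun h => ?_
  have h1 := W_qf hW hu
  rw [h, W_qf hW hv] at h1
  linarith

lemma lt_qf_iff (hW : IsRef W) {u : ℝ} (hu : u ∈ Ioo (0:ℝ) 1) (y : ℝ) : y < qf W u ↔ W y < u := by
  rw [← not_le, qf_le_iff hW.isDF hu, not_le]

lemma qf_lt_iff (hW : IsRef W) {u : ℝ} (hu : u ∈ Ioo (0:ℝ) 1) {y : ℝ} (hy : y ∈ SW W) :
    qf W u < y ↔ u < W y := by
  constructor
  · intro h
    have := hW.strict (qf_mem_SW hW hu) hy h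
    rwa [W_qf hW hu] at this
  · intro h
    have := strictMonoOn_qf hW hu (W_mem hy) h
    rwa [qf_W hW hy] at this

lemma continuousOn_qf (hW : IsRef W) : ContinuousOn (qf W) (Ioo 0 1) := by
  intro u hu
  refine ContinuousAt.continuousWithinAt ?_
  rw [Metric.continuousAt_iff]
  intro ε hε
  set y0 := qf W u with hy0
  have hy0S : y0 ∈ SW W := qf_mem_SW hW hu
  have hWy : W y0 = u := W_qf hW hu
  have h1 : W (y0 - ε / 2) < u := by
    rw [← lt_qf_iff hW hu]; rw [← hy0]; linarith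
  have h2 : u < W (y0 + ε / 2) := by
    rcases lt_or_eq_of_le (hW.mono (show y0 ≤ y0 + ε / 2 by linarith)) with h | h
    · rwa [hWy] at h
    · exfalso
      have h3 : y0 + ε / 2 ∈ SW W := by
        unfold SW; rw [Set.mem_ofPred_eq, ← h]; exact hy0S
      have := hW.strict hy0S h3 (by linarith)
      linarith
  obtain ⟨δ, hδ, hδ2⟩ : ∃ δ > 0, ∀ v, dist v u < δ → (W (y0 - ε / 2) < v ∧ v < W (y0 + ε / 2) ∧ v ∈ Ioo (0:ℝ) 1) := by
    have h3 : ∀ᶠ v in 𝓝 u, W (y0 - ε / 2) < v ∧ v < W (y0 + ε / 2) ∧ v ∈ Ioo (0:ℝ) 1 :=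
      (lt_mem_nhds h1).and ((gt_mem_nhds h2).and (Ioo_mem_nhds hu.1 hu.2))
    rw [Metric.eventually_nhds_iff] at h3
    obtain ⟨δ, hδ, h4⟩ := h3
    exact ⟨δ, hδ, fun v hv => h4 hv⟩
  refine ⟨δ, hδ, fun {v} hv => ?_⟩
  obtain ⟨h3, h4, h5⟩ := hδ2 v hv
  have h6 := (lt_qf_iff hW h5 _).2 h3
  have h7 := (qf_le_iff hW.isDF h5 _).2 h4.le
  rw [Real.dist_eq, abs_lt]
  constructor <;> linarith

/-! ### Supporting lines -/

lemma slope_four {S : Set ℝ} {φ : ℝ → ℝ} (hφ : ConcaveOn ℝ S φ) {a b c d : ℝ} (ha : a ∈ S)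
    (hd : d ∈ S) (hab : a < b) (hbc : b ≤ c) (hcd : c < d) :
    (φ d - φ c) / (d - c) ≤ (φ b - φ a) / (b - a) := by
  have hS : OrdConnected S := hφ.1.ordConnected
  have hb : b ∈ S := hS.out ha hd ⟨hab.le, hbc.trans hcd.le⟩
  have hc : c ∈ S := hS.out ha hd ⟨hab.le.trans hbc, hcd.le⟩
  rcases eq_or_lt_of_le hbc with h | h
  · subst h
    exact hφ.slope_anti_adjacent ha hd hab hcd
  · exact (hφ.slope_anti_adjacent hb hd h hcd).trans (hφ.slope_anti_adjacent ha hc hab h)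

lemma exists_support {S : Set ℝ} {φ : ℝ → ℝ} (hS : IsOpen S) (hφ : ConcaveOn ℝ S φ)
    (hm : MonotoneOn φ S) {y0 : ℝ} (hy0 : y0 ∈ S) :
    ∃ c : ℝ, 0 ≤ c ∧ (∀ y ∈ S, ∀ y' ∈ S, y ≤ y' → y' ≤ y0 → c * (y' - y) ≤ φ y' - φ y) ∧
      (∀ y ∈ S, ∀ y' ∈ S, y ≤ y' → y0 ≤ y → φ y' - φ y ≤ c * (y' - y)) := by
  obtain ⟨ε, hε, hball⟩ := Metric.isOpen_iff.1 hS y0 hy0
  have hr : y0 + ε / 2 ∈ S := hball (by rw [Metric.mem_ball, Real.dist_eq]; rw [abs_lt]; constructor <;> linarith)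
  have hl : y0 - ε / 2 ∈ S := hball (by rw [Metric.mem_ball, Real.dist_eq]; rw [abs_lt]; constructor <;> linarith)
  let T : Set ℝ := {s | ∃ y ∈ S, y0 < y ∧ s = (φ y - φ y0) / (y - y0)}
  have hTne : T.Nonempty := ⟨_, y0 + ε / 2, hr, by linarith, rfl⟩
  have hTb : BddAbove T := by
    refine ⟨(φ y0 - φ (y0 - ε / 2)) / (y0 - (y0 - ε / 2)), ?_⟩
    rintro s ⟨y, hy, hy1, rfl⟩
    exact slope_four hφ hl hy (by linarith) le_rfl hy1
  refine ⟨sSup T, ?_, ?_, ?_⟩
  · refine le_trans ?_ (le_csSup hTb ⟨y0 + ε / 2, hr, by linarith, rfl⟩)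
    refine div_nonneg ?_ (by linarith)
    have := hm hy0 hr (by linarith)
    linarith
  · intro y hy y' hy' hyy hy0'
    rcases eq_or_lt_of_le hyy with h | h
    · subst h; simp
    · have : sSup T ≤ (φ y' - φ y) / (y' - y) := by
        refine csSup_le hTne ?_
        rintro s ⟨z, hz, hz1, rfl⟩
        exact slope_four hφ hy hz h hy0' hz1
      rwa [le_div_iff₀ (by linarith)] at this
  · intro y hy y' hy' hyy hy0'
    rcases eq_or_lt_of_le hyy with h | h
    · subst h; simp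
    · have h1 : (φ y' - φ y) / (y' - y) ≤ sSup T := by
        rcases eq_or_lt_of_le hy0' with h2 | h2
        · subst h2
          exact le_csSup hTb ⟨y', hy', h, rfl⟩
        · exact (hφ.slope_anti_adjacent hy0 hy' h2 h).trans (le_csSup hTb ⟨y, hy, h2, rfl⟩)
      rwa [div_le_iff₀ (by linarith)] at h1

/-! ### Censored quantile functions -/

/-- The censored quantile function of `W`. -/
def zc (W : ℝ → ℝ) (t : ℝ) (u : ℝ) : ℝ := min (qf W u) t

/-- Finite negative second moment of the reference distribution. -/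
def NegSq (W : ℝ → ℝ) : Prop := MemLp (fun u => min (qf W u) 0) 2 uni

lemma monotoneOn_zc (hW : IsRef W) (t : ℝ) : MonotoneOn (zc W t) (Ioo 0 1) := fun _ hu _ hv huv =>
  min_le_min_right t (monotoneOn_qf hW.isDF hu hv huv)

lemma memLp_zc (hW : IsRef W) (h2 : NegSq W) (t : ℝ) : MemLp (zc W t) 2 uni := by
  have hm : AEMeasurable (zc W t) uni := aemeasurable_of_monotoneOn (monotoneOn_zc hW t)
  have hm0 : AEMeasurable (fun u => min (qf W u) 0) uni := by
    have := aemeasurable_of_monotoneOn (monotoneOn_zc hW 0)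
    exact this
  have h3 : MemLp (fun u => zc W t u - min (qf W u) 0) 2 uni := by
    refine MemLp.of_bound (hm.sub hm0).aestronglyMeasurable |t| ?_
    refine Eventually.of_forall fun u => ?_
    rw [Real.norm_eq_abs]
    unfold zc
    calc |min (qf W u) t - min (qf W u) 0| ≤ max |qf W u - qf W u| |t - 0| :=
          abs_min_sub_min_le_max _ _ _ _
      _ ≤ |t| := by simp
  have h4 := h3.add h2
  refine (memLp_congr_ae (Eventually.of_forall fun u => ?_)).1 h4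
  show zc W t u - min (qf W u) 0 + min (qf W u) 0 = zc W t u
  ring

/-- Mean of the censored reference variable. -/
def mC (W : ℝ → ℝ) (t : ℝ) : ℝ := ∫ u in Ioo (0:ℝ) 1, zc W t u

/-- Variance of the censored reference variable. -/
def vC (W : ℝ → ℝ) (t : ℝ) : ℝ := varU (zc W t)

/-- Bias numerator of the censored reference variable: `E min(Y_{j:n}, t) - W^{-1}(p)`. -/
def KC (W : ℝ → ℝ) (n j : ℕ) (p t : ℝ) : ℝ :=
  (∫ u in Ioo (0:ℝ) 1, zc W t u * fos n j u) - qf W p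

lemma int_zc_centered (hW : IsRef W) (h2 : NegSq W) (t : ℝ) :
    ∫ u in Ioo (0:ℝ) 1, (zc W t u - mC W t) = 0 := by
  have hz := memLp_zc hW h2 t
  have hi : IntegrableOn (zc W t) (Ioo 0 1) := hz.integrable (by norm_num)
  rw [integral_sub hi (integrable_const _), int_const_Ioo zero_le_one]
  unfold mC; ring

lemma vC_eq (hW : IsRef W) (h2 : NegSq W) (t : ℝ) :
    vC W t = ∫ u in Ioo (0:ℝ) 1, zc W t u * (zc W t u - mC W t) := by
  have hz := memLp_zc hW h2 t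
  have hz2 : MemLp (fun u => zc W t u - mC W t) 2 uni := hz.sub (memLp_const _)
  have := integral_mul_centered (μ := uni) hz hz2 (int_zc_centered hW h2 t)
  rw [← this]
  unfold vC varU mC
  congr 1; funext u; ring

lemma vC_pos (hW : IsRef W) (h2 : NegSq W) {t : ℝ} (ht : t ∈ SW W) : 0 < vC W t := by
  have hz := memLp_zc hW h2 t
  have hz2 : MemLp (fun u => zc W t u - mC W t) 2 uni := hz.sub (memLp_const _)
  have h0 : 0 ≤ vC W t := integral_nonneg fun u => sq_nonneg _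
  refine lt_of_le_of_ne h0 fun h => ?_
  have h1 : ∫ u in Ioo (0:ℝ) 1, (zc W t u - mC W t) ^ 2 = 0 := h.symm
  have h3 := (integral_eq_zero_iff_of_nonneg_ae (Eventually.of_forall fun u => sq_nonneg _)
    hz2.integrable_sq).1 h1
  have h4 : ∀ᵐ u ∂uni, zc W t u = mC W t := by
    filter_upwards [h3] with u hu
    have h5 : (zc W t u - mC W t) ^ 2 = 0 := hu
    have := pow_eq_zero_iff (two_ne_zero) |>.1 h5
    linarith
  rw [ae_restrict_iff' measurableSet_Ioo] at h4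
  -- two points in (0, W t)
  have hWt := W_mem ht
  have hpos : ∀ a b : ℝ, 0 ≤ a → a < b → b ≤ 1 → ∃ u ∈ Ioo a b, zc W t u = mC W t := by
    intro a b ha hab hb
    by_contra hcon
    push Not at hcon
    have h6 : ∀ᵐ u ∂(volume : Measure ℝ), u ∉ Ioo a b := by
      filter_upwards [h4] with u hu hu2
      exact hcon u hu2 (hu ⟨lt_of_le_of_lt ha hu2.1, lt_of_lt_of_le hu2.2 hb⟩)
    have h7 : volume (Ioo a b) = 0 := by
      have : (Ioo a b : Set ℝ) = {u | ¬ (u ∉ Ioo a b)} := by ext; simp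
      rw [this]; exact h6
    rw [Real.volume_Ioo] at h7
    simp at h7
    linarith
  obtain ⟨u1, hu1, e1⟩ := hpos 0 (W t / 2) le_rfl (by linarith [hWt.1]) (by linarith [hWt.2])
  obtain ⟨u2, hu2, e2⟩ := hpos (W t / 2) (W t) (by linarith [hWt.1]) (by linarith [hWt.1]) hWt.2.le
  have m1 : u1 ∈ Ioo (0:ℝ) 1 := ⟨hu1.1, by linarith [hu1.2, hWt.2]⟩
  have m2 : u2 ∈ Ioo (0:ℝ) 1 := ⟨by linarith [hu2.1, hWt.1], hu2.2.trans hWt.2⟩
  have l1 : qf W u1 < t := (qf_lt_iff hW m1 ht).2 (by linarith [hu1.2, hWt.1])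
  have l2 : qf W u2 < t := (qf_lt_iff hW m2 ht).2 hu2.2
  have h8 := strictMonoOn_qf hW m1 m2 (hu1.2.trans hu2.1)
  unfold zc at e1 e2
  rw [min_eq_left l1.le] at e1
  rw [min_eq_left l2.le] at e2
  linarith

end

end Pool.Agent.Lib.QBias
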