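import Pool.Agent.Lib.MP_c5814c_pr.Mg.G011

/-!
The uniform and the exponential reference laws satisfy the convex-concave condition.
-/

set_option autoImplicit false

namespace Pool.Agent.Lib.QBias

open MeasureTheory ProbabilityTheory Set Filter Topology

noncomputable section

lemma quad_neg {K B C m u v : ℝ} (hK : 0 ≤ K) (hm : K * m ^ 2 + B * m + C ≤ 0)
    (hv : K * v ^ 2 + B * v + C ≤ 0) (hmu : m ≤ u) (huv : u ≤ v) :
    K * u ^ 2 + B * u + C ≤ 0 := by
  rcases eq_or_lt_of_le (hmu.trans huv) with h | h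
  · have : u = m := le_antisymm (by rw [h]; exact huv) hmu
    rw [this]; exact hm
  · have e : (v - m) * (K * u ^ 2 + B * u + C) = (v - u) * (K * m ^ 2 + B * m + C) +
        (u - m) * (K * v ^ 2 + B * v + C) - K * ((u - m) * (v - u) * (v - m)) := by ring
    have h1 : (v - u) * (K * m ^ 2 + B * m + C) ≤ 0 :=
      mul_nonpos_of_nonneg_of_nonpos (by linarith) hm
    have h2 : (u - m) * (K * v ^ 2 + B * v + C) ≤ 0 :=
      mul_nonpos_of_nonneg_of_nonpos (by linarith) hv
    have h3 : 0 ≤ K * ((u - m) * (v - u) * (v - m)) :=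
      mul_nonneg hK (mul_nonneg (mul_nonneg (by linarith) (by linarith)) (by linarith))
    have h4 : (v - m) * (K * u ^ 2 + B * u + C) ≤ 0 := by rw [e]; linarith
    by_contra hcon
    push Not at hcon
    have := mul_pos (sub_pos.2 h) hcon
    linarith

lemma cvxcnc_of_quad {W : ℝ → ℝ} (hW : IsRef W) {n j : ℕ} {p : ℝ} (P : Par n j p) {K B C : ℝ}
    (hK : 0 ≤ K) (hm : K * md n j ^ 2 + B * md n j + C ≤ 0) {g1 g2 : ℝ → ℝ}
    (h1 : ∀ y ∈ SW W, HasDerivAt (gW W n j) (g1 y) y)
    (h2 : ∀ y ∈ SW W, HasDerivAt g1 (g2 y) y)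
    (hs : ∀ y ∈ SW W, ∃ c : ℝ, 0 ≤ c ∧ g2 y = -(c * (K * W y ^ 2 + B * W y + C))) :
    CvxCnc W n j p := by
  have hmd1 : md n j ≤ 1 := P.hp.trans P.hp1.le
  obtain ⟨s, hsm, hsg⟩ : ∃ s, IsGreatest {u : ℝ | u ∈ Icc (md n j) 1 ∧ K * u ^ 2 + B * u + C ≤ 0} s := by
    refine IsCompact.exists_isGreatest ?_ ⟨md n j, ⟨le_rfl, hmd1⟩, hm⟩
    have hc : ContinuousOn (fun u : ℝ => K * u ^ 2 + B * u + C) (Icc (md n j) 1) := by fun_prop
    have := hc.preimage_isClosed_of_isClosed isClosed_Icc (isClosed_Iic (a := (0:ℝ)))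
    exact isCompact_Icc.of_isClosed_subset this fun x hx => hx.1
  have hoc := ordConnected_SW hW
  refine ⟨s, ?_, ?_⟩
  · have hconv : Convex ℝ {y | y ∈ SW W ∧ md n j ≤ W y ∧ W y ≤ s} := by
      refine (OrdConnected.convex (𝕜 := ℝ) ⟨fun x hx y hy z hz => ?_⟩)
      exact ⟨hoc.out hx.1 hy.1 hz, hx.2.1.trans (hW.mono hz.1), (hW.mono hz.2).trans hy.2.2⟩
    refine convexOn_of_hasDerivWithinAt2_nonneg hconv (f' := g1) (f'' := g2)
      (fun y hy => (h1 y hy.1).continuousAt.continuousWithinAt)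
      (fun y hy => (h1 y (interior_subset hy).1).hasDerivWithinAt)
      (fun y hy => (h2 y (interior_subset hy).1).hasDerivWithinAt) (fun y hy => ?_)
    have hy' := interior_subset hy
    obtain ⟨c, hc, he⟩ := hs y hy'.1
    rw [he]
    have h3 := quad_neg hK hm hsm.2 hy'.2.1 hy'.2.2
    have := mul_nonpos_of_nonneg_of_nonpos hc h3
    linarith
  · have hconv : Convex ℝ {y | y ∈ SW W ∧ md n j ≤ W y ∧ s ≤ W y ∧ W y ≤ p} := by
      refine (OrdConnected.convex (𝕜 := ℝ) ⟨fun x hx y hy z hz => ?_⟩)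
      exact ⟨hoc.out hx.1 hy.1 hz, hx.2.1.trans (hW.mono hz.1), hx.2.2.1.trans (hW.mono hz.1),
        (hW.mono hz.2).trans hy.2.2.2⟩
    refine concaveOn_of_hasDerivWithinAt2_nonpos hconv (f' := g1) (f'' := g2)
      (fun y hy => (h1 y hy.1).continuousAt.continuousWithinAt)
      (fun y hy => (h1 y (interior_subset hy).1).hasDerivWithinAt)
      (fun y hy => (h2 y (interior_subset hy).1).hasDerivWithinAt) (fun y hy => ?_)
    have hy' := interior_subset hy
    obtain ⟨c, hc, he⟩ := hs y hy'.1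
    rw [he]
    -- `W y > s`
    obtain ⟨ε, hε, hball⟩ := Metric.isOpen_iff.1 isOpen_interior y hy
    have hz := interior_subset (hball (show y - ε / 2 ∈ Metric.ball y ε by
      rw [Metric.mem_ball, Real.dist_eq, abs_lt]; constructor <;> linarith))
    have hlt : s < W y := lt_of_le_of_lt hz.2.2.1 (hW.strict hz.1 hy'.1 (by linarith))
    have h3 : 0 ≤ K * W y ^ 2 + B * W y + C := by
      by_contra hcon
      push Not at hcon
      have := hsg (show W y ∈ {u : ℝ | u ∈ Icc (md n j) 1 ∧ K * u ^ 2 + B * u + C ≤ 0} from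
        ⟨⟨hy'.2.1, (W_mem hy'.1).2.le⟩, hcon.le⟩)
      linarith
    have := mul_nonneg hc h3
    linarith

lemma isRef_unifW : IsRef unifW := by
  have hval : ∀ y, 0 < unifW y → unifW y < 1 → unifW y = y := by
    intro y h1 h3
    unfold unifW at *
    rcases le_total y 1 with h | h
    · rw [min_eq_left h] at h1 h3 ⊢
      rcases le_total y 0 with h4 | h4
      · rw [max_eq_left h4] at h1; exact absurd h1 (lt_irrefl _)
      · exact max_eq_right h4
    · rw [min_eq_right h, max_eq_right zero_le_one] at h3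
      exact absurd h3 (lt_irrefl _)
  refine ⟨?_, ?_, ?_, ?_, ?_⟩
  · unfold unifW; fun_prop
  · intro x y hxy
    exact max_le_max_left 0 (min_le_min_right 1 hxy)
  · refine tendsto_const_nhds.congr' ?_
    filter_upwards [eventually_le_atBot (0:ℝ)] with y hy
    unfold unifW
    rw [min_eq_left (by linarith), max_eq_left hy]
  · refine tendsto_const_nhds.congr' ?_
    filter_upwards [eventually_ge_atTop (1:ℝ)] with y hy
    unfold unifW
    rw [min_eq_right hy, max_eq_right zero_le_one]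
  · intro x hx y hy hxy
    rw [hval x hx.1 hx.2, hval y hy.1 hy.2]; exact hxy

lemma unifW_mem {y : ℝ} (hy : y ∈ SW unifW) : y ∈ Ioo (0:ℝ) 1 := by
  obtain ⟨h1, h3⟩ := hy
  unfold unifW at h1 h3
  constructor
  · by_contra h
    push Not at h
    rw [min_eq_left (by linarith), max_eq_left h] at h1
    exact lt_irrefl _ h1
  · by_contra h
    push Not at h
    rw [min_eq_right h, max_eq_right zero_le_one] at h3
    exact lt_irrefl _ h3

lemma unifW_eq {y : ℝ} (hy : y ∈ Ioo (0:ℝ) 1) : unifW y = y := by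
  unfold unifW
  rw [min_eq_left hy.2.le, max_eq_right hy.1.le]

lemma expW_pos {y : ℝ} (hy : 0 ≤ y) : expW y = 1 - Real.exp (-y) := by
  unfold expW; rw [max_eq_left hy]

lemma expW_neg {y : ℝ} (hy : y ≤ 0) : expW y = 0 := by
  unfold expW; rw [max_eq_right hy]; simp

lemma isRef_expW : IsRef expW := by
  refine ⟨?_, ?_, ?_, ?_, ?_⟩
  · unfold expW; fun_prop
  · intro x y hxy
    unfold expW
    have : Real.exp (-(max y 0)) ≤ Real.exp (-(max x 0)) :=
      Real.exp_le_exp.2 (neg_le_neg (max_le_max_right 0 hxy))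
    linarith
  · refine tendsto_const_nhds.congr' ?_
    filter_upwards [eventually_le_atBot (0:ℝ)] with y hy
    exact (expW_neg hy).symm
  · have h1 : Tendsto (fun y : ℝ => 1 - Real.exp (-y)) atTop (𝓝 (1 - 0)) :=
      tendsto_const_nhds.sub (Real.tendsto_exp_neg_atTop_nhds_zero)
    rw [sub_zero] at h1
    refine h1.congr' ?_
    filter_upwards [eventually_ge_atTop (0:ℝ)] with y hy
    exact (expW_pos hy).symm
  · intro x hx y hy hxy
    have h1 : ∀ z, 0 < expW z → 0 < z := by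
      intro z hz
      by_contra h
      push Not at h
      rw [expW_neg h] at hz
      exact lt_irrefl _ hz
    rw [expW_pos (h1 x hx.1).le, expW_pos (h1 y hy.1).le]
    have : Real.exp (-y) < Real.exp (-x) := Real.exp_lt_exp.2 (by linarith)
    linarith

lemma expW_mem {y : ℝ} (hy : y ∈ SW expW) : 0 < y := by
  by_contra h
  push Not at h
  have := hy.1
  rw [expW_neg h] at this
  exact lt_irrefl _ this

lemma negSq_of_pos {W : ℝ → ℝ} (hW : IsRef W) (h : ∀ y ∈ SW W, 0 < y) : NegSq W := by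
  have h0 : MemLp (fun _ : ℝ => (0:ℝ)) 2 uni := memLp_const 0
  refine (memLp_congr_ae ?_).1 h0
  refine (ae_restrict_iff' measurableSet_Ioo).2 (Eventually.of_forall fun u hu => ?_)
  show (0:ℝ) = min (qf W u) 0
  rw [min_eq_right (h _ (qf_mem_SW hW hu)).le]

/-- The linear factor of the logarithmic derivative. -/
def lf (n j : ℕ) (u : ℝ) : ℝ := (j - 1 : ℕ) * (1 - u) - (n - j : ℕ) * u

lemma hasDerivAt_lf (n j : ℕ) (u : ℝ) :
    HasDerivAt (lf n j) (-(((j - 1 : ℕ) : ℝ) + ((n - j : ℕ) : ℝ))) u := by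
  have h1 : HasDerivAt (fun x : ℝ => ((j - 1 : ℕ) : ℝ) * (1 - x)) (((j - 1 : ℕ) : ℝ) * (-1)) u :=
    ((hasDerivAt_id u).const_sub 1).const_mul _
  have h2 : HasDerivAt (fun x : ℝ => ((n - j : ℕ) : ℝ) * x) (((n - j : ℕ) : ℝ) * 1) u :=
    (hasDerivAt_id u).const_mul _
  refine (h1.sub h2).congr_deriv ?_
  ring

lemma casts {n j : ℕ} {p : ℝ} (P : Par n j p) :
    ((j - 1 : ℕ) : ℝ) = (j : ℝ) - 1 ∧ ((n - j : ℕ) : ℝ) = (n : ℝ) - j ∧ (0 : ℝ) ≤ (j : ℝ) - 1 ∧
      (1 : ℝ) ≤ (n : ℝ) - 1 ∧ (j : ℝ) ≤ n := by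
  have h1 := P.hj
  have h2 := P.hn
  have h3 := P.hjn
  refine ⟨by push_cast [h1]; ring, by push_cast [h3]; ring, ?_, ?_, by exact_mod_cast h3⟩
  · have : (1 : ℝ) ≤ j := by exact_mod_cast h1
    linarith
  · have : (2 : ℝ) ≤ n := by exact_mod_cast h2
    linarith

lemma cvxcnc_unif {n j : ℕ} {p : ℝ} (P : Par n j p) : CvxCnc unifW n j p := by
  obtain ⟨c1, c2, c3, c4, c5⟩ := casts P
  set a : ℝ := (j : ℝ) - 1 with ha
  set m : ℝ := (n : ℝ) - 1 with hm
  have hm0 : m ≠ 0 := by linarith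
  refine cvxcnc_of_quad isRef_unifW P (K := m * (m - 1)) (B := -2 * a * (m - 1)) (C := a * (a - 1))
    (g1 := fun y => -(fos n j y * lf n j y / (y * (1 - y))))
    (g2 := fun y => -(fos n j y / (y * (1 - y)) ^ 2 *
      (m * (m - 1) * y ^ 2 + -2 * a * (m - 1) * y + a * (a - 1))))
    (mul_nonneg (by linarith) (by linarith)) ?_ ?_ ?_ ?_
  · have e : m * (m - 1) * md n j ^ 2 + -2 * a * (m - 1) * md n j + a * (a - 1) =
        a * (a - m) / m := by
      unfold md; rw [← ha, ← hm]; field_simp; ring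
    rw [e]
    refine div_nonpos_of_nonpos_of_nonneg (mul_nonpos_of_nonneg_of_nonpos c3 ?_) (by linarith)
    rw [ha, hm]; linarith
  · intro y hy
    have hy01 := unifW_mem hy
    have h1 := (hasDerivAt_fos n j hy01.1 hy01.2).neg
    refine h1.congr_of_eventuallyEq ?_
    filter_upwards [Ioo_mem_nhds hy01.1 hy01.2] with x hx
    show gW unifW n j x = -fos n j x
    unfold gW
    rw [unifW_eq hx]
  · intro y hy
    have hy01 := unifW_mem hy
    have hy1 : y ≠ 0 := hy01.1.ne'
    have hy2 : 1 - y ≠ 0 := by linarith [hy01.2]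
    have hd : HasDerivAt (fun x : ℝ => x * (1 - x)) (1 * (1 - y) + y * (-1)) y :=
      (hasDerivAt_id y).mul ((hasDerivAt_id y).const_sub 1)
    have hF := hasDerivAt_fos n j hy01.1 hy01.2
    have h3 := (((hF.mul (hasDerivAt_lf n j y)).div hd (mul_ne_zero hy1 hy2))).neg
    refine h3.congr_deriv ?_
    simp only [Pi.mul_apply]
    unfold lf
    rw [c1, c2]
    have e3 : (n : ℝ) - j = m - a := by rw [ha, hm]; ring
    rw [e3]
    field_simp
    ring
  · intro y hy
    have hy01 := unifW_mem hy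
    refine ⟨fos n j y / (y * (1 - y)) ^ 2, div_nonneg (fos_nonneg n j hy01.1.le hy01.2.le)
      (sq_nonneg _), ?_⟩
    rw [unifW_eq hy01]

lemma cvxcnc_exp {n j : ℕ} {p : ℝ} (P : Par n j p) : CvxCnc expW n j p := by
  obtain ⟨c1, c2, c3, c4, c5⟩ := casts P
  set a : ℝ := (j : ℝ) - 1 with ha
  set m : ℝ := (n : ℝ) - 1 with hm
  have hm0 : m ≠ 0 := by linarith
  have hder : ∀ y ∈ SW expW, HasDerivAt expW (1 - expW y) y := by
    intro y hy
    have hy0 := expW_mem hy
    have h1 : HasDerivAt (fun x : ℝ => 1 - Real.exp (-x)) (-(Real.exp (-y) * (-1))) y := by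
      have h3 : HasDerivAt (fun x : ℝ => -x) (-1) y := (hasDerivAt_id y).neg
      exact (h3.exp).const_sub 1
    rw [expW_pos hy0.le]
    have h4 : HasDerivAt expW (-(Real.exp (-y) * (-1))) y := by
      refine h1.congr_of_eventuallyEq ?_
      filter_upwards [lt_mem_nhds hy0] with x hx
      exact expW_pos hx.le
    refine h4.congr_deriv ?_
    ring
  refine cvxcnc_of_quad isRef_expW P (K := m ^ 2) (B := a - 2 * a * m) (C := a ^ 2 - a)
    (g1 := fun y => -(fos n j (expW y) * lf n j (expW y) / expW y))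
    (g2 := fun y => -(fos n j (expW y) / expW y ^ 2 *
      (m ^ 2 * expW y ^ 2 + (a - 2 * a * m) * expW y + (a ^ 2 - a))))
    (sq_nonneg _) ?_ ?_ ?_ ?_
  · have e : m ^ 2 * md n j ^ 2 + (a - 2 * a * m) * md n j + (a ^ 2 - a) =
        a * (a - m) / m := by
      unfold md; rw [← ha, ← hm]; field_simp; ring
    rw [e]
    refine div_nonpos_of_nonpos_of_nonneg (mul_nonpos_of_nonneg_of_nonpos c3 ?_) (by linarith)
    rw [ha, hm]; linarith
  · intro y hy
    have hu := W_mem hy
    have hF := (hasDerivAt_fos n j hu.1 hu.2).comp y (hder y hy)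
    refine (hF.neg).congr_deriv ?_
    have hy1 : expW y ≠ 0 := hu.1.ne'
    have hy2 : 1 - expW y ≠ 0 := by linarith [hu.2]
    unfold lf
    field_simp
  · intro y hy
    have hu := W_mem hy
    have hy1 : expW y ≠ 0 := hu.1.ne'
    have hy2 : 1 - expW y ≠ 0 := by linarith [hu.2]
    have hF := (hasDerivAt_fos n j hu.1 hu.2)
    have h3 := ((hF.mul (hasDerivAt_lf n j (expW y))).div (hasDerivAt_id (expW y)) hy1).comp y (hder y hy)
    refine (h3.neg).congr_deriv ?_
    simp only [Pi.mul_apply, id_eq]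
    unfold lf
    rw [c1, c2]
    have e3 : (n : ℝ) - j = m - a := by rw [ha, hm]; ring
    rw [e3]
    field_simp
    ring
  · intro y hy
    have hu := W_mem hy
    exact ⟨fos n j (expW y) / expW y ^ 2, div_nonneg (fos_nonneg n j hu.1.le hu.2.le)
      (sq_nonneg _), rfl⟩

/-- The convex families of the two reference laws are not empty. -/
lemma nonempty_unif_exp : (CFam unifW).Nonempty ∧ (CFam expW).Nonempty := by
  rw [conv_nonempty isRef_unifW, conv_nonempty isRef_expW]
  exact ⟨negSq_of_pos isRef_unifW fun y hy => (unifW_mem hy).1,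
    negSq_of_pos isRef_expW fun y hy => expW_mem hy⟩

end

end Pool.Agent.Lib.QBias
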