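import Pool.Agent.Lib.MP_c5814c_pr.Mg.G010

/-!
# Sharp bounds on the bias of order statistics as quantile estimates: dual star and convex orders

`W` is a continuous distribution function, strictly increasing on its support interval, `Y` has
distribution function `W`, and `(j - 1) / (n - 1) ≤ p < 1`.  The supremum and the infimum of the
normalised bias over `F ⪯_* W` and over `F ⪯_c W`, with the extremal laws.
-/

set_option autoImplicit false

namespace Pool.Agent.Lib.MP_c5814c_pr.SharpBoundsR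

open MeasureTheory ProbabilityTheory Set Filter Topology Pool.Agent.Lib.QBias

/-- Sharp upper and lower bounds on the bias over the dual star family and the dual convex
family. -/
theorem result {W : ℝ → ℝ} (hW : IsRef W) {n j : ℕ} {p : ℝ} (hn : 2 ≤ n) (hj : 1 ≤ j)
    (hjn : j ≤ n) (hp0 : 0 < p) (hp1 : p < 1) (hp : ((j : ℝ) - 1) / ((n : ℝ) - 1) ≤ p) :
    -- The star family (`a` finite).
    (BddBelow {y | 0 < W y} →
      -- upper bound
      (IsLUB (bias n j p '' StarFam W) ((1 - Fos n j p) / √(p * (1 - p))) ∧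
        (∀ μ ∈ StarFam W, bias n j p μ < (1 - Fos n j p) / √(p * (1 - p))) ∧
        Approached (StarFam W) n j p ((1 - Fos n j p) / √(p * (1 - p)))
          (fun u => if u ≤ p then 0 else 1)) ∧
      -- lower bound, first case
      (Fos n j p ≤ p * fos n j p →
        IsGLB (bias n j p '' StarFam W) (-(Fos n j p / √(p * (1 - p)))) ∧
        (∀ μ ∈ StarFam W, -(Fos n j p / √(p * (1 - p))) < bias n j p μ) ∧
        Approached (StarFam W) n j p (-(Fos n j p / √(p * (1 - p))))
          (fun u => if u ≤ p then 0 else 1)) ∧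
      -- lower bound, second case
      (p * fos n j p < Fos n j p →
        (∃ s : ℝ, ((j : ℝ) - 1) / ((n : ℝ) - 1) ≤ s ∧ s < p ∧ Fos n j s = s * fos n j s) ∧
        ∀ s : ℝ, ((j : ℝ) - 1) / ((n : ℝ) - 1) ≤ s → s < p → Fos n j s = s * fos n j s →
          IsGLB (bias n j p '' StarFam W) (-√(s * fos n j s ^ 2 + (∫ u in s..p, fos n j u ^ 2) +
            Fos n j p ^ 2 / (1 - p))) ∧
          (∀ μ ∈ StarFam W, -√(s * fos n j s ^ 2 + (∫ u in s..p, fos n j u ^ 2) +
            Fos n j p ^ 2 / (1 - p)) < bias n j p μ) ∧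
          Approached (StarFam W) n j p (-√(s * fos n j s ^ 2 + (∫ u in s..p, fos n j u ^ 2) +
            Fos n j p ^ 2 / (1 - p)))
            (fun u => if u ≤ p then -fos n j (max u s) else Fos n j p / (1 - p)))) ∧
    -- The convex family.
    ((CFam W).Nonempty ↔ MemLp (fun x : ℝ => min x 0) 2 (refLaw W)) ∧
    ((CFam W).Nonempty →
      -- upper bound, first case
      ((∀ v ∈ Ioo (0:ℝ) 1, meanOS n j (cut W v) ≤ qf W p) →
        IsLUB (bias n j p '' CFam W) 0 ∧
        Tendsto (fun v => bias n j p (cut W v)) (𝓝[>] 0) (𝓝 0) ∧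
        ∀ μ ∈ CFam W, bias n j p μ = 0 ↔
          MemLp id 2 (refLaw W) ∧ meanOS n j (refLaw W) = qf W p ∧
            ∃ b c : ℝ, 0 < c ∧ μ = (refLaw W).map (fun x => b + c * x)) ∧
      -- upper bound, second case
      ((∃ v ∈ Ioo (0:ℝ) 1, qf W p < meanOS n j (cut W v)) →
        ∃ v : ℝ,
          (∀ v' : ℝ, (v' ∈ Ioo p 1 ∧ qf W p < meanOS n j (cut W v') ∧
            (meanOS n j (cut W v') - qf W p) * (qf W v' - ∫ x, x ∂(cut W v')) * (1 - v') =
              var2 (cut W v') * (1 - Fos n j v')) ↔ v' = v) ∧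
          0 < bias n j p (cut W v) ∧
          IsGreatest (bias n j p '' CFam W) (bias n j p (cut W v)) ∧
          ∀ μ ∈ CFam W, bias n j p μ = bias n j p (cut W v) ↔
            ∃ b c : ℝ, 0 < c ∧ μ = (cut W v).map (fun x => b + c * x)) ∧
      -- lower bound: existence and uniqueness of the minimiser
      (∃ ν ∈ CFam W, bias n j p ν < 0 ∧ IsLeast (bias n j p '' CFam W) (bias n j p ν) ∧
        ∀ μ ∈ CFam W, bias n j p μ = bias n j p ν ↔
          ∃ b c : ℝ, 0 < c ∧ μ = ν.map (fun x => b + c * x)) ∧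
      -- lower bound: characterisation of the minimisers
      (∀ μ ∈ CFam W, IsLeast (bias n j p '' CFam W) (bias n j p μ) ↔
        ∀ v ∈ Ioc 0 p, 0 ≤ slack W n j p μ v) ∧
      -- lower bound: shape of the minimisers
      (∀ μ ∈ CFam W, IsLeast (bias n j p '' CFam W) (bias n j p μ) →
        slack W n j p μ p = 0 ∧
        (∃ s ∈ Ioo 0 p, ∃ α β : ℝ, 0 < β ∧
          ∀ u ∈ Ioo s 1, qf (cdf μ) u = α + β * min (qf W u) (qf W p)) ∧
        (∀ v ∈ Ioo 0 p, 0 < slack W n j p μ v →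
          ∃ ε > 0, ∃ α β : ℝ, ∀ u, |u - v| < ε → qf (cdf μ) u = α + β * qf W u) ∧
        (∀ v1 v2, 0 ≤ v1 → v2 ≤ p → (∀ v ∈ Ioo v1 v2, slack W n j p μ v = 0) →
          ∀ u ∈ Ioo v1 v2, bias n j p μ * (qf (cdf μ) u - ∫ x, x ∂μ) =
            √(var2 μ) * fos n j u)) ∧
      -- lower bound: closed form
      (Fos n j p ≤ p * fos n j p →
        IsLeast (bias n j p '' CFam W) (bias n j p (cut W p)))) := by
  have P : Par n j p := ⟨hn, hj, hjn, hp0, hp1, hp⟩
  refine ⟨fun hb => ⟨star_upper hW hb P, star_lower_flat hW hb P, fun hF => ⟨?_, fun s h1 h2 h3 =>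
    star_lower_interior hW hb P h1 h2 h3⟩⟩, conv_nonempty' hW, fun hne => ?_⟩
  · obtain ⟨s, hs⟩ := exists_SIn P hF
    exact ⟨s, hs.hms, hs.hsp, hs.hs⟩
  · have h2 : NegSq W := (conv_nonempty hW).1 hne
    obtain ⟨ν, h3, h4, h5, -, h6⟩ := (conv_inf' hW h2 P).1
    exact ⟨conv_sup_nonpos' hW h2 P, conv_sup_pos' hW h2 P, ⟨ν, h3, h4, h5, h6⟩,
      conv_inf_crit hW h2 P, conv_inf_shape hW h2 P, conv_inf_closed hW h2 P⟩

end Pool.Agent.Lib.MP_c5814c_pr.SharpBoundsR
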